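import Pool.Agent.QUA.Sd1

/-!
# QUA/Clo: closures

`cls g S i j z`: the smallest side (with the ends `i`, `j`) which contains `z`. `stp g i j x y`: if `x` is in the side, then `y` must be in the side (`j` is never forced, `i` forces nothing).
`bal_union`: the intersection of two sides (with the same `i`, `j`) is a side, so `insert j (A₁ ∩ A₂)` is connected (`side_cn`); scale the potentials so that they agree at `j`, then they agree on
`A₁ ∩ A₂` (`pot_unique`). There is no nonzero entry between `A₁ \ A₂` and `A₂ \ A₁`: otherwise `g x j ≠ 0` .. for `x ∈ A₁`, `y ∉ A₁`: `g x y * g i j = g x j * g i y` and for `y ∈ A₂`, `x ∉ A₂`: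
`g y x * g i j = g y j * g i x`, so `g i x ≠ 0`, `g i y ≠ 0`, `t x = t y` (both are different from `t i`), `g x y = 0`.
-/

set_option autoImplicit false

noncomputable section

namespace Pool.Agent.QUA

open Pool.Agent.FRM

variable {V : Type} [DecidableEq V] {t : V → Bool} {g : V → V → F4}

/-- `x` in the side forces `y` in the side -/
def stp (g : V → V → F4) (i j x y : V) : Prop := g x y * g i j ≠ g x j * g i y

open scoped Classical in
/-- the smallest side which contains `z` -/
def cls (g : V → V → F4) (S : Finset V) (i j z : V) : Finset V :=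
  S.filter fun y => y = i ∨ Relation.ReflTransGen (fun a b => b ∈ S ∧ stp g i j a b) z y

theorem cls_cl (hg : Hm t g) {S : Finset V} {i j z : V} (hi : i ∈ S) (hj : j ∈ S) (hz : z ∈ S) (hzj : z ≠ j) (hne : g i j ≠ 0) :
    Cl g S (cls g S i j z) i j ∧ z ∈ cls g S i j z := by
  classical
  have hij : j ≠ i := by
    rintro rfl
    exact hne (hg.bip _ _ rfl)
  refine ⟨⟨Finset.filter_subset _ _, ?_, hj, ?_, hne, ?_⟩, ?_⟩
  · exact Finset.mem_filter.2 ⟨hi, Or.inl rfl⟩
  · intro h
    rcases (Finset.mem_filter.1 h).2 with h | h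
    · exact hij h
    · rcases Relation.ReflTransGen.cases_tail h with h | ⟨c, _, _, h⟩
      · exact hzj h.symm
      · exact h rfl
  · intro x hx y hy hyn
    by_contra hst
    refine hyn (Finset.mem_filter.2 ⟨hy, ?_⟩)
    rcases (Finset.mem_filter.1 hx).2 with h | h
    · subst h
      exact absurd (mul_comm _ _) hst
    · exact Or.inr (h.tail ⟨hy, hst⟩)
  · exact Finset.mem_filter.2 ⟨hz, Or.inr Relation.ReflTransGen.refl⟩

theorem cls_min {S A : Finset V} {i j z : V} (h : Cl g S A i j) (hz : z ∈ A) : cls g S i j z ⊆ A := by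
  classical
  intro y hy
  obtain ⟨_, h1⟩ := Finset.mem_filter.1 hy
  rcases h1 with h1 | h1
  · rw [h1]
    exact h.hi
  · induction h1 with
    | refl => exact hz
    | @tail b c h2 h3 ih =>
      by_contra hc
      refine h3.2 (h.cl b ?_ c h3.1 hc)
      by_cases hb : b ∈ S
      · exact ih (Finset.mem_filter.2 ⟨hb, Or.inr h2⟩) hb
      · rcases Relation.ReflTransGen.cases_tail h2 with h4 | ⟨d, _, h4, _⟩
        · rw [h4]
          exact hz
        · exact absurd h4 hb

theorem bal_union (hg : Hm t g) {S A₁ A₂ : Finset V} {i j : V} (hC : Cn g S) (h1 : Cl g S A₁ i j) (h2 : Cl g S A₂ i j)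
    (hb1 : Bal g (insert j A₁)) (hb2 : Bal g (insert j A₂)) : Cl g S (A₁ ∪ A₂) i j ∧ Bal g (insert j (A₁ ∪ A₂)) := by
  have hU : Cl g S (A₁ ∪ A₂) i j := by
    refine ⟨Finset.union_subset h1.sub h2.sub, Finset.mem_union_left _ h1.hi, h1.hS, ?_, h1.ne, ?_⟩
    · intro h
      rcases Finset.mem_union.1 h with h | h
      · exact h1.hj h
      · exact h2.hj h
    · intro x hx y hy hyn
      have hy1 : y ∉ A₁ := fun h => hyn (Finset.mem_union_left _ h)
      have hy2 : y ∉ A₂ := fun h => hyn (Finset.mem_union_right _ h)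
      rcases Finset.mem_union.1 hx with h | h
      · exact h1.cl x h y hy hy1
      · exact h2.cl x h y hy hy2
  have hI : Cl g S (A₁ ∩ A₂) i j := by
    refine ⟨Finset.inter_subset_left.trans h1.sub, Finset.mem_inter.2 ⟨h1.hi, h2.hi⟩, h1.hS, ?_, h1.ne, ?_⟩
    · intro h
      exact h1.hj (Finset.mem_inter.1 h).1
    · intro x hx y hy hyn
      obtain ⟨hx1, hx2⟩ := Finset.mem_inter.1 hx
      by_cases hy1 : y ∈ A₁
      · exact h2.cl x hx2 y hy fun h => hyn (Finset.mem_inter.2 ⟨hy1, h⟩)
      · exact h1.cl x hx1 y hy hy1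
  have hCn := side_cn hg hC hI
  obtain ⟨p, hp, hpb⟩ := hb1
  obtain ⟨q, hq, hqb⟩ := hb2
  have hq' : ∀ x, q x * (p j * (q j)⁻¹) ≠ 0 := fun x =>
    mul_ne_zero (hq x) (mul_ne_zero (hp j) (inv_ne_zero (hq j)))
  have hqb' : ∀ x ∈ insert j A₂, ∀ y ∈ insert j A₂, g x y ≠ 0 →
      g x y = q x * (p j * (q j)⁻¹) * (q y * (p j * (q j)⁻¹))⁻¹ := by
    intro x hx y hy hxy
    rw [hqb x hx y hy hxy]
    have e1 := hp j
    have e2 := hq j
    have e3 := hq y
    field_simp
  have hqj : q j * (p j * (q j)⁻¹) = p j := by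
    have e2 := hq j
    field_simp
  have hag : ∀ x ∈ insert j (A₁ ∩ A₂), p x = q x * (p j * (q j)⁻¹) := by
    refine pot_unique (q := fun x => q x * (p j * (q j)⁻¹)) hCn hp hq' ?_ ?_ (Finset.mem_insert_self _ _) hqj.symm
    · intro x hx y hy
      exact hpb x (Finset.insert_subset_insert _ Finset.inter_subset_left hx) y
        (Finset.insert_subset_insert _ Finset.inter_subset_left hy)
    · intro x hx y hy
      exact hqb' x (Finset.insert_subset_insert _ Finset.inter_subset_right hx) y
        (Finset.insert_subset_insert _ Finset.inter_subset_right hy)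
  refine ⟨hU, fun x => if x ∈ A₁ then p x else q x * (p j * (q j)⁻¹), ?_, ?_⟩
  · intro x
    dsimp only
    split_ifs
    · exact hp x
    · exact hq' x
  · have k1 : ∀ x ∈ insert j A₁, (if x ∈ A₁ then p x else q x * (p j * (q j)⁻¹)) = p x := by
      intro x hx
      split_ifs with h
      · rfl
      · rcases Finset.mem_insert.1 hx with h3 | h3
        · rw [h3]
          exact hqj
        · exact absurd h3 h
    have k2 : ∀ x ∈ insert j A₂, (if x ∈ A₁ then p x else q x * (p j * (q j)⁻¹)) = q x * (p j * (q j)⁻¹) := by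
      intro x hx
      split_ifs with h
      · refine hag x ?_
        rcases Finset.mem_insert.1 hx with h3 | h3
        · exact absurd (h3 ▸ h) h1.hj
        · exact Finset.mem_insert_of_mem (Finset.mem_inter.2 ⟨h, h3⟩)
      · rfl
    have k0 : ∀ x ∈ A₁, x ∉ A₂ → ∀ y ∈ A₂, y ∉ A₁ → g x y = 0 := by
      intro x hx hxn y hy hyn
      by_contra hne
      have c1 := h1.cl x hx y (h2.sub hy) hyn
      have c2 := h2.cl y hy x (h1.sub hx) hxn
      have hne' : g y x ≠ 0 := by
        rw [hg.inv x y]
        exact inv_ne_zero hne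
      have d1 : g x j ≠ 0 := by
        intro h
        rw [h, zero_mul] at c1
        exact mul_ne_zero hne h1.ne c1
      have d2 : g y j ≠ 0 := by
        intro h
        rw [h, zero_mul] at c2
        exact mul_ne_zero hne' h1.ne c2
      have e1 : t x ≠ t j := fun h => d1 (hg.bip _ _ h)
      have e2 : t y ≠ t j := fun h => d2 (hg.bip _ _ h)
      have e3 : t x = t y := by
        revert e1 e2
        cases t x <;> cases t y <;> cases t j <;> simp
      exact hne (hg.bip _ _ e3)
    have main : ∀ x ∈ insert j (A₁ ∪ A₂), ∀ y ∈ insert j (A₁ ∪ A₂), g x y ≠ 0 →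
        (x ∈ insert j A₁ ∧ y ∈ insert j A₁) ∨ (x ∈ insert j A₂ ∧ y ∈ insert j A₂) := by
      intro x hx y hy hxy
      by_contra hcon
      rw [not_or] at hcon
      obtain ⟨n1, n2⟩ := hcon
      have a1 : x ∈ insert j A₁ ∨ x ∈ insert j A₂ := by
        rcases Finset.mem_insert.1 hx with h | h
        · exact Or.inl (h ▸ Finset.mem_insert_self _ _)
        · rcases Finset.mem_union.1 h with h | h
          · exact Or.inl (Finset.mem_insert_of_mem h)
          · exact Or.inr (Finset.mem_insert_of_mem h)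
      have a2 : y ∈ insert j A₁ ∨ y ∈ insert j A₂ := by
        rcases Finset.mem_insert.1 hy with h | h
        · exact Or.inl (h ▸ Finset.mem_insert_self _ _)
        · rcases Finset.mem_union.1 h with h | h
          · exact Or.inl (Finset.mem_insert_of_mem h)
          · exact Or.inr (Finset.mem_insert_of_mem h)
      have m1 : ∀ z, z ∈ insert j A₁ → z ∉ insert j A₂ → z ∈ A₁ ∧ z ∉ A₂ := by
        intro z hz hz'
        rw [Finset.mem_insert, not_or] at hz'
        rcases Finset.mem_insert.1 hz with h | h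
        · exact absurd h hz'.1
        · exact ⟨h, hz'.2⟩
      have m2 : ∀ z, z ∈ insert j A₂ → z ∉ insert j A₁ → z ∈ A₂ ∧ z ∉ A₁ := by
        intro z hz hz'
        rw [Finset.mem_insert, not_or] at hz'
        rcases Finset.mem_insert.1 hz with h | h
        · exact absurd h hz'.1
        · exact ⟨h, hz'.2⟩
      rcases a1 with a1 | a1
      · have b1 : y ∉ insert j A₁ := fun h => n1 ⟨a1, h⟩
        have b2 : y ∈ insert j A₂ := a2.resolve_left b1
        have b3 : x ∉ insert j A₂ := fun h => n2 ⟨h, b2⟩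
        obtain ⟨u1, u2⟩ := m1 x a1 b3
        obtain ⟨v1, v2⟩ := m2 y b2 b1
        exact hxy (k0 x u1 u2 y v1 v2)
      · have b1 : y ∉ insert j A₂ := fun h => n2 ⟨a1, h⟩
        have b2 : y ∈ insert j A₁ := a2.resolve_right b1
        have b3 : x ∉ insert j A₁ := fun h => n1 ⟨h, b2⟩
        obtain ⟨u1, u2⟩ := m2 x a1 b3
        obtain ⟨v1, v2⟩ := m1 y b2 b1
        have h0 := k0 y v1 v2 x u1 u2
        rw [hg.inv x y] at h0
        exact hxy (inv_eq_zero.1 h0)
    intro x hx y hy hxy
    dsimp only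
    rcases main x hx y hy hxy with ⟨c1, c2⟩ | ⟨c1, c2⟩
    · rw [k1 x c1, k1 y c2]
      exact hpb x c1 y c2 hxy
    · rw [k2 x c1, k2 y c2]
      exact hqb' x c1 y c2 hxy

/-- an unbalanced side contains an unbalanced closure of one element (induction over the elements of `A`, `bal_union`) -/
theorem cls_unb (hg : Hm t g) {S A : Finset V} {i j : V} (hC : Cn g S) (h : Cl g S A i j) (hU : ¬ Bal g (insert j A)) :
    ∃ z ∈ A, ¬ Bal g (insert j (cls g S i j z)) := by
  by_contra hcon
  push Not at hcon
  have key : ∀ B : Finset V, B ⊆ A → ∃ A', Cl g S A' i j ∧ B ⊆ A' ∧ A' ⊆ A ∧ Bal g (insert j A') := by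
    intro B
    induction B using Finset.induction_on with
    | empty =>
      intro _
      have hzj : i ≠ j := fun h0 => h.hj (h0 ▸ h.hi)
      exact ⟨cls g S i j i, (cls_cl hg (h.sub h.hi) h.hS (h.sub h.hi) hzj h.ne).1,
        Finset.empty_subset _, cls_min h h.hi, hcon i h.hi⟩
    | @insert z B hzB ih =>
      intro hB
      have hz : z ∈ A := hB (Finset.mem_insert_self _ _)
      obtain ⟨A', c1, c2, c3, c4⟩ := ih ((Finset.subset_insert _ _).trans hB)
      have hzj : z ≠ j := fun h0 => h.hj (h0 ▸ hz)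
      obtain ⟨d1, d2⟩ := cls_cl hg (h.sub h.hi) h.hS (h.sub hz) hzj h.ne
      obtain ⟨e1, e2⟩ := bal_union hg hC c1 d1 c4 (hcon z hz)
      refine ⟨A' ∪ cls g S i j z, e1, ?_, Finset.union_subset c3 (cls_min h hz), e2⟩
      exact Finset.insert_subset (Finset.mem_union_right _ d2) (c2.trans Finset.subset_union_left)
  obtain ⟨A', _, c2, c3, c4⟩ := key A (Finset.Subset.refl _)
  rw [Finset.Subset.antisymm c3 c2] at c4
  exact hU c4

end Pool.Agent.QUA
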