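import Pool.Agent.QUA.DefT
import Pool.Agent.QUA.Clo
import Pool.Agent.BEO.CompS

/-!
# QUA/Ac1: codes, connectivity test

`cnq_spec`: `comp_look` (BEO/CompS; `adj T V` is a list of pairs of elements of `V`): `cnn V (adj T V) x y` iff `x`, `y` are equivalent for the equivalence relation generated by `g x y ≠ 0` on `V`. If `cnq` is true and
`A ⊆ V.toFinset`, `A`, `V.toFinset \ A` nonempty without nonzero entries between them, then equivalent elements are in the same part, contradiction. Conversely let `A` be the class of `V.headD 0`.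
-/

set_option autoImplicit false

noncomputable section

namespace Pool.Agent.QUA

open Pool.Agent.FRM Pool.Agent.BEO

variable {T : Tb} {r : ℕ}

private theorem Ac1_f4_zero (a : ℕ) : f4 a = 0 ↔ a = 0 := by
  unfold f4
  constructor
  · intro h
    by_contra h0
    rw [if_neg h0] at h
    split_ifs at h
  · intro h
    rw [if_pos h]

theorem f4_inj {a b : ℕ} (ha : a < 4) (hb : b < 4) (h : f4 a = f4 b) : a = b := by
  interval_cases a <;> interval_cases b <;> first | rfl | (exact absurd h (by unfold f4; decide))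

theorem m4_spec {a b : ℕ} (ha : a < 4) (hb : b < 4) : m4 a b < 4 ∧ f4 (m4 a b) = f4 a * f4 b := by
  interval_cases a <;> interval_cases b <;> (unfold f4 m4; decide)

theorem i4_spec {a : ℕ} (ha : a < 4) : i4 a < 4 ∧ f4 (i4 a) = (f4 a)⁻¹ := by
  interval_cases a <;> (unfold f4 i4; decide)

theorem lk2_zero (hT : Tok T r) (x y : ℕ) : lk2 T x y = 0 ↔ gT T x y = 0 :=
  (Ac1_f4_zero _).symm

theorem stq_spec (hT : Tok T r) (i j x y : ℕ) : stq T i j x y = true ↔ stp (gT T) i j x y := by
  have h1 := m4_spec (hT.lt x y) (hT.lt i j)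
  have h2 := m4_spec (hT.lt x j) (hT.lt i y)
  unfold stq stp
  rw [Bool.not_eq_true', decide_eq_false_iff_not]
  refine not_congr ⟨fun h => ?_, fun h => ?_⟩
  · show f4 (lk2 T x y) * f4 (lk2 T i j) = f4 (lk2 T x j) * f4 (lk2 T i y)
    rw [← h1.2, ← h2.2, h]
  · refine f4_inj h1.1 h2.1 ?_
    rw [h1.2, h2.2]
    exact h

theorem mem_adj (hT : Tok T r) (V : List ℕ) (p : ℕ × ℕ) : p ∈ adj T V ↔ p.1 ∈ V ∧ p.2 ∈ V ∧ gT T p.1 p.2 ≠ 0 := by
  unfold adj
  rw [List.mem_flatMap]
  constructor
  · rintro ⟨x, hx, h⟩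
    obtain ⟨y, hy, rfl⟩ := List.mem_map.1 h
    obtain ⟨hy1, hy2⟩ := List.mem_filter.1 hy
    rw [Bool.not_eq_true', decide_eq_false_iff_not] at hy2
    exact ⟨hx, hy1, fun h0 => hy2 ((lk2_zero hT x y).2 h0)⟩
  · rintro ⟨h1, h2, h3⟩
    refine ⟨p.1, h1, List.mem_map.2 ⟨p.2, List.mem_filter.2 ⟨h2, ?_⟩, rfl⟩⟩
    rw [Bool.not_eq_true', decide_eq_false_iff_not]
    exact fun h0 => h3 ((lk2_zero hT _ _).1 h0)

/-- an element is in the same class as the others for the relation `g x y ≠ 0` -/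
theorem cnn_spec (hT : Tok T r) (V : List ℕ) {x y : ℕ} (hx : x ∈ V) (hy : y ∈ V) :
    cnn V (adj T V) x y = true ↔ Relation.EqvGen (fun a b => a ∈ V ∧ b ∈ V ∧ gT T a b ≠ 0) x y := by
  unfold cnn
  rw [decide_eq_true_iff, comp_look V (adj T V) (fun p hp => ⟨((mem_adj hT V p).1 hp).1, ((mem_adj hT V p).1 hp).2.1⟩) x y hx hy]
  have e : (fun a b => (a, b) ∈ adj T V) = fun a b => a ∈ V ∧ b ∈ V ∧ gT T a b ≠ 0 := by
    funext a b
    exact propext (mem_adj hT V (a, b))
  rw [e]

theorem cnq_spec (hT : Tok T r) (V : List ℕ) : cnq T V = true ↔ Cn (gT T) V.toFinset := by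
  rcases V with _ | ⟨v, V'⟩
  · constructor
    · intro _ A hA hAn _
      obtain ⟨x, hx⟩ := hAn
      exact absurd (hA hx) (by simp)
    · intro _
      rfl
  · have hv : v ∈ v :: V' := List.mem_cons_self
    have hhd : (v :: V').headD 0 = v := rfl
    generalize v :: V' = V at hv hhd
    unfold cnq
    rw [hhd, List.all_eq_true]
    constructor
    · intro h A hA hAn hBn
      by_contra hcon
      push Not at hcon
      have key : ∀ x y, Relation.EqvGen (fun a b => a ∈ V ∧ b ∈ V ∧ gT T a b ≠ 0) x y → (x ∈ A ↔ y ∈ A) := by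
        intro x y hxy
        induction hxy with
        | rel a b hab =>
          obtain ⟨ha, hb, hab⟩ := hab
          have hba : gT T b a ≠ 0 := by
            rw [hT.hm.inv a b]
            exact inv_ne_zero hab
          constructor
          · intro h1
            by_contra h2
            exact hab (hcon a h1 b (Finset.mem_sdiff.2 ⟨List.mem_toFinset.2 hb, h2⟩))
          · intro h1
            by_contra h2
            exact hba (hcon b h1 a (Finset.mem_sdiff.2 ⟨List.mem_toFinset.2 ha, h2⟩))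
        | refl a => exact Iff.rfl
        | symm a b _ ih => exact ih.symm
        | trans a b c _ _ ih1 ih2 => exact ih1.trans ih2
      obtain ⟨a, ha⟩ := hAn
      obtain ⟨b, hb⟩ := hBn
      obtain ⟨hb1, hb2⟩ := Finset.mem_sdiff.1 hb
      have haV : a ∈ V := List.mem_toFinset.1 (hA ha)
      have hbV : b ∈ V := List.mem_toFinset.1 hb1
      have e1 := key a v ((cnn_spec hT V haV hv).1 (h a haV))
      have e2 := key b v ((cnn_spec hT V hbV hv).1 (h b hbV))
      exact hb2 (e2.2 (e1.1 ha))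
    · intro h x hx
      by_contra hxv
      classical
      have hxn : ¬ Relation.EqvGen (fun a b => a ∈ V ∧ b ∈ V ∧ gT T a b ≠ 0) x v := fun h1 =>
        hxv ((cnn_spec hT V hx hv).2 h1)
      obtain ⟨a, ha, b, hb, hab⟩ := h
        (V.toFinset.filter fun y => Relation.EqvGen (fun a b => a ∈ V ∧ b ∈ V ∧ gT T a b ≠ 0) y v)
        (Finset.filter_subset _ _)
        ⟨v, Finset.mem_filter.2 ⟨List.mem_toFinset.2 hv, Relation.EqvGen.refl _⟩⟩
        ⟨x, Finset.mem_sdiff.2 ⟨List.mem_toFinset.2 hx, fun h1 => hxn (Finset.mem_filter.1 h1).2⟩⟩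
      obtain ⟨ha1, ha2⟩ := Finset.mem_filter.1 ha
      obtain ⟨hb1, hb2⟩ := Finset.mem_sdiff.1 hb
      refine hb2 (Finset.mem_filter.2 ⟨hb1, ?_⟩)
      exact Relation.EqvGen.trans _ _ _ (Relation.EqvGen.symm _ _
        (Relation.EqvGen.rel _ _ ⟨List.mem_toFinset.1 ha1, List.mem_toFinset.1 hb1, hab⟩)) ha2

end Pool.Agent.QUA
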