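import Pool.Agent.QUA.Ac1

/-!
# QUA/Ac2: the test for balanced sets

Points `(x, k)`, `x ∈ V`, `k < 3`; edges `(x, k) - (y, k - (c - 1))` (modulo three) for `g x y` with the code `c ≠ 0`, that is, `fz k * (fz k')⁻¹ = g x y`. Let `~` be the equivalence relation generated by the edges (`comp_look`); it is invariant under
the shift `k ↦ k + 1`.
If `Bal` with the potential `p`, then `fz k * (p x)⁻¹` is constant on the classes, so `(x, 0) ~ (x, 1)` is impossible. Conversely assume that no `(x, 0) ~ (x, 1)`; then `(x, k) ~ (x, k')` only for `k = k'` (shift). Choose in every class of the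
relation `g x y ≠ 0` on `V` a base point `b`; for `x` in the class there is exactly one `k` with `(x, k) ~ (b, 0)` (lift a path); `p x := fz k` is a potential (`p x := 1` outside `V`).
-/

set_option autoImplicit false

noncomputable section

namespace Pool.Agent.QUA

open Pool.Agent.FRM Pool.Agent.BEO

variable {T : Tb} {r : ℕ}

private theorem Ac2_sh {c k : ℕ} (hc : c < 4) (hc0 : c ≠ 0) (hk : k < 3) :
    sh c k < 3 ∧ f4 (k + 1) = f4 c * f4 (sh c k + 1) := by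
  unfold f4 sh
  interval_cases c <;> interval_cases k <;> first | exact absurd rfl hc0 | decide

private theorem Ac2_shu {c k k' : ℕ} (hc : c < 4) (hc0 : c ≠ 0) (hk : k < 3) (hk' : k' < 3)
    (h : f4 (k + 1) = f4 c * f4 (k' + 1)) : k' = sh c k := by
  revert h
  unfold f4 sh
  interval_cases c <;> interval_cases k <;> interval_cases k' <;> first | exact absurd rfl hc0 | decide

private theorem Ac2_f4 {k : ℕ} (hk : k < 3) : f4 (k + 1) ≠ 0 := by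
  unfold f4
  interval_cases k <;> decide

private theorem Ac2_f4s {k : ℕ} (hk : k < 3) : f4 ((k + 1) % 3 + 1) = F4.w * f4 (k + 1) := by
  unfold f4
  interval_cases k <;> decide

private theorem Ac2_mem (hT : Tok T r) (V : List ℕ) (x k y k' : ℕ) :
    ((x, k), (y, k')) ∈ ad3 T V ↔
      (x ∈ V ∧ y ∈ V ∧ gT T x y ≠ 0) ∧ k < 3 ∧ k' < 3 ∧ f4 (k + 1) = gT T x y * f4 (k' + 1) := by
  have key : ((x, k), (y, k')) ∈ ad3 T V ↔ (x, y) ∈ adj T V ∧ k < 3 ∧ k' = sh (lk2 T x y) k := by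
    unfold ad3
    rw [List.mem_flatMap]
    constructor
    · rintro ⟨⟨a, b⟩, h1, h2⟩
      simp only [List.mem_cons, List.not_mem_nil, or_false, Prod.mk.injEq] at h2
      rcases h2 with ⟨⟨rfl, rfl⟩, rfl, rfl⟩ | ⟨⟨rfl, rfl⟩, rfl, rfl⟩ | ⟨⟨rfl, rfl⟩, rfl, rfl⟩
      · exact ⟨h1, by decide, rfl⟩
      · exact ⟨h1, by decide, rfl⟩
      · exact ⟨h1, by decide, rfl⟩
    · rintro ⟨h1, hk, rfl⟩
      refine ⟨(x, y), h1, ?_⟩
      interval_cases k
      · exact List.Mem.head _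
      · exact List.Mem.tail _ (List.Mem.head _)
      · exact List.Mem.tail _ (List.Mem.tail _ (List.Mem.head _))
  rw [key, mem_adj hT]
  constructor
  · rintro ⟨⟨hx, hy, hg⟩, hk, rfl⟩
    have hc0 : lk2 T x y ≠ 0 := fun h => hg ((lk2_zero hT x y).1 h)
    obtain ⟨h1, h2⟩ := Ac2_sh (hT.lt x y) hc0 hk
    exact ⟨⟨hx, hy, hg⟩, hk, h1, h2⟩
  · rintro ⟨⟨hx, hy, hg⟩, hk, hk', h⟩
    have hc0 : lk2 T x y ≠ 0 := fun h => hg ((lk2_zero hT x y).1 h)
    exact ⟨⟨hx, hy, hg⟩, hk, Ac2_shu (hT.lt x y) hc0 hk hk' h⟩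

private theorem Ac2_V3 (V : List ℕ) {x k : ℕ} (hx : x ∈ V) (hk : k < 3) : (x, k) ∈ V3 V := by
  unfold V3
  rw [List.mem_flatMap]
  refine ⟨x, hx, ?_⟩
  interval_cases k <;> simp

private theorem Ac2_cnn (hT : Tok T r) (V : List ℕ) {x : ℕ} (hx : x ∈ V) :
    cnn (V3 V) (ad3 T V) (x, 0) (x, 1) = true ↔ Relation.EqvGen (fun a b => (a, b) ∈ ad3 T V) (x, 0) (x, 1) := by
  unfold cnn
  rw [decide_eq_true_iff]
  refine comp_look (V3 V) (ad3 T V) ?_ _ _ (Ac2_V3 V hx (by decide)) (Ac2_V3 V hx (by decide))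
  rintro ⟨⟨a, k⟩, ⟨b, k'⟩⟩ h
  obtain ⟨⟨h1, h2, -⟩, hk, hk', -⟩ := (Ac2_mem hT V a k b k').1 h
  exact ⟨Ac2_V3 V h1 hk, Ac2_V3 V h2 hk'⟩

private theorem Ac2_shift (hT : Tok T r) (V : List ℕ) {a b : ℕ × ℕ}
    (h : Relation.EqvGen (fun a b => (a, b) ∈ ad3 T V) a b) :
    Relation.EqvGen (fun a b => (a, b) ∈ ad3 T V) (a.1, (a.2 + 1) % 3) (b.1, (b.2 + 1) % 3) := by
  induction h with
  | rel a b hab =>
    obtain ⟨x, k⟩ := a
    obtain ⟨y, k'⟩ := b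
    refine Relation.EqvGen.rel _ _ ?_
    obtain ⟨h1, hk, hk', h2⟩ := (Ac2_mem hT V x k y k').1 hab
    refine (Ac2_mem hT V x _ y _).2 ⟨h1, Nat.mod_lt _ (by decide), Nat.mod_lt _ (by decide), ?_⟩
    show f4 ((k + 1) % 3 + 1) = gT T x y * f4 ((k' + 1) % 3 + 1)
    rw [Ac2_f4s hk, Ac2_f4s hk', h2, mul_left_comm]
  | refl a => exact Relation.EqvGen.refl _
  | symm a b _ ih => exact Relation.EqvGen.symm _ _ ih
  | trans a b c _ _ ih1 ih2 => exact Relation.EqvGen.trans _ _ _ ih1 ih2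

private theorem Ac2_inj (hT : Tok T r) (V : List ℕ) {x : ℕ}
    (h0 : ¬ Relation.EqvGen (fun a b => (a, b) ∈ ad3 T V) (x, 0) (x, 1)) {k k' : ℕ} (hk : k < 3) (hk' : k' < 3)
    (h : Relation.EqvGen (fun a b => (a, b) ∈ ad3 T V) (x, k) (x, k')) : k = k' := by
  have h1 : Relation.EqvGen (fun a b => (a, b) ∈ ad3 T V) (x, (k + 1) % 3) (x, (k' + 1) % 3) := Ac2_shift hT V h
  have h2 : Relation.EqvGen (fun a b => (a, b) ∈ ad3 T V) (x, ((k + 1) % 3 + 1) % 3) (x, ((k' + 1) % 3 + 1) % 3) :=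
    Ac2_shift hT V h1
  have h' := Relation.EqvGen.symm _ _ h
  have h1' := Relation.EqvGen.symm _ _ h1
  have h2' := Relation.EqvGen.symm _ _ h2
  interval_cases k <;> interval_cases k' <;>
    first
    | rfl
    | exact absurd h h0
    | exact absurd h' h0
    | exact absurd h1 h0
    | exact absurd h1' h0
    | exact absurd h2 h0
    | exact absurd h2' h0

private theorem Ac2_dir (hT : Tok T r) (V : List ℕ) {x y : ℕ} (hx : x ∈ V) (hy : y ∈ V) (hg : gT T x y ≠ 0)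
    {k : ℕ} (hk : k < 3) : ∃ k', k' < 3 ∧ ((x, k), (y, k')) ∈ ad3 T V := by
  have hc0 : lk2 T x y ≠ 0 := fun h => hg ((lk2_zero hT x y).1 h)
  obtain ⟨h1, h2⟩ := Ac2_sh (hT.lt x y) hc0 hk
  exact ⟨_, h1, (Ac2_mem hT V x k y _).2 ⟨⟨hx, hy, hg⟩, hk, h1, h2⟩⟩

private theorem Ac2_lift (hT : Tok T r) (V : List ℕ) {x y : ℕ}
    (h : Relation.EqvGen (fun a b => a ∈ V ∧ b ∈ V ∧ gT T a b ≠ 0) x y) :
    (∀ k, k < 3 → ∃ k', k' < 3 ∧ Relation.EqvGen (fun a b => (a, b) ∈ ad3 T V) (x, k) (y, k')) ∧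
      ∀ k, k < 3 → ∃ k', k' < 3 ∧ Relation.EqvGen (fun a b => (a, b) ∈ ad3 T V) (y, k) (x, k') := by
  induction h with
  | rel a b hab =>
    obtain ⟨ha, hb, hg⟩ := hab
    have hg' : gT T b a ≠ 0 := by
      rw [hT.hm.inv a b]
      exact inv_ne_zero hg
    constructor
    · intro k hk
      obtain ⟨k', h1, h2⟩ := Ac2_dir hT V ha hb hg hk
      exact ⟨k', h1, Relation.EqvGen.rel _ _ h2⟩
    · intro k hk
      obtain ⟨k', h1, h2⟩ := Ac2_dir hT V hb ha hg' hk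
      exact ⟨k', h1, Relation.EqvGen.rel _ _ h2⟩
  | refl a => exact ⟨fun k hk => ⟨k, hk, Relation.EqvGen.refl _⟩, fun k hk => ⟨k, hk, Relation.EqvGen.refl _⟩⟩
  | symm a b _ ih => exact ⟨ih.2, ih.1⟩
  | trans a b c _ _ ih1 ih2 =>
    constructor
    · intro k hk
      obtain ⟨k1, h1, e1⟩ := ih1.1 k hk
      obtain ⟨k2, h2, e2⟩ := ih2.1 k1 h1
      exact ⟨k2, h2, Relation.EqvGen.trans _ _ _ e1 e2⟩
    · intro k hk
      obtain ⟨k1, h1, e1⟩ := ih2.2 k hk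
      obtain ⟨k2, h2, e2⟩ := ih1.2 k1 h1
      exact ⟨k2, h2, Relation.EqvGen.trans _ _ _ e1 e2⟩

private theorem Ac2_inv (hT : Tok T r) (V : List ℕ) {p : ℕ → F4} (hp : ∀ x, p x ≠ 0)
    (hb : ∀ x ∈ V.toFinset, ∀ y ∈ V.toFinset, gT T x y ≠ 0 → gT T x y = p x * (p y)⁻¹) {a b : ℕ × ℕ}
    (h : Relation.EqvGen (fun a b => (a, b) ∈ ad3 T V) a b) :
    f4 (a.2 + 1) * (p a.1)⁻¹ = f4 (b.2 + 1) * (p b.1)⁻¹ := by
  induction h with
  | rel a b hab =>
    obtain ⟨x, k⟩ := a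
    obtain ⟨y, k'⟩ := b
    obtain ⟨⟨hx, hy, hg⟩, hk, hk', h2⟩ := (Ac2_mem hT V x k y k').1 hab
    show f4 (k + 1) * (p x)⁻¹ = f4 (k' + 1) * (p y)⁻¹
    rw [h2, hb x (List.mem_toFinset.2 hx) y (List.mem_toFinset.2 hy) hg]
    have h3 := hp x
    have h4 := hp y
    field_simp
  | refl a => rfl
  | symm a b _ ih => exact ih.symm
  | trans a b c _ _ ih1 ih2 => exact ih1.trans ih2

theorem blq_spec (hT : Tok T r) (V : List ℕ) : blq T V = true ↔ Bal (gT T) V.toFinset := by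
  have h0 : blq T V = true ↔
      ∀ x ∈ V, ¬ Relation.EqvGen (fun a b => (a, b) ∈ ad3 T V) (x, 0) (x, 1) := by
    unfold blq
    rw [List.all_eq_true]
    refine forall₂_congr fun x hx => ?_
    rw [Bool.not_eq_true', ← Ac2_cnn hT V hx, Bool.not_eq_true]
  rw [h0]
  constructor
  · intro h
    have hb : ∀ x : ℕ, Relation.EqvGen (fun a b => a ∈ V ∧ b ∈ V ∧ gT T a b ≠ 0)
        (Quot.mk (fun a b => a ∈ V ∧ b ∈ V ∧ gT T a b ≠ 0) x).out x := fun x =>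
      Quot.eqvGen_exact (Quot.out_eq _)
    choose κ hκ hκe using fun x => (Ac2_lift hT V (hb x)).1 0 (by decide)
    refine ⟨fun x => f4 (κ x + 1), fun x => Ac2_f4 (hκ x), ?_⟩
    intro x hx y hy hg
    have hx' := List.mem_toFinset.1 hx
    have hy' := List.mem_toFinset.1 hy
    have hq : Quot.mk (fun a b => a ∈ V ∧ b ∈ V ∧ gT T a b ≠ 0) x = Quot.mk (fun a b => a ∈ V ∧ b ∈ V ∧ gT T a b ≠ 0) y :=
      Quot.sound ⟨hx', hy', hg⟩
    obtain ⟨k', h1, h2⟩ := Ac2_dir hT V hx' hy' hg (hκ x)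
    have e1 := hκe x
    have e2 := hκe y
    rw [hq] at e1
    have e3 : Relation.EqvGen (fun a b => (a, b) ∈ ad3 T V) (y, k') (y, κ y) :=
      Relation.EqvGen.trans _ _ _ (Relation.EqvGen.symm _ _ (Relation.EqvGen.trans _ _ _ e1 (Relation.EqvGen.rel _ _ h2))) e2
    have e4 := Ac2_inj hT V (h y hy') h1 (hκ y) e3
    obtain ⟨-, -, -, h5⟩ := (Ac2_mem hT V x (κ x) y k').1 h2
    show gT T x y = f4 (κ x + 1) * (f4 (κ y + 1))⁻¹
    rw [h5, e4, mul_assoc, mul_inv_cancel₀ (Ac2_f4 (hκ y)), mul_one]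
  · rintro ⟨p, hp, hb⟩ x hx h
    have h1 := Ac2_inv hT V hp hb h
    have h2 : f4 (0 + 1) = f4 (1 + 1) := mul_right_cancel₀ (inv_ne_zero (hp x)) h1
    revert h2
    unfold f4
    decide

end Pool.Agent.QUA
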