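import Pool.Agent.QUA.Ac1

/-!
# QUA/Ac3: the closure

After `m` rounds `A` is the set of all elements of `V` which are `i`, or `z`, or reached from `i` or `z` by at most `m` steps of `a → b`, `b ∈ V`, `stp g i j a b`; there is no step from `i` (`g i y * g i j = g i j * g i y`). After `V.length` rounds the set is
closed (an increasing chain of subsets of `V` which is constant as soon as two consecutive sets are equal; `V.length` is at least the number of elements).
-/

set_option autoImplicit false

noncomputable section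

namespace Pool.Agent.QUA

open Pool.Agent.FRM Pool.Agent.BEO

variable {T : Tb} {r : ℕ}

private def Ac3_f (T : Tb) (V : List ℕ) (i j : ℕ) (A : List ℕ) : List ℕ :=
  V.filter fun y => memb A y || A.any fun x => stq T i j x y

private theorem Ac3_mem {T : Tb} {r : ℕ} (hT : Tok T r) (V : List ℕ) (i j : ℕ) (A : List ℕ) (y : ℕ) :
    y ∈ Ac3_f T V i j A ↔ y ∈ V ∧ (y ∈ A ∨ ∃ x ∈ A, stp (gT T) i j x y) := by
  unfold Ac3_f
  rw [List.mem_filter, Bool.or_eq_true, memb_iff, List.any_eq_true]
  refine and_congr Iff.rfl (or_congr Iff.rfl ?_)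
  constructor
  · rintro ⟨x, hx, h⟩
    exact ⟨x, hx, (stq_spec hT i j x y).1 h⟩
  · rintro ⟨x, hx, h⟩
    exact ⟨x, hx, (stq_spec hT i j x y).2 h⟩

private theorem Ac3_it {α β : Type} (f : α → α) (l : List β) (a : α) :
    l.foldl (fun A _ => f A) a = f^[l.length] a := by
  induction l generalizing a with
  | nil => rfl
  | cons b l ih =>
    rw [List.foldl_cons, ih, List.length_cons, Function.iterate_succ_apply]

private theorem Ac3_clq (T : Tb) (V : List ℕ) (i j z : ℕ) :
    clq T V i j z = (Ac3_f T V i j)^[V.length] (V.filter fun y => decide (y = i) || decide (y = z)) :=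
  Ac3_it (Ac3_f T V i j) V _

private theorem Ac3_init (V : List ℕ) (i z y : ℕ) :
    y ∈ (V.filter fun y => decide (y = i) || decide (y = z)) ↔ y ∈ V ∧ (y = i ∨ y = z) := by
  rw [List.mem_filter, Bool.or_eq_true, decide_eq_true_eq, decide_eq_true_eq]

/-- an increasing chain of subsets of `V` is constant after `V.length` steps -/
private theorem Ac3_fix {T : Tb} {r : ℕ} (hT : Tok T r) (V : List ℕ) (i j : ℕ) (A : List ℕ) (hA : ∀ x ∈ A, x ∈ V)
    (hne : A ≠ []) :
    (Ac3_f T V i j ((Ac3_f T V i j)^[V.length] A)).toFinset = ((Ac3_f T V i j)^[V.length] A).toFinset := by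
  classical
  set f := Ac3_f T V i j with hf
  have hsub : ∀ m, ∀ x ∈ f^[m] A, x ∈ V := by
    intro m
    cases m with
    | zero => exact hA
    | succ m =>
      intro x hx
      rw [Function.iterate_succ_apply'] at hx
      exact ((Ac3_mem hT V i j _ x).1 hx).1
  have hmono : ∀ m, (f^[m] A).toFinset ⊆ (f^[m + 1] A).toFinset := by
    intro m x hx
    rw [List.mem_toFinset] at hx ⊢
    rw [Function.iterate_succ_apply']
    exact (Ac3_mem hT V i j _ x).2 ⟨hsub m x hx, Or.inl hx⟩
  have hcong : ∀ B C : List ℕ, B.toFinset = C.toFinset → (f B).toFinset = (f C).toFinset := by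
    intro B C h
    have h' : ∀ x, x ∈ B ↔ x ∈ C := fun x => by
      rw [← List.mem_toFinset, h, List.mem_toFinset]
    ext y
    rw [List.mem_toFinset, List.mem_toFinset, hf, Ac3_mem hT, Ac3_mem hT]
    simp only [h']
  have hprop : ∀ m, (f^[m + 1] A).toFinset = (f^[m] A).toFinset → ∀ k, (f^[m + k] A).toFinset = (f^[m] A).toFinset := by
    intro m h k
    induction k with
    | zero => rfl
    | succ k ih =>
      rw [← Nat.add_assoc, Function.iterate_succ_apply', hcong _ _ ih, ← Function.iterate_succ_apply' f m A, h]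
  have hcard : ∀ m, (∃ k, k < m ∧ (f^[k + 1] A).toFinset = (f^[k] A).toFinset) ∨ m + 1 ≤ (f^[m] A).toFinset.card := by
    intro m
    induction m with
    | zero =>
      right
      rw [Function.iterate_zero, id_eq, Nat.zero_add, Nat.one_le_iff_ne_zero, Ne, Finset.card_eq_zero, List.toFinset_eq_empty_iff]
      exact hne
    | succ m ih =>
      rcases ih with ⟨k, hk, h⟩ | ih
      · exact Or.inl ⟨k, by omega, h⟩
      · by_cases h : (f^[m + 1] A).toFinset = (f^[m] A).toFinset
        · exact Or.inl ⟨m, by omega, h⟩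
        · right
          have h1 : (f^[m] A).toFinset.card < (f^[m + 1] A).toFinset.card :=
            Finset.card_lt_card ((Finset.ssubset_iff_subset_ne).2 ⟨hmono m, fun h2 => h h2.symm⟩)
          omega
  rcases hcard V.length with ⟨k, hk, h⟩ | h
  · obtain ⟨d, hd⟩ : ∃ d, V.length = k + d := ⟨V.length - k, by omega⟩
    have h1 := hprop k h d
    have h2 := hprop k h (d + 1)
    rw [← Nat.add_assoc, Function.iterate_succ_apply', ← hd] at h2
    rw [← hd] at h1
    rw [h2, h1]
  · exfalso
    have h1 : (f^[V.length] A).toFinset ⊆ V.toFinset := by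
      intro x hx
      rw [List.mem_toFinset] at hx ⊢
      exact hsub _ x hx
    have h2 := Finset.card_le_card h1
    have h3 := List.toFinset_card_le V
    omega

theorem clq_spec (hT : Tok T r) (V : List ℕ) {i j z : ℕ} (hi : i ∈ V) (hz : z ∈ V) :
    (clq T V i j z).toFinset = cls (gT T) V.toFinset i j z := by
  classical
  have hne : (V.filter fun y => decide (y = i) || decide (y = z)) ≠ [] := by
    intro h
    have h1 := (Ac3_init V i z i).2 ⟨hi, Or.inl rfl⟩
    rw [h] at h1
    exact absurd h1 (List.not_mem_nil)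
  have hA : ∀ x ∈ (V.filter fun y => decide (y = i) || decide (y = z)), x ∈ V := fun x hx => ((Ac3_init V i z x).1 hx).1
  have hfix := Ac3_fix hT V i j _ hA hne
  rw [← Ac3_clq] at hfix
  -- inclusion one
  have hsub : ∀ m, ∀ x ∈ (Ac3_f T V i j)^[m] (V.filter fun y => decide (y = i) || decide (y = z)),
      x ∈ V ∧ (x = i ∨ Relation.ReflTransGen (fun a b => b ∈ V.toFinset ∧ stp (gT T) i j a b) z x) := by
    intro m
    induction m with
    | zero =>
      intro x hx
      obtain ⟨h1, h2⟩ := (Ac3_init V i z x).1 hx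
      refine ⟨h1, ?_⟩
      rcases h2 with h2 | h2
      · exact Or.inl h2
      · rw [h2]
        exact Or.inr Relation.ReflTransGen.refl
    | succ m ih =>
      intro x hx
      rw [Function.iterate_succ_apply'] at hx
      obtain ⟨h1, h2⟩ := (Ac3_mem hT V i j _ x).1 hx
      rcases h2 with h2 | ⟨y, hy, h2⟩
      · exact ih x h2
      · refine ⟨h1, ?_⟩
        rcases (ih y hy).2 with h3 | h3
        · rw [h3] at h2
          exact absurd (mul_comm _ _) h2
        · exact Or.inr (h3.tail ⟨List.mem_toFinset.2 h1, h2⟩)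
  have hgrow : ∀ m, ∀ x ∈ (V.filter fun y => decide (y = i) || decide (y = z)),
      x ∈ (Ac3_f T V i j)^[m] (V.filter fun y => decide (y = i) || decide (y = z)) := by
    intro m
    induction m with
    | zero => exact fun x hx => hx
    | succ m ih =>
      intro x hx
      rw [Function.iterate_succ_apply']
      exact (Ac3_mem hT V i j _ x).2 ⟨hA x hx, Or.inl (ih x hx)⟩
  ext x
  rw [cls, Finset.mem_filter, List.mem_toFinset, List.mem_toFinset]
  constructor
  · intro hx
    rw [Ac3_clq] at hx
    exact hsub _ x hx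
  · rintro ⟨-, h2⟩
    rcases h2 with h2 | h2
    · rw [h2, Ac3_clq]
      exact hgrow _ i ((Ac3_init V i z i).2 ⟨hi, Or.inl rfl⟩)
    · induction h2 with
      | refl =>
        rw [Ac3_clq]
        exact hgrow _ z ((Ac3_init V i z z).2 ⟨hz, Or.inr rfl⟩)
      | @tail b c _ h3 ih =>
        rw [← List.mem_toFinset, ← hfix, List.mem_toFinset]
        exact (Ac3_mem hT V i j _ c).2 ⟨List.mem_toFinset.1 h3.1, Or.inr ⟨b, ih, h3.2⟩⟩

theorem clq_sub (T : Tb) (V : List ℕ) (i j z : ℕ) : ∀ x ∈ clq T V i j z, x ∈ V := by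
  rw [Ac3_clq]
  have h : ∀ m, ∀ x ∈ (Ac3_f T V i j)^[m] (V.filter fun y => decide (y = i) || decide (y = z)), x ∈ V := by
    intro m
    cases m with
    | zero => exact fun x hx => ((Ac3_init V i z x).1 hx).1
    | succ m =>
      intro x hx
      rw [Function.iterate_succ_apply'] at hx
      exact (List.mem_filter.1 hx).1
  exact h _

end Pool.Agent.QUA
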