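import Pool.Agent.QUA.Bl1

/-!
# QUA/Sd1: sides of separations of order one

`Cl g S A i j` (QUA/Defs): `A ⊆ S` is a side, `i ∈ A`, `j ∈ S \ A`, `g i j ≠ 0` and `g x y * g i j = g x j * g i y` for `x ∈ A`, `y ∈ S \ A`.
-/

set_option autoImplicit false

noncomputable section

namespace Pool.Agent.QUA

open Pool.Agent.FRM

variable {V : Type} [DecidableEq V] {t : V → Bool} {g : V → V → F4}

theorem cl_lo {S A : Finset V} {i j : V} (h : Cl g S A i j) : Lo g A (S \ A) := by
  refine ⟨fun x => g x j, fun y => g i y * (g i j)⁻¹, fun x hx y hy => ?_⟩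
  have h1 := h.cl x hx y (Finset.mem_sdiff.1 hy).1 (Finset.mem_sdiff.1 hy).2
  have h2 := h.ne
  calc g x y = g x y * g i j * (g i j)⁻¹ := by field_simp
    _ = g x j * g i y * (g i j)⁻¹ := by rw [h1]
    _ = g x j * (g i y * (g i j)⁻¹) := by ring

theorem lo_cl {S A : Finset V} (hC : Cn g S) (hA : A ⊆ S) (hl : Lo g A (S \ A)) (h1 : A.Nonempty) (h2 : (S \ A).Nonempty) :
    ∃ i j, Cl g S A i j := by
  obtain ⟨i, hi, j, hj, hne⟩ := hC A hA h1 h2
  obtain ⟨u, v, huv⟩ := hl
  refine ⟨i, j, hA, hi, (Finset.mem_sdiff.1 hj).1, (Finset.mem_sdiff.1 hj).2, hne, ?_⟩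
  intro x hx y hy hyA
  have hy' : y ∈ S \ A := Finset.mem_sdiff.2 ⟨hy, hyA⟩
  rw [huv x hx y hy', huv i hi j hj, huv x hx j hj, huv i hi y hy']
  ring

/-- another representative: `g x y * g i' j = g x j * g i' y` -/
theorem cl_rep {S A : Finset V} {i j i' : V} (h : Cl g S A i j) (hi : i' ∈ A) (hne : g i' j ≠ 0) : Cl g S A i' j := by
  refine ⟨h.sub, hi, h.hS, h.hj, hne, ?_⟩
  intro x hx y hy hyA
  have h1 := h.cl x hx y hy hyA
  have h2 := h.cl i' hi y hy hyA
  have h3 : g x y * g i' j * g i j = g x j * g i' y * g i j := by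
    calc g x y * g i' j * g i j = (g x y * g i j) * g i' j := by ring
      _ = (g x j * g i y) * g i' j := by rw [h1]
      _ = g x j * (g i' j * g i y) := by ring
      _ = g x j * (g i' y * g i j) := by rw [h2]
      _ = g x j * g i' y * g i j := by ring
  exact mul_right_cancel₀ h.ne h3

/-- another representative on the other side -/
theorem cl_rep' {S A : Finset V} {i j j' : V} (h : Cl g S A i j) (hj : j' ∈ S) (hj' : j' ∉ A) (hne : g i j' ≠ 0) : Cl g S A i j' := by
  refine ⟨h.sub, h.hi, hj, hj', hne, ?_⟩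
  intro x hx y hy hyA
  have h1 := h.cl x hx y hy hyA
  have h2 := h.cl x hx j' hj hj'
  have h3 : g x y * g i j' * g i j = g x j' * g i y * g i j := by
    calc g x y * g i j' * g i j = (g x y * g i j) * g i j' := by ring
      _ = (g x j * g i y) * g i j' := by rw [h1]
      _ = (g x j * g i j') * g i y := by ring
      _ = (g x j' * g i j) * g i y := by rw [h2]
      _ = g x j' * g i y * g i j := by ring
  exact mul_right_cancel₀ h.ne h3

theorem cl_compl (hg : Hm t g) {S A : Finset V} {i j : V} (h : Cl g S A i j) : Cl g S (S \ A) j i := by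
  refine ⟨Finset.sdiff_subset, Finset.mem_sdiff.2 ⟨h.hS, h.hj⟩, h.sub h.hi, ?_, ?_, ?_⟩
  · intro h1
    exact (Finset.mem_sdiff.1 h1).2 h.hi
  · rw [hg.inv]
    exact inv_ne_zero h.ne
  · intro y hy x hx hxA
    have hxA' : x ∈ A := by
      by_contra h1
      exact hxA (Finset.mem_sdiff.2 ⟨hx, h1⟩)
    have h1 := h.cl x hxA' y (Finset.mem_sdiff.1 hy).1 (Finset.mem_sdiff.1 hy).2
    rw [hg.inv x y, hg.inv i j, hg.inv i y, hg.inv x j, ← mul_inv, ← mul_inv, h1,
      mul_comm (g x j)]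

theorem cl_erase {S A : Finset V} {i j x : V} (h : Cl g S A i j) (hx : x ∈ A) (hxi : x ≠ i) : Cl g (S.erase x) (A.erase x) i j := by
  have hjx : j ≠ x := by
    rintro rfl
    exact h.hj hx
  refine ⟨Finset.erase_subset_erase x h.sub, Finset.mem_erase.2 ⟨hxi.symm, h.hi⟩,
    Finset.mem_erase.2 ⟨hjx, h.hS⟩, fun h1 => h.hj (Finset.mem_of_mem_erase h1), h.ne, ?_⟩
  intro x' hx' y hy hyA
  refine h.cl x' (Finset.mem_of_mem_erase hx') y (Finset.mem_of_mem_erase hy) ?_
  intro h1
  exact hyA (Finset.mem_erase.2 ⟨Finset.ne_of_mem_erase hy, h1⟩)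

theorem hv_rep (hg : Hm t g) {S A : Finset V} {i j : V} (h : Cl g S A i j) (hv : Hv g A (S \ A)) : ¬ Bal g (insert j A) := by
  rintro ⟨p, hp, hpb⟩
  obtain ⟨b, hb, hnb⟩ := hv
  apply hnb
  have hbS := (Finset.mem_sdiff.1 hb).1
  have hbA := (Finset.mem_sdiff.1 hb).2
  have hbb : g b b = 0 := hg.bip b b rfl
  have hA : ∀ x ∈ A, ∀ y ∈ A, g x y ≠ 0 → g x y = p x * (p y)⁻¹ := fun x hx y hy =>
    hpb x (Finset.mem_insert_of_mem hx) y (Finset.mem_insert_of_mem hy)
  -- the new value at `b`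
  obtain ⟨c, hc, hcb⟩ : ∃ c : F4, c ≠ 0 ∧ ∀ x ∈ A, g x b ≠ 0 → g x b = p x * c⁻¹ := by
    by_cases h0 : g i b = 0
    · refine ⟨1, one_ne_zero, fun x hx hne => ?_⟩
      have h1 := h.cl x hx b hbS hbA
      rw [h0, mul_zero] at h1
      rcases mul_eq_zero.1 h1 with h2 | h2
      · exact absurd h2 hne
      · exact absurd h2 h.ne
    · have hpj := hp j
      have hij := h.ne
      refine ⟨p j * (g i b)⁻¹ * g i j, mul_ne_zero (mul_ne_zero hpj (inv_ne_zero h0)) hij,
        fun x hx hne => ?_⟩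
      have h1 := h.cl x hx b hbS hbA
      have h2 : g x j ≠ 0 := by
        intro h3
        rw [h3, zero_mul] at h1
        rcases mul_eq_zero.1 h1 with h4 | h4
        · exact hne h4
        · exact hij h4
      have h3 := hpb x (Finset.mem_insert_of_mem hx) j (Finset.mem_insert_self j A) h2
      have h4 : g x b * g i j = p x * (p j * (g i b)⁻¹ * g i j)⁻¹ * g i j := by
        rw [h1, h3, mul_inv, mul_inv, inv_inv]
        field_simp
      exact mul_right_cancel₀ hij h4
  refine ⟨fun z => if z = b then c else p z, fun z => ?_, fun x hx y hy hne => ?_⟩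
  · beta_reduce
    split_ifs
    · exact hc
    · exact hp z
  · beta_reduce
    rcases Finset.mem_insert.1 hx with hxb | hxA <;> rcases Finset.mem_insert.1 hy with hyb | hyA
    · rw [hxb, hyb] at hne
      exact absurd hbb hne
    · have hyb : y ≠ b := by
        rintro rfl
        exact hbA hyA
      rw [if_pos hxb, if_neg hyb]
      rw [hxb, hg.inv y b] at hne ⊢
      rw [hcb y hyA (fun h5 => hne (by rw [h5, inv_zero])), mul_inv, inv_inv, mul_comm]
    · have hxb : x ≠ b := by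
        rintro rfl
        exact hbA hxA
      rw [if_neg hxb, if_pos hyb]
      rw [hyb] at hne ⊢
      exact hcb x hxA hne
    · have hxb : x ≠ b := by
        rintro rfl
        exact hbA hxA
      have hyb : y ≠ b := by
        rintro rfl
        exact hbA hyA
      rw [if_neg hxb, if_neg hyb]
      exact hA x hxA y hyA hne

/-- If `P ⊆ A` then the neighbours of `P` outside `A` give the neighbour `j`. -/
theorem side_cn (hg : Hm t g) {S A : Finset V} {i j : V} (hC : Cn g S) (h : Cl g S A i j) : Cn g (insert j A) := by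
  -- a part which does not contain `j`
  have key : ∀ P ⊆ insert j A, P.Nonempty → j ∉ P → ∃ x ∈ P, ∃ y ∈ insert j A \ P, g x y ≠ 0 := by
    intro P hP hPn hjP
    have hPA : P ⊆ A := by
      intro y hy
      rcases Finset.mem_insert.1 (hP hy) with rfl | h1
      · exact absurd hy hjP
      · exact h1
    obtain ⟨x, hx, y, hy, hne⟩ := hC P (hPA.trans h.sub) hPn ⟨j, Finset.mem_sdiff.2 ⟨h.hS, hjP⟩⟩
    obtain ⟨hyS, hyP⟩ := Finset.mem_sdiff.1 hy
    by_cases hyA : y ∈ A
    · exact ⟨x, hx, y, Finset.mem_sdiff.2 ⟨Finset.mem_insert_of_mem hyA, hyP⟩, hne⟩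
    · refine ⟨x, hx, j, Finset.mem_sdiff.2 ⟨Finset.mem_insert_self j A, hjP⟩, ?_⟩
      intro h0
      have h1 := h.cl x (hPA hx) y hyS hyA
      rw [h0, zero_mul] at h1
      rcases mul_eq_zero.1 h1 with h2 | h2
      · exact hne h2
      · exact h.ne h2
  intro P hP hPn hQn
  by_cases hjP : j ∈ P
  · obtain ⟨x, hx, y, hy, hne⟩ := key (insert j A \ P) Finset.sdiff_subset hQn
      (fun h1 => (Finset.mem_sdiff.1 h1).2 hjP)
    have hyP : y ∈ P := by
      by_contra h1
      obtain ⟨h2, h3⟩ := Finset.mem_sdiff.1 hy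
      exact h3 (Finset.mem_sdiff.2 ⟨h2, h1⟩)
    refine ⟨y, hyP, x, hx, ?_⟩
    rw [hg.inv x y]
    exact inv_ne_zero hne
  · exact key P hP hPn hjP

/-- Let `i₁ ∈ A.erase x` with `g i₁ j ≠ 0` (it exists since `insert j (A.erase x)` is connected); a part of `S \ A` which is attached to `A` is attached to `i₁`. -/
theorem cn_split_erase (hg : Hm t g) {S A : Finset V} {i j x : V} (hC : Cn g S) (h : Cl g S A i j) (hx : x ∈ A)
    (hne : (A.erase x).Nonempty) (hQ : Cn g (insert j (A.erase x))) : Cn g (S.erase x) := by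
  have hjx : j ≠ x := by
    rintro rfl
    exact h.hj hx
  have hjE : j ∈ S.erase x := Finset.mem_erase.2 ⟨hjx, h.hS⟩
  -- a neighbour of `j` in `A.erase x`
  obtain ⟨i₁, hi₁, hi₁j⟩ : ∃ i₁ ∈ A.erase x, g i₁ j ≠ 0 := by
    obtain ⟨a, ha, b, hb, hne'⟩ := hQ {j} (Finset.singleton_subset_iff.2
      (Finset.mem_insert_self j _)) (Finset.singleton_nonempty j) (by
        obtain ⟨y, hy⟩ := hne
        refine ⟨y, Finset.mem_sdiff.2 ⟨Finset.mem_insert_of_mem hy, ?_⟩⟩
        intro h1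
        rw [Finset.mem_singleton] at h1
        rw [h1] at hy
        exact h.hj (Finset.mem_of_mem_erase hy))
    rw [Finset.mem_singleton] at ha
    obtain ⟨hb1, hb2⟩ := Finset.mem_sdiff.1 hb
    rcases Finset.mem_insert.1 hb1 with h1 | h1
    · exact absurd (Finset.mem_singleton.2 h1) hb2
    · refine ⟨b, h1, ?_⟩
      rw [ha, hg.inv b j] at hne'
      intro h0
      exact hne' (by rw [h0, inv_zero])
  have h' : Cl g S A i₁ j := cl_rep h (Finset.mem_of_mem_erase hi₁) hi₁j
  -- a part `Q` without `j` has a neighbour outside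
  have key : ∀ Q ⊆ S.erase x, Q.Nonempty → j ∉ Q → ∃ a ∈ Q, ∃ b ∈ S.erase x \ Q, g a b ≠ 0 := by
    intro Q hQs hQn hjQ
    by_contra hcon
    push Not at hcon
    -- `A.erase x` is disjoint from `Q`
    have hdis : ∀ y ∈ A.erase x, y ∉ Q := by
      intro y hy hyQ
      obtain ⟨a, ha, b, hb, hab⟩ := hQ (insert j (A.erase x) ∩ Q) Finset.inter_subset_left
        ⟨y, Finset.mem_inter.2 ⟨Finset.mem_insert_of_mem hy, hyQ⟩⟩
        ⟨j, Finset.mem_sdiff.2 ⟨Finset.mem_insert_self j _, fun h1 =>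
          hjQ (Finset.mem_inter.1 h1).2⟩⟩
      obtain ⟨hb1, hb2⟩ := Finset.mem_sdiff.1 hb
      refine hab (hcon a (Finset.mem_inter.1 ha).2 b (Finset.mem_sdiff.2 ⟨?_, ?_⟩))
      · rcases Finset.mem_insert.1 hb1 with rfl | h1
        · exact hjE
        · exact Finset.erase_subset_erase x h.sub h1
      · intro h1
        exact hb2 (Finset.mem_inter.2 ⟨hb1, h1⟩)
    obtain ⟨a, ha, b, hb, hab⟩ := hC Q (hQs.trans (Finset.erase_subset _ _)) hQn
      ⟨j, Finset.mem_sdiff.2 ⟨h.hS, hjQ⟩⟩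
    obtain ⟨hbS, hbQ⟩ := Finset.mem_sdiff.1 hb
    have hbx : b = x := by
      by_contra h1
      exact hab (hcon a ha b (Finset.mem_sdiff.2 ⟨Finset.mem_erase.2 ⟨h1, hbS⟩, hbQ⟩))
    rw [hbx] at hab
    have haS : a ∈ S := Finset.mem_of_mem_erase (hQs ha)
    have haA : a ∉ A := by
      intro h1
      exact hdis a (Finset.mem_erase.2 ⟨Finset.ne_of_mem_erase (hQs ha), h1⟩) ha
    have hxa : g x a ≠ 0 := by
      rw [hg.inv a x]
      exact inv_ne_zero hab
    have h1 := h'.cl x hx a haS haA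
    have h2 : g i₁ a ≠ 0 := by
      intro h0
      rw [h0, mul_zero] at h1
      rcases mul_eq_zero.1 h1 with h3 | h3
      · exact hxa h3
      · exact hi₁j h3
    have h3 : g a i₁ ≠ 0 := by
      rw [hg.inv i₁ a]
      exact inv_ne_zero h2
    exact h3 (hcon a ha i₁ (Finset.mem_sdiff.2 ⟨Finset.erase_subset_erase x h.sub hi₁,
      hdis i₁ hi₁⟩))
  intro P hP hPn hPc
  by_cases hjP : j ∈ P
  · obtain ⟨a, ha, b, hb, hab⟩ := key (S.erase x \ P) Finset.sdiff_subset hPc
      (fun h1 => (Finset.mem_sdiff.1 h1).2 hjP)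
    have hbP : b ∈ P := by
      by_contra h1
      obtain ⟨h2, h3⟩ := Finset.mem_sdiff.1 hb
      exact h3 (Finset.mem_sdiff.2 ⟨h2, h1⟩)
    refine ⟨b, hbP, a, ha, ?_⟩
    rw [hg.inv a b]
    exact inv_ne_zero hab
  · exact key P hP hPn hjP

end Pool.Agent.QUA
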