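import Pool.Agent.QUA.T4b
import Pool.Agent.QUA.Sd1

/-!
# QUA/P1: every valid lift extends over a good element

`ext_whole`: a valid lift on `S` is changed by a gauge transformation so that it agrees with the given lift on `S.erase x`.
`ext_side`: if the element can be removed inside a side of a separation of order one, then the extension on the side is composed with the given lift.
-/

set_option autoImplicit false

noncomputable section

namespace Pool.Agent.QUA

open Pool.Agent.FRM

variable {V : Type} [DecidableEq V] {t : V → Bool} {g : V → V → F4} {S : Finset V}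

/-- existence and uniqueness of valid lifts on the subsets of `S` -/
structure EU (t : V → Bool) (g : V → V → F4) (S : Finset V) : Prop where
  ex : ∀ S' ⊆ S, ∃ H, Val t g H S'
  un : ∀ S' ⊆ S, Cn g S' → Ok g S' → ∀ H H', Val t g H S' → Val t g H' S' → Eqv H H' S'

/-- `x` can be removed -/
def Good (g : V → V → F4) (S : Finset V) (x : V) : Prop :=
  x ∈ S ∧ ((Cn g (S.erase x) ∧ Ok g (S.erase x)) ∨ ∃ i j A, Cl g S A i j ∧ x ∈ A ∧ (A.erase x).Nonempty ∧
    Cn g (insert j (A.erase x)) ∧ Ok g (insert j (A.erase x)))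

theorem ext_whole (hg : Hm t g) (hE : EU t g S) {x : V} (hx : x ∈ S) (hC : Cn g (S.erase x)) (hO : Ok g (S.erase x)) (H : V → V → Hq)
    (h : Val t g H (S.erase x)) : ∃ H', Val t g H' S ∧ ∀ y ∈ S.erase x, ∀ z ∈ S.erase x, H' y z = H y z := by
  obtain ⟨H1, hH1⟩ := hE.ex S (Finset.Subset.refl S)
  have hsub : S.erase x ⊆ S := Finset.erase_subset x S
  have hH1' := val_mono hH1 hsub
  rcases (S.erase x).eq_empty_or_nonempty with he | hne
  · refine ⟨H1, hH1, fun y hy => ?_⟩
    rw [he] at hy
    exact absurd hy (Finset.notMem_empty y)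
  · obtain ⟨b, hb⟩ := hne
    obtain ⟨w, hw, hwe⟩ := hE.un (S.erase x) hsub hC hO H1 H hH1' h
    have hkc := eqv_kc hg hC hH1' h hw hwe
    have hw' : ∀ y, HU (Function.update w x (w b) y) := by
      intro y
      by_cases hy : y = x
      · rw [hy, Function.update_self]
        exact hw b
      · rw [Function.update_of_ne hy]
        exact hw y
    have hk : ∀ y ∈ S, FRN.kc (Function.update w x (w b) y) = FRN.kc (w b) := by
      intro y hy
      by_cases hyx : y = x
      · rw [hyx, Function.update_self]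
      · rw [Function.update_of_ne hyx]
        exact hkc y (Finset.mem_erase.2 ⟨hyx, hy⟩) b hb
    refine ⟨_, val_gauge hg hH1 hw' (fun y hy z hz => (hk y hy).trans (hk z hz).symm), ?_⟩
    intro y hy z hz
    have hyx := Finset.ne_of_mem_erase hy
    have hzx := Finset.ne_of_mem_erase hz
    rw [Function.update_of_ne hyx, Function.update_of_ne hzx]
    exact (hwe y hy z hz).symm

theorem ext_side (hg : Hm t g) (hE : EU t g S) {A : Finset V} {i j x : V} (hCl : Cl g S A i j) (hx : x ∈ A) (hne : (A.erase x).Nonempty)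
    (hC : Cn g (insert j (A.erase x))) (hO : Ok g (insert j (A.erase x))) (H : V → V → Hq) (h : Val t g H (S.erase x)) :
    ∃ H', Val t g H' S ∧ ∀ y ∈ S.erase x, ∀ z ∈ S.erase x, H' y z = H y z := by
  have hjx : j ≠ x := by
    rintro rfl
    exact hCl.hj hx
  obtain ⟨i', hi', hij⟩ : ∃ i' ∈ A.erase x, g i' j ≠ 0 := by
    obtain ⟨a, ha, b, hb, hne'⟩ := hC {j} (Finset.singleton_subset_iff.2
      (Finset.mem_insert_self j _)) (Finset.singleton_nonempty j) (by
        obtain ⟨y, hy⟩ := hne
        refine ⟨y, Finset.mem_sdiff.2 ⟨Finset.mem_insert_of_mem hy, ?_⟩⟩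
        intro h1
        rw [Finset.mem_singleton] at h1
        rw [h1] at hy
        exact hCl.hj (Finset.mem_of_mem_erase hy))
    rw [Finset.mem_singleton] at ha
    obtain ⟨hb1, hb2⟩ := Finset.mem_sdiff.1 hb
    rcases Finset.mem_insert.1 hb1 with h1 | h1
    · exact absurd (Finset.mem_singleton.2 h1) hb2
    · refine ⟨b, h1, ?_⟩
      rw [ha, hg.inv b j] at hne'
      intro h0
      exact hne' (by rw [h0, inv_zero])
  have hi'A : i' ∈ A := Finset.mem_of_mem_erase hi'
  have hCl' : Cl g S A i' j := cl_rep hCl hi'A hij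
  have hjA : insert j A ⊆ S := Finset.insert_subset hCl.hS hCl.sub
  have hE' : EU t g (insert j A) :=
    ⟨fun S' hS' => hE.ex S' (hS'.trans hjA), fun S' hS' => hE.un S' (hS'.trans hjA)⟩
  have hers : (insert j A).erase x = insert j (A.erase x) := Finset.erase_insert_of_ne hjx
  have hsub : insert j (A.erase x) ⊆ S.erase x := by
    rw [← hers]
    exact Finset.erase_subset_erase x hjA
  obtain ⟨H1, hH1, hag⟩ := ext_whole hg hE' (Finset.mem_insert_of_mem hx) (by rw [hers]; exact hC)
    (by rw [hers]; exact hO) H (by rw [hers]; exact val_mono h hsub)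
  rw [hers] at hag
  have hval2 : Val t g H (insert i' (S \ A)) := by
    refine val_mono h ?_
    intro y hy
    rcases Finset.mem_insert.1 hy with rfl | hy
    · exact Finset.mem_erase.2 ⟨Finset.ne_of_mem_erase hi', hCl.sub hi'A⟩
    · refine Finset.mem_erase.2 ⟨?_, (Finset.mem_sdiff.1 hy).1⟩
      rintro rfl
      exact (Finset.mem_sdiff.1 hy).2 hx
  refine ⟨cmp H1 H A i' j, val_cmp hg hCl' hH1 hval2, ?_⟩
  have hrel := val_rel hg h (cl_erase hCl' hx (Finset.ne_of_mem_erase hi').symm)
  have hcross : ∀ y ∈ S.erase x, ∀ z ∈ S.erase x, y ∈ A → z ∉ A → H1 y j * (H1 i' j)⁻¹ * H i' z = H y z := by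
    intro y hy z hz hyA hzA
    have hyA' : y ∈ A.erase x := Finset.mem_erase.2 ⟨Finset.ne_of_mem_erase hy, hyA⟩
    rw [hag y (Finset.mem_insert_of_mem hyA') j (Finset.mem_insert_self j _),
      hag i' (Finset.mem_insert_of_mem hi') j (Finset.mem_insert_self j _)]
    exact (hrel y hyA' z hz fun h1 => hzA (Finset.mem_of_mem_erase h1)).symm
  intro y hy z hz
  unfold cmp
  by_cases hyA : y ∈ A
  · by_cases hzA : z ∈ A
    · rw [if_pos hyA, if_pos hzA]
      exact hag y (Finset.mem_insert_of_mem (Finset.mem_erase.2 ⟨Finset.ne_of_mem_erase hy, hyA⟩)) z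
        (Finset.mem_insert_of_mem (Finset.mem_erase.2 ⟨Finset.ne_of_mem_erase hz, hzA⟩))
    · rw [if_pos hyA, if_neg hzA]
      exact hcross y hy z hz hyA hzA
  · by_cases hzA : z ∈ A
    · rw [if_neg hyA, if_pos hzA, hcross z hz y hy hzA hyA, ← h.sym z y]
    · rw [if_neg hyA, if_neg hzA]

theorem good_ext (hg : Hm t g) (hE : EU t g S) {x : V} (hx : Good g S x) (H : V → V → Hq) (h : Val t g H (S.erase x)) :
    ∃ H', Val t g H' S ∧ ∀ y ∈ S.erase x, ∀ z ∈ S.erase x, H' y z = H y z := by
  obtain ⟨hx, ⟨h1, h2⟩ | ⟨i, j, A, h1, h2, h3, h4, h5⟩⟩ := hx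
  · exact ext_whole hg hE hx h1 h2 H h
  · exact ext_side hg hE h1 h2 h3 h4 h5 H h

theorem good_cn (hg : Hm t g) {x : V} (hC : Cn g S) (hx : Good g S x) : Cn g (S.erase x) := by
  obtain ⟨hx, ⟨h1, h2⟩ | ⟨i, j, A, h1, h2, h3, h4, h5⟩⟩ := hx
  · exact h1
  · exact cn_split_erase hg hC h1 h2 h3 h4

end Pool.Agent.QUA
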