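import Pool.Agent.QUA.Fb3
import Pool.Agent.QUA.Clo

/-!
# QUA/Sel: the selection always succeeds, and the test `Ok` by closures

`ok_iff`: if `Ok g S` fails with `A`, then `A` and `S \ A` are not empty, `lo_cl` gives `Cl g S A i j`, `hv_rep` and `cls_unb` give `z ∈ A` with `¬ Bal g (insert j (cls g S i j z))`; and
`insert i (S \ cls g S i j z) ⊇ insert i (S \ A)` is not balanced (`hv_rep` for `cl_compl`). Conversely `A := cls g S i j z` (`cls_cl`, `cl_lo`) violates `Ok`.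
`sel_ex`: if `Ok g S` and `S.card ≥ 2`: `fbx`; `S.card ≤ 1`: `S.erase x` is empty. If `¬ Ok g S` choose a side `A` with both sides nonbinary with `A.card` minimal, `Cl g S A i j`; as above there is `z ∈ A` with
`¬ Bal g (insert j (cls g S i j z))`; then `cls g S i j z` is also such a side, so it is equal to `A`. `insert j A` is `Ok` by `min_ok` and connected by `side_cn`; `fbx` with `p = j` gives `x ∈ A`
(`(insert j A).erase x = insert j (A.erase x)`); `A.erase x` is not empty by `hv_card`.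
-/

set_option autoImplicit false

noncomputable section

namespace Pool.Agent.QUA

open Pool.Agent.FRM

variable {V : Type} [DecidableEq V] {t : V → Bool} {g : V → V → F4}

theorem ok_iff (hg : Hm t g) {S : Finset V} (hC : Cn g S) :
    Ok g S ↔ ∀ i ∈ S, ∀ j ∈ S, g i j ≠ 0 → ∀ z ∈ S, z ≠ j →
      Bal g (insert j (cls g S i j z)) ∨ Bal g (insert i (S \ cls g S i j z)) := by
  constructor
  · intro hO i hi j hj hne z hz hzj
    obtain ⟨hcl, hzc⟩ := cls_cl hg hi hj hz hzj hne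
    by_contra hcon
    rw [not_or] at hcon
    refine hO _ hcl.sub (cl_lo hcl) ⟨j, ?_, hcon.1⟩ ⟨i, hcl.hi, hcon.2⟩
    exact Finset.mem_sdiff.2 ⟨hj, hcl.hj⟩
  · intro h A hA hl hv hv'
    obtain ⟨b, hb, hbA⟩ := hv
    obtain ⟨b', hb', hbA'⟩ := hv'
    obtain ⟨i, j, hcl⟩ := lo_cl hC hA hl ⟨b', hb'⟩ ⟨b, hb⟩
    have hU : ¬ Bal g (insert j A) := hv_rep hg hcl ⟨b, hb, hbA⟩
    obtain ⟨z, hz, hzU⟩ := cls_unb hg hC hcl hU
    have hzj : z ≠ j := by
      rintro rfl
      exact hcl.hj hz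
    have hsub : cls g S i j z ⊆ A := cls_min hcl hz
    have hW : ¬ Bal g (insert i (S \ A)) := by
      refine hv_rep hg (cl_compl hg hcl) ?_
      rw [Finset.sdiff_sdiff_eq_self hA]
      exact ⟨b', hb', hbA'⟩
    rcases h i (hA hcl.hi) j hcl.hS hcl.ne z (hA hz) hzj with h1 | h1
    · exact hzU h1
    · exact hW (bal_mono (Finset.insert_subset_insert i (Finset.sdiff_subset_sdiff subset_rfl hsub)) h1)

theorem sel_ex (hg : Hm t g) {S : Finset V} (hC : Cn g S) (hne : S.Nonempty) :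
    (∃ x ∈ S, Cn g (S.erase x) ∧ Ok g (S.erase x)) ∨
    ∃ i ∈ S, ∃ j ∈ S, g i j ≠ 0 ∧ ∃ z ∈ S, z ≠ j ∧ ∃ x ∈ cls g S i j z, ((cls g S i j z).erase x).Nonempty ∧
      Cn g (insert j ((cls g S i j z).erase x)) ∧ Ok g (insert j ((cls g S i j z).erase x)) := by
  classical
  by_cases hO : Ok g S
  · left
    obtain ⟨x, hx⟩ := hne
    by_cases h2 : 2 ≤ S.card
    · obtain ⟨y, hy, -, h3, h4⟩ := fbx hg hC hO h2 x
      exact ⟨y, hy, h3, h4⟩
    · have hcard : S.card = 1 := by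
        have : 0 < S.card := Finset.card_pos.2 ⟨x, hx⟩
        omega
      obtain ⟨a, ha⟩ := Finset.card_eq_one.1 hcard
      have hxa : S.erase a = ∅ := by
        rw [ha]
        simp
      refine ⟨a, by rw [ha]; exact Finset.mem_singleton_self a, ?_, ?_⟩
      · rw [hxa]
        intro A hA hAn
        obtain ⟨c, hc⟩ := hAn
        exact absurd (hA hc) (Finset.notMem_empty c)
      · rw [hxa]
        refine ok_bal ⟨fun _ => 1, fun _ => one_ne_zero, fun c hc => ?_⟩
        exact absurd hc (Finset.notMem_empty c)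
  · right
    have hex : ∃ A, A ⊆ S ∧ Lo g A (S \ A) ∧ Hv g A (S \ A) ∧ Hv g (S \ A) A := by
      by_contra hcon
      apply hO
      intro A hA hl hv hv'
      exact hcon ⟨A, hA, hl, hv, hv'⟩
    obtain ⟨A₀, hA₀⟩ := hex
    obtain ⟨A, hAm, hmin⟩ := Finset.exists_min_image
      (S.powerset.filter fun A => Lo g A (S \ A) ∧ Hv g A (S \ A) ∧ Hv g (S \ A) A) Finset.card
      ⟨A₀, Finset.mem_filter.2 ⟨Finset.mem_powerset.2 hA₀.1, hA₀.2⟩⟩
    rw [Finset.mem_filter, Finset.mem_powerset] at hAm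
    obtain ⟨hA, hl, hv, hv'⟩ := hAm
    have hmin' : ∀ P, P ⊆ S → Lo g P (S \ P) → Hv g P (S \ P) → Hv g (S \ P) P → A.card ≤ P.card := by
      intro P h1 h2 h3 h4
      exact hmin P (Finset.mem_filter.2 ⟨Finset.mem_powerset.2 h1, h2, h3, h4⟩)
    obtain ⟨b, hb, hbA⟩ := hv
    obtain ⟨b', hb', hbA'⟩ := hv'
    obtain ⟨i, j, hcl⟩ := lo_cl hC hA hl ⟨b', hb'⟩ ⟨b, hb⟩
    have hU : ¬ Bal g (insert j A) := hv_rep hg hcl ⟨b, hb, hbA⟩
    obtain ⟨z, hz, hzU⟩ := cls_unb hg hC hcl hU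
    have hzj : z ≠ j := by
      rintro rfl
      exact hcl.hj hz
    have hsub : cls g S i j z ⊆ A := cls_min hcl hz
    have hW : ¬ Bal g (insert i (S \ A)) := by
      refine hv_rep hg (cl_compl hg hcl) ?_
      rw [Finset.sdiff_sdiff_eq_self hA]
      exact ⟨b', hb', hbA'⟩
    obtain ⟨hcl', hzc⟩ := cls_cl hg (hA hcl.hi) hcl.hS (hA hz) hzj hcl.ne
    have hCA : cls g S i j z = A := by
      refine Finset.eq_of_subset_of_card_le hsub ?_
      refine hmin' _ hcl'.sub (cl_lo hcl') ⟨j, Finset.mem_sdiff.2 ⟨hcl.hS, hcl'.hj⟩, hzU⟩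
        ⟨i, hcl'.hi, fun h1 => hW ?_⟩
      exact bal_mono (Finset.insert_subset_insert i (Finset.sdiff_subset_sdiff subset_rfl hsub)) h1
    have hOA : Ok g (insert j A) := by
      refine min_ok hg hcl ⟨b', hb', hbA'⟩ ?_
      intro P hP hPA h2 h3 h4
      apply hPA
      exact Finset.eq_of_subset_of_card_le hP (hmin' P (hP.trans hA) h2 h3 h4)
    have hCnA : Cn g (insert j A) := side_cn hg hC hcl
    have hA3 : 3 ≤ A.card := hv_card hg ⟨b, hb, hbA⟩
    have hcardj : (insert j A).card = A.card + 1 := Finset.card_insert_of_notMem hcl.hj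
    obtain ⟨x, hx, hxj, h3, h4⟩ := fbx hg hCnA hOA (by omega) j
    have hxA : x ∈ A := by
      rcases Finset.mem_insert.1 hx with h | h
      · exact absurd h hxj
      · exact h
    have her : (insert j A).erase x = insert j (A.erase x) :=
      Finset.erase_insert_of_ne (Ne.symm hxj)
    rw [her] at h3 h4
    refine ⟨i, hA hcl.hi, j, hcl.hS, hcl.ne, z, hA hz, hzj, x, ?_⟩
    rw [hCA]
    refine ⟨hxA, ?_, h3, h4⟩
    rw [← Finset.card_pos, Finset.card_erase_of_mem hxA]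
    omega

end Pool.Agent.QUA
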