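import Pool.Agent.QUA.Ac2
import Pool.Agent.QUA.Ac3
import Pool.Agent.QUA.Sel
import Pool.Agent.QUA.P1

/-!
# QUA/Ac4: the candidates of the selection

`psq_spec`: `cnq_spec`, `ok_iff`, `blq_spec`, `clq_spec`. `cnd_good`, `cnd_ne`: `psq_spec`, `sel_ex`, `cls_cl` (for `Good`: `Cl g S (cls g S i j z) i j`).
-/

set_option autoImplicit false

noncomputable section

namespace Pool.Agent.QUA

open Pool.Agent.FRM Pool.Agent.BEO

variable {T : Tb} {r : ℕ}

theorem rmv_spec (V : List ℕ) (x : ℕ) : (rmv V x).toFinset = V.toFinset.erase x := by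
  ext y
  rw [List.mem_toFinset, Finset.mem_erase, List.mem_toFinset]
  unfold rmv
  rw [List.mem_filter, Bool.not_eq_true', decide_eq_false_iff_not]
  exact and_comm

theorem sbt_spec (V A : List ℕ) : (sbt V A).toFinset = V.toFinset \ A.toFinset := by
  ext y
  rw [List.mem_toFinset, Finset.mem_sdiff, List.mem_toFinset, List.mem_toFinset]
  unfold sbt
  rw [List.mem_filter, Bool.not_eq_true', ← Bool.not_eq_true, memb_iff]

private theorem Ac4_okq (hT : Tok T r) (V : List ℕ) (hC : Cn (gT T) V.toFinset) :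
    okq T V = true ↔ Ok (gT T) V.toFinset := by
  rw [ok_iff hT.hm hC]
  unfold okq
  rw [List.all_eq_true]
  constructor
  · intro h i hi j hj hne z hz hzj
    rw [List.mem_toFinset] at hi hj hz
    have h1 := h i hi
    rw [List.all_eq_true] at h1
    have h2 := h1 j hj
    rw [List.all_eq_true] at h2
    have h3 := h2 z hz
    rw [Bool.or_eq_true, Bool.or_eq_true, Bool.or_eq_true, decide_eq_true_eq, decide_eq_true_eq,
      lk2_zero hT, blq_spec hT, blq_spec hT, List.toFinset_cons, List.toFinset_cons, sbt_spec, clq_spec hT V hi hz] at h3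
    rcases h3 with ((h3 | h3) | h3) | h3
    · exact absurd h3 hne
    · exact absurd h3 hzj
    · exact Or.inl h3
    · exact Or.inr h3
  · intro h i hi
    rw [List.all_eq_true]
    intro j hj
    rw [List.all_eq_true]
    intro z hz
    rw [Bool.or_eq_true, Bool.or_eq_true, Bool.or_eq_true, decide_eq_true_eq, decide_eq_true_eq,
      lk2_zero hT, blq_spec hT, blq_spec hT, List.toFinset_cons, List.toFinset_cons, sbt_spec, clq_spec hT V hi hz]
    by_cases hne : gT T i j = 0
    · exact Or.inl (Or.inl (Or.inl hne))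
    · by_cases hzj : z = j
      · exact Or.inl (Or.inl (Or.inr hzj))
      · rcases h i (List.mem_toFinset.2 hi) j (List.mem_toFinset.2 hj) hne z (List.mem_toFinset.2 hz) hzj with h1 | h1
        · exact Or.inl (Or.inr h1)
        · exact Or.inr h1

theorem psq_spec (hT : Tok T r) (V : List ℕ) : psq T V = true ↔ Cn (gT T) V.toFinset ∧ Ok (gT T) V.toFinset := by
  unfold psq
  rw [Bool.and_eq_true, cnq_spec hT]
  constructor
  · rintro ⟨h1, h2⟩
    exact ⟨h1, (Ac4_okq hT V h1).1 h2⟩
  · rintro ⟨h1, h2⟩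
    exact ⟨h1, (Ac4_okq hT V h1).2 h2⟩

private theorem Ac4_mem (hT : Tok T r) (V : List ℕ) (x : ℕ) : x ∈ cnd T V ↔
    (x ∈ V ∧ Cn (gT T) (V.toFinset.erase x) ∧ Ok (gT T) (V.toFinset.erase x)) ∨
    ∃ i ∈ V, ∃ j ∈ V, ∃ z ∈ V, gT T i j ≠ 0 ∧ z ≠ j ∧ x ∈ cls (gT T) V.toFinset i j z ∧
      ((cls (gT T) V.toFinset i j z).erase x).Nonempty ∧
      Cn (gT T) (insert j ((cls (gT T) V.toFinset i j z).erase x)) ∧
      Ok (gT T) (insert j ((cls (gT T) V.toFinset i j z).erase x)) := by
  unfold cnd
  rw [List.mem_append]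
  refine or_congr ?_ ?_
  · rw [List.mem_filter, psq_spec hT, rmv_spec]
  · rw [List.mem_flatMap]
    refine exists_congr fun i => and_congr_right fun hi => ?_
    rw [List.mem_flatMap]
    refine exists_congr fun j => and_congr_right fun hj => ?_
    rw [List.mem_flatMap]
    refine exists_congr fun z => and_congr_right fun hz => ?_
    by_cases h : gT T i j = 0
    · rw [if_pos (by rw [Bool.or_eq_true, decide_eq_true_eq, lk2_zero hT]; exact Or.inl h)]
      constructor
      · intro h1
        exact absurd h1 List.not_mem_nil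
      · intro h1
        exact absurd h h1.1
    · by_cases hzj : z = j
      · rw [if_pos (by rw [Bool.or_eq_true, decide_eq_true_eq, decide_eq_true_eq]; exact Or.inr hzj)]
        constructor
        · intro h1
          exact absurd h1 List.not_mem_nil
        · intro h1
          exact absurd hzj h1.2.1
      · rw [if_neg (by
          rw [Bool.or_eq_true, decide_eq_true_eq, decide_eq_true_eq, lk2_zero hT]
          rintro (h1 | h1)
          · exact h h1
          · exact hzj h1)]
        rw [List.mem_filter, Bool.and_eq_true, Bool.not_eq_true', psq_spec hT, List.toFinset_cons, rmv_spec,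
          ← List.mem_toFinset, clq_spec hT V hi hz]
        have h1 : (rmv (clq T V i j z) x).isEmpty = false ↔ ((cls (gT T) V.toFinset i j z).erase x).Nonempty := by
          rw [← clq_spec hT V hi hz, ← rmv_spec, List.isEmpty_eq_false_iff, Finset.nonempty_iff_ne_empty, Ne, Ne,
            List.toFinset_eq_empty_iff]
        rw [h1]
        constructor
        · rintro ⟨h2, h3, h4, h5⟩
          exact ⟨h, hzj, h2, h3, h4, h5⟩
        · rintro ⟨-, -, h2, h3, h4, h5⟩
          exact ⟨h2, h3, h4, h5⟩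

theorem cnd_good (hT : Tok T r) (V : List ℕ) : ∀ x ∈ cnd T V, Good (gT T) V.toFinset x := by
  intro x hx
  rcases (Ac4_mem hT V x).1 hx with ⟨h1, h2, h3⟩ | ⟨i, hi, j, hj, z, hz, h1, h2, h3, h4, h5, h6⟩
  · exact ⟨List.mem_toFinset.2 h1, Or.inl ⟨h2, h3⟩⟩
  · have hcl := (cls_cl hT.hm (List.mem_toFinset.2 hi) (List.mem_toFinset.2 hj) (List.mem_toFinset.2 hz) h2 h1).1
    exact ⟨hcl.sub h3, Or.inr ⟨i, j, _, hcl, h3, h4, h5, h6⟩⟩

theorem cnd_ne (hT : Tok T r) {V : List ℕ} (hC : Cn (gT T) V.toFinset) (hV : V ≠ []) : cnd T V ≠ [] := by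
  have hne : V.toFinset.Nonempty := by
    rw [Finset.nonempty_iff_ne_empty, Ne, List.toFinset_eq_empty_iff]
    exact hV
  rcases sel_ex hT.hm hC hne with ⟨x, hx, h1, h2⟩ | ⟨i, hi, j, hj, h1, z, hz, h2, x, h3, h4, h5, h6⟩
  · exact List.ne_nil_of_mem ((Ac4_mem hT V x).2 (Or.inl ⟨List.mem_toFinset.1 hx, h1, h2⟩))
  · exact List.ne_nil_of_mem ((Ac4_mem hT V x).2 (Or.inr ⟨i, List.mem_toFinset.1 hi, j, List.mem_toFinset.1 hj, z,
      List.mem_toFinset.1 hz, h1, h2, h3, h4, h5, h6⟩))

end Pool.Agent.QUA
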