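import Pool.Agent.QUA.Ac4

/-!
# QUA/Ac5: the chain

Invariant (`AInv`) of the fold for the state `s` after some steps: `s.1.Nodup`, `(s.2).Nodup`, `s.1`, `s.2` disjoint, `s.1.toFinset ∪ s.2.toFinset = V.toFinset`, `Cn g s.1.toFinset`, and for every splitting `s.2 = u ++ x :: v`: the set
`s.1 ∪ u ∪ {x}` is connected and `x` is `Good` in it. One step: `cnd_ne`, `cnd_good`, `good_cn`. After `V.length` steps `s.1 = []`.
-/

set_option autoImplicit false

noncomputable section

namespace Pool.Agent.QUA

open Pool.Agent.FRM Pool.Agent.BEO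

variable {T : Tb} {r : ℕ}

/-- the invariant of the fold -/
private structure AInv (T : Tb) (V : List ℕ) (s : List ℕ × List ℕ) : Prop where
  n1 : s.1.Nodup
  n2 : s.2.Nodup
  dj : ∀ x ∈ s.1, x ∉ s.2
  un : ∀ x, x ∈ V ↔ x ∈ s.1 ∨ x ∈ s.2
  cn : Cn (gT T) s.1.toFinset
  ch : ∀ u x v, s.2 = u ++ x :: v → Cn (gT T) (s.1.toFinset ∪ u.toFinset) ∧
    Cn (gT T) (insert x (s.1.toFinset ∪ u.toFinset)) ∧ Good (gT T) (insert x (s.1.toFinset ∪ u.toFinset)) x

private theorem ac5_mem_rmv (V : List ℕ) (x y : ℕ) : y ∈ rmv V x ↔ y ≠ x ∧ y ∈ V := by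
  have h := rmv_spec V x
  rw [← List.mem_toFinset, h, Finset.mem_erase, List.mem_toFinset]

private theorem ac5_step (hT : Tok T r) {V : List ℕ} {s : List ℕ × List ℕ} (h : AInv T V s) :
    AInv T V (chs T s) ∧ (chs T s).1.length ≤ s.1.length - 1 := by
  by_cases he : s.1 = []
  · have h1 : chs T s = s := by
      unfold chs
      rw [he]
      simp
    rw [h1, he]
    exact ⟨h, by simp⟩
  · obtain ⟨x0, hx0⟩ : ∃ x0, x0 = (cnd T s.1).headD 0 := ⟨_, rfl⟩
    have hne : s.1.isEmpty = false := by
      rw [List.isEmpty_eq_false_iff]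
      exact he
    have h1 : chs T s = (rmv s.1 x0, x0 :: s.2) := by
      unfold chs
      rw [hne, hx0]
      rfl
    have h2 : x0 ∈ cnd T s.1 := by
      have h3 := cnd_ne hT h.cn he
      rw [hx0]
      cases h4 : cnd T s.1 with
      | nil => exact absurd h4 h3
      | cons a l => exact List.mem_cons_self
    have hG := cnd_good hT s.1 x0 h2
    have hx : x0 ∈ s.1 := List.mem_toFinset.1 hG.1
    have hC := good_cn hT.hm h.cn hG
    have hf : (rmv s.1 x0).toFinset = s.1.toFinset.erase x0 := rmv_spec s.1 x0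
    rw [h1]
    refine ⟨⟨?_, ?_, ?_, ?_, ?_, ?_⟩, ?_⟩
    · exact h.n1.filter _
    · exact List.nodup_cons.2 ⟨h.dj x0 hx, h.n2⟩
    · intro y hy
      obtain ⟨hy1, hy2⟩ := (ac5_mem_rmv s.1 x0 y).1 hy
      rw [List.mem_cons, not_or]
      exact ⟨hy1, h.dj y hy2⟩
    · intro y
      rw [h.un y, ac5_mem_rmv, List.mem_cons]
      by_cases hy : y = x0
      · rw [hy]
        exact ⟨fun _ => Or.inr (Or.inl rfl), fun _ => Or.inl hx⟩
      · constructor
        · rintro (h3 | h3)
          · exact Or.inl ⟨hy, h3⟩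
          · exact Or.inr (Or.inr h3)
        · rintro (h3 | h3 | h3)
          · exact Or.inl h3.2
          · exact absurd h3 hy
          · exact Or.inr h3
    · show Cn (gT T) (rmv s.1 x0).toFinset
      rw [hf]
      exact hC
    · intro u x v huv
      have huv' : x0 :: s.2 = u ++ x :: v := huv
      show Cn (gT T) ((rmv s.1 x0).toFinset ∪ u.toFinset) ∧
        Cn (gT T) (insert x ((rmv s.1 x0).toFinset ∪ u.toFinset)) ∧
          Good (gT T) (insert x ((rmv s.1 x0).toFinset ∪ u.toFinset)) x
      rw [hf]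
      cases u with
      | nil =>
        rw [List.nil_append] at huv'
        obtain ⟨h3, -⟩ := List.cons.inj huv'
        rw [← h3, List.toFinset_nil, Finset.union_empty,
          Finset.insert_erase (List.mem_toFinset.2 hx)]
        exact ⟨hC, h.cn, hG⟩
      | cons a u =>
        rw [List.cons_append] at huv'
        obtain ⟨h3, h4⟩ := List.cons.inj huv'
        have h5 : s.1.toFinset.erase x0 ∪ (a :: u).toFinset = s.1.toFinset ∪ u.toFinset := by
          rw [← h3]
          ext y
          simp only [Finset.mem_union, Finset.mem_erase, List.mem_toFinset, List.mem_cons]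
          by_cases hy : y = x0
          · rw [hy]
            simp [hx]
          · simp [hy]
        rw [h5]
        exact h.ch u x v h4
    · show (rmv s.1 x0).length ≤ s.1.length - 1
      have h3 : (rmv s.1 x0).toFinset.card = (rmv s.1 x0).length :=
        List.toFinset_card_of_nodup (h.n1.filter _)
      have h4 : s.1.toFinset.card = s.1.length := List.toFinset_card_of_nodup h.n1
      rw [← h3, hf, Finset.card_erase_of_mem (List.mem_toFinset.2 hx), h4]

private theorem ac5_fold (hT : Tok T r) {V : List ℕ} (l : List ℕ) :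
    ∀ s : List ℕ × List ℕ, AInv T V s → s.1.length ≤ l.length →
      AInv T V (l.foldl (fun s _ => chs T s) s) ∧ (l.foldl (fun s _ => chs T s) s).1 = [] := by
  induction l with
  | nil =>
    intro s hs h
    refine ⟨hs, ?_⟩
    rw [List.length_nil] at h
    exact List.length_eq_zero_iff.1 (Nat.le_zero.1 h)
  | cons a l ih =>
    intro s hs h
    rw [List.foldl_cons]
    obtain ⟨h1, h2⟩ := ac5_step hT hs
    refine ih (chs T s) h1 ?_
    rw [List.length_cons] at h
    omega

theorem chn_spec (hT : Tok T r) {V : List ℕ} (hV : V.Nodup) (hC : Cn (gT T) V.toFinset) :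
    (chn T V).Nodup ∧ (chn T V).toFinset = V.toFinset ∧ ∀ u x v, chn T V = u ++ x :: v →
      Cn (gT T) u.toFinset ∧ Cn (gT T) (insert x u.toFinset) ∧ Good (gT T) (insert x u.toFinset) x := by
  have h0 : AInv T V (V, []) := by
    refine ⟨hV, List.nodup_nil, fun x _ => List.not_mem_nil, fun x => ?_, hC, ?_⟩
    · simp
    · intro u x v h
      have h1 : ([] : List ℕ) = u ++ x :: v := h
      have h2 := congrArg List.length h1
      simp at h2
  obtain ⟨h1, h2⟩ := ac5_fold hT V (V, []) h0 le_rfl
  refine ⟨h1.n2, ?_, ?_⟩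
  · ext x
    rw [List.mem_toFinset, List.mem_toFinset, h1.un x, h2]
    unfold chn
    simp
  · intro u x v h
    have h3 := h1.ch u x v h
    rw [h2, List.toFinset_nil, Finset.empty_union] at h3
    exact h3

end Pool.Agent.QUA
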