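import Pool.Agent.QUA.Bl1

/-!
# QUA/Cc1: connected sets, non-cut elements

`ex_noncut`: a proper connected subset of `S` which contains `b` and has maximal cardinality misses exactly one element of `S`.
`two_noncut`, by induction on the cardinality of `S`: let `e ≠ b` be non-cut (`ex_noncut`). If there is no second one, then every `e' ≠ b` which is non-cut in `S.erase e` is the only
neighbour of `e` in `S` (else it is non-cut in `S`), so there is at most one such `e'`; hence `Bal g (S.erase e)` by induction, and `e` has at most one neighbour, so `Bal g S`.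
-/

set_option autoImplicit false

noncomputable section

namespace Pool.Agent.QUA

open Pool.Agent.FRM

variable {V : Type} [DecidableEq V] {t : V → Bool} {g : V → V → F4}

private theorem cc1_symm (hg : Hm t g) {x y : V} (h : g x y ≠ 0) : g y x ≠ 0 := by
  rw [hg.inv x y]
  exact inv_ne_zero h

theorem cn_insert (hg : Hm t g) {S : Finset V} {x : V} (hC : Cn g S) (h : ∃ y ∈ S, g x y ≠ 0) : Cn g (insert x S) := by
  obtain ⟨y, hy, hxy⟩ := h
  by_cases hxS : x ∈ S
  · rw [Finset.insert_eq_of_mem hxS]
    exact hC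
  intro A hA hne hne'
  by_cases h1 : (A ∩ S).Nonempty
  · by_cases h2 : (S \ A).Nonempty
    · have h3 : S \ (A ∩ S) = S \ A := by
        ext z
        simp only [Finset.mem_sdiff, Finset.mem_inter]
        tauto
      obtain ⟨u, hu, v, hv, huv⟩ := hC (A ∩ S) Finset.inter_subset_right h1 (by rw [h3]; exact h2)
      rw [h3] at hv
      refine ⟨u, (Finset.mem_inter.1 hu).1, v, ?_, huv⟩
      rw [Finset.mem_sdiff] at hv ⊢
      exact ⟨Finset.mem_insert_of_mem hv.1, hv.2⟩
    · rw [Finset.not_nonempty_iff_eq_empty, Finset.sdiff_eq_empty_iff_subset] at h2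
      obtain ⟨z, hz⟩ := hne'
      obtain ⟨hz1, hz2⟩ := Finset.mem_sdiff.1 hz
      have hzx : z = x := by
        rcases Finset.mem_insert.1 hz1 with h | h
        · exact h
        · exact absurd (h2 h) hz2
      subst hzx
      exact ⟨y, h2 hy, z, hz, cc1_symm hg hxy⟩
  · rw [Finset.not_nonempty_iff_eq_empty] at h1
    obtain ⟨z, hz⟩ := hne
    have hzx : z = x := by
      rcases Finset.mem_insert.1 (hA hz) with h | h
      · exact h
      · have h3 : z ∈ A ∩ S := Finset.mem_inter.2 ⟨hz, h⟩
        rw [h1] at h3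
        exact absurd h3 (Finset.notMem_empty z)
    subst hzx
    refine ⟨z, hz, y, Finset.mem_sdiff.2 ⟨Finset.mem_insert_of_mem hy, fun hyA => ?_⟩, hxy⟩
    have h3 : y ∈ A ∩ S := Finset.mem_inter.2 ⟨hyA, hy⟩
    rw [h1] at h3
    exact absurd h3 (Finset.notMem_empty y)

theorem ex_noncut (hg : Hm t g) {S : Finset V} (hC : Cn g S) {b : V} (hb : b ∈ S) (h2 : 2 ≤ S.card) :
    ∃ x ∈ S, x ≠ b ∧ Cn g (S.erase x) := by
  classical
  have hne : (S.powerset.filter fun T => b ∈ T ∧ T ≠ S ∧ Cn g T).Nonempty := by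
    refine ⟨{b}, Finset.mem_filter.2 ⟨Finset.mem_powerset.2 (Finset.singleton_subset_iff.2 hb),
      Finset.mem_singleton_self b, ?_, ?_⟩⟩
    · intro h
      rw [← h, Finset.card_singleton] at h2
      omega
    · intro A hA h1 h3
      exfalso
      rcases Finset.subset_singleton_iff.1 hA with h | h
      · rw [h] at h1
        exact Finset.not_nonempty_empty h1
      · rw [h, Finset.sdiff_self] at h3
        exact Finset.not_nonempty_empty h3
  obtain ⟨T, hT, hmax⟩ := Finset.exists_max_image _ Finset.card hne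
  obtain ⟨hTS, hbT, hTne, hTC⟩ := Finset.mem_filter.1 hT
  rw [Finset.mem_powerset] at hTS
  have hSTne : (S \ T).Nonempty := by
    rw [Finset.nonempty_iff_ne_empty]
    intro h
    rw [Finset.sdiff_eq_empty_iff_subset] at h
    exact hTne (Finset.Subset.antisymm hTS h)
  obtain ⟨y, hy, x, hx, hxy⟩ := hC T hTS ⟨b, hbT⟩ hSTne
  obtain ⟨hxS, hxT⟩ := Finset.mem_sdiff.1 hx
  have hIC : Cn g (insert x T) := cn_insert hg hTC ⟨y, hy, cc1_symm hg hxy⟩
  have hIS : insert x T = S := by
    by_contra hne'
    have h1 := hmax (insert x T) (Finset.mem_filter.2 ⟨Finset.mem_powerset.2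
      (Finset.insert_subset hxS hTS), Finset.mem_insert_of_mem hbT, hne', hIC⟩)
    rw [Finset.card_insert_of_notMem hxT] at h1
    omega
  refine ⟨x, hxS, ?_, ?_⟩
  · intro h
    rw [h] at hxT
    exact hxT hbT
  · rw [← hIS, Finset.erase_insert hxT]
    exact hTC

private theorem cc1_aux (hg : Hm t g) (n : ℕ) : ∀ S : Finset V, S.card = n → Cn g S → ∀ b ∈ S, ¬ Bal g S →
    ∃ e ∈ S, ∃ e' ∈ S, e ≠ e' ∧ e ≠ b ∧ e' ≠ b ∧ Cn g (S.erase e) ∧ Cn g (S.erase e') := by
  classical
  induction n with
  | zero =>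
    intro S hS _ b hb _
    rw [Finset.card_eq_zero] at hS
    rw [hS] at hb
    exact absurd hb (Finset.notMem_empty b)
  | succ n ih =>
    intro S hS hC b hb hU
    have h4 : 4 ≤ S.card := by
      by_contra h
      exact hU (bal_card hg (by omega))
    obtain ⟨e, heS, heb, heC⟩ := ex_noncut hg hC hb (by omega)
    by_contra hcon
    push Not at hcon
    have hcon' : ∀ e' ∈ S, e' ≠ e → e' ≠ b → ¬ Cn g (S.erase e') := by
      intro e' he' hne hb' hc
      exact hcon e heS e' he' hne.symm heb hb' heC hc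
    have hbE : b ∈ S.erase e := Finset.mem_erase.2 ⟨heb.symm, hb⟩
    have hcard : (S.erase e).card = n := by
      rw [Finset.card_erase_of_mem heS, hS]
      omega
    -- an element which is non-cut in `S.erase e` is the only neighbour of `e`
    have key : ∀ e' ∈ S.erase e, e' ≠ b → Cn g ((S.erase e).erase e') → ∀ y ∈ S.erase e, g e y ≠ 0 → y = e' := by
      intro e' he' heb' hc y hy hey
      by_contra hye
      obtain ⟨hee', heS'⟩ := Finset.mem_erase.1 he'
      refine hcon' e' heS' hee' heb' ?_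
      have h1 := cn_insert hg hc ⟨y, Finset.mem_erase.2 ⟨hye, hy⟩, hey⟩
      have h2 : insert e ((S.erase e).erase e') = S.erase e' := by
        rw [Finset.erase_right_comm, Finset.insert_erase (Finset.mem_erase.2 ⟨hee'.symm, heS⟩)]
      rw [h2] at h1
      exact h1
    -- `e` has a neighbour
    obtain ⟨y, hy, hey⟩ : ∃ y ∈ S.erase e, g e y ≠ 0 := by
      have h1 : (S \ {e}).Nonempty := ⟨b, Finset.mem_sdiff.2 ⟨hb, by
        rw [Finset.mem_singleton]
        exact heb.symm⟩⟩
      obtain ⟨x, hx, y, hy, hxy⟩ := hC {e} (Finset.singleton_subset_iff.2 heS) (Finset.singleton_nonempty e) h1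
      rw [Finset.mem_singleton] at hx
      rw [hx] at hxy
      rw [Finset.sdiff_singleton_eq_erase] at hy
      exact ⟨y, hy, hxy⟩
    have hBE : Bal g (S.erase e) := by
      by_contra hB
      obtain ⟨e₁, h1, e₂, h2, h12, h1b, h2b, hc1, hc2⟩ := ih (S.erase e) hcard heC b hbE hB
      exact h12 ((key e₁ h1 h1b hc1 y hy hey).symm.trans (key e₂ h2 h2b hc2 y hy hey))
    obtain ⟨e', he', heb', hc'⟩ := ex_noncut hg heC hbE (by omega)
    have hon : ∀ z ∈ S.erase e, g e z ≠ 0 → z = e' := key e' he' heb' hc'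
    have hye : y = e' := hon y hy hey
    rw [hye] at hey
    obtain ⟨p, hp, hpS⟩ := hBE
    apply hU
    have hee' : e' ≠ e := (Finset.mem_erase.1 he').1
    refine ⟨fun z => if z = e then g e e' * p e' else p z, fun z => ?_, fun x hx z hz hxz => ?_⟩
    · by_cases hz : z = e
      · simp only [hz, if_true]
        exact mul_ne_zero hey (hp e')
      · simp only [hz, if_false]
        exact hp z
    · by_cases hxe : x = e
      · have hze : z ≠ e := by
          intro h
          rw [hxe, h] at hxz
          exact hxz (hg.bip e e rfl)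
        rw [hxe] at hxz
        have h1 : z = e' := hon z (Finset.mem_erase.2 ⟨hze, hz⟩) hxz
        simp only [hxe, h1, if_true, hee', if_false]
        rw [mul_assoc, mul_inv_cancel₀ (hp e'), mul_one]
      · by_cases hze : z = e
        · rw [hze] at hxz
          have h1 : x = e' := hon x (Finset.mem_erase.2 ⟨hxe, hx⟩) (cc1_symm hg hxz)
          simp only [hze, h1, if_true, hee', if_false]
          rw [mul_inv, mul_comm (g e e')⁻¹, ← mul_assoc, mul_inv_cancel₀ (hp e'), one_mul]
          exact hg.inv e e'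
        · simp only [hxe, hze, if_false]
          exact hpS x (Finset.mem_erase.2 ⟨hxe, hx⟩) z (Finset.mem_erase.2 ⟨hze, hz⟩) hxz

theorem two_noncut (hg : Hm t g) {S : Finset V} (hC : Cn g S) {b : V} (hb : b ∈ S) (hU : ¬ Bal g S) :
    ∃ e ∈ S, ∃ e' ∈ S, e ≠ e' ∧ e ≠ b ∧ e' ≠ b ∧ Cn g (S.erase e) ∧ Cn g (S.erase e') :=
  cc1_aux hg S.card S rfl hC b hb hU

end Pool.Agent.QUA
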