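import Pool.Agent.QUA.T4a
import Pool.Agent.FRM.Dfm

/-!
# QUA/Xg: the Gram determinant of `[1 | H]` and of `H`

`gram_fin`: `det_formula` (FRM/Dfm) with `w = 1` (and `dC_nonneg`: `dC` is real). `gram_one`: reindex the columns by `finSumFinEquiv`; the sets `G` of `m` columns are `Pᶜ ⊔ Q` with `P ⊆ Fin m`, `Q ⊆ Fin l`, `P.card = Q.card`, and
`dC ([1 | H]_G) = dC (H[P, Q])` by `dC_C` for the rows `Pᶜ ⊕ P` and the columns `Pᶜ ⊕ Q` (`dC_perm` for the order).
-/

set_option autoImplicit false

noncomputable section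

open scoped Matrix

namespace Pool.Agent.QUA

open Pool.Agent.FRM

private theorem Xg_re {R : Type} [Fintype R] [DecidableEq R] (M : Matrix R R Hq) : dC M = ((dC M).re : ℂ) := by
  obtain ⟨a, _, h⟩ := dC_nonneg M
  rw [h, Complex.ofReal_re]

private theorem Xg_reindex {T T' : Type} [Fintype T] [DecidableEq T] [Fintype T'] [DecidableEq T'] (B : Matrix T T Hq)
    (ρ γ : T' ≃ T) : dC (B.submatrix ρ γ) = dC B := by
  have h1 : B.submatrix ρ γ = (B.submatrix id (ρ.symm.trans γ)).submatrix ρ ρ := by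
    refine Matrix.ext fun i j => ?_
    show B (ρ i) (γ j) = B (ρ i) (γ (ρ.symm (ρ j)))
    rw [Equiv.symm_apply_apply]
  rw [h1]
  have h2 : dC ((B.submatrix id (ρ.symm.trans γ)).submatrix ρ ρ) = dC (B.submatrix id (ρ.symm.trans γ)) := by
    unfold dC
    have h3 : chi ((B.submatrix id (ρ.symm.trans γ)).submatrix ρ ρ) =
        (chi (B.submatrix id (ρ.symm.trans γ))).submatrix (Equiv.prodCongr ρ (Equiv.refl (Fin 2)))
          (Equiv.prodCongr ρ (Equiv.refl (Fin 2))) := rfl
    rw [h3, Matrix.det_submatrix_equiv_self]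
  rw [h2]
  exact (dC_perm B (ρ.symm.trans γ)).1

private theorem Xg_range {m : ℕ} {J T T' : Type} [Fintype T] [DecidableEq T] [Fintype T'] [DecidableEq T']
    (M : Matrix (Fin m) J Hq) {f : T → J} (hf : Function.Injective f) {f' : T' → J} (hf' : Function.Injective f')
    (hr : Set.range f' = Set.range f) (r : T ≃ Fin m) (r' : T' ≃ Fin m) :
    dC (M.submatrix r f) = dC (M.submatrix r' f') := by
  let γ : T' ≃ T := ((Equiv.ofInjective f' hf').trans (Equiv.setCongr hr)).trans (Equiv.ofInjective f hf).symm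
  have hγ : ∀ x, f (γ x) = f' x := by
    intro x
    exact Equiv.apply_ofInjective_symm hf _
  have h1 : M.submatrix r' f' = (M.submatrix r f).submatrix (r'.trans r.symm) γ := by
    refine Matrix.ext fun i j => ?_
    show M (r' i) (f' j) = M (r (r.symm (r' i))) (f (γ j))
    rw [hγ, Equiv.apply_symm_apply]
  rw [h1, Xg_reindex]

private theorem Xg_key {m l : ℕ} (M : Matrix (Fin m) (Fin m ⊕ Fin l) Hq)
    (h1 : ∀ i j, M i (Sum.inl j) = if i = j then 1 else 0) (P : Finset (Fin m)) (Q : Finset (Fin l)) (h : Q.card = P.card)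
    {f : Fin m → Fin m ⊕ Fin l} (hf : Function.Injective f)
    (hr : Set.range f = {x | x ∈ Pᶜ.disjSum Q}) :
    dC (M.submatrix id f) =
      dC (Matrix.of fun (a b : Fin P.card) => M (P.orderEmbOfFin rfl a) (Sum.inr (Q.orderEmbOfFin h b))) := by
  let r0 : (↥(Pᶜ) ⊕ Fin P.card) → Fin m := Sum.elim Subtype.val (P.orderEmbOfFin rfl)
  have hmem : ∀ a, P.orderEmbOfFin rfl a ∈ P := fun a => Finset.orderEmbOfFin_mem P rfl a
  have hmemQ : ∀ a, Q.orderEmbOfFin h a ∈ Q := fun a => Finset.orderEmbOfFin_mem Q h a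
  have hr0 : Function.Bijective r0 := by
    constructor
    · rintro (x | x) (y | y) hxy
      · exact congrArg Sum.inl (Subtype.ext hxy)
      · exfalso
        have h2 : (x : Fin m) = P.orderEmbOfFin rfl y := hxy
        have h3 := hmem y
        rw [← h2] at h3
        exact (Finset.mem_compl.1 x.2) h3
      · exfalso
        have h2 : P.orderEmbOfFin rfl x = (y : Fin m) := hxy
        have h3 := hmem x
        rw [h2] at h3
        exact (Finset.mem_compl.1 y.2) h3
      · exact congrArg Sum.inr ((P.orderEmbOfFin rfl).injective hxy)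
    · intro x
      by_cases hx : x ∈ P
      · have h2 : x ∈ Set.range (P.orderEmbOfFin rfl) := by
          rw [Finset.range_orderEmbOfFin]
          exact hx
        obtain ⟨a, ha⟩ := h2
        exact ⟨Sum.inr a, ha⟩
      · exact ⟨Sum.inl ⟨x, Finset.mem_compl.2 hx⟩, rfl⟩
  let f0 : (↥(Pᶜ) ⊕ Fin P.card) → Fin m ⊕ Fin l :=
    Sum.elim (fun x => Sum.inl x.1) (fun b => Sum.inr (Q.orderEmbOfFin h b))
  have hf0 : Function.Injective f0 := by
    rintro (x | x) (y | y) hxy
    · exact congrArg Sum.inl (Subtype.ext (Sum.inl_injective hxy))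
    · exact absurd hxy (by simp [f0])
    · exact absurd hxy (by simp [f0])
    · exact congrArg Sum.inr ((Q.orderEmbOfFin h).injective (Sum.inr_injective hxy))
  have hrf : Set.range f0 = Set.range f := by
    rw [hr]
    ext x
    constructor
    · rintro ⟨y, rfl⟩
      rcases y with y | y
      · exact Finset.inl_mem_disjSum.2 y.2
      · exact Finset.inr_mem_disjSum.2 (hmemQ y)
    · intro hx
      rcases x with x | x
      · exact ⟨Sum.inl ⟨x, Finset.inl_mem_disjSum.1 hx⟩, rfl⟩
      · have h2 : x ∈ Set.range (Q.orderEmbOfFin h) := by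
          rw [Finset.range_orderEmbOfFin]
          exact Finset.inr_mem_disjSum.1 hx
        obtain ⟨a, ha⟩ := h2
        exact ⟨Sum.inr a, congrArg Sum.inr ha⟩
  have h2 := Xg_range M hf hf0 hrf (Equiv.refl (Fin m)) (Equiv.ofBijective r0 hr0)
  have h3 : M.submatrix (Equiv.refl (Fin m)) f = M.submatrix id f := rfl
  rw [h3] at h2
  rw [h2]
  have h4 : M.submatrix (Equiv.ofBijective r0 hr0) f0 =
      (Matrix.fromBlocks (1 : Matrix ↥(Pᶜ) ↥(Pᶜ) Hq)
        (Matrix.of fun (a : ↥(Pᶜ)) (b : Fin P.card) => M a.1 (Sum.inr (Q.orderEmbOfFin h b))) 0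
        (Matrix.of fun (a b : Fin P.card) => M (P.orderEmbOfFin rfl a) (Sum.inr (Q.orderEmbOfFin h b)))).submatrix id
        (Equiv.refl (↥(Pᶜ) ⊕ Fin P.card)) := by
    refine Matrix.ext fun i j => ?_
    rcases i with i | i
    · rcases j with j | j
      · show M i.1 (Sum.inl j.1) = (1 : Matrix ↥(Pᶜ) ↥(Pᶜ) Hq) i j
        rw [h1, Matrix.one_apply]
        by_cases hij : i = j
        · rw [if_pos hij, if_pos (congrArg Subtype.val hij)]
        · rw [if_neg hij, if_neg fun h5 => hij (Subtype.ext h5)]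
      · rfl
    · rcases j with j | j
      · show M (P.orderEmbOfFin rfl i) (Sum.inl j.1) = 0
        rw [h1]
        refine if_neg fun h5 => ?_
        have h6 := hmem i
        rw [h5] at h6
        exact (Finset.mem_compl.1 j.2) h6
      · rfl
  rw [h4, dC_C _ _ _ _ (Equiv.refl _) (Equiv.refl _)]
  have h5 : (1 : Matrix ↥(Pᶜ) ↥(Pᶜ) Hq).submatrix id (Equiv.refl ↥(Pᶜ)) = 1 := rfl
  rw [h5, dC_one, one_mul]
  rfl

theorem gram_fin {m l : ℕ} (M : Matrix (Fin m) (Fin l) Hq) :
    ((chi M) * (chi M)ᴴ).det =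
      ((∑ S : Finset (Fin l), if h : S.card = m then (dC (M.submatrix id (S.orderEmbOfFin h))).re else 0 : ℝ) : ℂ) ^ 2 := by
  have h0 := det_formula M (w := fun _ => (1 : ℝ)) (fun _ => zero_le_one)
  have h1 : Matrix.diagonal (fun x : Fin l × Fin 2 => (((fun _ : Fin l => (1 : ℝ)) x.1 : ℝ) : ℂ)) =
      (1 : Matrix (Fin l × Fin 2) (Fin l × Fin 2) ℂ) := by
    ext i j
    by_cases hij : i = j
    · subst hij
      simp
    · simp [Matrix.diagonal_apply_ne _ hij, Matrix.one_apply_ne hij]
  rw [h1, Matrix.mul_one] at h0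
  rw [h0, Complex.ofReal_sum]
  congr 1
  refine Finset.sum_congr rfl fun S _ => ?_
  by_cases h : S.card = m
  · rw [dif_pos h, dif_pos h, Finset.prod_const_one, Complex.ofReal_one, one_mul]
    exact Xg_re _
  · rw [dif_neg h, dif_neg h, Complex.ofReal_zero]

theorem gram_one {m l : ℕ} (M : Matrix (Fin m) (Fin m ⊕ Fin l) Hq) (h1 : ∀ i j, M i (Sum.inl j) = if i = j then 1 else 0) :
    ((chi M) * (chi M)ᴴ).det =
      ((∑ P : Finset (Fin m), ∑ Q : Finset (Fin l), if h : Q.card = P.card then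
        (dC (Matrix.of fun (a b : Fin P.card) => M (P.orderEmbOfFin rfl a) (Sum.inr (Q.orderEmbOfFin h b)))).re else 0 : ℝ) : ℂ) ^ 2 := by
  let M' : Matrix (Fin m) (Fin (m + l)) Hq := M.submatrix id finSumFinEquiv.symm
  have hM : (chi M) * (chi M)ᴴ = (chi M') * (chi M')ᴴ := by
    have h2 : chi M' = (chi M).submatrix id (Equiv.prodCongr (finSumFinEquiv (m := m) (n := l)).symm (Equiv.refl (Fin 2))) := rfl
    rw [h2, Matrix.conjTranspose_submatrix, Matrix.submatrix_mul_equiv]
    rfl
  rw [hM, gram_fin M']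
  congr 2
  let E : Finset (Fin m) × Finset (Fin l) ≃ Finset (Fin (m + l)) :=
    ((Equiv.prodCongr (Equiv.ofBijective (fun P : Finset (Fin m) => Pᶜ) compl_bijective) (Equiv.refl _)).trans
      Finset.sumEquiv.symm.toEquiv).trans (Equiv.finsetCongr finSumFinEquiv)
  have hE : ∀ P Q, E (P, Q) = (Pᶜ.disjSum Q).map finSumFinEquiv.toEmbedding := by
    intro P Q
    rfl
  rw [← Fintype.sum_prod_type', ← Equiv.sum_comp E]
  refine Finset.sum_congr rfl fun x _ => ?_
  obtain ⟨P, Q⟩ := x
  have hc : (E (P, Q)).card = m - P.card + Q.card := by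
    rw [hE, Finset.card_map, Finset.card_disjSum, Finset.card_compl, Fintype.card_fin]
  have hP : P.card ≤ m := by
    have h2 := Finset.card_le_univ P
    rwa [Fintype.card_fin] at h2
  by_cases h : Q.card = P.card
  · have h2 : (E (P, Q)).card = m := by
      rw [hc, h]
      omega
    rw [dif_pos h2]
    show _ = if h : Q.card = P.card then _ else _
    rw [dif_pos h]
    congr 1
    have h3 : M'.submatrix id ((E (P, Q)).orderEmbOfFin h2) =
        M.submatrix id (fun a => finSumFinEquiv.symm ((E (P, Q)).orderEmbOfFin h2 a)) := rfl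
    rw [h3]
    refine Xg_key M h1 P Q h (fun a b hab => ((E (P, Q)).orderEmbOfFin h2).injective (finSumFinEquiv.symm.injective hab)) ?_
    ext x
    constructor
    · rintro ⟨y, rfl⟩
      have h4 := Finset.orderEmbOfFin_mem (E (P, Q)) h2 y
      exact Finset.mem_map_equiv.1 ((Finset.ext_iff.1 (hE P Q) _).1 h4)
    · intro hx
      have h4 : finSumFinEquiv x ∈ Set.range ((E (P, Q)).orderEmbOfFin h2) := by
        rw [Finset.range_orderEmbOfFin, Finset.mem_coe, hE, Finset.mem_map_equiv, Equiv.symm_apply_apply]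
        exact hx
      obtain ⟨y, hy⟩ := h4
      refine ⟨y, ?_⟩
      show finSumFinEquiv.symm ((E (P, Q)).orderEmbOfFin h2 y) = x
      rw [hy, Equiv.symm_apply_apply]
  · have h2 : ¬(E (P, Q)).card = m := by
      rw [hc]
      omega
    rw [dif_neg h2]
    show _ = if h : Q.card = P.card then _ else _
    rw [dif_neg h]

end Pool.Agent.QUA
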