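import Pool.Agent.QUA.Gm2
import Pool.Agent.QUA.Xg

/-!
# QUA/En2: energies of tables

`ens_eq`: the integer energy of a table is the fourth power of the sum of the complex determinants of all square submatrices.
`enc_fin`: the same for the maximal square submatrices.
-/

set_option autoImplicit false

noncomputable section

namespace Pool.Agent.QUA

open scoped Matrix

open Pool.Agent.FRM

private theorem En2_ns (x : ℝ) : Complex.normSq ((x : ℂ) ^ 2) = x ^ 4 := by
  rw [map_pow, Complex.normSq_ofReal]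
  ring

private theorem En2_bq0 : FRN.bq 0 = 0 := by
  unfold FRN.bq
  rw [if_pos rfl]

private theorem En2_bq1 : FRN.bq 1 = 1 := by
  unfold FRN.bq
  rw [if_neg one_ne_zero, if_pos rfl]

private theorem En2_sig {k : ℕ} {f f' : Fin k → ℕ} (hf : Function.Injective f) (hf' : Function.Injective f')
    (hr : Set.range f = Set.range f') : ∃ σ : Equiv.Perm (Fin k), ∀ a, f' a = f (σ a) := by
  refine ⟨(Equiv.ofInjective f' hf').trans ((Equiv.setCongr hr.symm).trans (Equiv.ofInjective f hf).symm), fun a => ?_⟩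
  simp only [Equiv.trans_apply]
  rw [Equiv.apply_ofInjective_symm hf]
  rfl

private theorem En2_perm (H : ℕ → ℕ → Hq) {k k' : ℕ} (hk : k = k') (f g : Fin k → ℕ) (f' g' : Fin k' → ℕ)
    (hf : Function.Injective f) (hf' : Function.Injective f') (hg : Function.Injective g) (hg' : Function.Injective g')
    (hr : Set.range f = Set.range f') (hr' : Set.range g = Set.range g') : dC (sm H f g) = dC (sm H f' g') := by
  subst hk
  obtain ⟨σ, hσ⟩ := En2_sig hf hf' hr
  obtain ⟨τ, hτ⟩ := En2_sig hg hg' hr'
  have h : sm H f' g' = ((sm H f g).submatrix id τ).submatrix σ id := by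
    refine Matrix.ext fun a b => ?_
    simp only [sm, Matrix.of_apply, Matrix.submatrix_apply, id_eq, hσ, hτ]
  rw [h, (dC_perm _ σ).2, (dC_perm _ τ).1]

/-- the embedding given by a list without repetitions -/
private def En2_e (W : List ℕ) (hW : W.Nodup) : Fin W.length ↪ ℕ := ⟨W.get, List.nodup_iff_injective_get.1 hW⟩

private theorem En2_sum (W : List ℕ) (hW : W.Nodup) {S : Finset ℕ} (hS : ∀ x, x ∈ S ↔ x ∈ W) (G : Finset ℕ → ℝ) :
    ∑ P ∈ S.powerset, G P = ∑ P : Finset (Fin W.length), G (P.map (En2_e W hW)) := by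
  symm
  refine Finset.sum_bij (fun P _ => P.map (En2_e W hW)) ?_ ?_ ?_ ?_
  · intro P _
    rw [Finset.mem_powerset]
    intro x hx
    obtain ⟨i, _, rfl⟩ := Finset.mem_map.1 hx
    exact (hS _).2 (List.get_mem W i)
  · intro P _ Q _ h
    exact Finset.map_injective _ h
  · intro Q hQ
    rw [Finset.mem_powerset] at hQ
    refine ⟨Finset.univ.filter fun i => W.get i ∈ Q, Finset.mem_univ _, ?_⟩
    ext x
    rw [Finset.mem_map]
    constructor
    · rintro ⟨i, hi, rfl⟩
      exact (Finset.mem_filter.1 hi).2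
    · intro hx
      obtain ⟨i, hi⟩ := List.mem_iff_get.1 ((hS x).1 (hQ hx))
      exact ⟨i, Finset.mem_filter.2 ⟨Finset.mem_univ _, by rw [hi]; exact hx⟩, hi⟩
  · intro P _
    rfl

private theorem En2_rng (W : List ℕ) (hW : W.Nodup) (P : Finset (Fin W.length)) {k : ℕ} (h : P.card = k) :
    Set.range (fun a => W.get (P.orderEmbOfFin h a)) = ↑(P.map (En2_e W hW)) := by
  rw [Finset.coe_map]
  have h1 : (fun a => W.get (P.orderEmbOfFin h a)) = (En2_e W hW) ∘ (P.orderEmbOfFin h) := rfl
  rw [h1, Set.range_comp, Finset.range_orderEmbOfFin]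

theorem ens_eq (r : ℕ) {S : List ℕ} (hS : S.Nodup) {A : Tb} (hA : ∀ p ∈ A, p.2 < 26) :
    ((ens r S A : ℕ) : ℝ) = 256 ^ (rwl r S).length * wts (tt r) (HT r A) S.toFinset ^ 4 := by
  have hW : (rwl r S).Nodup := List.Nodup.filter _ hS
  have hL : (cll r S).Nodup := List.Nodup.filter _ hS
  have hWr : ∀ x ∈ rwl r S, x < r := fun x hx => by simpa using (List.mem_filter.1 hx).2
  have hLr : ∀ x ∈ cll r S, ¬ x < r := fun x hx => by simpa using (List.mem_filter.1 hx).2
  unfold ens
  rw [enc_eq _ _ _ hA, gram_one ((Kc (rwl r S) (rwl r S) (cll r S) A).map FRN.bq) (by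
    intro i j
    rw [Matrix.map_apply]
    change FRN.bq (FRN.ulk ((rwl r S).get j) ((rwl r S).get i)) = _
    unfold FRN.ulk
    by_cases hij : i = j
    · rw [if_pos hij, hij, if_pos (decide_eq_true rfl), En2_bq1]
    · rw [if_neg hij, if_neg, En2_bq0]
      intro h
      rw [decide_eq_true_iff] at h
      exact hij ((List.nodup_iff_injective_get.1 hW) h).symm), En2_ns]
  congr 2
  unfold wts
  rw [En2_sum (rwl r S) hW (S := S.toFinset.filter fun x => tt r x = true) (by
    intro x
    rw [Finset.mem_filter, List.mem_toFinset]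
    unfold rwl tt
    rw [List.mem_filter])]
  refine Finset.sum_congr rfl fun P _ => ?_
  rw [En2_sum (cll r S) hL (S := S.toFinset.filter fun x => tt r x = false) (by
    intro x
    rw [Finset.mem_filter, List.mem_toFinset]
    unfold cll tt
    rw [List.mem_filter]
    simp)]
  refine Finset.sum_congr rfl fun Q _ => ?_
  by_cases h : Q.card = P.card
  · have h' : (Q.map (En2_e (cll r S) hL)).card = (P.map (En2_e (rwl r S) hW)).card := by
      rw [Finset.card_map, Finset.card_map, h]
    rw [dif_pos h, dif_pos h']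
    have e1 : (Matrix.of fun (a b : Fin P.card) => (Kc (rwl r S) (rwl r S) (cll r S) A).map FRN.bq
        (P.orderEmbOfFin rfl a) (Sum.inr (Q.orderEmbOfFin h b))) =
        sm (HT r A) (fun a => (rwl r S).get (P.orderEmbOfFin rfl a)) fun b => (cll r S).get (Q.orderEmbOfFin h b) := by
      refine Matrix.ext fun a b => ?_
      simp only [sm, Matrix.of_apply, Matrix.map_apply]
      change FRN.bq (lk2 A ((rwl r S).get (P.orderEmbOfFin rfl a)) ((cll r S).get (Q.orderEmbOfFin h b))) = _
      unfold HT
      rw [if_pos ⟨hWr _ (List.get_mem _ _), hLr _ (List.get_mem _ _)⟩]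
    rw [e1]
    congr 1
    refine En2_perm _ (Finset.card_map _).symm _ _ _ _ ?_ (Finset.orderEmbOfFin _ _).injective ?_
      (Finset.orderEmbOfFin _ _).injective ?_ ?_
    · exact (List.nodup_iff_injective_get.1 hW).comp (Finset.orderEmbOfFin _ _).injective
    · exact (List.nodup_iff_injective_get.1 hL).comp (Finset.orderEmbOfFin _ _).injective
    · rw [En2_rng _ hW, Finset.range_orderEmbOfFin]
    · rw [En2_rng _ hL, Finset.range_orderEmbOfFin]
  · have h' : ¬ (Q.map (En2_e (cll r S) hL)).card = (P.map (En2_e (rwl r S) hW)).card := by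
      rw [Finset.card_map, Finset.card_map]
      exact h
    rw [dif_neg h, dif_neg h']

theorem enc_fin (W L : List ℕ) {A : Tb} (hA : ∀ p ∈ A, p.2 < 26) :
    ((enc W [] L A : ℕ) : ℝ) = 256 ^ W.length *
      (∑ B : Finset (Fin L.length), if h : B.card = W.length then
        (dC (Matrix.of fun (a b : Fin W.length) => FRN.bq (lk2 A (W.get a) (L.get (B.orderEmbOfFin h b))))).re else 0) ^ 4 := by
  rw [enc_eq _ _ _ hA]
  congr 1
  set M' : Matrix (Fin W.length) (Fin ([] : List ℕ).length ⊕ Fin L.length) Hq := (Kc W [] L A).map FRN.bq with hM'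
  have : IsEmpty (Fin ([] : List ℕ).length) := show IsEmpty (Fin 0) from inferInstance
  let e : (Fin L.length × Fin 2) ≃ ((Fin ([] : List ℕ).length ⊕ Fin L.length) × Fin 2) :=
    Equiv.prodCongrLeft fun _ => (Equiv.emptySum (Fin ([] : List ℕ).length) (Fin L.length)).symm
  have h1 : chi M' * (chi M')ᴴ = chi (M'.submatrix id Sum.inr) * (chi (M'.submatrix id Sum.inr))ᴴ := by
    have h2 : chi (M'.submatrix id Sum.inr) = (chi M').submatrix id e := rfl
    rw [h2, Matrix.conjTranspose_submatrix, Matrix.submatrix_mul_equiv, Matrix.submatrix_id_id]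
  rw [h1, gram_fin, En2_ns]
  rfl

end Pool.Agent.QUA
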