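import Pool.Agent.QUA.P1

/-!
# QUA/P2: the number of valid extensions over one element is bounded

`ext_bound`: induction on `S.card`. If `Ok g S`, the extensions are determined by two Hurwitz units (`24 * 24 = 576`); otherwise `f` lies in a side
of a separation of order one and the extensions are determined by their restriction to the side and one further element.
-/

set_option autoImplicit false

noncomputable section

namespace Pool.Agent.QUA

open Pool.Agent.FRM

variable {V : Type} [DecidableEq V] {t : V → Bool} {g : V → V → F4} {S : Finset V}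

/-- `H` extended by the entries `h` at `f` -/
def xt (H : V → V → Hq) (f : V) (h : V → Hq) (x y : V) : Hq :=
  if x = f then (if y = f then 0 else h y) else if y = f then star (h x) else H x y

open scoped Classical in
/-- the Hurwitz units -/
private def P2_U : Finset Hq := (Finset.range 24).image FRN.qv

private theorem P2_sub (q : Hq) (hq : HU q) : q ∈ P2_U := by
  classical
  obtain ⟨k, hk, hq'⟩ := (FRN.hu_iff q).1 hq
  unfold P2_U
  exact Finset.mem_image.2 ⟨k, Finset.mem_range.2 hk, hq'.symm⟩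

private theorem P2_cd : P2_U.card ≤ 24 := by
  classical
  have h1 : P2_U.card ≤ (Finset.range 24).card := by
    unfold P2_U
    exact Finset.card_image_le
  rwa [Finset.card_range] at h1

theorem hu_card (T : Finset Hq) (h : ∀ q ∈ T, HU q) : T.card ≤ 24 :=
  (Finset.card_le_card fun q hq => P2_sub q (h q hq)).trans P2_cd

private theorem P2_fy (H : V → V → Hq) (f : V) (h : V → Hq) {y : V} (hy : y ≠ f) : xt H f h f y = h y := by
  unfold xt
  rw [if_pos rfl, if_neg hy]

private theorem P2_xy (H : V → V → Hq) (f : V) (h : V → Hq) {x y : V} (hx : x ≠ f) (hy : y ≠ f) : xt H f h x y = H x y := by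
  unfold xt
  rw [if_neg hx, if_neg hy]

private theorem P2_sym {H : V → V → Hq} (hs : ∀ x y, H y x = star (H x y)) (f : V) (h : V → Hq) (x y : V) :
    xt H f h y x = star (xt H f h x y) := by
  unfold xt
  by_cases hx : x = f
  · by_cases hy : y = f
    · rw [if_pos hy, if_pos hx, if_pos hx, if_pos hy, star_zero]
    · rw [if_neg hy, if_pos hx, if_pos hx, if_neg hy]
  · by_cases hy : y = f
    · rw [if_pos hy, if_neg hx, if_neg hx, if_pos hy, star_star]
    · rw [if_neg hy, if_neg hx, if_neg hx, if_neg hy]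
      exact hs x y

private theorem P2_ok (hg : Hm t g) (hE : EU t g S) {f b : V} (hf : f ∈ S) (hb : b ∈ S.erase f) (hO : Ok g S) (hC : Cn g S)
    (hC' : Cn g (S.erase f)) {H : V → V → Hq} (hH : Val t g H (S.erase f)) (T : Finset (V → Hq))
    (hT : ∀ h ∈ T, (∀ y, y ∉ S.erase f → h y = 0) ∧ Val t g (xt H f h) S) : T.card ≤ 576 := by
  classical
  rcases T.eq_empty_or_nonempty with he | ⟨h0, hh0⟩
  · rw [he, Finset.card_empty]
    norm_num
  · have hex : ∀ h ∈ T, ∃ w : V → Hq, (∀ x, HU (w x)) ∧ ∀ x ∈ S, ∀ y ∈ S, xt H f h x y = w x * xt H f h0 x y * star (w y) :=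
      fun h hh => hE.un S (Finset.Subset.refl S) hC hO _ _ (hT h0 hh0).2 (hT h hh).2
    choose! w hw hwe using hex
    have hfix : ∀ h ∈ T, ∀ x ∈ S.erase f, ∀ y ∈ S.erase f, w h x * H x y * star (w h y) = H x y := by
      intro h hh x hx y hy
      obtain ⟨hxf, hxS⟩ := Finset.mem_erase.1 hx
      obtain ⟨hyf, hyS⟩ := Finset.mem_erase.1 hy
      have h1 := hwe h hh x hxS y hyS
      rw [P2_xy H f h hxf hyf, P2_xy H f h0 hxf hyf] at h1
      exact h1.symm
    have hval : ∀ h ∈ T, ∀ y ∈ S.erase f, h y = w h f * h0 y * star (w h y) := by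
      intro h hh y hy
      obtain ⟨hyf, hyS⟩ := Finset.mem_erase.1 hy
      have h1 := hwe h hh f hf y hyS
      rwa [P2_fy H f h hyf, P2_fy H f h0 hyf] at h1
    have hle : T.card ≤ (P2_U ×ˢ P2_U).card := by
      refine Finset.card_le_card_of_injOn (fun h => (w h b, w h f)) ?_ ?_
      · intro h hh
        exact Finset.mem_coe.2 (Finset.mem_product.2 ⟨P2_sub _ (hw h hh b), P2_sub _ (hw h hh f)⟩)
      · intro h hh h' hh' heq
        have e1 : w h b = w h' b := congrArg Prod.fst heq
        have e2 : w h f = w h' f := congrArg Prod.snd heq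
        have e3 := eqv_fix hg hC' hH (hw h hh) (hw h' hh')
          (fun x hx y hy => (hfix h hh x hx y hy).trans (hfix h' hh' x hx y hy).symm) hb e1
        funext y
        by_cases hy : y ∈ S.erase f
        · rw [hval h hh y hy, hval h' hh' y hy, e2, e3 y hy]
        · rw [(hT h hh).1 y hy, (hT h' hh').1 y hy]
    refine hle.trans ?_
    rw [Finset.card_product]
    have h1 : P2_U.card * P2_U.card ≤ 24 * 24 := Nat.mul_le_mul P2_cd P2_cd
    omega

private theorem P2_side (hg : Hm t g) (hE : EU t g S) {f : V} (hC : Cn g S) (hC' : Cn g (S.erase f))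
    {H : V → V → Hq} (hH : Val t g H (S.erase f)) (T : Finset (V → Hq))
    (hT : ∀ h ∈ T, (∀ y, y ∉ S.erase f → h y = 0) ∧ Val t g (xt H f h) S) {A : Finset V} {i j : V} (hCl : Cl g S A i j)
    (hfA : f ∈ A) (h3 : 3 ≤ A.card) (h3' : 3 ≤ (S \ A).card)
    (IH : ∀ Q : Finset V, Q.card < S.card → EU t g Q → f ∈ Q → Cn g Q → Cn g (Q.erase f) → Val t g H (Q.erase f) →
      ∀ T' : Finset (V → Hq), (∀ h ∈ T', (∀ y, y ∉ Q.erase f → h y = 0) ∧ Val t g (xt H f h) Q) → T'.card ≤ 576) :
    T.card ≤ 576 := by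
  classical
  have hjf : j ≠ f := by
    rintro rfl
    exact hCl.hj hfA
  obtain ⟨x, hx, hxj⟩ : ∃ x ∈ A.erase f, g x j ≠ 0 := by
    obtain ⟨x, hx, y, hy, hxy⟩ := hC' (A.erase f) (Finset.erase_subset_erase f hCl.sub)
      (Finset.card_pos.1 (by rw [Finset.card_erase_of_mem hfA]; omega)) (by
        refine ⟨j, Finset.mem_sdiff.2 ⟨Finset.mem_erase.2 ⟨hjf, hCl.hS⟩, fun h1 => hCl.hj (Finset.mem_of_mem_erase h1)⟩⟩)
    obtain ⟨hy1, hy2⟩ := Finset.mem_sdiff.1 hy
    obtain ⟨hyf, hyS⟩ := Finset.mem_erase.1 hy1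
    have hyA : y ∉ A := fun h1 => hy2 (Finset.mem_erase.2 ⟨hyf, h1⟩)
    refine ⟨x, hx, fun h0 => ?_⟩
    have h1 := hCl.cl x (Finset.mem_of_mem_erase hx) y hyS hyA
    rw [h0, zero_mul] at h1
    rcases mul_eq_zero.1 h1 with h2 | h2
    · exact hxy h2
    · exact hCl.ne h2
  obtain ⟨hxf, hxA⟩ := Finset.mem_erase.1 hx
  have hCl' : Cl g S A x j := cl_rep hCl hxA hxj
  have hQS : insert j A ⊆ S := Finset.insert_subset hCl.hS hCl.sub
  have hers : (insert j A).erase f = insert j (A.erase f) := Finset.erase_insert_of_ne hjf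
  have hQe : (insert j A).erase f ⊆ S.erase f := Finset.erase_subset_erase f hQS
  have hEQ : EU t g (insert j A) :=
    ⟨fun S' hS' => hE.ex S' (hS'.trans hQS), fun S' hS' => hE.un S' (hS'.trans hQS)⟩
  have hcard : (insert j A).card < S.card := by
    rw [Finset.card_insert_of_notMem hCl.hj]
    have h1 := Finset.card_sdiff_add_card_eq_card hCl.sub
    omega
  have hjQ : j ∈ (insert j A).erase f := Finset.mem_erase.2 ⟨hjf, Finset.mem_insert_self j A⟩
  have hinj : Set.InjOn (fun (h : V → Hq) (y : V) => if y ∈ (insert j A).erase f then h y else 0) (T : Set (V → Hq)) := by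
    intro h hh h' hh' heq
    have e1 : ∀ y ∈ (insert j A).erase f, h y = h' y := by
      intro y hy
      have h1 := congrFun heq y
      simp only [if_pos hy] at h1
      exact h1
    funext y
    by_cases hy : y ∈ S.erase f
    · by_cases hyQ : y ∈ (insert j A).erase f
      · exact e1 y hyQ
      · obtain ⟨hyf, hyS⟩ := Finset.mem_erase.1 hy
        have hyA : y ∉ A := fun h1 => hyQ (Finset.mem_erase.2 ⟨hyf, Finset.mem_insert_of_mem h1⟩)
        have r1 := val_rel hg (hT h hh).2 hCl' f hfA y hyS hyA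
        have r2 := val_rel hg (hT h' hh').2 hCl' f hfA y hyS hyA
        rw [P2_fy H f h hyf, P2_fy H f h hjf, P2_xy H f h hxf hjf, P2_xy H f h hxf hyf] at r1
        rw [P2_fy H f h' hyf, P2_fy H f h' hjf, P2_xy H f h' hxf hjf, P2_xy H f h' hxf hyf] at r2
        rw [r1, r2, e1 j hjQ]
    · rw [(hT h hh).1 y hy, (hT h' hh').1 y hy]
  rw [← Finset.card_image_of_injOn hinj]
  refine IH (insert j A) hcard hEQ (Finset.mem_insert_of_mem hfA) (side_cn hg hC hCl') ?_ (val_mono hH hQe) _ ?_
  · rw [hers]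
    exact side_cn hg hC' (cl_erase hCl' hfA hxf.symm)
  · intro k hk
    obtain ⟨h, hh, rfl⟩ := Finset.mem_image.1 hk
    refine ⟨fun y hy => if_neg hy, ?_⟩
    refine val_congr (val_mono (hT h hh).2 hQS) (P2_sym hH.sym f _) ?_
    intro a ha b hb
    by_cases haf : a = f
    · by_cases hbf : b = f
      · unfold xt
        rw [if_pos haf, if_pos hbf, if_pos haf, if_pos hbf]
      · rw [haf, P2_fy H f _ hbf, P2_fy H f _ hbf]
        exact if_pos (Finset.mem_erase.2 ⟨hbf, hb⟩)
    · by_cases hbf : b = f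
      · unfold xt
        rw [if_neg haf, if_pos hbf, if_neg haf, if_pos hbf]
        exact congrArg star (if_pos (Finset.mem_erase.2 ⟨haf, ha⟩))
      · rw [P2_xy H f _ haf hbf, P2_xy H f _ haf hbf]

private theorem P2_main (hg : Hm t g) (f : V) (H : V → V → Hq) (n : ℕ) : ∀ S : Finset V, S.card = n → EU t g S → f ∈ S →
    Cn g S → Cn g (S.erase f) → Val t g H (S.erase f) →
    ∀ T : Finset (V → Hq), (∀ h ∈ T, (∀ y, y ∉ S.erase f → h y = 0) ∧ Val t g (xt H f h) S) → T.card ≤ 576 := by
  induction n using Nat.strong_induction_on with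
  | _ n IH =>
    intro S hn hE hf hC hC' hH T hT
    have IH' : ∀ Q : Finset V, Q.card < S.card → EU t g Q → f ∈ Q → Cn g Q → Cn g (Q.erase f) → Val t g H (Q.erase f) →
        ∀ T' : Finset (V → Hq), (∀ h ∈ T', (∀ y, y ∉ Q.erase f → h y = 0) ∧ Val t g (xt H f h) Q) → T'.card ≤ 576 :=
      fun Q hQ => IH Q.card (hn ▸ hQ) Q rfl
    rcases (S.erase f).eq_empty_or_nonempty with he | ⟨b, hb⟩
    · have h1 : T.card ≤ 1 := by
        rw [Finset.card_le_one]
        intro a ha c hc
        funext y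
        rw [(hT a ha).1 y (by rw [he]; exact Finset.notMem_empty y), (hT c hc).1 y (by rw [he]; exact Finset.notMem_empty y)]
      omega
    · by_cases hO : Ok g S
      · exact P2_ok hg hE hf hb hO hC hC' hH T hT
      · unfold Ok at hO
        push Not at hO
        obtain ⟨A, hA, hl, hv, hv'⟩ := hO
        have h3 := hv_card hg hv
        have h3' := hv_card hg hv'
        obtain ⟨i, j, hCl⟩ := lo_cl hC hA hl (Finset.card_pos.1 (by omega)) (Finset.card_pos.1 (by omega))
        by_cases hfA : f ∈ A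
        · exact P2_side hg hE hC hC' hH T hT hCl hfA h3 h3' IH'
        · have hss : S \ (S \ A) = A := Finset.sdiff_sdiff_eq_self hA
          exact P2_side hg hE hC hC' hH T hT (cl_compl hg hCl) (Finset.mem_sdiff.2 ⟨hf, hfA⟩) h3' (by rw [hss]; exact h3) IH'

theorem ext_bound (hg : Hm t g) (hE : EU t g S) {f : V} (hf : f ∈ S) (hC : Cn g S) (hC' : Cn g (S.erase f)) {H : V → V → Hq}
    (hH : Val t g H (S.erase f)) (T : Finset (V → Hq)) (hT : ∀ h ∈ T, (∀ y, y ∉ S.erase f → h y = 0) ∧ Val t g (xt H f h) S) :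
    T.card ≤ 576 :=
  P2_main hg f H S.card S rfl hE hf hC hC' hH T hT

end Pool.Agent.QUA
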