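import Pool.Agent.QUA.En1
import Pool.Agent.QUA.En2
import Pool.Agent.QUA.Ac1
import Pool.Agent.QUA.P2
import Pool.Agent.QUA.Cc1

/-!
# QUA/Ac6: the inner loop, one step

`P` = the elements already treated (a list), `y` the new element, `A` the table of the lift on `N ⊇ P`. `Cnd T r A P y C`: the list `C` consists exactly of the tables of the valid extensions over `P ∪ {y}`.
`tab_ext`: a list `c` is a table of entries at `y`: its keys are pairs `(y, z)` (if `y < r`) or `(z, y)`. `ins_spec`: (1) `exd` gives tables with the right residues (`Pre`); (2) every valid extension `H'` over `insert y (insert z P)` restricts to a valid extension over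
`insert y P`, so it comes from a `c ∈ C`, and its entry at `(y, z)` is one of the eight units of the class (`FRN.qv` table: every Hurwitz unit `q` with `kc q = k` is `- qv t` for a `t` with `t / 8 = k`; `FRN/Tb1`), so it comes from an element of `exd T r y z C`; (3) by `ens_eq`,
`wts_ge`, `wts_val`, `wts_eq` the elements of `exd ..` with minimal energy are exactly the valid ones (there is a valid one by `hext`); (4) different elements of `exd ..` are different extensions (`FRN.bq` is injective on `2, .., 25`), so their number is at most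
`576` by `ext_bound` if `g y z' ≠ 0` for some `z'` in `insert z P` (then `insert y (insert z P)` is connected: `cn_insert`), and it is at most one if all `g y z' = 0` (`C = [[]]`, nothing is added), so `take 576` changes nothing.
-/

set_option autoImplicit false

noncomputable section

namespace Pool.Agent.QUA

open Pool.Agent.FRM Pool.Agent.BEO

variable {T : Tb} {r : ℕ}

/-- `c` is a table of entries at `y` with the other elements in `P` -/
structure Ext1 (T : Tb) (r : ℕ) (P : List ℕ) (y : ℕ) (c : Tb) : Prop where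
  lt : ∀ p ∈ c, p.2 < 26
  key : ∀ p ∈ c, (p.1.1 = y ∧ p.1.2 ∈ P ∧ y < r) ∨ (p.1.2 = y ∧ p.1.1 ∈ P ∧ ¬ y < r)
  has : ∀ z ∈ P, gT T y z ≠ 0 → (if y < r then lk2 c y z else lk2 c z y) ≠ 0

/-- the list `C` of the candidates is right for `P`, `y` -/
structure Cnd (T : Tb) (r : ℕ) (A : Tb) (P : List ℕ) (y : ℕ) (C : List Tb) : Prop where
  nd : C.Nodup
  ext : ∀ c ∈ C, Ext1 T r P y c
  val : ∀ c ∈ C, Val (tt r) (gT T) (HT r (c ++ A)) (insert y P.toFinset)
  all : ∀ H', Val (tt r) (gT T) H' (insert y P.toFinset) → (∀ x ∈ P.toFinset, ∀ z ∈ P.toFinset, H' x z = HT r A x z) →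
    ∃ c ∈ C, ∀ z ∈ P.toFinset, HT r (c ++ A) y z = H' y z
  one : (∀ z ∈ P, gT T y z = 0) → C = [[]]
  /-- different candidates are different extensions -/
  inj : ∀ c ∈ C, ∀ c' ∈ C, (∀ z ∈ P, HT r (c ++ A) y z = HT r (c' ++ A) y z) → c = c'

/-- `P` has been treated, `A` is the table of a valid lift on `N`, and there is a valid extension over `insert y N` -/
structure Ctx (T : Tb) (r : ℕ) (A : Tb) (N : List ℕ) (y : ℕ) : Prop where
  tok : Tok T r
  nd : N.Nodup
  ny : y ∉ N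
  eu : EU (tt r) (gT T) (insert y N.toFinset)
  lt : ∀ p ∈ A, p.2 < 26
  key : ∀ p ∈ A, p.1.1 ∈ N ∧ p.1.2 ∈ N
  val : Val (tt r) (gT T) (HT r A) N.toFinset
  ex : ∃ H', Val (tt r) (gT T) H' (insert y N.toFinset) ∧ ∀ x ∈ N.toFinset, ∀ z ∈ N.toFinset, H' x z = HT r A x z

/-! ### tables -/

private theorem Ac6_lk_cons (k : ℕ × ℕ) (v : ℕ) (c : Tb) (x y : ℕ) :
    lk2 ((k, v) :: c) x y = if k = (x, y) then v else lk2 c x y := by
  unfold lk2 look
  by_cases h : k = (x, y)
  · rw [if_pos h, List.filter_cons_of_pos (by simp [h])]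
    rfl
  · rw [if_neg h, List.filter_cons_of_neg (by simp [h])]

private theorem Ac6_nil {c : Tb} {x y : ℕ} (h : ∀ p ∈ c, p.1 ≠ (x, y)) : (c.filter fun p => decide (p.1 = (x, y))) = [] := by
  rw [List.filter_eq_nil_iff]
  intro p hp
  rw [decide_eq_true_iff]
  exact h p hp

private theorem Ac6_lk_none {c : Tb} {x y : ℕ} (h : ∀ p ∈ c, p.1 ≠ (x, y)) : lk2 c x y = 0 := by
  unfold lk2 look
  rw [Ac6_nil h]
  rfl

private theorem Ac6_lk_l {c A : Tb} {x y : ℕ} (h : ∀ p ∈ A, p.1 ≠ (x, y)) : lk2 (c ++ A) x y = lk2 c x y := by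
  unfold lk2 look
  rw [List.filter_append, Ac6_nil h, List.append_nil]

private theorem Ac6_lk_r {c A : Tb} {x y : ℕ} (h : ∀ p ∈ c, p.1 ≠ (x, y)) : lk2 (c ++ A) x y = lk2 A x y := by
  unfold lk2 look
  rw [List.filter_append, Ac6_nil h, List.nil_append]

private theorem Ac6_sym (r : ℕ) (A : Tb) (x y : ℕ) : HT r A y x = star (HT r A x y) := by
  unfold HT
  by_cases hx : x < r <;> by_cases hy : y < r <;> simp [hx, hy]

private theorem Ac6_self (r : ℕ) (A : Tb) (x : ℕ) : HT r A x x = 0 := by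
  unfold HT
  by_cases hx : x < r <;> simp [hx]

private theorem Ac6_congr (r : ℕ) {A B : Tb} {x y : ℕ} (h1 : lk2 A x y = lk2 B x y) (h2 : lk2 A y x = lk2 B y x) :
    HT r A x y = HT r B x y := by
  unfold HT
  rw [h1, h2]

/-- the keys of a table of entries at `y` -/
private def Ac6_K (r : ℕ) (P : List ℕ) (y : ℕ) (c : Tb) : Prop :=
  ∀ p ∈ c, (p.1.1 = y ∧ p.1.2 ∈ P ∧ y < r) ∨ (p.1.2 = y ∧ p.1.1 ∈ P ∧ ¬ y < r)

private theorem Ac6_key {P : List ℕ} {y : ℕ} {c : Tb} (h : Ac6_K r P y c) {x w : ℕ} (hx : x ≠ y) (hw : w ≠ y) :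
    ∀ p ∈ c, p.1 ≠ (x, w) := by
  intro p hp h1
  rcases h p hp with ⟨h2, -, -⟩ | ⟨h2, -, -⟩
  · rw [h1] at h2
    exact hx h2
  · rw [h1] at h2
    exact hw h2

private theorem Ac6_out {P : List ℕ} {y : ℕ} {c : Tb} (h : Ac6_K r P y c) {w : ℕ} (hw : w ∉ P) (hwy : w ≠ y) :
    (∀ p ∈ c, p.1 ≠ (y, w)) ∧ ∀ p ∈ c, p.1 ≠ (w, y) := by
  constructor
  · intro p hp h1
    rcases h p hp with ⟨-, h2, -⟩ | ⟨h2, -, -⟩
    · rw [h1] at h2
      exact hw h2
    · rw [h1] at h2
      exact hwy h2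
  · intro p hp h1
    rcases h p hp with ⟨h2, -, -⟩ | ⟨-, h2, -⟩
    · rw [h1] at h2
      exact hwy h2
    · rw [h1] at h2
      exact hw h2

private theorem Ac6_old {P : List ℕ} {y : ℕ} {c : Tb} (h : Ac6_K r P y c) (A : Tb) {x w : ℕ} (hx : x ≠ y) (hw : w ≠ y) :
    HT r (c ++ A) x w = HT r A x w :=
  Ac6_congr r (Ac6_lk_r (Ac6_key h hx hw)) (Ac6_lk_r (Ac6_key h hw hx))

private theorem Ac6_new {N : List ℕ} {y : ℕ} (hy : y ∉ N) {A : Tb} (hA : ∀ p ∈ A, p.1.1 ∈ N ∧ p.1.2 ∈ N) (c : Tb) (w : ℕ) :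
    HT r (c ++ A) y w = HT r c y w := by
  refine Ac6_congr r (Ac6_lk_l fun p hp h1 => hy ?_) (Ac6_lk_l fun p hp h1 => hy ?_)
  · have h2 := (hA p hp).1
    rwa [h1] at h2
  · have h2 := (hA p hp).2
    rwa [h1] at h2

private theorem Ac6_none {P : List ℕ} {y : ℕ} {c : Tb} (h : Ac6_K r P y c) {w : ℕ} (hw : w ∉ P) (hwy : w ≠ y) :
    HT r c y w = 0 := by
  have h1 := Ac6_out h hw hwy
  unfold HT
  rw [Ac6_lk_none h1.1, Ac6_lk_none h1.2]
  have h0 : FRN.bq 0 = 0 := by
    unfold FRN.bq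
    rw [if_pos rfl]
  rw [h0, star_zero]
  split_ifs <;> rfl

private theorem Ac6_cons (r : ℕ) {y z w k : ℕ} {c : Tb} {κ : ℕ × ℕ} (hκ : κ = (y, z) ∨ κ = (z, y)) (hyz : y ≠ z) (hw : w ≠ z) :
    HT r ((κ, k) :: c) y w = HT r c y w := by
  refine Ac6_congr r ?_ ?_
  · rw [Ac6_lk_cons, if_neg]
    rcases hκ with rfl | rfl
    · intro h
      exact hw (congrArg Prod.snd h).symm
    · intro h
      exact hyz (congrArg Prod.fst h).symm
  · rw [Ac6_lk_cons, if_neg]
    rcases hκ with rfl | rfl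
    · intro h
      exact hyz (congrArg Prod.snd h).symm
    · intro h
      exact hw (congrArg Prod.fst h).symm

private theorem Ac6_e1 {y z k : ℕ} (c : Tb) (hy : y < r) (hz : ¬ z < r) : HT r (((y, z), k) :: c) y z = FRN.bq k := by
  unfold HT
  rw [if_pos ⟨hy, hz⟩, Ac6_lk_cons, if_pos rfl]

private theorem Ac6_e2 {y z k : ℕ} (c : Tb) (hy : ¬ y < r) (hz : z < r) : HT r (((z, y), k) :: c) y z = star (FRN.bq k) := by
  unfold HT
  rw [if_neg fun h => hy h.1, if_pos ⟨hy, hz⟩, Ac6_lk_cons, if_pos rfl]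

/-! ### blocks -/

private theorem Ac6_huneg {q : Hq} (h : HU q) : HU (-q) := by
  obtain ⟨h1, h2⟩ := h
  refine ⟨by rw [Quaternion.normSq_neg]; exact h1, ?_⟩
  rcases h2 with ⟨a, b, c, d, rfl⟩ | ⟨a, b, c, d, rfl⟩
  · left
    refine ⟨-a, -b, -c, -d, ?_⟩
    ext <;> simp
  · right
    refine ⟨-a - 1, -b - 1, -c - 1, -d - 1, ?_⟩
    ext <;> simp <;> ring

private theorem Ac6_kcneg (q : Hq) : FRN.kc (-q) = FRN.kc q := by
  have h : (-q).re * (-q).imI * (-q).imJ * (-q).imK = q.re * q.imI * q.imJ * q.imK := by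
    rw [Quaternion.re_neg, Quaternion.imI_neg, Quaternion.imJ_neg, Quaternion.imK_neg]
    ring
  unfold FRN.kc
  rw [h]

private theorem Ac6_tab : ∀ s < 24, ∀ d < 4, fz ((s / 8 : ℕ) : ZMod 3) = f4 d → s + 2 ∈ cdl4 d := by
  unfold fz f4
  decide +kernel

private theorem Ac6_tab' : ∀ d < 4, d ≠ 0 → ∀ k ∈ cdl4 d, 2 ≤ k ∧ k < 26 ∧ fz (((k - 2) / 8 : ℕ) : ZMod 3) = f4 d := by
  unfold fz f4
  decide +kernel

private theorem Ac6_qd : ∀ s < 24, ∀ t < 24, FRN.qd s = FRN.qd t → s = t := by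
  decide +kernel

private theorem Ac6_nd (d : ℕ) : (cdl4 d).Nodup := by
  unfold cdl4
  split_ifs <;> decide

private theorem Ac6_bq {k : ℕ} (h : 2 ≤ k) : FRN.bq k = -FRN.qv (k - 2) := by
  unfold FRN.bq
  rw [if_neg (by omega), if_neg (by omega)]

private theorem Ac6_code {d k : ℕ} (hd : d < 4) (h0 : d ≠ 0) (hk : k ∈ cdl4 d) : HU (FRN.bq k) ∧ rs (FRN.bq k) = f4 d := by
  obtain ⟨h1, h2, h3⟩ := Ac6_tab' d hd h0 k hk
  have h4 : HU (FRN.bq k) := by
    rw [Ac6_bq h1]
    exact Ac6_huneg (FRN.hu_qv _)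
  refine ⟨h4, ?_⟩
  unfold rs
  rw [if_neg (hu_ne' h4), Ac6_bq h1, Ac6_kcneg, FRN.kc_qv (by omega)]
  exact h3

private theorem Ac6_dec {d : ℕ} (hd : d < 4) {q : Hq} (hq : HU q) (h : rs q = f4 d) : ∃ k ∈ cdl4 d, q = FRN.bq k := by
  obtain ⟨s, hs, hs'⟩ := (FRN.hu_iff (-q)).1 (Ac6_huneg hq)
  refine ⟨s + 2, ?_, ?_⟩
  · refine Ac6_tab s hs d hd ?_
    unfold rs at h
    rw [if_neg (hu_ne' hq), ← Ac6_kcneg, hs', FRN.kc_qv hs] at h
    exact h
  · rw [Ac6_bq (by omega), Nat.add_sub_cancel, ← hs', neg_neg]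

private theorem Ac6_inj {d k k' : ℕ} (hd : d < 4) (h0 : d ≠ 0) (hk : k ∈ cdl4 d) (hk' : k' ∈ cdl4 d) (h : FRN.bq k = FRN.bq k') :
    k = k' := by
  obtain ⟨h1, h2, -⟩ := Ac6_tab' d hd h0 k hk
  obtain ⟨h1', h2', -⟩ := Ac6_tab' d hd h0 k' hk'
  rw [Ac6_bq h1, Ac6_bq h1'] at h
  have h3 := neg_injective h
  have h4 : FRN.qd (k - 2) = FRN.qd (k' - 2) := by
    have a1 := congrArg QuaternionAlgebra.re h3
    have a2 := congrArg QuaternionAlgebra.imI h3
    have a3 := congrArg QuaternionAlgebra.imJ h3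
    have a4 := congrArg QuaternionAlgebra.imK h3
    have e : ∀ m n : ℤ, (m : ℚ) / 2 = n / 2 → m = n := by
      intro m n hmn
      rw [div_left_inj' (two_ne_zero)] at hmn
      exact_mod_cast hmn
    exact Prod.ext (e _ _ a1) (Prod.ext (e _ _ a2) (Prod.ext (e _ _ a3) (e _ _ a4)))
  have h5 := Ac6_qd _ (by omega) _ (by omega) h4
  omega

/-! ### minimum -/

private theorem Ac6_foldl (l : List ℕ) : ∀ m : ℕ, (l.foldl (fun m x => if decide (x < m) then x else m) m ∈ m :: l) ∧
    ∀ x ∈ m :: l, l.foldl (fun m x => if decide (x < m) then x else m) m ≤ x := by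
  induction l with
  | nil =>
    intro m
    refine ⟨List.mem_cons_self, fun x hx => ?_⟩
    rw [List.mem_singleton.1 hx]
    exact le_refl _
  | cons a l ih =>
    intro m
    rw [List.foldl_cons]
    by_cases h : a < m
    · rw [if_pos (decide_eq_true h)]
      obtain ⟨h1, h2⟩ := ih a
      refine ⟨List.mem_cons_of_mem _ h1, fun x hx => ?_⟩
      rcases List.mem_cons.1 hx with rfl | hx
      · exact (h2 a List.mem_cons_self).trans h.le
      · exact h2 x hx
    · rw [if_neg (by simpa using h)]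
      obtain ⟨h1, h2⟩ := ih m
      refine ⟨?_, fun x hx => ?_⟩
      · rcases List.mem_cons.1 h1 with h1 | h1
        · rw [h1]
          exact List.mem_cons_self
        · exact List.mem_cons_of_mem _ (List.mem_cons_of_mem _ h1)
      · rcases List.mem_cons.1 hx with rfl | hx
        · exact h2 _ List.mem_cons_self
        · rcases List.mem_cons.1 hx with rfl | hx
          · exact (h2 m List.mem_cons_self).trans (not_lt.1 h)
          · exact h2 x (List.mem_cons_of_mem _ hx)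

private theorem Ac6_mnm {l : List ℕ} (h : l ≠ []) : mnm l ∈ l ∧ ∀ x ∈ l, mnm l ≤ x := by
  rcases l with _ | ⟨a, l⟩
  · exact absurd rfl h
  · obtain ⟨h1, h2⟩ := Ac6_foldl (a :: l) a
    refine ⟨?_, fun x hx => h2 x (List.mem_cons_of_mem _ hx)⟩
    rcases List.mem_cons.1 h1 with h1 | h1
    · show List.foldl _ a (a :: l) ∈ a :: l
      rw [h1]
      exact List.mem_cons_self
    · exact h1

private theorem Ac6_flt {S : List ℕ} (hm : Hm (tt r) (gT T)) (hS : S.Nodup) {A : Tb} (hA : ∀ p ∈ A, p.2 < 26) {C : List Tb}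
    (hlt : ∀ c ∈ C, ∀ p ∈ c, p.2 < 26) (hpre : ∀ c ∈ C, Pre (tt r) (gT T) (HT r (c ++ A)) S.toFinset)
    (hex : ∃ c ∈ C, Val (tt r) (gT T) (HT r (c ++ A)) S.toFinset) {c : Tb} (hc : c ∈ C) :
    ens r S (c ++ A) = mnm (C.map fun c => ens r S (c ++ A)) ↔ Val (tt r) (gT T) (HT r (c ++ A)) S.toFinset := by
  have hen : ∀ c ∈ C, ((ens r S (c ++ A) : ℕ) : ℝ) =
      256 ^ (rwl r S).length * wts (tt r) (HT r (c ++ A)) S.toFinset ^ 4 := by
    intro c hc
    refine ens_eq r hS fun p hp => ?_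
    rcases List.mem_append.1 hp with hp | hp
    · exact hlt c hc p hp
    · exact hA p hp
  have hK : (0 : ℝ) < 256 ^ (rwl r S).length := by positivity
  obtain ⟨c1, hc1, hv1⟩ := hex
  obtain ⟨hmem, hmin⟩ := Ac6_mnm (l := C.map fun c => ens r S (c ++ A)) (by
    intro h0
    rw [List.map_eq_nil_iff] at h0
    rw [h0] at hc
    exact absurd hc List.not_mem_nil)
  constructor
  · intro he
    have h1 : mnm (C.map fun c => ens r S (c ++ A)) ≤ ens r S (c1 ++ A) := hmin _ (List.mem_map.2 ⟨c1, hc1, rfl⟩)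
    rw [← he] at h1
    have h2 : ((ens r S (c ++ A) : ℕ) : ℝ) ≤ ((ens r S (c1 ++ A) : ℕ) : ℝ) := by exact_mod_cast h1
    rw [hen c hc, hen c1 hc1, wts_val hv1] at h2
    have h3 := le_of_mul_le_mul_left h2 hK
    refine wts_eq hm (hpre c hc) ?_
    exact (pow_le_pow_iff_left₀ (wts_nonneg _ _ _) (Nat.cast_nonneg _) (by norm_num)).1 h3
  · intro hv
    refine le_antisymm ?_ (hmin _ (List.mem_map.2 ⟨c, hc, rfl⟩))
    obtain ⟨c0, hc0, he0⟩ := List.mem_map.1 hmem
    rw [← he0]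
    have h1 : ((ens r S (c ++ A) : ℕ) : ℝ) ≤ ((ens r S (c0 ++ A) : ℕ) : ℝ) := by
      rw [hen c hc, hen c0 hc0, wts_val hv]
      refine mul_le_mul_of_nonneg_left ?_ hK.le
      exact pow_le_pow_left₀ (Nat.cast_nonneg _) (wts_ge hm (hpre c0 hc0)) 4
    exact_mod_cast h1

/-! ### the extended candidates -/

private def Ac6_Q (g : ℕ → ℕ → F4) (H : ℕ → ℕ → Hq) (x w : ℕ) : Prop :=
  (g x w = 0 → H x w = 0) ∧ (g x w ≠ 0 → HU (H x w) ∧ rs (H x w) = g x w)

private theorem Ac6_Qsym {t : ℕ → Bool} {g : ℕ → ℕ → F4} {H : ℕ → ℕ → Hq} (hg : Hm t g) (hs : ∀ x y, H y x = star (H x y))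
    {x w : ℕ} (h : Ac6_Q g H x w) : Ac6_Q g H w x := by
  have h1 := hg.inv x w
  refine ⟨fun h0 => ?_, fun h0 => ?_⟩
  · rw [h1] at h0
    rw [hs x w, h.1 (inv_eq_zero.1 h0), star_zero]
  · have h2 : g x w ≠ 0 := fun h3 => h0 (by rw [h1, h3, inv_zero])
    obtain ⟨h3, h4⟩ := h.2 h2
    rw [hs x w]
    exact ⟨hu_star h3, by rw [rs_star (Or.inl h3), h4, h1]⟩

private theorem Ac6_Qval {t : ℕ → Bool} {g : ℕ → ℕ → F4} {H : ℕ → ℕ → Hq} {S : Finset ℕ} (hg : Hm t g) (h : Val t g H S)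
    {x w : ℕ} (hx : x ∈ S) (hw : w ∈ S) : Ac6_Q g H x w := by
  obtain ⟨h1, h2⟩ := val_rs hg h x hx w hw
  refine ⟨h.zr x hx w hw, fun h0 => ?_⟩
  rcases h1 with h1 | h1
  · exact ⟨h1, h2⟩
  · rw [h1] at h2
    refine absurd (h2.symm.trans ?_) h0
    unfold rs
    rw [if_pos rfl]

private theorem Ac6_agree {H1 H2 : ℕ → ℕ → Hq} {y : ℕ} {S : Finset ℕ} (s1 : ∀ x y, H1 y x = star (H1 x y))
    (s2 : ∀ x y, H2 y x = star (H2 x y)) (h0 : H1 y y = H2 y y) (h1 : ∀ w ∈ S, H1 y w = H2 y w)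
    (h2 : ∀ x ∈ S, ∀ w ∈ S, H1 x w = H2 x w) : ∀ x ∈ insert y S, ∀ w ∈ insert y S, H1 x w = H2 x w := by
  intro x hx w hw
  rcases Finset.mem_insert.1 hx with hx | hx
  · rcases Finset.mem_insert.1 hw with hw | hw
    · rw [hx, hw]
      exact h0
    · rw [hx]
      exact h1 w hw
  · rcases Finset.mem_insert.1 hw with hw | hw
    · rw [hw, s1 y x, s2 y x, h1 x hx]
    · exact h2 x hx w hw

private theorem Ac6_exd {y z : ℕ} {C : List Tb} {c' : Tb} : c' ∈ exd T r y z C ↔
    (lk2 T y z = 0 ∧ c' ∈ C) ∨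
    (lk2 T y z ≠ 0 ∧ y < r ∧ ∃ c ∈ C, ∃ k ∈ cdl4 (lk2 T y z), ((y, z), k) :: c = c') ∨
    (lk2 T y z ≠ 0 ∧ ¬ y < r ∧ ∃ c ∈ C, ∃ k ∈ cdl4 (lk2 T z y), ((z, y), k) :: c = c') := by
  unfold exd
  by_cases h0 : lk2 T y z = 0
  · rw [if_pos (decide_eq_true h0)]
    constructor
    · intro h
      exact Or.inl ⟨h0, h⟩
    · rintro (⟨-, h⟩ | ⟨h, -⟩ | ⟨h, -⟩)
      · exact h
      · exact absurd h0 h
      · exact absurd h0 h
  · rw [if_neg (by simpa using h0)]
    by_cases hy : y < r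
    · rw [if_pos (decide_eq_true hy)]
      simp only [List.mem_flatMap, List.mem_map]
      constructor
      · intro h
        exact Or.inr (Or.inl ⟨h0, hy, h⟩)
      · rintro (⟨h, -⟩ | ⟨-, -, h⟩ | ⟨-, h, -⟩)
        · exact absurd h h0
        · exact h
        · exact absurd hy h
    · rw [if_neg (by simpa using hy)]
      simp only [List.mem_flatMap, List.mem_map]
      constructor
      · intro h
        exact Or.inr (Or.inr ⟨h0, hy, h⟩)
      · rintro (⟨h, -⟩ | ⟨-, h, -⟩ | ⟨-, -, h⟩)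
        · exact absurd h h0
        · exact absurd h hy
        · exact h

private theorem Ac6_ndx (κ : ℕ × ℕ) {C : List Tb} (hC : C.Nodup) {L : List ℕ} (hL : L.Nodup) :
    (C.flatMap fun c => L.map fun k => (κ, k) :: c).Nodup := by
  rw [List.nodup_flatMap]
  refine ⟨fun c _ => hL.map (f := fun k => (κ, k) :: c) fun k k' h => ?_, hC.imp ?_⟩
  · exact congrArg Prod.snd (List.cons.inj h).1
  · intro c c' hne
    show List.Disjoint _ _
    intro x hx hx'
    obtain ⟨k, -, rfl⟩ := List.mem_map.1 hx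
    obtain ⟨k', -, h⟩ := List.mem_map.1 hx'
    exact hne (List.cons.inj h).2.symm

private theorem Ac6_ndexd {y z : ℕ} {C : List Tb} (hC : C.Nodup) : (exd T r y z C).Nodup := by
  unfold exd
  split_ifs
  · exact hC
  · exact Ac6_ndx _ hC (Ac6_nd _)
  · exact Ac6_ndx _ hC (Ac6_nd _)

private theorem Ac6_typ (hT : Tok T r) {y z : ℕ} (h0 : lk2 T y z ≠ 0) : y < r ↔ ¬ z < r := by
  have h1 : tt r y ≠ tt r z := fun h2 => h0 ((lk2_zero hT y z).2 (hT.hm.bip y z h2))
  unfold tt at h1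
  by_cases hy : y < r <;> by_cases hz : z < r <;> simp [hy, hz] at h1 ⊢

private theorem Ac6_flip (hT : Tok T r) {y z : ℕ} (h0 : lk2 T y z ≠ 0) : lk2 T z y ≠ 0 := by
  intro h1
  apply h0
  rw [lk2_zero hT]
  rw [lk2_zero hT] at h1
  rw [hT.hm.inv z y, h1, inv_zero]

private theorem Ac6_data (hT : Tok T r) {P : List ℕ} {y z : ℕ} (hyz : y ≠ z) (hzP : z ∉ P) {C : List Tb}
    (hc : ∀ c ∈ C, Ext1 T r P y c) {c' : Tb} (h : c' ∈ exd T r y z C) :
    Ext1 T r (z :: P) y c' ∧ ∃ c ∈ C, (∀ w, w ≠ z → HT r c' y w = HT r c y w) ∧ Ac6_Q (gT T) (HT r c') y z := by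
  rcases Ac6_exd.1 h with ⟨h0, hc'⟩ | ⟨h0, hy, c, hc1, k, hk, rfl⟩ | ⟨h0, hy, c, hc1, k, hk, rfl⟩
  · have hg : gT T y z = 0 := (lk2_zero hT y z).1 h0
    have he := hc c' hc'
    refine ⟨⟨he.lt, ?_, ?_⟩, c', hc', fun w _ => rfl, ?_, ?_⟩
    · intro p hp
      rcases he.key p hp with ⟨h1, h2, h3⟩ | ⟨h1, h2, h3⟩
      · exact Or.inl ⟨h1, List.mem_cons_of_mem _ h2, h3⟩
      · exact Or.inr ⟨h1, List.mem_cons_of_mem _ h2, h3⟩
    · intro w hw hne
      rcases List.mem_cons.1 hw with rfl | hw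
      · exact absurd hg hne
      · exact he.has w hw hne
    · intro _
      exact Ac6_none he.key hzP hyz.symm
    · intro h1
      exact absurd hg h1
  · have hz : ¬ z < r := (Ac6_typ hT h0).1 hy
    have he := hc c hc1
    obtain ⟨h1, h2, -⟩ := Ac6_tab' _ (hT.lt y z) h0 k hk
    refine ⟨⟨?_, ?_, ?_⟩, c, hc1, fun w hw => Ac6_cons r (Or.inl rfl) hyz hw, ?_, ?_⟩
    · intro p hp
      rcases List.mem_cons.1 hp with rfl | hp
      · exact h2
      · exact he.lt p hp
    · intro p hp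
      rcases List.mem_cons.1 hp with rfl | hp
      · exact Or.inl ⟨rfl, List.mem_cons_self, hy⟩
      · rcases he.key p hp with ⟨h1, h2, h3⟩ | ⟨h1, h2, h3⟩
        · exact Or.inl ⟨h1, List.mem_cons_of_mem _ h2, h3⟩
        · exact Or.inr ⟨h1, List.mem_cons_of_mem _ h2, h3⟩
    · intro w hw hne
      rw [if_pos hy, Ac6_lk_cons]
      rcases List.mem_cons.1 hw with rfl | hw
      · rw [if_pos rfl]
        omega
      · have hzw : z ≠ w := by
          rintro rfl
          exact hzP hw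
        rw [if_neg fun h3 => hzw (congrArg Prod.snd h3)]
        have h4 := he.has w hw hne
        rwa [if_pos hy] at h4
    · intro h3
      exact absurd ((lk2_zero hT y z).2 h3) h0
    · intro _
      rw [Ac6_e1 c hy hz]
      exact Ac6_code (hT.lt y z) h0 hk
  · have hz : z < r := by
      by_contra hz
      exact hy ((Ac6_typ hT h0).2 hz)
    have h0' := Ac6_flip hT h0
    have he := hc c hc1
    obtain ⟨h1, h2, -⟩ := Ac6_tab' _ (hT.lt z y) h0' k hk
    refine ⟨⟨?_, ?_, ?_⟩, c, hc1, fun w hw => Ac6_cons r (Or.inr rfl) hyz hw, ?_, ?_⟩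
    · intro p hp
      rcases List.mem_cons.1 hp with rfl | hp
      · exact h2
      · exact he.lt p hp
    · intro p hp
      rcases List.mem_cons.1 hp with rfl | hp
      · exact Or.inr ⟨rfl, List.mem_cons_self, hy⟩
      · rcases he.key p hp with ⟨h1, h2, h3⟩ | ⟨h1, h2, h3⟩
        · exact Or.inl ⟨h1, List.mem_cons_of_mem _ h2, h3⟩
        · exact Or.inr ⟨h1, List.mem_cons_of_mem _ h2, h3⟩
    · intro w hw hne
      rw [if_neg hy, Ac6_lk_cons]
      rcases List.mem_cons.1 hw with rfl | hw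
      · rw [if_pos rfl]
        omega
      · have hzw : z ≠ w := by
          rintro rfl
          exact hzP hw
        rw [if_neg fun h3 => hzw (congrArg Prod.fst h3)]
        have h4 := he.has w hw hne
        rwa [if_neg hy] at h4
    · intro h3
      exact absurd ((lk2_zero hT y z).2 h3) h0
    · intro _
      rw [Ac6_e2 c hy hz]
      obtain ⟨h3, h4⟩ := Ac6_code (hT.lt z y) h0' hk
      refine ⟨hu_star h3, ?_⟩
      rw [rs_star (Or.inl h3), h4]
      exact (hT.hm.inv z y).symm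

private theorem Ac6_exists (hT : Tok T r) {P : List ℕ} {y z : ℕ} (hyz : y ≠ z) (hzP : z ∉ P) {C : List Tb} {c : Tb} (hc : c ∈ C)
    (hK : Ac6_K r P y c) {q : Hq} (hq0 : gT T y z = 0 → q = 0) (hq : gT T y z ≠ 0 → HU q ∧ rs q = gT T y z) :
    ∃ c' ∈ exd T r y z C, (∀ w, w ≠ z → HT r c' y w = HT r c y w) ∧ HT r c' y z = q := by
  by_cases h0 : lk2 T y z = 0
  · refine ⟨c, Ac6_exd.2 (Or.inl ⟨h0, hc⟩), fun w _ => rfl, ?_⟩
    rw [Ac6_none hK hzP hyz.symm, hq0 ((lk2_zero hT y z).1 h0)]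
  · obtain ⟨h1, h2⟩ := hq fun h3 => h0 ((lk2_zero hT y z).2 h3)
    by_cases hy : y < r
    · obtain ⟨k, hk, hk'⟩ := Ac6_dec (hT.lt y z) h1 h2
      refine ⟨((y, z), k) :: c, Ac6_exd.2 (Or.inr (Or.inl ⟨h0, hy, c, hc, k, hk, rfl⟩)),
        fun w hw => Ac6_cons r (Or.inl rfl) hyz hw, ?_⟩
      rw [Ac6_e1 c hy ((Ac6_typ hT h0).1 hy)]
      exact hk'.symm
    · have hz : z < r := by
        by_contra hz
        exact hy ((Ac6_typ hT h0).2 hz)
      obtain ⟨k, hk, hk'⟩ := Ac6_dec (hT.lt z y) (hu_star h1) (by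
        rw [rs_star (Or.inl h1), h2]
        exact (hT.hm.inv y z).symm)
      refine ⟨((z, y), k) :: c, Ac6_exd.2 (Or.inr (Or.inr ⟨h0, hy, c, hc, k, hk, rfl⟩)),
        fun w hw => Ac6_cons r (Or.inr rfl) hyz hw, ?_⟩
      rw [Ac6_e2 c hy hz, ← hk', star_star]

private theorem Ac6_injx (hT : Tok T r) {P : List ℕ} {y z : ℕ} (hyz : y ≠ z) (hzP : z ∉ P) {C : List Tb}
    (hinj : ∀ c ∈ C, ∀ c' ∈ C, (∀ w ∈ P, HT r c y w = HT r c' y w) → c = c') {c' c'' : Tb} (h' : c' ∈ exd T r y z C)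
    (h'' : c'' ∈ exd T r y z C) (he : ∀ w ∈ z :: P, HT r c' y w = HT r c'' y w) : c' = c'' := by
  have hw : ∀ w ∈ P, w ≠ z := by
    rintro w hw rfl
    exact hzP hw
  rcases Ac6_exd.1 h' with ⟨h0, hc'⟩ | ⟨h0, hy, c, hc1, k, hk, rfl⟩ | ⟨h0, hy, c, hc1, k, hk, rfl⟩
  · rcases Ac6_exd.1 h'' with ⟨-, hc''⟩ | ⟨h0', -⟩ | ⟨h0', -⟩
    · exact hinj _ hc' _ hc'' fun w hw => he w (List.mem_cons_of_mem _ hw)
    · exact absurd h0 h0'
    · exact absurd h0 h0'
  · rcases Ac6_exd.1 h'' with ⟨h0', -⟩ | ⟨-, -, c1, hc2, k', hk', rfl⟩ | ⟨-, hy', -⟩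
    · exact absurd h0' h0
    · have h1 : c = c1 := hinj _ hc1 _ hc2 fun w hwP => by
        have h2 := he w (List.mem_cons_of_mem _ hwP)
        rwa [Ac6_cons r (Or.inl rfl) hyz (hw w hwP), Ac6_cons r (Or.inl rfl) hyz (hw w hwP)] at h2
      have hz : ¬ z < r := (Ac6_typ hT h0).1 hy
      have h3 := he z List.mem_cons_self
      rw [Ac6_e1 c hy hz, Ac6_e1 c1 hy hz] at h3
      rw [h1, Ac6_inj (hT.lt y z) h0 hk hk' h3]
    · exact absurd hy hy'
  · rcases Ac6_exd.1 h'' with ⟨h0', -⟩ | ⟨-, hy', -⟩ | ⟨-, -, c1, hc2, k', hk', rfl⟩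
    · exact absurd h0' h0
    · exact absurd hy' hy
    · have h1 : c = c1 := hinj _ hc1 _ hc2 fun w hwP => by
        have h2 := he w (List.mem_cons_of_mem _ hwP)
        rwa [Ac6_cons r (Or.inr rfl) hyz (hw w hwP), Ac6_cons r (Or.inr rfl) hyz (hw w hwP)] at h2
      have hz : z < r := by
        by_contra hz
        exact hy ((Ac6_typ hT h0).2 hz)
      have h3 := he z List.mem_cons_self
      rw [Ac6_e2 c hy hz, Ac6_e2 c1 hy hz] at h3
      rw [h1, Ac6_inj (hT.lt z y) (Ac6_flip hT h0) hk hk' (star_injective h3)]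

theorem cnd_nil {A : Tb} {N : List ℕ} {y : ℕ} (h : Ctx T r A N y) : Cnd T r A [] y [[]] := by
  refine ⟨List.nodup_singleton _, ?_, ?_, ?_, fun _ => rfl, ?_⟩
  · intro c hc
    rw [List.mem_singleton.1 hc]
    exact ⟨fun p hp => absurd hp List.not_mem_nil, fun p hp => absurd hp List.not_mem_nil,
      fun z hz => absurd hz List.not_mem_nil⟩
  · intro c hc
    obtain ⟨H', h1, -⟩ := h.ex
    have hsub : insert y (([] : List ℕ).toFinset) ⊆ insert y N.toFinset := by
      intro x hx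
      rcases Finset.mem_insert.1 hx with rfl | hx
      · exact Finset.mem_insert_self _ _
      · exact absurd (List.mem_toFinset.1 hx) List.not_mem_nil
    refine val_congr (val_mono h1 hsub) (Ac6_sym r _) ?_
    intro x hx w hw
    have e : ∀ v ∈ insert y (([] : List ℕ).toFinset), v = y := by
      intro v hv
      rcases Finset.mem_insert.1 hv with hv | hv
      · exact hv
      · exact absurd (List.mem_toFinset.1 hv) List.not_mem_nil
    rw [e x hx, e w hw, Ac6_self]
    exact (h1.zr y (Finset.mem_insert_self _ _) y (Finset.mem_insert_self _ _) (h.tok.hm.bip y y rfl)).symm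
  · intro H' _ _
    exact ⟨[], List.mem_singleton.2 rfl, fun z hz => absurd (List.mem_toFinset.1 hz) List.not_mem_nil⟩
  · intro c hc c' hc' _
    rw [List.mem_singleton.1 hc, List.mem_singleton.1 hc']

theorem ins_spec {A : Tb} {N : List ℕ} {y : ℕ} (h : Ctx T r A N y) {P : List ℕ} {z : ℕ} (hP : ∀ x ∈ P, x ∈ N) (hz : z ∈ N)
    (hnd : (z :: P).Nodup) (hC : Cn (gT T) (z :: P).toFinset) {C : List Tb} (hc : Cnd T r A P y C) :
    Cnd T r A (z :: P) y (flt r (y :: z :: P) A (exd T r y z C)) := by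
  classical
  have hm := h.tok.hm
  have hyP : y ∉ P := fun h1 => h.ny (hP y h1)
  have hyz : y ≠ z := by
    rintro rfl
    exact h.ny hz
  have hzP : z ∉ P := (List.nodup_cons.1 hnd).1
  have hyzP : y ∉ z :: P := by
    intro h1
    rcases List.mem_cons.1 h1 with h1 | h1
    · exact hyz h1
    · exact hyP h1
  have hS : (y :: z :: P).Nodup := List.nodup_cons.2 ⟨hyzP, hnd⟩
  have hset : (y :: z :: P).toFinset = insert y (z :: P).toFinset := List.toFinset_cons
  have hsub : (z :: P).toFinset ⊆ N.toFinset := by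
    intro x hx
    rw [List.mem_toFinset] at hx ⊢
    rcases List.mem_cons.1 hx with rfl | hx
    · exact hz
    · exact hP x hx
  have hsubP : P.toFinset ⊆ (z :: P).toFinset := by
    intro x hx
    rw [List.mem_toFinset] at hx ⊢
    exact List.mem_cons_of_mem _ hx
  have hney : ∀ x ∈ (z :: P).toFinset, x ≠ y := by
    rintro x hx rfl
    exact hyzP (List.mem_toFinset.1 hx)
  have hdata := fun (c' : Tb) (hc' : c' ∈ exd T r y z C) => Ac6_data h.tok hyz hzP hc.ext hc'
  have hold : ∀ c' ∈ exd T r y z C, ∀ x ∈ (z :: P).toFinset, ∀ w ∈ (z :: P).toFinset,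
      HT r (c' ++ A) x w = HT r A x w := fun c' hc' x hx w hw =>
    Ac6_old (hdata c' hc').1.key A (hney x hx) (hney w hw)
  have hnew : ∀ (c : Tb) (w : ℕ), HT r (c ++ A) y w = HT r c y w := fun c w => Ac6_new h.ny h.key c w
  -- residues
  have hpre : ∀ c' ∈ exd T r y z C, Pre (tt r) (gT T) (HT r (c' ++ A)) (insert y (z :: P).toFinset) := by
    intro c' hc'
    obtain ⟨he, c, hcC, hcw, hQ⟩ := hdata c' hc'
    have hyw : ∀ w ∈ insert y (z :: P).toFinset, Ac6_Q (gT T) (HT r (c' ++ A)) y w := by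
      intro w hw
      rcases Finset.mem_insert.1 hw with rfl | hw
      · exact ⟨fun _ => Ac6_self r _ _, fun h1 => absurd (hm.bip _ _ rfl) h1⟩
      · rw [List.mem_toFinset] at hw
        unfold Ac6_Q
        rw [hnew]
        rcases List.mem_cons.1 hw with rfl | hwP
        · exact hQ
        · have hwz : w ≠ z := by
            rintro rfl
            exact hzP hwP
          rw [hcw w hwz, ← hnew]
          exact Ac6_Qval hm (hc.val c hcC) (Finset.mem_insert_self _ _)
            (Finset.mem_insert_of_mem (List.mem_toFinset.2 hwP))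
    have hall : ∀ x ∈ insert y (z :: P).toFinset, ∀ w ∈ insert y (z :: P).toFinset,
        Ac6_Q (gT T) (HT r (c' ++ A)) x w := by
      intro x hx w hw
      rcases Finset.mem_insert.1 hx with rfl | hx'
      · exact hyw w hw
      · rcases Finset.mem_insert.1 hw with rfl | hw'
        · exact Ac6_Qsym hm (Ac6_sym r _) (hyw x hx)
        · unfold Ac6_Q
          rw [hold c' hc' x hx' w hw']
          exact Ac6_Qval hm h.val (hsub hx') (hsub hw')
    exact ⟨Ac6_sym r _, fun x hx w hw => (hall x hx w hw).1, fun x hx w hw _ _ => (hall x hx w hw).2⟩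
  -- every valid extension is found
  have hfind : ∀ H', Val (tt r) (gT T) H' (insert y (z :: P).toFinset) →
      (∀ x ∈ (z :: P).toFinset, ∀ w ∈ (z :: P).toFinset, H' x w = HT r A x w) →
      ∃ c' ∈ exd T r y z C, (∀ w ∈ (z :: P).toFinset, HT r (c' ++ A) y w = H' y w) ∧
        Val (tt r) (gT T) (HT r (c' ++ A)) (insert y (z :: P).toFinset) := by
    intro H' hv hag
    obtain ⟨c, hcC, hcw⟩ := hc.all H' (val_mono hv (Finset.insert_subset_insert y hsubP))
      fun x hx w hw => hag x (hsubP hx) w (hsubP hw)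
    have hQ := Ac6_Qval hm hv (Finset.mem_insert_self _ _)
      (Finset.mem_insert_of_mem (List.mem_toFinset.2 (List.mem_cons_self (a := z) (l := P))))
    obtain ⟨c', hc', h1, h2⟩ := Ac6_exists h.tok hyz hzP hcC (hc.ext c hcC).key hQ.1 hQ.2
    have h3 : ∀ w ∈ (z :: P).toFinset, HT r (c' ++ A) y w = H' y w := by
      intro w hw
      rw [hnew]
      rcases List.mem_cons.1 (List.mem_toFinset.1 hw) with rfl | hwP
      · exact h2
      · have hwz : w ≠ z := by
          rintro rfl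
          exact hzP hwP
        rw [h1 w hwz, ← hnew]
        exact hcw w (List.mem_toFinset.2 hwP)
    refine ⟨c', hc', h3, val_congr hv (Ac6_sym r _) (Ac6_agree (Ac6_sym r _) hv.sym ?_ h3 ?_)⟩
    · rw [Ac6_self]
      exact (hv.zr y (Finset.mem_insert_self _ _) y (Finset.mem_insert_self _ _) (hm.bip y y rfl)).symm
    · intro x hx w hw
      rw [hold c' hc' x hx w hw, hag x hx w hw]
  have hex : ∃ c' ∈ exd T r y z C, Val (tt r) (gT T) (HT r (c' ++ A)) (insert y (z :: P).toFinset) := by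
    obtain ⟨H', h1, h2⟩ := h.ex
    obtain ⟨c', hc', -, h3⟩ := hfind H' (val_mono h1 (Finset.insert_subset_insert y hsub))
      fun x hx w hw => h2 x (hsub hx) w (hsub hw)
    exact ⟨c', hc', h3⟩
  -- the filter
  obtain ⟨F, hF⟩ : ∃ F, F = (exd T r y z C).filter fun c => decide (ens r (y :: z :: P) (c ++ A) =
    mnm ((exd T r y z C).map fun c => ens r (y :: z :: P) (c ++ A))) := ⟨_, rfl⟩
  have hmem : ∀ c', c' ∈ F ↔ c' ∈ exd T r y z C ∧ Val (tt r) (gT T) (HT r (c' ++ A)) (insert y (z :: P).toFinset) := by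
    intro c'
    rw [hF, List.mem_filter, decide_eq_true_iff]
    refine and_congr_right fun hc' => ?_
    rw [← hset]
    refine Ac6_flt hm hS h.lt (fun c hc => (hdata c hc).1.lt) (fun c hc => ?_) ?_ hc'
    · rw [hset]
      exact hpre c hc
    · rw [hset]
      exact hex
  have hFnd : F.Nodup := by
    rw [hF]
    exact List.Nodup.filter _ (Ac6_ndexd hc.nd)
  have hinj : ∀ c ∈ F, ∀ c' ∈ F, (∀ w ∈ z :: P, HT r (c ++ A) y w = HT r (c' ++ A) y w) → c = c' := by
    intro c hcF c' hcF' he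
    refine Ac6_injx h.tok hyz hzP (fun c1 h1 c2 h2 h3 => hc.inj c1 h1 c2 h2 fun w hw => ?_) ((hmem c).1 hcF).1
      ((hmem c').1 hcF').1 fun w hw => ?_
    · rw [hnew, hnew]
      exact h3 w hw
    · have h4 := he w hw
      rwa [hnew, hnew] at h4
  -- all entries are zero
  have hone : (∀ w ∈ z :: P, gT T y w = 0) → F = [[]] := by
    intro h0
    have h1 : C = [[]] := hc.one fun w hw => h0 w (List.mem_cons_of_mem _ hw)
    have h2 : exd T r y z C = [[]] := by
      unfold exd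
      rw [if_pos (decide_eq_true ((lk2_zero h.tok y z).2 (h0 z List.mem_cons_self))), h1]
    have h3 : ∀ c ∈ F, c = [] := by
      intro c hcF
      have h4 := ((hmem c).1 hcF).1
      rw [h2] at h4
      exact List.mem_singleton.1 h4
    obtain ⟨c', hc', hv⟩ := hex
    have h5 : c' ∈ F := (hmem c').2 ⟨hc', hv⟩
    rcases hFl : F with _ | ⟨a, F'⟩
    · rw [hFl] at h5
      exact absurd h5 List.not_mem_nil
    · rw [hFl] at h3 hFnd
      have ha := h3 a List.mem_cons_self
      rcases F' with _ | ⟨b, F''⟩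
      · rw [ha]
      · have hb := h3 b (List.mem_cons_of_mem _ List.mem_cons_self)
        rw [ha, hb] at hFnd
        exact absurd List.mem_cons_self (List.nodup_cons.1 hFnd).1
  have hlen : F.length ≤ 576 := by
    by_cases h0 : ∀ w ∈ z :: P, gT T y w = 0
    · rw [hone h0]
      norm_num
    · push Not at h0
      obtain ⟨w0, hw0, hne0⟩ := h0
      have hCn : Cn (gT T) (insert y (z :: P).toFinset) :=
        cn_insert hm hC ⟨w0, List.mem_toFinset.2 hw0, hne0⟩
      have hsub' : insert y (z :: P).toFinset ⊆ insert y N.toFinset := Finset.insert_subset_insert y hsub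
      have hE : EU (tt r) (gT T) (insert y (z :: P).toFinset) :=
        ⟨fun S' hS' => h.eu.ex S' (hS'.trans hsub'), fun S' hS' => h.eu.un S' (hS'.trans hsub')⟩
      have hyn : y ∉ (z :: P).toFinset := fun h1 => hyzP (List.mem_toFinset.1 h1)
      have her : (insert y (z :: P).toFinset).erase y = (z :: P).toFinset := Finset.erase_insert hyn
      have hb := ext_bound hm hE (Finset.mem_insert_self _ _) hCn (by rw [her]; exact hC) (H := HT r A)
        (by rw [her]; exact val_mono h.val hsub)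
        (F.toFinset.image fun (c : Tb) (w : ℕ) => if w ∈ z :: P then HT r (c ++ A) y w else 0) (by
          intro f hf
          obtain ⟨c, hcF, rfl⟩ := Finset.mem_image.1 hf
          rw [List.mem_toFinset] at hcF
          obtain ⟨hcx, hv⟩ := (hmem c).1 hcF
          rw [her]
          refine ⟨fun w hw => ?_, ?_⟩
          · rw [List.mem_toFinset] at hw
            exact if_neg hw
          · have hsx : ∀ x w, xt (HT r A) y (fun w => if w ∈ z :: P then HT r (c ++ A) y w else 0) w x =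
                star (xt (HT r A) y (fun w => if w ∈ z :: P then HT r (c ++ A) y w else 0) x w) := by
              intro x w
              unfold xt
              by_cases hx : x = y
              · by_cases hw : w = y
                · rw [if_pos hw, if_pos hx, if_pos hx, if_pos hw, star_zero]
                · rw [if_neg hw, if_pos hx, if_pos hx, if_neg hw]
              · by_cases hw : w = y
                · rw [if_pos hw, if_neg hx, if_neg hx, if_pos hw, star_star]
                · rw [if_neg hw, if_neg hx, if_neg hx, if_neg hw]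
                  exact Ac6_sym r _ _ _
            refine val_congr hv hsx (Ac6_agree hsx (Ac6_sym r _) ?_ ?_ ?_)
            · unfold xt
              rw [if_pos rfl, if_pos rfl, Ac6_self]
            · intro w hw
              unfold xt
              rw [if_pos rfl, if_neg (hney w hw)]
              exact if_pos (List.mem_toFinset.1 hw)
            · intro x hx w hw
              unfold xt
              rw [if_neg (hney x hx), if_neg (hney w hw)]
              exact (hold c hcx x hx w hw).symm)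
      rw [Finset.card_image_of_injOn, List.toFinset_card_of_nodup hFnd] at hb
      · exact hb
      · intro c hcF c' hcF' he
        have hcF1 := List.mem_toFinset.1 (Finset.mem_coe.1 hcF)
        have hcF2 := List.mem_toFinset.1 (Finset.mem_coe.1 hcF')
        refine hinj c hcF1 c' hcF2 fun w hw => ?_
        have h1 := congrFun he w
        simp only [if_pos hw] at h1
        exact h1
  have hflt : flt r (y :: z :: P) A (exd T r y z C) = F := by
    unfold flt
    rw [← hF]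
    exact List.take_of_length_le hlen
  rw [hflt]
  refine ⟨hFnd, fun c hcF => (hdata c ((hmem c).1 hcF).1).1, fun c hcF => ((hmem c).1 hcF).2, ?_, hone, hinj⟩
  intro H' hv hag
  obtain ⟨c', hc', h1, h2⟩ := hfind H' hv hag
  exact ⟨c', (hmem c').2 ⟨hc', h2⟩, h1⟩

end Pool.Agent.QUA
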