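import Pool.Agent.QUA.Ac6
import Pool.Agent.QUA.Ac5

/-!
# QUA/Ac7: the loops

`inn_spec`: `ins_spec` along `N` (the state after the prefix `u` of `N` is `(u.reverse, C)` with `Cnd T r A u.reverse y C`).
`lft_spec`: after the prefix `u` of `N` the state is `(u, A)`, `A` has the numbers `< 26` and the keys in `u`, and `HT r A` is valid on `u`; in every step `good_ext` gives `Ctx`
and `inn_spec` is applied with `N := u`.
-/

set_option autoImplicit false

noncomputable section

namespace Pool.Agent.QUA

open Pool.Agent.FRM Pool.Agent.BEO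

variable {T : Tb} {r : ℕ}

private theorem Ac7_inn {A : Tb} {N : List ℕ} {y : ℕ} (h : Ctx T r A N y) (hpre : ∀ u v, N = u ++ v → Cn (gT T) u.toFinset) :
    ∀ u v, N = u ++ v → (u.foldl (ins T r A y) ([], [[]])).1 = u.reverse ∧ Cnd T r A u.reverse y (u.foldl (ins T r A y) ([], [[]])).2 := by
  intro u
  induction u using List.reverseRecOn with
  | nil =>
    intro v _
    exact ⟨rfl, cnd_nil h⟩
  | append_singleton u z ih =>
    intro v hv
    have hv2 : N = u ++ (z :: v) := by rw [hv, List.append_assoc]; rfl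
    obtain ⟨h1, h2⟩ := ih (z :: v) hv2
    have hz : z ∈ N := by rw [hv2]; exact List.mem_append_right _ List.mem_cons_self
    have hu : ∀ x ∈ u.reverse, x ∈ N := by
      intro x hx
      rw [hv2]
      exact List.mem_append_left _ (List.mem_reverse.1 hx)
    have hnd : (z :: u.reverse).Nodup := by
      have h3 := h.nd
      rw [hv] at h3
      have h4 := List.nodup_reverse.2 (List.Nodup.of_append_left h3)
      rwa [List.reverse_append, List.reverse_singleton, List.singleton_append] at h4
    have hset : (z :: u.reverse).toFinset = (u ++ [z]).toFinset := by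
      ext x
      simp only [List.mem_toFinset, List.mem_cons, List.mem_reverse, List.mem_append, List.not_mem_nil, or_false]
      tauto
    have hC : Cn (gT T) (z :: u.reverse).toFinset := by
      rw [hset]
      exact hpre (u ++ [z]) v hv
    rw [List.foldl_append, List.reverse_append, List.reverse_singleton, List.singleton_append]
    refine ⟨?_, ?_⟩
    · show z :: (u.foldl (ins T r A y) ([], [[]])).1 = z :: u.reverse
      rw [h1]
    · show Cnd T r A (z :: u.reverse) y (flt r (y :: z :: (u.foldl (ins T r A y) ([], [[]])).1) A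
        (exd T r y z (u.foldl (ins T r A y) ([], [[]])).2))
      rw [h1]
      exact ins_spec h hu hz hnd hC h2

theorem inn_spec {A : Tb} {N : List ℕ} {y : ℕ} (h : Ctx T r A N y) (hpre : ∀ u v, N = u ++ v → Cn (gT T) u.toFinset) :
    inn T r A N y ≠ [] ∧ ∀ c ∈ inn T r A N y, Ext1 T r N y c ∧ Val (tt r) (gT T) (HT r (c ++ A)) (insert y N.toFinset) := by
  obtain ⟨-, hc⟩ := Ac7_inn h hpre N [] (List.append_nil N).symm
  have hset : N.reverse.toFinset = N.toFinset := List.toFinset_reverse
  refine ⟨?_, ?_⟩
  · obtain ⟨H', h1, h2⟩ := h.ex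
    obtain ⟨c, hc1, -⟩ := hc.all H' (by rw [hset]; exact h1) (by rw [hset]; exact h2)
    intro h3
    have h4 : c ∈ inn T r A N y := hc1
    rw [h3] at h4
    exact absurd h4 List.not_mem_nil
  · intro c hc1
    have h1 := hc.ext c hc1
    have h2 := hc.val c hc1
    rw [hset] at h2
    refine ⟨⟨h1.lt, ?_, ?_⟩, h2⟩
    · intro p hp
      rcases h1.key p hp with ⟨h3, h4, h5⟩ | ⟨h3, h4, h5⟩
      · exact Or.inl ⟨h3, List.mem_reverse.1 h4, h5⟩
      · exact Or.inr ⟨h3, List.mem_reverse.1 h4, h5⟩
    · intro z hz hne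
      exact h1.has z (List.mem_reverse.2 hz) hne

private theorem Ac7_sym (A : Tb) (x y : ℕ) : HT r A y x = star (HT r A x y) := by
  unfold HT
  by_cases hx : x < r <;> by_cases hy : y < r <;> simp [hx, hy]

private theorem Ac7_nil : Val (tt r) (gT T) (HT r []) (∅ : Finset ℕ) := by
  refine ⟨fun x y => Ac7_sym [] x y, fun x hx => absurd hx (Finset.notMem_empty x), fun x hx => absurd hx (Finset.notMem_empty x), ?_⟩
  intro k f h hRC
  cases k with
  | zero =>
    rw [dC_zero_fin, Matrix.det_isEmpty, if_neg one_ne_zero]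
  | succ k => exact absurd (hRC.1 0).1 (Finset.notMem_empty _)

private theorem Ac7_out (hT : Tok T r) {N : List ℕ} (hN : N.Nodup) (hE : EU (tt r) (gT T) N.toFinset)
    (hG : ∀ u x v, N = u ++ x :: v →
      Cn (gT T) u.toFinset ∧ Cn (gT T) (insert x u.toFinset) ∧ Good (gT T) (insert x u.toFinset) x) :
    ∀ u v, N = u ++ v → (u.foldl (ous T r) ([], [])).1 = u ∧ (∀ p ∈ (u.foldl (ous T r) ([], [])).2, p.2 < 26) ∧
      (∀ p ∈ (u.foldl (ous T r) ([], [])).2, p.1.1 ∈ u ∧ p.1.2 ∈ u) ∧
      Val (tt r) (gT T) (HT r (u.foldl (ous T r) ([], [])).2) u.toFinset := by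
  intro u
  induction u using List.reverseRecOn with
  | nil =>
    intro v _
    exact ⟨rfl, fun p hp => absurd hp List.not_mem_nil, fun p hp => absurd hp List.not_mem_nil, Ac7_nil⟩
  | append_singleton u y ih =>
    intro v hv
    have hv2 : N = u ++ (y :: v) := by rw [hv, List.append_assoc]; rfl
    obtain ⟨h1, h2, h3, h4⟩ := ih (y :: v) hv2
    rw [List.foldl_append]
    generalize hs : u.foldl (ous T r) ([], []) = s at h1 h2 h3 h4
    obtain ⟨s1, A⟩ := s
    simp only at h1 h2 h3 h4
    subst h1
    obtain ⟨hc1, hc2, hc3⟩ := hG s1 y v hv2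
    have hnd := hN
    rw [hv2] at hnd
    have hu : s1.Nodup := List.Nodup.of_append_left hnd
    have hy : y ∉ s1 := fun h5 => (List.nodup_append.1 hnd).2.2 y h5 y List.mem_cons_self rfl
    have hyf : y ∉ s1.toFinset := fun h5 => hy (List.mem_toFinset.1 h5)
    have hsub : insert y s1.toFinset ⊆ N.toFinset := by
      intro x hx
      rw [List.mem_toFinset, hv2]
      rcases Finset.mem_insert.1 hx with rfl | hx
      · exact List.mem_append_right _ List.mem_cons_self
      · exact List.mem_append_left _ (List.mem_toFinset.1 hx)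
    have hE' : EU (tt r) (gT T) (insert y s1.toFinset) :=
      ⟨fun S' hS' => hE.ex S' (hS'.trans hsub), fun S' hS' => hE.un S' (hS'.trans hsub)⟩
    have hers : (insert y s1.toFinset).erase y = s1.toFinset := Finset.erase_insert hyf
    obtain ⟨H', hH1, hH2⟩ := good_ext hT.hm hE' hc3 (HT r A) (by rw [hers]; exact h4)
    rw [hers] at hH2
    have hctx : Ctx T r A s1 y := ⟨hT, hu, hy, hE', h2, h3, h4, H', hH1, hH2⟩
    obtain ⟨g1, g2⟩ := inn_spec hctx (by
      intro u1 v1 h5
      cases v1 with
      | nil =>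
        rw [List.append_nil] at h5
        rw [← h5]
        exact hc1
      | cons x v2 =>
        refine (hG u1 x (v2 ++ y :: v) ?_).1
        rw [hv2, h5, List.append_assoc]
        rfl)
    have hmem : (inn T r A s1 y).headD [] ∈ inn T r A s1 y := by
      cases hi : inn T r A s1 y with
      | nil => exact absurd hi g1
      | cons c l => exact List.mem_cons_self
    obtain ⟨h5, h6⟩ := g2 _ hmem
    have hset : (s1 ++ [y]).toFinset = insert y s1.toFinset := by
      ext x
      simp only [List.mem_toFinset, List.mem_append, Finset.mem_insert, List.mem_cons, List.not_mem_nil, or_false]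
      tauto
    refine ⟨rfl, ?_, ?_, ?_⟩
    · intro p hp
      rcases List.mem_append.1 hp with hp | hp
      · exact h5.lt p hp
      · exact h2 p hp
    · intro p hp
      rcases List.mem_append.1 hp with hp | hp
      · rcases h5.key p hp with ⟨h7, h8, -⟩ | ⟨h7, h8, -⟩
        · exact ⟨List.mem_append_right _ (List.mem_singleton.2 h7), List.mem_append_left _ h8⟩
        · exact ⟨List.mem_append_left _ h8, List.mem_append_right _ (List.mem_singleton.2 h7)⟩
      · exact ⟨List.mem_append_left _ (h3 p hp).1, List.mem_append_left _ (h3 p hp).2⟩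
    · rw [hset]
      exact h6

theorem lft_spec (hT : Tok T r) {N : List ℕ} (hN : N.Nodup) (hE : EU (tt r) (gT T) N.toFinset)
    (hG : ∀ u x v, N = u ++ x :: v →
      Cn (gT T) u.toFinset ∧ Cn (gT T) (insert x u.toFinset) ∧ Good (gT T) (insert x u.toFinset) x) :
    (∀ p ∈ lft T r N, p.2 < 26) ∧ Val (tt r) (gT T) (HT r (lft T r N)) N.toFinset := by
  obtain ⟨-, h2, -, h4⟩ := Ac7_out hT hN hE hG N [] (List.append_nil N).symm
  exact ⟨h2, h4⟩

/-- the algorithm finds a valid lift -/
theorem lft_chn (hT : Tok T r) {V : List ℕ} (hV : V.Nodup) (hC : Cn (gT T) V.toFinset) (hE : EU (tt r) (gT T) V.toFinset) :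
    (∀ p ∈ lft T r (chn T V), p.2 < 26) ∧ Val (tt r) (gT T) (HT r (lft T r (chn T V))) V.toFinset := by
  obtain ⟨h1, h2, h3⟩ := chn_spec hT hV hC
  have h4 := lft_spec hT h1 (by rw [h2]; exact hE) h3
  rwa [h2] at h4

end Pool.Agent.QUA
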