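import Pool.Agent.FRN.Alg

/-!
# QUA/Alg: the algorithm

Codes of the elements `0, 1, w, u` of the field with four elements: `0, 1, 2, 3`. A table `T : Tb` stores numbers under pairs; the table of a matrix (with the rows `x < r` and the
columns `x ≥ r`) stores the codes of `g x y` for all pairs with `g x y ≠ 0` (`g y x = (g x y)⁻¹`). `look`, `memb`, `comp` are in BEO/Alg, `blk`, `ulk`, `gr`, `adet`, `rt4`, `dv4` and the
input format in FRN/Alg. A table of quaternions stores numbers of blocks (`FRN.btab`, quaternion `FRN.bq`) under pairs (row, column).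
-/

set_option autoImplicit false

namespace Pool.Agent.QUA

open Pool.Agent.BEO Pool.Agent.PQE Pool.Agent.FRN

abbrev Tb := List ((ℕ × ℕ) × ℕ)

/-- the number stored under `(x, y)`, or `0` -/
def lk2 (T : Tb) (x y : ℕ) : ℕ := look T (x, y) 0

/-- product of codes -/
def m4 (a b : ℕ) : ℕ :=
  if decide (a = 0) || decide (b = 0) then 0 else if decide (a = 1) then b else if decide (b = 1) then a
  else if decide (a = b) then (if decide (a = 2) then 3 else 2) else 1

/-- inverse of a code -/
def i4 (a : ℕ) : ℕ := if decide (a = 2) then 3 else if decide (a = 3) then 2 else a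

/-- are `x` and `y` in the same class? -/
def cnn {X : Type} [DecidableEq X] (V : List X) (E : List (X × X)) (x y : X) : Bool :=
  decide (look (comp V E) x x = look (comp V E) y y)

/-- the pairs with a nonzero entry -/
def adj (T : Tb) (V : List ℕ) : List (ℕ × ℕ) :=
  V.flatMap fun x => (V.filter fun y => !(decide (lk2 T x y = 0))).map fun y => (x, y)

/-- connected? -/
def cnq (T : Tb) (V : List ℕ) : Bool := V.all fun x => cnn V (adj T V) x (V.headD 0)

/-- the points of the threefold cover: `(x, k)` stands for a potential with value `k` at `x` -/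
def V3 (V : List ℕ) : List (ℕ × ℕ) := V.flatMap fun x => [(x, 0), (x, 1), (x, 2)]

/-- the value at `y` if the value at `x` is `k` and `g x y` has the code `c` (`k - (c - 1)` modulo three) -/
def sh (c k : ℕ) : ℕ :=
  if decide (c = 1) then k else if decide (c = 2) then (if decide (k = 0) then 2 else if decide (k = 1) then 0 else 1)
  else (if decide (k = 0) then 1 else if decide (k = 1) then 2 else 0)

/-- the edges of the threefold cover -/
def ad3 (T : Tb) (V : List ℕ) : List ((ℕ × ℕ) × (ℕ × ℕ)) :=
  (adj T V).flatMap fun p =>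
    [((p.1, 0), (p.2, sh (lk2 T p.1 p.2) 0)), ((p.1, 1), (p.2, sh (lk2 T p.1 p.2) 1)), ((p.1, 2), (p.2, sh (lk2 T p.1 p.2) 2))]

/-- balanced? -/
def blq (T : Tb) (V : List ℕ) : Bool := V.all fun x => !(cnn (V3 V) (ad3 T V) (x, 0) (x, 1))

/-- does `x` in the side force `y` in the side? -/
def stq (T : Tb) (i j x y : ℕ) : Bool :=
  !(decide (m4 (lk2 T x y) (lk2 T i j) = m4 (lk2 T x j) (lk2 T i y)))

/-- the smallest side which contains `z` -/
def clq (T : Tb) (V : List ℕ) (i j z : ℕ) : List ℕ :=
  V.foldl (fun A _ => V.filter fun y => memb A y || A.any fun x => stq T i j x y) (V.filter fun y => decide (y = i) || decide (y = z))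

/-- `V` without `A` -/
def sbt (V A : List ℕ) : List ℕ := V.filter fun y => !(memb A y)

/-- `V` without `x` -/
def rmv (V : List ℕ) (x : ℕ) : List ℕ := V.filter fun y => !(decide (y = x))

/-- no separation with two nonbinary sides? (for connected `V`) -/
def okq (T : Tb) (V : List ℕ) : Bool :=
  V.all fun i => V.all fun j => V.all fun z =>
    decide (lk2 T i j = 0) || decide (z = j) || blq T (j :: clq T V i j z) || blq T (i :: sbt V (clq T V i j z))

def psq (T : Tb) (V : List ℕ) : Bool := cnq T V && okq T V

/-- the elements which may be removed -/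
def cnd (T : Tb) (V : List ℕ) : List ℕ :=
  (V.filter fun x => psq T (rmv V x)) ++
    V.flatMap fun i => V.flatMap fun j => V.flatMap fun z =>
      if decide (lk2 T i j = 0) || decide (z = j) then [] else
        (clq T V i j z).filter fun x => !((rmv (clq T V i j z) x).isEmpty) && psq T (j :: rmv (clq T V i j z) x)

/-- one step of the chain: current list, removed elements -/
def chs (T : Tb) (s : List ℕ × List ℕ) : List ℕ × List ℕ :=
  if s.1.isEmpty then s else (rmv s.1 ((cnd T s.1).headD 0), ((cnd T s.1).headD 0) :: s.2)

/-- the order in which the elements are added -/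
def chn (T : Tb) (V : List ℕ) : List ℕ := (V.foldl (fun s _ => chs T s) (V, [])).2

/-! ### lifts -/

/-- the blocks with the residue of code `d`: the class (`FRN.kc`) is `0, 1, 2` for `d = 1, 2, 3`, the block number `t + 2` is minus the unit number `t`, and the class of
the unit number `t` is `t / 8` -/
def cdl4 (d : ℕ) : List ℕ :=
  if decide (d = 1) then [2, 3, 4, 5, 6, 7, 8, 9] else if decide (d = 2) then [10, 11, 12, 13, 14, 15, 16, 17]
  else [18, 19, 20, 21, 22, 23, 24, 25]

/-- extend the candidates by the entry at `y`, `z` -/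
def exd (T : Tb) (r y z : ℕ) (C : List Tb) : List Tb :=
  if decide (lk2 T y z = 0) then C
  else if decide (y < r) then C.flatMap fun c => (cdl4 (lk2 T y z)).map fun k => ((y, z), k) :: c
  else C.flatMap fun c => (cdl4 (lk2 T z y)).map fun k => ((z, y), k) :: c

def rwl (r : ℕ) (S : List ℕ) : List ℕ := S.filter fun x => decide (x < r)

def cll (r : ℕ) (S : List ℕ) : List ℕ := S.filter fun x => !(decide (x < r))

/-- row `a` of the block row of `x`, with unit vectors for `H` and the columns `L` -/
def rwc (H L : List ℕ) (A : Tb) (x a : ℕ) : List In :=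
  (H.flatMap fun h => blk (ulk h x) a) ++ L.flatMap fun y => blk (lk2 A x y) a

/-- all rows, with their numbers -/
def rwsc (W H L : List ℕ) (A : Tb) : List (ℕ × List In) :=
  (List.range W.length).flatMap fun p => [0, 1, 2, 3].map fun a => (4 * p + a, rwc H L A (W.getD p 0) a)

/-- determinant of the Gram matrix -/
def enc (W H L : List ℕ) (A : Tb) : ℕ := adet ((rwsc W H L A).map Prod.fst) (gr (rwsc W H L A))

/-- the energy -/
def ens (r : ℕ) (S : List ℕ) (A : Tb) : ℕ := enc (rwl r S) (rwl r S) (cll r S) A

def mnm (l : List ℕ) : ℕ := l.foldl (fun m x => if decide (x < m) then x else m) (l.headD 0)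

/-- the candidates with minimal energy -/
def flt (r : ℕ) (S : List ℕ) (A : Tb) (C : List Tb) : List Tb :=
  (C.filter fun c => decide (ens r S (c ++ A) = mnm (C.map fun c => ens r S (c ++ A)))).take 576

/-- one step of the inner loop: elements done, candidates for the entries at `y` -/
def ins (T : Tb) (r : ℕ) (A : Tb) (y : ℕ) (s : List ℕ × List Tb) (z : ℕ) : List ℕ × List Tb :=
  (z :: s.1, flt r (y :: z :: s.1) A (exd T r y z s.2))

def inn (T : Tb) (r : ℕ) (A : Tb) (N : List ℕ) (y : ℕ) : List Tb := (N.foldl (ins T r A y) ([], [[]])).2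

/-- one step of the outer loop: elements done, table of the lift -/
def ous (T : Tb) (r : ℕ) (s : List ℕ × Tb) (y : ℕ) : List ℕ × Tb :=
  (s.1 ++ [y], ((inn T r s.2 s.1 y).headD []) ++ s.2)

/-- the table of the lift, `N` = the elements in the right order -/
def lft (T : Tb) (r : ℕ) (N : List ℕ) : Tb := (N.foldl (ous T r) ([], [])).2

/-! ### input -/

/-- code of an entry -/
def cde (x : Ent) : ℕ := if x.1 then lme' x + 1 else 0

/-- the table of the matrix -/
def tb0 (A : Mx) : Tb :=
  (wn A).flatMap fun i => (cs A).flatMap fun j =>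
    if decide (cde (ent A i j) = 0) then [] else
      [((i, A.length + j), cde (ent A i j)), ((A.length + j, i), i4 (cde (ent A i j)))]

/-- the columns which are not zero -/
def cl0 (A : Mx) : List ℕ :=
  ((cs A).filter fun j => (wn A).any fun i => !(decide (cde (ent A i j) = 0))).map fun j => A.length + j

/-- one row of every component -/
def rps (A : Mx) : List ℕ :=
  (wn A).filter fun i => !((wn A).any fun i' => decide (i' < i) && cnn (wn A ++ cl0 A) (adj (tb0 A) (wn A ++ cl0 A)) i' i)

/-- the number of the additional column -/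
def lst (A : Mx) : ℕ := A.length + (A.headD []).length

/-- the table of the connected matrix -/
def tb1 (A : Mx) : Tb := (rps A).flatMap (fun i => [((i, lst A), 1), ((lst A, i), 1)]) ++ tb0 A

def vs1 (A : Mx) : List ℕ := wn A ++ (cl0 A ++ [lst A])

/-- the number of bases -/
def nbq (A : Mx) : ℕ :=
  dv4 (wn A) (rt4 (enc (wn A) [] (cl0 A) (lft (tb1 A) A.length (chn (tb1 A) (vs1 A)))))

end Pool.Agent.QUA
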