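import Pool.Agent.QUA.Defs
import Pool.Agent.FRM.Une1

/-!
# QUA/Aug: adding a column with at most one nonzero entry in every component

The matrix `A'`: `A' x e = 1` for `x ∈ Rp`, `0` for the other rows, `A' = A` elsewhere. A minor with the column `e` is expanded along this column; at most
one of the terms is not zero, because a nonzero minor gives a bijection between its rows and columns which preserves the components.
-/

set_option autoImplicit false

noncomputable section

namespace Pool.Agent.QUA

open Pool.Agent.FRM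

variable {V : Type} [DecidableEq V] {t : V → Bool} {g g' : V → V → F4} {S : Finset V}

private theorem Aug_pow {x : KU} (h : InG x) (n : ℕ) : InG ((-1) ^ n * x) := by
  rcases neg_one_pow_eq_or KU n with h1 | h1
  · rw [h1, one_mul]
    exact h
  · rw [h1, neg_one_mul]
    exact inG_neg h

open scoped Classical in
omit [DecidableEq V] in
private theorem Aug_cnt {k : ℕ} {A : V → V → KU} {P : V → Prop} (f h : Fin k → V)
    (hd : (sm A f h).det ≠ 0) (hP : ∀ a b, A (f a) (h b) ≠ 0 → (P (f a) ↔ P (h b))) :
    ∑ a, (if P (f a) then 1 else 0) = ∑ b, (if P (h b) then 1 else 0) := by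
  rw [Matrix.det_apply'] at hd
  obtain ⟨σ, _, hσ⟩ := Finset.exists_ne_zero_of_sum_ne_zero hd
  have h1 : ∀ b, A (f (σ b)) (h b) ≠ 0 := by
    intro b hb
    apply hσ
    have h2 : ∏ i, sm A f h (σ i) i = 0 := Finset.prod_eq_zero (Finset.mem_univ b) hb
    rw [h2, mul_zero]
  rw [← Equiv.sum_comp σ (fun a => if P (f a) then 1 else 0)]
  refine Finset.sum_congr rfl fun b _ => ?_
  by_cases h2 : P (h b)
  · rw [if_pos h2, if_pos ((hP _ _ (h1 b)).2 h2)]
  · rw [if_neg h2, if_neg (fun h3 => h2 ((hP _ _ (h1 b)).1 h3))]

theorem u2g_aug (hU : U2G t g S) {e : V} (he : e ∉ S) (hte : t e = false) {Rp : Finset V} (hR : ∀ x ∈ Rp, x ∈ S ∧ t x = true)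
    (hg : ∀ x ∈ S, ∀ y ∈ S, g' x y = g x y) (hge : ∀ x ∈ S, t x = true → g' x e = if x ∈ Rp then 1 else 0)
    (hsep : ∀ x ∈ Rp, ∀ y ∈ Rp, x ≠ y → ¬ Relation.EqvGen (fun a b => a ∈ S ∧ b ∈ S ∧ t a = true ∧ t b = false ∧ g a b ≠ 0) x y) :
    U2G t g' (insert e S) := by
  classical
  obtain ⟨A, hA1, hA2⟩ := hU
  set R : V → V → Prop := fun a b => a ∈ S ∧ b ∈ S ∧ t a = true ∧ t b = false ∧ g a b ≠ 0 with hRdef
  set A' : V → V → KU := fun x y => if y = e then (if x ∈ Rp then 1 else 0) else A x y with hA'
  have hAe : ∀ x, A' x e = if x ∈ Rp then 1 else 0 := fun x => by rw [hA']; simp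
  have hAn : ∀ x y, y ≠ e → A' x y = A x y := fun x y hy => by rw [hA']; simp [hy]
  refine ⟨A', ?_, ?_⟩
  · intro k f h hRC
    have hf : ∀ a, f a ∈ S ∧ t (f a) = true := by
      intro a
      obtain ⟨h1, h2⟩ := hRC.1 a
      refine ⟨?_, h2⟩
      rcases Finset.mem_insert.1 h1 with h3 | h3
      · rw [h3, hte] at h2
        exact absurd h2 (by simp)
      · exact h3
    by_cases hfi : Function.Injective f
    swap
    · left
      simp only [Function.Injective, not_forall] at hfi
      obtain ⟨a, b, hab, hne⟩ := hfi
      exact Matrix.det_zero_of_row_eq hne (by funext c; simp only [sm, Matrix.of_apply, hab])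
    by_cases hhi : Function.Injective h
    swap
    · left
      simp only [Function.Injective, not_forall] at hhi
      obtain ⟨a, b, hab, hne⟩ := hhi
      exact Matrix.det_zero_of_column_eq hne (fun c => by simp only [sm, Matrix.of_apply, hab])
    by_cases heh : ∃ b, h b = e
    swap
    · push Not at heh
      have h1 : sm A' f h = sm A f h := by
        ext a b
        simp only [sm, Matrix.of_apply]
        exact hAn _ _ (heh b)
      rw [h1]
      refine hA1 k f h ⟨hf, fun b => ?_⟩
      obtain ⟨h2, h3⟩ := hRC.2 b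
      exact ⟨(Finset.mem_insert.1 h2).resolve_left (heh b), h3⟩
    obtain ⟨b₀, hb₀⟩ := heh
    obtain ⟨k', rfl⟩ : ∃ k', k = k' + 1 := ⟨k - 1, by have := b₀.pos; omega⟩
    set h' : Fin k' → V := fun b => h (b₀.succAbove b) with hh'
    have hh'e : ∀ b, h' b ≠ e := by
      intro b hb
      rw [hh', ← hb₀] at hb
      exact Fin.succAbove_ne b₀ b (hhi hb)
    set mn : Fin (k' + 1) → KU := fun i => (sm A (fun a => f (i.succAbove a)) h').det with hmn
    have hRC' : ∀ i : Fin (k' + 1), RC t S (fun a => f (i.succAbove a)) h' := by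
      intro i
      refine ⟨fun a => hf _, fun b => ?_⟩
      obtain ⟨h2, h3⟩ := hRC.2 (b₀.succAbove b)
      exact ⟨(Finset.mem_insert.1 h2).resolve_left (hh'e b), h3⟩
    have hdet : (sm A' f h).det = ∑ i : Fin (k' + 1), (-1) ^ ((i : ℕ) + (b₀ : ℕ)) *
        (if f i ∈ Rp then 1 else 0) * mn i := by
      rw [Matrix.det_succ_column (sm A' f h) b₀]
      refine Finset.sum_congr rfl fun i _ => ?_
      have h1 : sm A' f h i b₀ = if f i ∈ Rp then 1 else 0 := by
        simp only [sm, Matrix.of_apply]
        rw [hb₀]
        exact hAe _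
      have h2 : (sm A' f h).submatrix i.succAbove b₀.succAbove =
          sm A (fun a => f (i.succAbove a)) h' := by
        ext a b
        simp only [sm, Matrix.of_apply, Matrix.submatrix_apply]
        exact hAn _ _ (hh'e b)
      rw [h1, h2]
    have hone : ∀ i i' : Fin (k' + 1), f i ∈ Rp → f i' ∈ Rp → mn i ≠ 0 → mn i' ≠ 0 → i = i' := by
      intro i i' hi hi' hm hm'
      by_contra hne
      have hfne : f i ≠ f i' := fun h1 => hne (hfi h1)
      have hP : ∀ (j : Fin (k' + 1)) (a b : Fin k'), A (f (j.succAbove a)) (h' b) ≠ 0 →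
          (Relation.EqvGen R (f i) (f (j.succAbove a)) ↔ Relation.EqvGen R (f i) (h' b)) := by
        intro j a b hab
        have h1 := (hRC' j).1 a
        have h2 := (hRC' j).2 b
        have h3 : g (f (j.succAbove a)) (h' b) ≠ 0 := by
          rcases hA2 _ h1.1 _ h2.1 h1.2 h2.2 with h4 | ⟨u, h4, h5⟩
          · exact absurd h4.1 hab
          · rw [h5]
            unfold fz
            split_ifs
            · decide
            · decide
            · decide
        have h4 : R (f (j.succAbove a)) (h' b) := ⟨h1.1, h2.1, h1.2, h2.2, h3⟩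
        constructor
        · intro h5
          exact h5.trans _ _ _ (Relation.EqvGen.rel _ _ h4)
        · intro h5
          exact h5.trans _ _ _ ((Relation.EqvGen.rel _ _ h4).symm _ _)
      have c1 := Aug_cnt (P := fun x => Relation.EqvGen R (f i) x) (fun a => f (i.succAbove a)) h' hm
        (hP i)
      have c2 := Aug_cnt (P := fun x => Relation.EqvGen R (f i) x) (fun a => f (i'.succAbove a)) h' hm'
        (hP i')
      have s1 := Fin.sum_univ_succAbove (fun a => if Relation.EqvGen R (f i) (f a) then 1 else 0) i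
      have s2 := Fin.sum_univ_succAbove (fun a => if Relation.EqvGen R (f i) (f a) then 1 else 0) i'
      rw [if_pos (Relation.EqvGen.refl _)] at s1
      rw [if_neg (hsep _ hi _ hi' hfne)] at s2
      omega
    rw [hdet]
    by_cases hex : ∃ i, f i ∈ Rp ∧ mn i ≠ 0
    · obtain ⟨i, hi, hm⟩ := hex
      rw [Finset.sum_eq_single i]
      · right
        rw [if_pos hi, mul_one]
        rcases hA1 k' _ _ (hRC' i) with h1 | h1
        · exact absurd h1 hm
        · exact Aug_pow h1 _
      · intro j _ hj
        by_cases h1 : f j ∈ Rp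
        · have h2 : mn j = 0 := by
            by_contra h3
            exact hj (hone j i h1 hi h3 hm)
          rw [h2, mul_zero]
        · rw [if_neg h1, mul_zero, zero_mul]
      · intro h1
        exact absurd (Finset.mem_univ _) h1
    · left
      push Not at hex
      refine Finset.sum_eq_zero fun i _ => ?_
      by_cases h1 : f i ∈ Rp
      · rw [hex i h1, mul_zero]
      · rw [if_neg h1, mul_zero, zero_mul]
  · intro x hx y hy htx hty
    have hxS : x ∈ S := by
      rcases Finset.mem_insert.1 hx with h3 | h3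
      · rw [h3, hte] at htx
        exact absurd htx (by simp)
      · exact h3
    by_cases hye : y = e
    · subst hye
      rw [hAe, hge x hxS htx]
      by_cases h1 : x ∈ Rp
      · right
        refine ⟨0, ?_, ?_⟩
        · rw [if_pos h1, ev_zero]
        · rw [if_pos h1]
          have h2 : FRN.lm 0 = 0 := by
            simp [FRN.lm]
          rw [h2]
          rfl
      · left
        rw [if_neg h1, if_neg h1]
        exact ⟨rfl, rfl⟩
    · rw [hAn _ _ hye]
      have hyS := (Finset.mem_insert.1 hy).resolve_left hye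
      rw [hg x hxS y hyS]
      exact hA2 x hxS y hyS htx hty

end Pool.Agent.QUA
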