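import Pool.Agent.QUA.Defs

/-!
# QUA/Bl1: balanced sets
-/

set_option autoImplicit false

noncomputable section

namespace Pool.Agent.QUA

open Pool.Agent.FRM

variable {V : Type} [DecidableEq V] {t : V → Bool} {g : V → V → F4}

theorem bal_mono {S S' : Finset V} (h : S ⊆ S') (hb : Bal g S') : Bal g S := by
  obtain ⟨p, hp, hb⟩ := hb
  exact ⟨p, hp, fun x hx y hy => hb x (h hx) y (h hy)⟩

omit [DecidableEq V] in
private theorem bl1_star (hg : Hm t g) {S : Finset V} (c : V) (hS : ∀ x ∈ S, t x = t c → x = c) :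
    Bal g S := by
  classical
  refine ⟨fun x => if g x c = 0 then 1 else g x c, fun x => ?_, fun x hx y hy hxy => ?_⟩
  · show (if g x c = 0 then (1 : F4) else g x c) ≠ 0
    by_cases h : g x c = 0
    · rw [if_pos h]
      exact one_ne_zero
    · rw [if_neg h]
      exact h
  · have hcc : g c c = 0 := hg.bip c c rfl
    have hne : t x ≠ t y := fun h => hxy (hg.bip x y h)
    have hone : x = c ∨ y = c := by
      by_cases h1 : t x = t c
      · exact Or.inl (hS x hx h1)
      · right
        refine hS y hy ?_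
        revert hne h1
        cases t x <;> cases t y <;> cases t c <;> simp
    rcases hone with rfl | rfl
    · have h1 : g y x ≠ 0 := by
        intro h2
        have h3 := hg.inv y x
        rw [h2, inv_zero] at h3
        exact hxy h3
      show g x y = (if g x x = 0 then 1 else g x x) * (if g y x = 0 then 1 else g y x)⁻¹
      rw [if_pos hcc, if_neg h1, one_mul]
      exact hg.inv y x
    · show g x y = (if g x y = 0 then 1 else g x y) * (if g y y = 0 then 1 else g y y)⁻¹
      rw [if_pos hcc, if_neg hxy, inv_one, mul_one]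

omit [DecidableEq V] in
private theorem bl1_type (hg : Hm t g) {S : Finset V} (b : Bool)
    (h : (S.filter fun x => t x = b).card ≤ 1) : Bal g S := by
  classical
  rcases (S.filter fun x => t x = b).eq_empty_or_nonempty with h0 | ⟨c, hc⟩
  · have h1 : ∀ x ∈ S, t x = !b := by
      intro x hx
      have h2 : x ∉ S.filter fun x => t x = b := by
        rw [h0]
        exact Finset.notMem_empty x
      have h3 : t x ≠ b := fun h3 => h2 (Finset.mem_filter.2 ⟨hx, h3⟩)
      revert h3
      cases t x <;> cases b <;> simp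
    exact ⟨fun _ => 1, fun _ => one_ne_zero, fun x hx y hy hxy =>
      absurd (hg.bip x y ((h1 x hx).trans (h1 y hy).symm)) hxy⟩
  · refine bl1_star hg c fun x hx hxc => ?_
    obtain ⟨hcS, hcb⟩ := Finset.mem_filter.1 hc
    exact Finset.card_le_one.1 h x (Finset.mem_filter.2 ⟨hx, hxc.trans hcb⟩) c hc

omit [DecidableEq V] in
private theorem bl1_card (hg : Hm t g) {S : Finset V} (h : S.card ≤ 3) : Bal g S := by
  have h1 : (S.filter fun x => t x = true).card + (S.filter fun x => ¬ t x = true).card = S.card :=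
    Finset.card_filter_add_card_filter_not (s := S) (fun x => t x = true)
  have h2 : (S.filter fun x => ¬ t x = true) = S.filter fun x => t x = false := by
    ext x
    simp
  rw [h2] at h1
  by_cases h3 : (S.filter fun x => t x = true).card ≤ 1
  · exact bl1_type hg true h3
  · exact bl1_type hg false (by omega)

/-- Two of the three elements have the same type. -/
theorem bal_three (hg : Hm t g) (a b c : V) : Bal g {a, b, c} :=
  bl1_card hg Finset.card_le_three

theorem bal_card (hg : Hm t g) {S : Finset V} (h : S.card ≤ 3) : Bal g S := bl1_card hg h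

theorem hv_mono {A B A' B' : Finset V} (h : Hv g A B) (hA : A ⊆ A') (hB : B ⊆ A' ∪ B') (hne : B'.Nonempty) : Hv g A' B' := by
  obtain ⟨b, hb, hbal⟩ := h
  rcases Finset.mem_union.1 (hB hb) with h1 | h1
  · obtain ⟨b', hb'⟩ := hne
    refine ⟨b', hb', fun h2 => hbal (bal_mono ?_ h2)⟩
    intro x hx
    rcases Finset.mem_insert.1 hx with rfl | hx
    · exact Finset.mem_insert_of_mem h1
    · exact Finset.mem_insert_of_mem (hA hx)
  · exact ⟨b, h1, fun h2 => hbal (bal_mono (Finset.insert_subset_insert b hA) h2)⟩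

theorem hv_card (hg : Hm t g) {A B : Finset V} (h : Hv g A B) : 3 ≤ A.card := by
  obtain ⟨b, -, hbal⟩ := h
  by_contra hlt
  refine hbal (bal_card hg ?_)
  have := Finset.card_insert_le b A
  omega

/-- Potentials on a connected set which agree at one point agree everywhere (consider the set of points where they agree). -/
theorem pot_unique {S : Finset V} (hC : Cn g S) {p q : V → F4} (hp : ∀ x, p x ≠ 0) (hq : ∀ x, q x ≠ 0)
    (h : ∀ x ∈ S, ∀ y ∈ S, g x y ≠ 0 → g x y = p x * (p y)⁻¹) (h' : ∀ x ∈ S, ∀ y ∈ S, g x y ≠ 0 → g x y = q x * (q y)⁻¹)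
    {b : V} (hb : b ∈ S) (hpq : p b = q b) : ∀ x ∈ S, p x = q x := by
  classical
  by_contra hcon
  push Not at hcon
  obtain ⟨z, hz, hzne⟩ := hcon
  obtain ⟨x, hx, y, hy, hxy⟩ := hC (S.filter fun x => p x = q x) (Finset.filter_subset _ _)
    ⟨b, Finset.mem_filter.2 ⟨hb, hpq⟩⟩
    ⟨z, Finset.mem_sdiff.2 ⟨hz, fun h3 => hzne (Finset.mem_filter.1 h3).2⟩⟩
  obtain ⟨hxS, hxe⟩ := Finset.mem_filter.1 hx
  obtain ⟨hyS, hyn⟩ := Finset.mem_sdiff.1 hy
  have h1 := h x hxS y hyS hxy
  have h2 := h' x hxS y hyS hxy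
  rw [h1, hxe] at h2
  have h3 : (p y)⁻¹ = (q y)⁻¹ := mul_left_cancel₀ (hq x) h2
  exact hyn (Finset.mem_filter.2 ⟨hyS, inv_injective h3⟩)

end Pool.Agent.QUA
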