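import Pool.Agent.QUA.Bl1

/-!
# QUA/Bl2: gluing balanced sets across a separation

`bal_glue`: a separation of order at most one whose two sides (each with one more element of the other side) are balanced is balanced.
`light_union`: the union of two light sides of separations of order at most one is light.
-/

set_option autoImplicit false

noncomputable section

namespace Pool.Agent.QUA

open Pool.Agent.FRM

variable {V : Type} [DecidableEq V] {t : V → Bool} {g : V → V → F4}

private theorem Bl2_f1 (a b : F4) {k : F4} (hk : k ≠ 0) : a * b⁻¹ = a * k * (b * k)⁻¹ := by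
  rw [mul_inv]
  calc a * b⁻¹ = a * b⁻¹ * (k * k⁻¹) := by rw [mul_inv_cancel₀ hk, mul_one]
    _ = a * k * (b⁻¹ * k⁻¹) := by ring

private theorem Bl2_f2 (a q : F4) {b c : F4} (hb : b ≠ 0) (hc : c ≠ 0) : a * b⁻¹ * (c * q) * (c * b⁻¹)⁻¹ = a * q := by
  rw [mul_inv, inv_inv]
  calc a * b⁻¹ * (c * q) * (c⁻¹ * b) = a * q * (b⁻¹ * b) * (c * c⁻¹) := by ring
    _ = a * q := by rw [inv_mul_cancel₀ hb, mul_inv_cancel₀ hc, mul_one, mul_one]

private theorem Bl2_lo_mono {A B B' : Finset V} (h : Lo g A B) (hB : B' ⊆ B) : Lo g A B' := by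
  obtain ⟨u, v, h⟩ := h
  exact ⟨u, v, fun x hx y hy => h x hx y (hB hy)⟩

/-- gluing two potentials -/
private theorem Bl2_glue (hg : Hm t g) {A B : Finset V} (hd : Disjoint A B) {pA pB : V → F4} (hpA : ∀ x, pA x ≠ 0)
    (hpB : ∀ x, pB x ≠ 0) (h1 : ∀ x ∈ A, ∀ y ∈ A, g x y ≠ 0 → g x y = pA x * (pA y)⁻¹)
    (h2 : ∀ x ∈ B, ∀ y ∈ B, g x y ≠ 0 → g x y = pB x * (pB y)⁻¹)
    (h3 : ∀ x ∈ A, ∀ y ∈ B, g x y ≠ 0 → g x y = pA x * (pB y)⁻¹) : Bal g (A ∪ B) := by
  have hnA : ∀ x ∈ B, x ∉ A := fun x hx hx' => Finset.disjoint_left.1 hd hx' hx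
  refine ⟨fun x => if x ∈ A then pA x else pB x, ?_, ?_⟩
  · intro x
    by_cases hx : x ∈ A
    · simp only [hx, if_true]; exact hpA x
    · simp only [hx, if_false]; exact hpB x
  · intro x hx y hy hxy
    rcases Finset.mem_union.1 hx with hxA | hxB
    · rcases Finset.mem_union.1 hy with hyA | hyB
      · simp only [hxA, hyA, if_true]
        exact h1 x hxA y hyA hxy
      · simp only [hxA, hnA y hyB, if_true, if_false]
        exact h3 x hxA y hyB hxy
    · rcases Finset.mem_union.1 hy with hyA | hyB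
      · simp only [hyA, hnA x hxB, if_true, if_false]
        have e := hg.inv y x
        have hne : g y x ≠ 0 := by
          intro h0
          rw [h0, inv_zero] at e
          exact hxy e
        rw [e, h3 y hyA x hxB hne, mul_inv, inv_inv, mul_comm]
      · simp only [hnA x hxB, hnA y hyB, if_false]
        exact h2 x hxB y hyB hxy

theorem bal_glue (hg : Hm t g) {A B : Finset V} (hd : Disjoint A B) (hA : A.Nonempty) (hB : B.Nonempty) (hl : Lo g A B)
    (h : ∀ b ∈ B, Bal g (insert b A)) (h' : ∀ a ∈ A, Bal g (insert a B)) : Bal g (A ∪ B) := by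
  by_cases h0 : ∀ x ∈ A, ∀ y ∈ B, g x y = 0
  · obtain ⟨a, ha⟩ := hA
    obtain ⟨b, hb⟩ := hB
    obtain ⟨pA, hpA, h1⟩ := h b hb
    obtain ⟨pB, hpB, h2⟩ := h' a ha
    refine Bl2_glue hg hd hpA hpB (fun x hx y hy => h1 x (Finset.mem_insert_of_mem hx) y (Finset.mem_insert_of_mem hy))
      (fun x hx y hy => h2 x (Finset.mem_insert_of_mem hx) y (Finset.mem_insert_of_mem hy)) ?_
    intro x hx y hy hxy
    exact absurd (h0 x hx y hy) hxy
  · push Not at h0
    obtain ⟨i, hi, j, hj, hij⟩ := h0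
    obtain ⟨pA, hpA, h1⟩ := h j hj
    obtain ⟨pB, hpB, h2⟩ := h' i hi
    obtain ⟨u, v, huv⟩ := hl
    have hk : pA i * (pB i)⁻¹ ≠ 0 := mul_ne_zero (hpA i) (inv_ne_zero (hpB i))
    have hpB' : ∀ x, pB x * (pA i * (pB i)⁻¹) ≠ 0 := fun x => mul_ne_zero (hpB x) hk
    have h2' : ∀ x ∈ insert i B, ∀ y ∈ insert i B, g x y ≠ 0 →
        g x y = pB x * (pA i * (pB i)⁻¹) * (pB y * (pA i * (pB i)⁻¹))⁻¹ := by
      intro x hx y hy hxy
      rw [h2 x hx y hy hxy]
      exact Bl2_f1 _ _ hk
    have hii : pB i * (pA i * (pB i)⁻¹) = pA i := by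
      rw [mul_comm, mul_assoc, inv_mul_cancel₀ (hpB i), mul_one]
    refine Bl2_glue hg hd hpA hpB' (fun x hx y hy => h1 x (Finset.mem_insert_of_mem hx) y (Finset.mem_insert_of_mem hy))
      (fun x hx y hy => h2' x (Finset.mem_insert_of_mem hx) y (Finset.mem_insert_of_mem hy)) ?_
    intro x hx y hy hxy
    have e1 := huv x hx y hy
    have e2 := huv x hx j hj
    have e3 := huv i hi y hy
    have e4 := huv i hi j hj
    have ux : u x ≠ 0 := fun h0 => hxy (by rw [e1, h0, zero_mul])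
    have vy : v y ≠ 0 := fun h0 => hxy (by rw [e1, h0, mul_zero])
    have ui : u i ≠ 0 := fun h0 => hij (by rw [e4, h0, zero_mul])
    have vj : v j ≠ 0 := fun h0 => hij (by rw [e4, h0, mul_zero])
    have n2 : g x j ≠ 0 := by rw [e2]; exact mul_ne_zero ux vj
    have n3 : g i y ≠ 0 := by rw [e3]; exact mul_ne_zero ui vy
    have f2 := h1 x (Finset.mem_insert_of_mem hx) j (Finset.mem_insert_self _ _) n2
    have f4 := h1 i (Finset.mem_insert_of_mem hi) j (Finset.mem_insert_self _ _) hij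
    have f3 := h2' i (Finset.mem_insert_self _ _) y (Finset.mem_insert_of_mem hy) n3
    rw [hii] at f3
    have hmul : g x y * g i j = g x j * g i y := by rw [e1, e2, e3, e4]; ring
    have hres : g x y = g x j * g i y * (g i j)⁻¹ := by
      rw [← hmul, mul_assoc, mul_inv_cancel₀ hij, mul_one]
    rw [hres, f2, f3, f4]
    exact Bl2_f2 _ _ (hpA j) (hpA i)

/-- The union of two light sides is light. -/
theorem light_union (hg : Hm t g) {A₁ A₂ B : Finset V} (hd : Disjoint A₁ A₂) (h1 : Disjoint A₁ B) (h2 : Disjoint A₂ B)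
    (hl1 : Lo g A₁ (A₂ ∪ B)) (hl2 : Lo g A₂ (A₁ ∪ B)) (h1' : ¬ Hv g A₁ (A₂ ∪ B)) (h2' : ¬ Hv g A₂ (A₁ ∪ B)) : ¬ Hv g (A₁ ∪ A₂) B := by
  have k1 : ∀ c ∈ A₂ ∪ B, Bal g (insert c A₁) := by
    intro c hc
    by_contra hcon
    exact h1' ⟨c, hc, hcon⟩
  have k2 : ∀ c ∈ A₁ ∪ B, Bal g (insert c A₂) := by
    intro c hc
    by_contra hcon
    exact h2' ⟨c, hc, hcon⟩
  rintro ⟨b, hb, hnb⟩
  apply hnb
  rcases A₁.eq_empty_or_nonempty with hA1 | hA1
  · rw [hA1, Finset.empty_union]
    exact k2 b (Finset.mem_union_right _ hb)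
  rcases A₂.eq_empty_or_nonempty with hA2 | hA2
  · rw [hA2, Finset.union_empty]
    exact k1 b (Finset.mem_union_right _ hb)
  have hb1 : b ∉ A₁ := fun h => Finset.disjoint_left.1 h1 h hb
  have hb2 : b ∉ A₂ := fun h => Finset.disjoint_left.1 h2 h hb
  have e1 : insert b (A₁ ∪ A₂) = A₁ ∪ insert b A₂ := by
    rw [Finset.union_insert]
  rw [e1]
  refine bal_glue hg ?_ hA1 (Finset.insert_nonempty _ _) (Bl2_lo_mono hl1 ?_) ?_ ?_
  · rw [Finset.disjoint_insert_right]
    exact ⟨hb1, hd⟩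
  · intro x hx
    rcases Finset.mem_insert.1 hx with rfl | hx
    · exact Finset.mem_union_right _ hb
    · exact Finset.mem_union_left _ hx
  · intro c hc
    rcases Finset.mem_insert.1 hc with rfl | hc
    · exact k1 _ (Finset.mem_union_right _ hb)
    · exact k1 c (Finset.mem_union_left _ hc)
  · intro a ha
    have ha2 : a ∉ A₂ := fun h => Finset.disjoint_left.1 hd ha h
    have e2 : insert a (insert b A₂) = A₂ ∪ {a, b} := by
      ext x
      simp only [Finset.mem_insert, Finset.mem_union, Finset.mem_singleton]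
      tauto
    rw [e2]
    refine bal_glue hg ?_ hA2 (Finset.insert_nonempty _ _) (Bl2_lo_mono hl2 ?_) ?_ ?_
    · rw [Finset.disjoint_insert_right, Finset.disjoint_singleton_right]
      exact ⟨ha2, hb2⟩
    · intro x hx
      rcases Finset.mem_insert.1 hx with rfl | hx
      · exact Finset.mem_union_left _ ha
      · rw [Finset.mem_singleton] at hx
        rw [hx]
        exact Finset.mem_union_right _ hb
    · intro c hc
      rcases Finset.mem_insert.1 hc with rfl | hc
      · exact k2 _ (Finset.mem_union_left _ ha)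
      · rw [Finset.mem_singleton] at hc
        rw [hc]
        exact k2 b (Finset.mem_union_right _ hb)
    · intro c _
      exact bal_three hg c a b

end Pool.Agent.QUA
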