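import Pool.Agent.FRN.Defs

/-!
# QUA: counting the bases of 2-uniform matroids in polynomial time (MP_f270bf_lc, Q1). Definitions

A matrix in standard form over the field with four elements is coded by `t : V → Bool` (`t x = true`: `x` is a row) and
`g : V → V → F4`: `g x y` is the entry if `x` is a row and `y` a column, `g y x = (g x y)⁻¹` (which is the Frobenius conjugate), and `0` if `x`, `y` have the same
type. The submatrix with the rows and columns in `S : Finset V` is the minor of the matroid obtained by contracting the rows outside `S` and deleting the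
columns outside `S`. Quaternionic matrices are coded in the same way, `H y x = star (H x y)`.
-/

set_option autoImplicit false

noncomputable section

namespace Pool.Agent.QUA

open Pool.Agent.FRM

/-- the nonzero element with the given logarithm -/
def fz (c : ZMod 3) : F4 := if c = 0 then F4.i else if c = 1 then F4.w else F4.u

open scoped Classical in
/-- the residue of `0` or of a Hurwitz unit; it is `(QUS.red z).a ^ 2` for `q = QUS.emb z` -/
def rs (q : Hq) : F4 := if q = 0 then 0 else fz (FRN.kc q)

section

variable {V : Type} [DecidableEq V]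

/-- `g` codes a matrix with the rows `t x = true` and the columns `t x = false`. -/
structure Hm (t : V → Bool) (g : V → V → F4) : Prop where
  inv : ∀ x y, g y x = (g x y)⁻¹
  bip : ∀ x y, t x = t y → g x y = 0

/-- rows and columns for a minor with rows and columns in `S` -/
def RC (t : V → Bool) (S : Finset V) {k : ℕ} (f h : Fin k → V) : Prop :=
  (∀ a, f a ∈ S ∧ t (f a) = true) ∧ ∀ b, h b ∈ S ∧ t (h b) = false

/-- square submatrices -/
def sm {K : Type} (g : V → V → K) {k : ℕ} (f h : Fin k → V) : Matrix (Fin k) (Fin k) K := Matrix.of fun a b => g (f a) (h b)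

/-- `g` is on `S` the specialisation of a matrix over the 2-uniform partial field. -/
def U2G (t : V → Bool) (g : V → V → F4) (S : Finset V) : Prop :=
  ∃ A : V → V → KU, (∀ (k : ℕ) (f h : Fin k → V), RC t S f h → (sm A f h).det = 0 ∨ InG (sm A f h).det) ∧
    ∀ x ∈ S, ∀ y ∈ S, t x = true → t y = false → (A x y = 0 ∧ g x y = 0) ∨ ∃ u : XG, A x y = ev u ∧ g x y = fz (FRN.lm u)

/-- Valid lift: Hurwitz units with the given residues, all square submatrices have the complex determinant `0` or `1`, and `0` exactly if the
determinant over `F4` is zero. -/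
structure Val (t : V → Bool) (g : V → V → F4) (H : V → V → Hq) (S : Finset V) : Prop where
  sym : ∀ x y, H y x = star (H x y)
  zr : ∀ x ∈ S, ∀ y ∈ S, g x y = 0 → H x y = 0
  un : ∀ x ∈ S, ∀ y ∈ S, t x = true → t y = false → g x y ≠ 0 → HU (H x y) ∧ rs (H x y) = g x y
  dt : ∀ (k : ℕ) (f h : Fin k → V), RC t S f h → dC (sm H f h) = if (sm g f h).det = 0 then 0 else 1

/-- equivalent lifts -/
def Eqv (H H' : V → V → Hq) (S : Finset V) : Prop :=
  ∃ w : V → Hq, (∀ x, HU (w x)) ∧ ∀ x ∈ S, ∀ y ∈ S, H' x y = w x * H x y * star (w y)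

/-- the rank of the block `A × B` is at most one -/
def Lo (g : V → V → F4) (A B : Finset V) : Prop := ∃ u v : V → F4, ∀ x ∈ A, ∀ y ∈ B, g x y = u x * v y

/-- the submatrix is balanced, that is, the matroid is binary -/
def Bal (g : V → V → F4) (S : Finset V) : Prop :=
  ∃ p : V → F4, (∀ x, p x ≠ 0) ∧ ∀ x ∈ S, ∀ y ∈ S, g x y ≠ 0 → g x y = p x * (p y)⁻¹

/-- connected -/
def Cn (g : V → V → F4) (S : Finset V) : Prop :=
  ∀ A ⊆ S, A.Nonempty → (S \ A).Nonempty → ∃ x ∈ A, ∃ y ∈ S \ A, g x y ≠ 0

/-- the side `A` (of the separation `A`, `B`) is nonbinary -/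
def Hv (g : V → V → F4) (A B : Finset V) : Prop := ∃ b ∈ B, ¬ Bal g (insert b A)

/-- no separation of order at most one with two nonbinary sides -/
def Ok (g : V → V → F4) (S : Finset V) : Prop := ∀ A ⊆ S, Lo g A (S \ A) → Hv g A (S \ A) → ¬ Hv g (S \ A) A

/-- `A` is a side of a separation of `S` of order one; `i ∈ A` and `j ∉ A` are ends of a nonzero entry -/
structure Cl (g : V → V → F4) (S A : Finset V) (i j : V) : Prop where
  sub : A ⊆ S
  hi : i ∈ A
  hS : j ∈ S
  hj : j ∉ A
  ne : g i j ≠ 0
  cl : ∀ x ∈ A, ∀ y ∈ S, y ∉ A → g x y * g i j = g x j * g i y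

end

end Pool.Agent.QUA
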