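import Pool.Agent.QUA.Alg
import Pool.Agent.QUA.Defs
import Pool.Agent.FRN.DefL

/-!
# QUA/DefT: the meaning of the tables, energies

`bq c` (FRN/DefL): the quaternion of the block number `c`: `0`, `1`, `- qv (c - 2)`.
-/

set_option autoImplicit false

noncomputable section

namespace Pool.Agent.QUA

open Pool.Agent.FRM

/-- the element of the field with the code `c` -/
def f4 (c : ℕ) : F4 := if c = 0 then 0 else if c = 1 then 1 else if c = 2 then F4.w else F4.u

/-- rows are the numbers smaller than `r` -/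
def tt (r x : ℕ) : Bool := decide (x < r)

/-- the matrix of a table -/
def gT (T : Tb) (x y : ℕ) : F4 := f4 (lk2 T x y)

/-- the quaternionic matrix of a table -/
def HT (r : ℕ) (A : Tb) (x y : ℕ) : Hq :=
  if x < r ∧ ¬ y < r then FRN.bq (lk2 A x y) else if ¬ x < r ∧ y < r then star (FRN.bq (lk2 A y x)) else 0

/-- the table `T` is good -/
structure Tok (T : Tb) (r : ℕ) : Prop where
  lt : ∀ x y, lk2 T x y < 4
  hm : Hm (tt r) (gT T)

/-- Hurwitz units with the right residues -/
structure Pre (t : ℕ → Bool) (g : ℕ → ℕ → F4) (H : ℕ → ℕ → Hq) (S : Finset ℕ) : Prop where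
  sym : ∀ x y, H y x = star (H x y)
  zr : ∀ x ∈ S, ∀ y ∈ S, g x y = 0 → H x y = 0
  un : ∀ x ∈ S, ∀ y ∈ S, t x = true → t y = false → g x y ≠ 0 → HU (H x y) ∧ rs (H x y) = g x y

/-- the energy: the sum of the complex determinants of all square submatrices -/
def wts (t : ℕ → Bool) (H : ℕ → ℕ → Hq) (S : Finset ℕ) : ℝ :=
  ∑ P ∈ (S.filter fun x => t x = true).powerset, ∑ Q ∈ (S.filter fun x => t x = false).powerset,
    if h : Q.card = P.card then (dC (sm H (P.orderEmbOfFin rfl) (Q.orderEmbOfFin h))).re else 0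

/-- the number of nonzero subdeterminants -/
def nbs (t : ℕ → Bool) (g : ℕ → ℕ → F4) (S : Finset ℕ) : ℕ :=
  ∑ P ∈ (S.filter fun x => t x = true).powerset, ∑ Q ∈ (S.filter fun x => t x = false).powerset,
    if h : Q.card = P.card then (if (sm g (P.orderEmbOfFin rfl) (Q.orderEmbOfFin h)).det = 0 then 0 else 1) else 0

end Pool.Agent.QUA
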