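import Pool.Agent.QUA.Pa1

/-!
# QUA/Pa2: if the determinant of the residues is not zero then the complex determinant is at least one

`Rq`, `red` from QUS/Defs: `red z = a + b ε`, `ε² = 0`. Let `D := M.map (fun z => (red z).a)` (an invertible matrix over `F4`), `N` a matrix of Hurwitz integers with residues `D⁻¹` (`F4` lifts: `0, 1, ω, 1 + ω` have the residues `0, 1, w, u`).
The residue `z ↦ (red z).a` is a ring homomorphism, so `M * N = 1 + E` with `(red (E i j)).a = 0`, and `E * E` has `red = 0` (`(b ε) (b' ε) = 0`), so all its entries are divisible by two (`red z = 0` implies that all coordinates of `z` are even).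
`M * N * (1 - E) = 1 - E * E`, hence `rhM M * rhM N * rhM (1 - E) = 1 - 2 F` with an integer matrix `F`; its determinant is odd (map to `ZMod 2`), so `det (rhM M) ≠ 0`, an integer; by `det_rho` `(dC (M.map emb)) ^ 2` is a nonzero integer, and
`dC` is a nonnegative real number (`dC_nonneg`), so it is at least one.
-/

set_option autoImplicit false

noncomputable section

namespace Pool.Agent.QUA

open Pool.Agent.FRM Pool.Agent.QUS

private def pa2_lft : F4 → Hz
  | F4.o => 0
  | F4.i => 1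
  | F4.w => ⟨0, 0, 0, 1⟩
  | F4.u => ⟨1, 0, 0, 1⟩

private theorem pa2_red_a (z : Hz) : (red z).a = ((z.a + z.b + z.c : ℤ) : F4) + (z.d : F4) * F4.w := rfl

private theorem pa2_red_b (z : Hz) : (red z).b = (z.b : F4) + (z.c : F4) * F4.w := rfl

private def pa2_res : Hz →+* F4 where
  toFun z := (red z).a
  map_zero' := by rw [map_zero, Rq.zero_a]
  map_one' := by rw [map_one, Rq.one_a]
  map_add' x y := by rw [map_add, Rq.add_a]
  map_mul' x y := by rw [map_mul, Rq.mul_a]

private theorem pa2_res_lft (x : F4) : pa2_res (pa2_lft x) = x := by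
  show (red (pa2_lft x)).a = x
  rw [pa2_red_a]
  cases x
  · show (((0 : ℤ) + 0 + 0 : ℤ) : F4) + ((0 : ℤ) : F4) * F4.w = F4.o
    push_cast
    decide
  · show (((1 : ℤ) + 0 + 0 : ℤ) : F4) + ((0 : ℤ) : F4) * F4.w = F4.i
    push_cast
    decide
  · show (((0 : ℤ) + 0 + 0 : ℤ) : F4) + ((1 : ℤ) : F4) * F4.w = F4.w
    push_cast
    decide
  · show (((1 : ℤ) + 0 + 0 : ℤ) : F4) + ((1 : ℤ) : F4) * F4.w = F4.u
    push_cast
    decide

private theorem pa2_cast (n : ℤ) : ((n : F4) = 0 ∧ ((n : ZMod 2) = 0)) ∨ ((n : F4) = 1 ∧ ((n : ZMod 2) = 1)) := by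
  have h2 : (2 : F4) = 0 := by decide
  have h2' : (2 : ZMod 2) = 0 := by decide
  rcases Int.even_or_odd' n with ⟨k, h | h⟩
  · left
    rw [h]
    push_cast
    rw [h2, h2', zero_mul, zero_mul]
    exact ⟨rfl, rfl⟩
  · right
    rw [h]
    push_cast
    rw [h2, h2', zero_mul, zero_mul, zero_add, zero_add]
    exact ⟨rfl, rfl⟩

private theorem pa2_zero {z : Hz} (h : red z = 0) :
    (z.a : ZMod 2) = 0 ∧ (z.b : ZMod 2) = 0 ∧ (z.c : ZMod 2) = 0 ∧ (z.d : ZMod 2) = 0 := by
  have h1 : ((z.a + z.b + z.c : ℤ) : F4) + (z.d : F4) * F4.w = 0 := by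
    rw [← pa2_red_a, h, Rq.zero_a]
  have h2 : (z.b : F4) + (z.c : F4) * F4.w = 0 := by
    rw [← pa2_red_b, h, Rq.zero_b]
  have n1 : ¬ ((1 : F4) + 0 * F4.w = 0) := by decide
  have n2 : ¬ ((0 : F4) + 1 * F4.w = 0) := by decide
  have n3 : ¬ ((1 : F4) + 1 * F4.w = 0) := by decide
  have hb : (z.b : ZMod 2) = 0 ∧ (z.c : ZMod 2) = 0 := by
    rcases pa2_cast z.b with ⟨hb, hb'⟩ | ⟨hb, hb'⟩ <;> rcases pa2_cast z.c with ⟨hc, hc'⟩ | ⟨hc, hc'⟩ <;>
      rw [hb, hc] at h2
    · exact ⟨hb', hc'⟩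
    · exact absurd h2 n2
    · exact absurd h2 n1
    · exact absurd h2 n3
  have ha : ((z.a + z.b + z.c : ℤ) : ZMod 2) = 0 ∧ (z.d : ZMod 2) = 0 := by
    rcases pa2_cast (z.a + z.b + z.c) with ⟨hb, hb'⟩ | ⟨hb, hb'⟩ <;> rcases pa2_cast z.d with ⟨hc, hc'⟩ | ⟨hc, hc'⟩ <;>
      rw [hb, hc] at h1
    · exact ⟨hb', hc'⟩
    · exact absurd h1 n2
    · exact absurd h1 n1
    · exact absurd h1 n3
  refine ⟨?_, hb.1, hb.2, ha.2⟩
  have h3 := ha.1
  push_cast at h3
  rw [hb.1, hb.2, add_zero, add_zero] at h3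
  exact h3

private theorem pa2_crd_add (x y : Hz) : crd (x + y) = crd x + crd y := by
  funext a
  fin_cases a <;> rfl

private theorem pa2_rho_add (x y : Hz) (a b : Fin 4) : rho (x + y) a b = rho x a b + rho y a b := by
  show crd ((x + y) * bas b) a = crd (x * bas b) a + crd (y * bas b) a
  rw [add_mul, pa2_crd_add]
  rfl

private theorem pa2_rho_zero (a b : Fin 4) : rho 0 a b = 0 := by
  have h := pa2_rho_add 0 0 a b
  rw [add_zero] at h
  linarith

private theorem pa2_rho_one (a b : Fin 4) : rho 1 a b = if a = b then 1 else 0 := by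
  show crd (1 * bas b) a = _
  rw [one_mul]
  fin_cases a <;> fin_cases b <;> rfl

/-- the matrix of a Hurwitz integer with residue zero is even -/
private theorem pa2_even {z : Hz} (h : red z = 0) (a b : Fin 4) : ((rho z a b : ℤ) : ZMod 2) = 0 := by
  obtain ⟨ha, hb, hc, hd⟩ := pa2_zero h
  show ((crd (z * bas b) a : ℤ) : ZMod 2) = 0
  rw [Hz.mul_def]
  fin_cases a
  · show ((z.a * (bas b).a - z.b * (bas b).b - z.c * (bas b).c - z.d * (bas b).d + z.b * (bas b).c - z.c * (bas b).b -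
      z.d * (bas b).b - z.c * (bas b).d : ℤ) : ZMod 2) = 0
    push_cast
    rw [ha, hb, hc, hd]
    ring
  · show ((z.a * (bas b).b + z.b * (bas b).a - z.b * (bas b).c - z.b * (bas b).d + z.c * (bas b).b + z.c * (bas b).d -
      z.d * (bas b).c : ℤ) : ZMod 2) = 0
    push_cast
    rw [ha, hb, hc, hd]
    ring
  · show ((z.a * (bas b).c + z.c * (bas b).a - z.b * (bas b).c + z.c * (bas b).b - z.b * (bas b).d - z.d * (bas b).c +
      z.d * (bas b).b : ℤ) : ZMod 2) = 0
    push_cast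
    rw [ha, hb, hc, hd]
    ring
  · show ((z.a * (bas b).d + z.d * (bas b).a - z.d * (bas b).d + 2 * (z.b * (bas b).c - z.c * (bas b).b) + z.b * (bas b).d -
      z.d * (bas b).b + z.d * (bas b).c - z.c * (bas b).d : ℤ) : ZMod 2) = 0
    push_cast
    rw [ha, hb, hc, hd]
    ring

private theorem pa2_mul {x y : Hz} (hx : (red x).a = 0) (hy : (red y).a = 0) : red (x * y) = 0 := by
  rw [map_mul]
  ext
  · rw [Rq.mul_a, hx, zero_mul, Rq.zero_a]
  · rw [Rq.mul_b, hx, hy, zero_mul, Rq.zero_b]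
    ring

/-- the determinant of the integer matrix is not zero -/
private theorem pa2_ne {k : ℕ} (M : Matrix (Fin k) (Fin k) Hz) (h : (M.map fun z => (red z).a).det ≠ 0) :
    (rhM M).det ≠ 0 := by
  obtain ⟨D, hD⟩ : ∃ D, D = pa2_res.mapMatrix M := ⟨_, rfl⟩
  have hDd : D.det ≠ 0 := by rw [hD]; exact h
  obtain ⟨N, hN⟩ : ∃ N : Matrix (Fin k) (Fin k) Hz, N = (D⁻¹).map pa2_lft := ⟨_, rfl⟩
  have hND : pa2_res.mapMatrix N = D⁻¹ := by
    rw [hN]
    ext i j
    exact pa2_res_lft _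
  have h1 : pa2_res.mapMatrix (M * N) = 1 := by
    rw [map_mul, hND, ← hD]
    exact Matrix.mul_nonsing_inv D (isUnit_iff_ne_zero.2 hDd)
  obtain ⟨E, hE⟩ : ∃ E, E = M * N - 1 := ⟨_, rfl⟩
  have hE0 : ∀ i j, (red (E i j)).a = 0 := by
    intro i j
    have h2 : pa2_res.mapMatrix E = 0 := by
      rw [hE, map_sub, h1, map_one, sub_self]
    exact congrFun (congrFun h2 i) j
  have hEE : ∀ i j, red ((E * E) i j) = 0 := by
    intro i j
    rw [Matrix.mul_apply, map_sum]
    exact Finset.sum_eq_zero fun l _ => pa2_mul (hE0 i l) (hE0 l j)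
  have h3 : M * N * (1 - E) + E * E = 1 := by
    have h4 : M * N = 1 + E := by rw [hE]; abel
    rw [h4]
    noncomm_ring
  have h5 : (Int.castRingHom (ZMod 2)).mapMatrix (rhM (M * N * (1 - E))) = 1 := by
    ext ⟨i, a⟩ ⟨j, b⟩
    show ((rho ((M * N * (1 - E)) i j) a b : ℤ) : ZMod 2) = _
    have h6 : (M * N * (1 - E)) i j + (E * E) i j = (1 : Matrix (Fin k) (Fin k) Hz) i j :=
      congrFun (congrFun h3 i) j
    have h7 := pa2_rho_add ((M * N * (1 - E)) i j) ((E * E) i j) a b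
    rw [h6] at h7
    have h8 := congrArg (Int.cast : ℤ → ZMod 2) h7
    rw [Int.cast_add, pa2_even (hEE i j), add_zero] at h8
    rw [← h8]
    by_cases hij : i = j
    · subst hij
      rw [Matrix.one_apply_eq, pa2_rho_one]
      by_cases hab : a = b
      · subst hab
        rw [if_pos rfl, Matrix.one_apply_eq, Int.cast_one]
      · rw [if_neg hab, Matrix.one_apply_ne fun h => hab (congrArg Prod.snd h), Int.cast_zero]
    · rw [Matrix.one_apply_ne hij, pa2_rho_zero, Matrix.one_apply_ne fun h => hij (congrArg Prod.fst h), Int.cast_zero]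
  have h9 : (Int.castRingHom (ZMod 2)) (rhM (M * N * (1 - E))).det = 1 := by
    rw [RingHom.map_det, h5, Matrix.det_one]
  intro h0
  rw [rhM_mul, rhM_mul, Matrix.det_mul, Matrix.det_mul, h0, zero_mul, zero_mul, map_zero] at h9
  exact zero_ne_one h9

theorem dc_ge {k : ℕ} (M : Matrix (Fin k) (Fin k) Hz) (h : (M.map fun z => (red z).a).det ≠ 0) : 1 ≤ (dC (M.map emb)).re := by
  have h0 := pa2_ne M h
  obtain ⟨a, ha, hda⟩ := dC_nonneg (M.map emb)
  have h1 := det_rho M
  rw [hda] at h1 ⊢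
  rw [Complex.ofReal_re]
  have h2 : (((rhM M).det : ℤ) : ℝ) = a ^ 2 := by
    apply Complex.ofReal_injective
    rw [Complex.ofReal_intCast, Complex.ofReal_pow]
    exact h1
  have h3 : 0 < (rhM M).det := by
    refine lt_of_le_of_ne ?_ h0.symm
    have h4 : (0 : ℝ) ≤ (((rhM M).det : ℤ) : ℝ) := by
      rw [h2]
      positivity
    exact_mod_cast h4
  have h5 : (1 : ℝ) ≤ a ^ 2 := by
    rw [← h2]
    exact_mod_cast h3
  nlinarith

end Pool.Agent.QUA
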