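import Pool.Agent.QUS.Defs
import Pool.Agent.QUA.Defs
import Pool.Agent.FRN.Tb1

/-!
# QUA/Pa3: Hurwitz units as Hurwitz integers, residues

Note the square (Frobenius map) in the residues. The 24 units in coordinates `q = ⟨a, b, c, d⟩` (integers or half integers): `z = ⟨a + d, b - d, c - d, 2 d⟩` has `emb z = q`. `kc` and the residue of `z` depend only on the class: check the 24 units of the table `FRN.qv` (`FRN/Tb1`: every
Hurwitz unit is a `qv t` with `t < 24`).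
-/

set_option autoImplicit false

noncomputable section

namespace Pool.Agent.QUA

open Pool.Agent.FRM Pool.Agent.QUS

/-- the Hurwitz integer number `t` -/
private def pa3_z (t : ℕ) : Hz :=
  ⟨((FRN.qd t).1 + (FRN.qd t).2.2.2) / 2, ((FRN.qd t).2.1 - (FRN.qd t).2.2.2) / 2,
    ((FRN.qd t).2.2.1 - (FRN.qd t).2.2.2) / 2, (FRN.qd t).2.2.2⟩

private theorem pa3_par : ∀ t < 24, 2 * (pa3_z t).a = (FRN.qd t).1 + (FRN.qd t).2.2.2 ∧
    2 * (pa3_z t).b = (FRN.qd t).2.1 - (FRN.qd t).2.2.2 ∧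
    2 * (pa3_z t).c = (FRN.qd t).2.2.1 - (FRN.qd t).2.2.2 ∧ (pa3_z t).d = (FRN.qd t).2.2.2 := by
  decide +kernel

private theorem pa3_cast (n : ℤ) : (n : F4) = if n % 2 = 0 then 0 else 1 := by
  have h2 : (2 : F4) = 0 := by decide
  rcases Int.even_or_odd' n with ⟨k, h | h⟩
  · rw [if_pos (by omega), h]
    push_cast
    rw [h2, zero_mul]
  · rw [if_neg (by omega), h]
    push_cast
    rw [h2, zero_mul, zero_add]

private theorem pa3_res : ∀ t < 24,
    ((if ((pa3_z t).a + (pa3_z t).b + (pa3_z t).c) % 2 = 0 then (0 : F4) else 1) +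
      (if (pa3_z t).d % 2 = 0 then (0 : F4) else 1) * F4.w) ^ 2 = fz ((t / 8 : ℕ) : ZMod 3) := by
  decide +kernel

private theorem pa3_red {t : ℕ} (h : t < 24) : (red (pa3_z t)).a ^ 2 = fz ((t / 8 : ℕ) : ZMod 3) := by
  rw [← pa3_res t h]
  show ((((pa3_z t).a + (pa3_z t).b + (pa3_z t).c : ℤ) : F4) + ((pa3_z t).d : F4) * F4.w) ^ 2 = _
  rw [pa3_cast, pa3_cast]

private theorem pa3_emb {t : ℕ} (h : t < 24) : emb (pa3_z t) = FRN.qv t := by
  obtain ⟨h1, h2, h3, h4⟩ := pa3_par t h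
  have e1 : 2 * ((pa3_z t).a : ℚ) = (FRN.qd t).1 + (FRN.qd t).2.2.2 := by exact_mod_cast h1
  have e2 : 2 * ((pa3_z t).b : ℚ) = (FRN.qd t).2.1 - (FRN.qd t).2.2.2 := by exact_mod_cast h2
  have e3 : 2 * ((pa3_z t).c : ℚ) = (FRN.qd t).2.2.1 - (FRN.qd t).2.2.2 := by exact_mod_cast h3
  have e4 : ((pa3_z t).d : ℚ) = (FRN.qd t).2.2.2 := by exact_mod_cast h4
  show (⟨(pa3_z t).a - (pa3_z t).d / 2, (pa3_z t).b + (pa3_z t).d / 2, (pa3_z t).c + (pa3_z t).d / 2,
    (pa3_z t).d / 2⟩ : Hq) = ⟨(FRN.qd t).1 / 2, (FRN.qd t).2.1 / 2, (FRN.qd t).2.2.1 / 2,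
      (FRN.qd t).2.2.2 / 2⟩
  refine Quaternion.ext _ _ ?_ ?_ ?_ ?_
  · show ((pa3_z t).a : ℚ) - (pa3_z t).d / 2 = (FRN.qd t).1 / 2
    linarith
  · show ((pa3_z t).b : ℚ) + (pa3_z t).d / 2 = (FRN.qd t).2.1 / 2
    linarith
  · show ((pa3_z t).c : ℚ) + (pa3_z t).d / 2 = (FRN.qd t).2.2.1 / 2
    linarith
  · show ((pa3_z t).d : ℚ) / 2 = (FRN.qd t).2.2.2 / 2
    linarith

private theorem pa3_nsq (z : Hz) : Quaternion.normSq (emb z) = ((Hz.N z : ℤ) : ℚ) := by
  rw [Quaternion.normSq_def']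
  show ((z.a : ℚ) - z.d / 2) ^ 2 + ((z.b : ℚ) + z.d / 2) ^ 2 + ((z.c : ℚ) + z.d / 2) ^ 2 +
    ((z.d : ℚ) / 2) ^ 2 = _
  unfold Hz.N
  push_cast
  ring

theorem hz_ex {q : Hq} (h : HU q ∨ q = 0) : ∃ z : Hz, emb z = q ∧ (red z).a ^ 2 = rs q := by
  rcases h with h | h
  · obtain ⟨t, ht, rfl⟩ := (FRN.hu_iff q).1 h
    refine ⟨pa3_z t, pa3_emb ht, ?_⟩
    rw [pa3_red ht]
    unfold rs
    rw [if_neg (FRN.hu_ne h), FRN.kc_qv ht]
  · refine ⟨0, ?_, ?_⟩
    · rw [map_zero, h]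
    · rw [map_zero, h]
      unfold rs
      rw [if_pos rfl]
      exact zero_pow two_ne_zero

theorem emb_inj {x y : Hz} (h : emb x = emb y) : x = y := by
  have e1 : ((x.a : ℚ) - x.d / 2) = y.a - y.d / 2 := congrArg (fun q : Hq => q.re) h
  have e2 : ((x.b : ℚ) + x.d / 2) = y.b + y.d / 2 := congrArg (fun q : Hq => q.imI) h
  have e3 : ((x.c : ℚ) + x.d / 2) = y.c + y.d / 2 := congrArg (fun q : Hq => q.imJ) h
  have e4 : ((x.d : ℚ) / 2) = y.d / 2 := congrArg (fun q : Hq => q.imK) h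
  ext
  · have : (x.a : ℚ) = y.a := by linarith
    exact_mod_cast this
  · have : (x.b : ℚ) = y.b := by linarith
    exact_mod_cast this
  · have : (x.c : ℚ) = y.c := by linarith
    exact_mod_cast this
  · have : (x.d : ℚ) = y.d := by linarith
    exact_mod_cast this

/-- units of `Hz` are Hurwitz units, with the right residue -/
theorem hz_unit {z : Hz} (h : IsUnit z) : HU (emb z) ∧ rs (emb z) = (red z).a ^ 2 := by
  have hu : HU (emb z) := by
    obtain ⟨u, rfl⟩ := h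
    have h1 : emb (u : Hz) * emb ((u⁻¹ : Hzˣ) : Hz) = 1 := by
      rw [← map_mul, Units.mul_inv, map_one]
    have h2 := congrArg (fun q : Hq => Quaternion.normSq q) h1
    beta_reduce at h2
    rw [map_mul, map_one, pa3_nsq, pa3_nsq] at h2
    have h3 : Hz.N (u : Hz) * Hz.N ((u⁻¹ : Hzˣ) : Hz) = 1 := by exact_mod_cast h2
    have h4 : 0 ≤ Hz.N (u : Hz) := by
      have h5 : (0 : ℚ) ≤ ((Hz.N (u : Hz) : ℤ) : ℚ) := by
        rw [← pa3_nsq]
        exact Quaternion.normSq_nonneg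
      exact_mod_cast h5
    have h6 : Hz.N (u : Hz) = 1 := by
      rcases Int.eq_one_or_neg_one_of_mul_eq_one h3 with h7 | h7
      · exact h7
      · omega
    refine ⟨?_, ?_⟩
    · rw [pa3_nsq, h6, Int.cast_one]
    · rcases Int.even_or_odd' (u : Hz).d with ⟨k, h7 | h7⟩
      · left
        refine ⟨(u : Hz).a - k, (u : Hz).b + k, (u : Hz).c + k, k, ?_⟩
        have h8 : (((u : Hz).d : ℤ) : ℚ) = 2 * k := by exact_mod_cast h7
        refine Quaternion.ext _ _ ?_ ?_ ?_ ?_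
        · show ((u : Hz).a : ℚ) - (u : Hz).d / 2 = (((u : Hz).a - k : ℤ) : ℚ)
          push_cast
          linarith
        · show ((u : Hz).b : ℚ) + (u : Hz).d / 2 = (((u : Hz).b + k : ℤ) : ℚ)
          push_cast
          linarith
        · show ((u : Hz).c : ℚ) + (u : Hz).d / 2 = (((u : Hz).c + k : ℤ) : ℚ)
          push_cast
          linarith
        · show ((u : Hz).d : ℚ) / 2 = (k : ℚ)
          linarith
      · right
        refine ⟨(u : Hz).a - k - 1, (u : Hz).b + k, (u : Hz).c + k, k, ?_⟩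
        have h8 : (((u : Hz).d : ℤ) : ℚ) = 2 * k + 1 := by exact_mod_cast h7
        refine Quaternion.ext _ _ ?_ ?_ ?_ ?_
        · show ((u : Hz).a : ℚ) - (u : Hz).d / 2 = (((u : Hz).a - k - 1 : ℤ) : ℚ) + 1 / 2
          push_cast
          linarith
        · show ((u : Hz).b : ℚ) + (u : Hz).d / 2 = (((u : Hz).b + k : ℤ) : ℚ) + 1 / 2
          push_cast
          linarith
        · show ((u : Hz).c : ℚ) + (u : Hz).d / 2 = (((u : Hz).c + k : ℤ) : ℚ) + 1 / 2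
          push_cast
          linarith
        · show ((u : Hz).d : ℚ) / 2 = (k : ℚ) + 1 / 2
          linarith
  refine ⟨hu, ?_⟩
  obtain ⟨z', hz', hr⟩ := hz_ex (Or.inl hu)
  rw [emb_inj hz'] at hr
  exact hr.symm

end Pool.Agent.QUA
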