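import Pool.Agent.QUA.Defs
import Pool.Agent.FRN.Tb1
import Pool.Agent.FRM.Qdt
import Pool.Agent.FRM.Rk1

/-!
# QUA/Vl1: valid lifts, basic properties

`FRN/Tb1`: `kc_mul`, `kc_inv`, `kc_one`, table `qv` of the 24 Hurwitz units. `FRM/Qdt`: `dC_mul`, `dC_perm`, `chi_star`, `dC_zero_row`; `FRM/Rk1`: `dC_nonneg` (`dC` is a nonnegative real number).
`val_flip`: `sm H f h` is the conjugate transpose of `sm H h f`, and `(chi M)ᴴ` has the conjugate determinant; `det (sm g f h)` is the Frobenius image of `det (sm g h f)`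
(`x⁻¹ = x ^ 2` in `F4`).
`val_idx`: choose `Fintype.equivFin I` and reindex.
-/

set_option autoImplicit false

noncomputable section

namespace Pool.Agent.QUA

open Pool.Agent.FRM

variable {V : Type} [DecidableEq V] {t : V → Bool} {g : V → V → F4} {H : V → V → Hq} {S : Finset V}

theorem hu_ne' {q : Hq} (h : HU q) : q ≠ 0 := by
  exact FRN.hu_ne h

theorem hu_mul' {p q : Hq} (hp : HU p) (hq : HU q) : HU (p * q) := by
  exact FRN.hu_mul hp hq

theorem hu_star {q : Hq} (h : HU q) : HU (star q) := by
  exact FRN.hu_star h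

/-- the inverse of a Hurwitz unit is its conjugate -/
theorem hu_inv {q : Hq} (h : HU q) : q⁻¹ = star q := by
  have h1 := FRN.inv_star (u := Units.mk0 q (FRN.hu_ne h)) h
  rw [Units.val_inv_eq_inv_val] at h1
  exact h1

theorem kc_star {q : Hq} (h : HU q) : FRN.kc (star q) = -FRN.kc q := by
  have h1 := FRN.kc_inv (u := Units.mk0 q (FRN.hu_ne h)) h
  rw [FRN.inv_star (u := Units.mk0 q (FRN.hu_ne h)) h] at h1
  exact h1

theorem fz_add (a b : ZMod 3) : fz (a + b) = fz a * fz b := by
  revert a b
  decide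

theorem fz_inj {a b : ZMod 3} (h : fz a = fz b) : a = b := by
  revert a b
  decide

private theorem Vl1_rs {q : Hq} (h : HU q) : rs q = fz (FRN.kc q) := by
  unfold rs
  rw [if_neg (hu_ne' h)]

private theorem Vl1_rs0 : rs 0 = 0 := by
  unfold rs
  rw [if_pos rfl]

private theorem Vl1_fneg (a : ZMod 3) : fz (-a) = (fz a)⁻¹ := by
  revert a
  decide

private theorem Vl1_fne (a : ZMod 3) : fz a ≠ 0 := by
  revert a
  decide

theorem rs_mul {p q : Hq} (hp : HU p ∨ p = 0) (hq : HU q ∨ q = 0) : rs (p * q) = rs p * rs q := by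
  rcases hp with hp | hp
  · rcases hq with hq | hq
    · rw [Vl1_rs hp, Vl1_rs hq, Vl1_rs (hu_mul' hp hq), FRN.kc_mul hp hq, fz_add]
    · rw [hq, mul_zero, Vl1_rs0, mul_zero]
  · rw [hp, zero_mul, Vl1_rs0, zero_mul]

theorem rs_star {q : Hq} (hq : HU q ∨ q = 0) : rs (star q) = (rs q)⁻¹ := by
  rcases hq with hq | hq
  · rw [Vl1_rs hq, Vl1_rs (hu_star hq), kc_star hq, Vl1_fneg]
  · rw [hq, star_zero, Vl1_rs0, inv_zero]

theorem rs_ne {q : Hq} (h : HU q) : rs q ≠ 0 := by
  rw [Vl1_rs h]
  exact Vl1_fne _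

/-- all entries are zero or units with the residue `g x y` -/
theorem val_rs (hg : Hm t g) (h : Val t g H S) : ∀ x ∈ S, ∀ y ∈ S, (HU (H x y) ∨ H x y = 0) ∧ rs (H x y) = g x y := by
  have key : ∀ x ∈ S, ∀ y ∈ S, t x = true → t y = false → (HU (H x y) ∨ H x y = 0) ∧ rs (H x y) = g x y := by
    intro x hx y hy h1 h2
    by_cases h0 : g x y = 0
    · have h3 := h.zr x hx y hy h0
      exact ⟨Or.inr h3, by rw [h3, h0, Vl1_rs0]⟩
    · obtain ⟨h3, h4⟩ := h.un x hx y hy h1 h2 h0
      exact ⟨Or.inl h3, h4⟩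
  intro x hx y hy
  by_cases he : t x = t y
  · have h0 := hg.bip x y he
    have h3 := h.zr x hx y hy h0
    exact ⟨Or.inr h3, by rw [h3, h0, Vl1_rs0]⟩
  · by_cases h1 : t x = true
    · have h2 : t y = false := by
        by_contra hc
        exact he (by rw [h1, Bool.eq_true_of_not_eq_false hc])
      exact key x hx y hy h1 h2
    · have h1' : t x = false := Bool.eq_false_of_not_eq_true h1
      have h2 : t y = true := by
        by_contra hc
        exact he (by rw [h1', Bool.eq_false_of_not_eq_true hc])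
      obtain ⟨h3, h4⟩ := key y hy x hx h2 h1'
      have h5 : H x y = star (H y x) := h.sym y x
      refine ⟨?_, ?_⟩
      · rcases h3 with h3 | h3
        · left
          rw [h5]
          exact hu_star h3
        · right
          rw [h5, h3, star_zero]
      · rw [h5, rs_star h3, h4, hg.inv y x]

theorem val_mono (h : Val t g H S) {S' : Finset V} (hS : S' ⊆ S) : Val t g H S' := by
  refine ⟨h.sym, fun x hx y hy => h.zr x (hS hx) y (hS hy), fun x hx y hy => h.un x (hS hx) y (hS hy), ?_⟩
  intro k f k' hr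
  exact h.dt k f k' ⟨fun a => ⟨hS (hr.1 a).1, (hr.1 a).2⟩, fun b => ⟨hS (hr.2 b).1, (hr.2 b).2⟩⟩

/-- `Val` depends only on the values on `S` -/
theorem val_congr {H' : V → V → Hq} (h : Val t g H S) (hs : ∀ x y, H' y x = star (H' x y)) (he : ∀ x ∈ S, ∀ y ∈ S, H' x y = H x y) :
    Val t g H' S := by
  refine ⟨hs, ?_, ?_, ?_⟩
  · intro x hx y hy h0
    rw [he x hx y hy]
    exact h.zr x hx y hy h0
  · intro x hx y hy
    rw [he x hx y hy]
    exact h.un x hx y hy
  · intro k f k' hr
    have e : sm H' f k' = sm H f k' := by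
      refine Matrix.ext fun a b => ?_
      exact he _ (hr.1 a).1 _ (hr.2 b).1
    rw [e]
    exact h.dt k f k' hr

private def Vl1_F : F4 →+* F4 where
  toFun x := x⁻¹
  map_one' := by decide
  map_mul' := by decide
  map_zero' := by decide
  map_add' := by decide

theorem val_flip (hg : Hm t g) (h : Val t g H S) : Val (fun x => !t x) g H S := by
  refine ⟨h.sym, h.zr, ?_, ?_⟩
  · intro x hx y hy h1 h2 h0
    obtain ⟨h3, h4⟩ := val_rs hg h x hx y hy
    rcases h3 with h3 | h3
    · exact ⟨h3, h4⟩
    · exfalso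
      rw [h3, Vl1_rs0] at h4
      exact h0 h4.symm
  · intro k f k' hr
    have h1 : RC t S k' f := by
      refine ⟨fun b => ⟨(hr.2 b).1, ?_⟩, fun a => ⟨(hr.1 a).1, ?_⟩⟩
      · have h2 : (!t (k' b)) = false := (hr.2 b).2
        cases hb : t (k' b)
        · rw [hb] at h2
          exact absurd h2 (by decide)
        · rfl
      · have h2 : (!t (f a)) = true := (hr.1 a).2
        cases ha : t (f a)
        · rfl
        · rw [ha] at h2
          exact absurd h2 (by decide)
    have e1 : sm H f k' = (sm H k' f).conjTranspose := by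
      refine Matrix.ext fun a b => ?_
      show H (f a) (k' b) = star (H (k' b) (f a))
      exact h.sym _ _
    have e2 : sm g f k' = Vl1_F.mapMatrix (sm g k' f).transpose := by
      refine Matrix.ext fun a b => ?_
      show g (f a) (k' b) = (g (k' b) (f a))⁻¹
      exact hg.inv _ _
    have e3 : (sm g f k').det = 0 ↔ (sm g k' f).det = 0 := by
      rw [e2, ← RingHom.map_det, Matrix.det_transpose]
      exact map_eq_zero_iff Vl1_F (RingHom.injective _)
    have e4 : dC (sm H f k') = star (dC (sm H k' f)) := by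
      rw [e1]
      unfold dC
      rw [chi_star, Matrix.det_conjTranspose]
    rw [e4, h.dt k k' f h1]
    by_cases hd : (sm g k' f).det = 0
    · rw [if_pos hd, if_pos (e3.2 hd), star_zero]
    · rw [if_neg hd, if_neg (fun hh => hd (e3.1 hh)), star_one]

theorem val_idx (h : Val t g H S) {I : Type} [Fintype I] [DecidableEq I] (f k : I → V) (hf : ∀ a, f a ∈ S ∧ t (f a) = true)
    (hk : ∀ b, k b ∈ S ∧ t (k b) = false) :
    dC (Matrix.of fun a b => H (f a) (k b)) = if (Matrix.of fun a b => g (f a) (k b)).det = 0 then 0 else 1 := by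
  have h1 : RC t S (fun a => f ((Fintype.equivFin I).symm a)) (fun b => k ((Fintype.equivFin I).symm b)) :=
    ⟨fun a => hf _, fun b => hk _⟩
  have h2 := h.dt _ _ _ h1
  have e1 : dC (sm H (fun a => f ((Fintype.equivFin I).symm a)) (fun b => k ((Fintype.equivFin I).symm b))) =
      dC (Matrix.of fun a b => H (f a) (k b)) := by
    have e : chi (sm H (fun a => f ((Fintype.equivFin I).symm a)) (fun b => k ((Fintype.equivFin I).symm b))) =
        (chi (Matrix.of fun a b => H (f a) (k b))).submatrix ((Fintype.equivFin I).symm.prodCongr (Equiv.refl (Fin 2)))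
          ((Fintype.equivFin I).symm.prodCongr (Equiv.refl (Fin 2))) := rfl
    unfold dC
    rw [e, Matrix.det_submatrix_equiv_self]
  have e2 : (sm g (fun a => f ((Fintype.equivFin I).symm a)) (fun b => k ((Fintype.equivFin I).symm b))).det =
      (Matrix.of fun a b => g (f a) (k b)).det := by
    have e : sm g (fun a => f ((Fintype.equivFin I).symm a)) (fun b => k ((Fintype.equivFin I).symm b)) =
        (Matrix.of fun a b => g (f a) (k b)).submatrix (Fintype.equivFin I).symm (Fintype.equivFin I).symm := rfl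
    rw [e, Matrix.det_submatrix_equiv_self]
  rw [e1, e2] at h2
  exact h2

end Pool.Agent.QUA
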