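import Pool.Agent.QUA.DefT
import Pool.Agent.QUA.Pa2
import Pool.Agent.QUA.Pa3
import Pool.Agent.QUA.Vl1

/-!
# QUA/En1: the energy is at least the number of nonzero subdeterminants, with equality exactly for valid lifts

The terms of `wts` are at least the terms of `nbs`; if the sums are equal, all terms are equal. The minors with arbitrary rows and
columns are reduced to the minors with increasing rows and columns by permutations, or they are zero.
-/

set_option autoImplicit false

noncomputable section

namespace Pool.Agent.QUA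

open Pool.Agent.FRM

/-- the Frobenius map -/
private def En1_frob : F4 →+* F4 where
  toFun x := x ^ 2
  map_one' := by decide
  map_mul' x y := by ring
  map_zero' := by decide
  map_add' := by decide

variable {t : ℕ → Bool} {g : ℕ → ℕ → F4} {H : ℕ → ℕ → Hq} {S : Finset ℕ}

theorem val_pre (h : Val t g H S) : Pre t g H S := ⟨h.sym, h.zr, h.un⟩

/-- rows and columns given by subsets -/
private theorem En1_rc {P Q : Finset ℕ} (hP : P ∈ (S.filter fun x => t x = true).powerset)
    (hQ : Q ∈ (S.filter fun x => t x = false).powerset) (h : Q.card = P.card) :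
    RC t S (P.orderEmbOfFin rfl) (Q.orderEmbOfFin h) :=
  ⟨fun a => Finset.mem_filter.1 (Finset.mem_powerset.1 hP (Finset.orderEmbOfFin_mem P rfl a)),
    fun b => Finset.mem_filter.1 (Finset.mem_powerset.1 hQ (Finset.orderEmbOfFin_mem Q h b))⟩

private theorem En1_re_nonneg {k : ℕ} (M : Matrix (Fin k) (Fin k) Hq) : 0 ≤ (dC M).re := by
  obtain ⟨a, ha, h⟩ := dC_nonneg M
  rw [h, Complex.ofReal_re]
  exact ha

/-- the comparison of the terms -/
private theorem En1_term (h : Pre t g H S) {k : ℕ} {f l : Fin k → ℕ} (hr : RC t S f l) :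
    (((if (sm g f l).det = 0 then 0 else 1 : ℕ)) : ℝ) ≤ (dC (sm H f l)).re := by
  classical
  by_cases hd : (sm g f l).det = 0
  · rw [if_pos hd, Nat.cast_zero]
    exact En1_re_nonneg _
  · rw [if_neg hd, Nat.cast_one]
    have h1 : ∀ a b, (HU (H (f a) (l b)) ∨ H (f a) (l b) = 0) ∧ rs (H (f a) (l b)) = g (f a) (l b) := by
      intro a b
      by_cases h0 : g (f a) (l b) = 0
      · have h2 := h.zr _ (hr.1 a).1 _ (hr.2 b).1 h0
        refine ⟨Or.inr h2, ?_⟩
        rw [h2, h0]
        unfold rs
        rw [if_pos rfl]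
      · have h2 := h.un _ (hr.1 a).1 _ (hr.2 b).1 (hr.1 a).2 (hr.2 b).2 h0
        exact ⟨Or.inl h2.1, h2.2⟩
    have h2 : ∀ a b, ∃ z : QUS.Hz, QUS.emb z = H (f a) (l b) ∧ (QUS.red z).a ^ 2 = g (f a) (l b) := by
      intro a b
      obtain ⟨z, hz1, hz2⟩ := hz_ex (h1 a b).1
      exact ⟨z, hz1, hz2.trans (h1 a b).2⟩
    choose M hM1 hM2 using h2
    have e1 : (Matrix.of M).map QUS.emb = sm H f l := by
      refine Matrix.ext fun a b => ?_
      exact hM1 a b
    have e2 : ((Matrix.of M).map (fun z => (QUS.red z).a)).det ≠ 0 := by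
      intro h0
      apply hd
      have e3 : sm g f l = En1_frob.mapMatrix ((Matrix.of M).map (fun z => (QUS.red z).a)) := by
        refine Matrix.ext fun a b => ?_
        exact (hM2 a b).symm
      rw [e3, ← RingHom.map_det, h0, map_zero]
    have h3 := dc_ge (Matrix.of M) e2
    rwa [e1] at h3

theorem wts_val (h : Val t g H S) : wts t H S = nbs t g S := by
  unfold wts nbs
  push_cast
  refine Finset.sum_congr rfl fun P hP => Finset.sum_congr rfl fun Q hQ => ?_
  by_cases hc : Q.card = P.card
  · rw [dif_pos hc, dif_pos hc, h.dt _ _ _ (En1_rc hP hQ hc)]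
    split_ifs
    · simp
    · simp
  · rw [dif_neg hc, dif_neg hc, Nat.cast_zero]

private theorem En1_le (h : Pre t g H S) {P Q : Finset ℕ} (hP : P ∈ (S.filter fun x => t x = true).powerset)
    (hQ : Q ∈ (S.filter fun x => t x = false).powerset) :
    (((if hc : Q.card = P.card then (if (sm g (P.orderEmbOfFin rfl) (Q.orderEmbOfFin hc)).det = 0 then 0 else 1)
      else 0 : ℕ)) : ℝ) ≤
      if hc : Q.card = P.card then (dC (sm H (P.orderEmbOfFin rfl) (Q.orderEmbOfFin hc))).re else 0 := by
  by_cases hc : Q.card = P.card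
  · rw [dif_pos hc, dif_pos hc]
    exact En1_term h (En1_rc hP hQ hc)
  · rw [dif_neg hc, dif_neg hc, Nat.cast_zero]

theorem wts_ge (hg : Hm t g) (h : Pre t g H S) : (nbs t g S : ℝ) ≤ wts t H S := by
  unfold wts nbs
  rw [Nat.cast_sum]
  refine Finset.sum_le_sum fun P hP => ?_
  rw [Nat.cast_sum]
  exact Finset.sum_le_sum fun Q hQ => En1_le h hP hQ

/-- an injective map is an increasing one composed with a permutation -/
private theorem En1_perm {P : Finset ℕ} (f : Fin P.card → ℕ) (hf : Function.Injective f) (hP : ∀ a, f a ∈ P) :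
    ∃ σ : Equiv.Perm (Fin P.card), ∀ a, f a = P.orderEmbOfFin rfl (σ a) := by
  have h1 : ∀ a, P.orderEmbOfFin rfl ((P.orderIsoOfFin rfl).symm ⟨f a, hP a⟩) = f a := by
    intro a
    rw [← Finset.coe_orderIsoOfFin_apply, OrderIso.apply_symm_apply]
  have hinj : Function.Injective fun a => (P.orderIsoOfFin rfl).symm ⟨f a, hP a⟩ := by
    intro a b hab
    apply hf
    rw [← h1 a, ← h1 b]
    exact congrArg _ hab
  exact ⟨Equiv.ofBijective _ (Finite.injective_iff_bijective.1 hinj), fun a => (h1 a).symm⟩

private theorem En1_perm' {P : Finset ℕ} {k : ℕ} (hk : P.card = k) (f : Fin k → ℕ) (hf : Function.Injective f)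
    (hP : ∀ a, f a ∈ P) : ∃ σ : Equiv.Perm (Fin k), ∀ a, f a = P.orderEmbOfFin hk (σ a) := by
  subst hk
  exact En1_perm f hf hP

theorem wts_eq (hg : Hm t g) (h : Pre t g H S) (he : wts t H S ≤ nbs t g S) : Val t g H S := by
  classical
  -- all terms are equal
  have hterm : ∀ P ∈ (S.filter fun x => t x = true).powerset, ∀ Q ∈ (S.filter fun x => t x = false).powerset,
      ∀ hc : Q.card = P.card, (dC (sm H (P.orderEmbOfFin rfl) (Q.orderEmbOfFin hc))).re =
        (((if (sm g (P.orderEmbOfFin rfl) (Q.orderEmbOfFin hc)).det = 0 then 0 else 1 : ℕ)) : ℝ) := by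
    have hge := wts_ge hg h
    have heq : (nbs t g S : ℝ) = wts t H S := le_antisymm hge he
    unfold wts nbs at heq
    rw [Nat.cast_sum] at heq
    have h1 := (Finset.sum_eq_sum_iff_of_le (fun P hP => by
      rw [Nat.cast_sum]
      exact Finset.sum_le_sum fun Q hQ => En1_le h hP hQ)).1 heq
    intro P hP Q hQ hc
    have h2 := h1 P hP
    rw [Nat.cast_sum] at h2
    have h3 := (Finset.sum_eq_sum_iff_of_le (fun Q hQ => En1_le h hP hQ)).1 h2 Q hQ
    rw [dif_pos hc, dif_pos hc] at h3
    exact h3.symm
  refine ⟨h.sym, h.zr, h.un, ?_⟩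
  intro k f l hr
  by_cases hf : Function.Injective f
  · by_cases hl : Function.Injective l
    · obtain ⟨P, hPd⟩ : ∃ P, P = Finset.univ.image f := ⟨_, rfl⟩
      obtain ⟨Q, hQd⟩ : ∃ Q, Q = Finset.univ.image l := ⟨_, rfl⟩
      have hPk : P.card = k := by
        rw [hPd, Finset.card_image_of_injective _ hf, Finset.card_univ, Fintype.card_fin]
      have hQk : Q.card = k := by
        rw [hQd, Finset.card_image_of_injective _ hl, Finset.card_univ, Fintype.card_fin]
      have hfP : ∀ a, f a ∈ P := fun a => by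
        rw [hPd]
        exact Finset.mem_image_of_mem f (Finset.mem_univ a)
      have hlQ : ∀ a, l a ∈ Q := fun a => by
        rw [hQd]
        exact Finset.mem_image_of_mem l (Finset.mem_univ a)
      have hPm : P ∈ (S.filter fun x => t x = true).powerset := by
        rw [Finset.mem_powerset, hPd]
        intro x hx
        obtain ⟨a, -, rfl⟩ := Finset.mem_image.1 hx
        exact Finset.mem_filter.2 (hr.1 a)
      have hQm : Q ∈ (S.filter fun x => t x = false).powerset := by
        rw [Finset.mem_powerset, hQd]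
        intro x hx
        obtain ⟨a, -, rfl⟩ := Finset.mem_image.1 hx
        exact Finset.mem_filter.2 (hr.2 a)
      clear hPd hQd
      subst hPk
      obtain ⟨σ, hσ⟩ := En1_perm f hf hfP
      obtain ⟨τ, hτ⟩ := En1_perm' hQk l hl hlQ
      have ht := hterm P hPm Q hQm hQk
      have e1 : sm H f l = ((sm H (P.orderEmbOfFin rfl) (Q.orderEmbOfFin hQk)).submatrix id τ).submatrix σ id := by
        refine Matrix.ext fun a b => ?_
        show H (f a) (l b) = _
        rw [hσ a, hτ b]
        rfl
      have e2 : sm g f l = ((sm g (P.orderEmbOfFin rfl) (Q.orderEmbOfFin hQk)).submatrix id τ).submatrix σ id := by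
        refine Matrix.ext fun a b => ?_
        show g (f a) (l b) = _
        rw [hσ a, hτ b]
        rfl
      have e3 : dC (sm H f l) = dC (sm H (P.orderEmbOfFin rfl) (Q.orderEmbOfFin hQk)) := by
        rw [e1, (dC_perm _ σ).2, (dC_perm _ τ).1]
      have hs : ∀ σ : Equiv.Perm (Fin P.card), (((Equiv.Perm.sign σ : ℤˣ) : ℤ) : F4) ≠ 0 := by
        intro σ
        rcases Int.units_eq_one_or (Equiv.Perm.sign σ) with h1 | h1
        · rw [h1]
          simp
        · rw [h1]
          simp
      have e4 : (sm g f l).det = 0 ↔ (sm g (P.orderEmbOfFin rfl) (Q.orderEmbOfFin hQk)).det = 0 := by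
        rw [e2, Matrix.det_permute, Matrix.det_permute']
        rw [mul_eq_zero, mul_eq_zero]
        constructor
        · rintro (h1 | h1 | h1)
          · exact absurd h1 (hs σ)
          · exact absurd h1 (hs τ)
          · exact h1
        · intro h1
          exact Or.inr (Or.inr h1)
      obtain ⟨a, ha, hda⟩ := dC_nonneg (sm H (P.orderEmbOfFin rfl) (Q.orderEmbOfFin hQk))
      rw [hda, Complex.ofReal_re] at ht
      rw [e3, hda, ht]
      by_cases hd : (sm g (P.orderEmbOfFin rfl) (Q.orderEmbOfFin hQk)).det = 0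
      · rw [if_pos hd, if_pos (e4.2 hd)]
        simp
      · rw [if_neg hd, if_neg fun h1 => hd (e4.1 h1)]
        simp
    · rw [Function.Injective] at hl
      push Not at hl
      obtain ⟨a, b, hab, hne⟩ := hl
      have h1 : (sm g f l).det = 0 := Matrix.det_zero_of_column_eq hne fun i => by
        show g (f i) (l a) = g (f i) (l b)
        rw [hab]
      rw [if_pos h1]
      unfold dC
      refine Matrix.det_zero_of_column_eq (i := (a, 0)) (j := (b, 0)) (fun h2 => hne (congrArg Prod.fst h2)) fun i => ?_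
      show cq (H (f i.1) (l a)) i.2 0 = cq (H (f i.1) (l b)) i.2 0
      rw [hab]
  · rw [Function.Injective] at hf
    push Not at hf
    obtain ⟨a, b, hab, hne⟩ := hf
    have h1 : (sm g f l).det = 0 := Matrix.det_zero_of_row_eq hne (by
      funext i
      show g (f a) (l i) = g (f b) (l i)
      rw [hab])
    rw [if_pos h1]
    unfold dC
    refine Matrix.det_zero_of_row_eq (i := (a, 0)) (j := (b, 0)) (fun h2 => hne (congrArg Prod.fst h2)) ?_
    funext i
    show cq (H (f a) (l i.1)) 0 i.2 = cq (H (f b) (l i.1)) 0 i.2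
    rw [hab]

theorem wts_nonneg (t : ℕ → Bool) (H : ℕ → ℕ → Hq) (S : Finset ℕ) : 0 ≤ wts t H S := by
  unfold wts
  refine Finset.sum_nonneg fun P _ => Finset.sum_nonneg fun Q _ => ?_
  split_ifs
  · exact En1_re_nonneg _
  · exact le_refl _

end Pool.Agent.QUA
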