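import Pool.Agent.QUA.Rk

/-!
# QUA/Rk2: blocks of rank at most one
-/

set_option autoImplicit false

noncomputable section

namespace Pool.Agent.QUA

open Pool.Agent.FRM

variable {V : Type} [DecidableEq V] {t : V → Bool} {g : V → V → F4}

theorem lo_iff (g : V → V → F4) (A B : Finset V) : Lo g A B ↔ rk g A B ≤ 1 := by
  constructor
  · rintro ⟨u, v, h⟩
    have e : (Matrix.of fun (a : A) (b : B) => g a b) = Matrix.vecMulVec (fun a : A => u a) (fun b : B => v b) := by
      ext a b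
      exact h a a.2 b b.2
    unfold rk
    rw [e]
    exact Matrix.rank_vecMulVec_le _ _
  · intro h
    unfold rk Matrix.rank at h
    rw [Submodule.finrank_le_one_iff_isPrincipal] at h
    obtain ⟨⟨v, hv⟩⟩ := h
    have hcol : ∀ b : B, ∃ c : F4, ∀ a : A, g a b = v a * c := by
      intro b
      have h1 : (Matrix.of fun (a : A) (b : B) => g a b).mulVec (Pi.single b 1) ∈
          LinearMap.range (Matrix.of fun (a : A) (b : B) => g a b).mulVecLin := ⟨_, rfl⟩
      rw [hv, Matrix.mulVec_single_one] at h1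
      obtain ⟨c, hc⟩ := Submodule.mem_span_singleton.1 h1
      refine ⟨c, fun a => ?_⟩
      have h2 := congrFun hc a
      rw [Pi.smul_apply, smul_eq_mul] at h2
      rw [mul_comm, h2]
      rfl
    choose c hc using hcol
    refine ⟨fun x => if hx : x ∈ A then v ⟨x, hx⟩ else 0, fun y => if hy : y ∈ B then c ⟨y, hy⟩ else 0,
      fun x hx y hy => ?_⟩
    beta_reduce
    rw [dif_pos hx, dif_pos hy]
    exact hc ⟨y, hy⟩ ⟨x, hx⟩

theorem rk_pos (g : V → V → F4) (A B : Finset V) : 1 ≤ rk g A B ↔ ∃ x ∈ A, ∃ y ∈ B, g x y ≠ 0 := by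
  constructor
  · intro h
    by_contra hc
    have e : (Matrix.of fun (a : A) (b : B) => g a b) = 0 := by
      ext a b
      by_contra hne
      exact hc ⟨a, a.2, b, b.2, hne⟩
    unfold rk at h
    rw [e, Matrix.rank_zero] at h
    exact absurd h (by norm_num)
  · rintro ⟨x, hx, y, hy, hne⟩
    by_contra hc
    have h0 : rk g A B = 0 := by omega
    unfold rk Matrix.rank at h0
    rw [Submodule.finrank_eq_zero] at h0
    have h1 : (Matrix.of fun (a : A) (b : B) => g a b).mulVec (Pi.single ⟨y, hy⟩ 1) ∈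
        LinearMap.range (Matrix.of fun (a : A) (b : B) => g a b).mulVecLin := ⟨_, rfl⟩
    rw [h0, Submodule.mem_bot, Matrix.mulVec_single_one] at h1
    exact hne (congrFun h1 ⟨x, hx⟩)

theorem lo_mono {A A' B B' : Finset V} (hA : A ⊆ A') (hB : B ⊆ B') (h : Lo g A' B') : Lo g A B := by
  obtain ⟨u, v, h⟩ := h
  exact ⟨u, v, fun x hx y hy => h x (hA hx) y (hB hy)⟩

/-- `g y x = (g x y)⁻¹` -/
theorem lo_symm (hg : Hm t g) {A B : Finset V} (h : Lo g A B) : Lo g B A := by
  obtain ⟨u, v, h⟩ := h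
  refine ⟨fun x => (v x)⁻¹, fun x => (u x)⁻¹, fun x hx y hy => ?_⟩
  rw [hg.inv y x, h y hy x hx, mul_inv, mul_comm]

/-- A column `x` which depends on the columns `B` on the rows `A` depends on `B'` on the rows `A'`.
(`rk_sub` for `(A, insert x B)` and `(A', B')`; trivial if `x ∈ B'`.) -/
theorem lo_ins {A A' B B' : Finset V} {x : V} (h : Lo g A (insert x B)) (hAB : ∃ a ∈ A, ∃ b ∈ B, g a b ≠ 0) (hA : A' ⊆ A)
    (hB : B ⊆ B') (h' : Lo g A' B') : Lo g A' (insert x B') := by
  rw [lo_iff] at h h' ⊢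
  have h1 := rk_sub g A A' (insert x B) B'
  have e1 : A ∩ A' = A' := Finset.inter_eq_right.2 hA
  have e2 : insert x B ∪ B' = insert x B' := by
    rw [Finset.insert_union, Finset.union_eq_right.2 hB]
  have e3 : A ∪ A' = A := Finset.union_eq_left.2 hA
  rw [e1, e2, e3] at h1
  have h2 : 1 ≤ rk g A (insert x B ∩ B') :=
    ((rk_pos g A B).2 hAB).trans (rk_mono g (Finset.Subset.refl A)
      (Finset.subset_inter (Finset.subset_insert x B) hB))
  omega

/-- uncrossing in a connected set -/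
theorem unc {S A X : Finset V} (hC : Cn g S) (hA : A ⊆ S) (hX : X ⊆ S) (h : Lo g A (S \ A)) (h' : Lo g X (S \ X))
    (h1 : (A ∩ X).Nonempty) (h2 : (S \ (A ∪ X)).Nonempty) :
    Lo g (A ∩ X) (S \ (A ∩ X)) ∧ Lo g (A ∪ X) (S \ (A ∪ X)) := by
  rw [lo_iff] at h h'
  have h3 := rk_sub g A X (S \ A) (S \ X)
  have e1 : (S \ A) ∪ (S \ X) = S \ (A ∩ X) := by
    ext y
    simp only [Finset.mem_union, Finset.mem_sdiff, Finset.mem_inter]
    tauto
  have e2 : (S \ A) ∩ (S \ X) = S \ (A ∪ X) := by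
    ext y
    simp only [Finset.mem_union, Finset.mem_sdiff, Finset.mem_inter]
    tauto
  rw [e1, e2] at h3
  have h4 : (S \ (A ∩ X)).Nonempty := by
    refine h2.mono ?_
    refine Finset.sdiff_subset_sdiff (Finset.Subset.refl S) ?_
    exact Finset.inter_subset_left.trans Finset.subset_union_left
  have h5 := (rk_pos g _ _).2 (hC (A ∩ X) (Finset.inter_subset_left.trans hA) h1 h4)
  have h6 := (rk_pos g _ _).2 (hC (A ∪ X) (Finset.union_subset hA hX)
    (h1.mono (Finset.inter_subset_left.trans Finset.subset_union_left)) h2)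
  rw [lo_iff, lo_iff]
  constructor <;> omega

/-- uncrossing in a connected set, difference (`unc` for `A` and `S \ X`) -/
theorem unc_diff (hg : Hm t g) {S A X : Finset V} (hC : Cn g S) (hA : A ⊆ S) (hX : X ⊆ S) (h : Lo g A (S \ A)) (h' : Lo g X (S \ X))
    (h1 : (A \ X).Nonempty) (h2 : (X \ A).Nonempty) : Lo g (A \ X) (S \ (A \ X)) := by
  have e0 : S \ (S \ X) = X := by
    rw [Finset.sdiff_sdiff_eq_self hX]
  have e1 : A ∩ (S \ X) = A \ X := by
    ext y
    have h3 : y ∈ A → y ∈ S := fun hy => hA hy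
    simp only [Finset.mem_sdiff, Finset.mem_inter]
    tauto
  have h'' : Lo g (S \ X) (S \ (S \ X)) := by
    rw [e0]
    exact lo_symm hg h'
  have h3 := unc hC hA Finset.sdiff_subset h h'' (by rw [e1]; exact h1) (by
    obtain ⟨y, hy⟩ := h2
    rw [Finset.mem_sdiff] at hy
    refine ⟨y, ?_⟩
    rw [Finset.mem_sdiff, Finset.mem_union, Finset.mem_sdiff]
    refine ⟨hX hy.1, ?_⟩
    rintro (h4 | h4)
    · exact hy.2 h4
    · exact h4.2 hy.1)
  rw [e1] at h3
  exact h3.1

end Pool.Agent.QUA
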