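import Pool.Agent.QUA.Sd2
import Pool.Agent.QUA.Rk2

/-!
# QUA/Fb1: removing an element of a minimal nonbinary side

`S` is connected and `Ok`, `(X, Y)` is a separation of `S.erase x` with nonbinary sides, `e ∈ X`, `(S.erase x).erase e` connected, and no proper part of `X` is a
nonbinary side of a separation of `S.erase e` with two nonbinary sides. If `S.erase e` is not `Ok`, let `(A, B)` be a separation of `S.erase e` with nonbinary
sides, `x ∈ B`. The set `A` meets `X` and `Y`; uncrossing shows that `B.erase x ⊆ Y`, and then `e` and `x` are of different types, as otherwise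
`(insert e A, B)` is a separation of `S` with nonbinary sides.
-/

set_option autoImplicit false

noncomputable section

namespace Pool.Agent.QUA

open Pool.Agent.FRM

variable {V : Type} [DecidableEq V] {t : V → Bool} {g : V → V → F4}

private theorem Fb1_sdiff {S P Q : Finset V} (h : P ∪ Q = S) (hd : Disjoint P Q) : S \ P = Q := by
  rw [← h, Finset.union_sdiff_left, Finset.sdiff_eq_self_of_disjoint hd.symm]

private theorem Fb1_ok {S P Q : Finset V} (hO : Ok g S) (h : P ∪ Q = S) (hd : Disjoint P Q) (hl : Lo g P Q)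
    (h1 : Hv g P Q) (h2 : Hv g Q P) : False := by
  have e := Fb1_sdiff h hd
  have hP : P ⊆ S := by
    rw [← h]
    exact Finset.subset_union_left
  have h3 := hO P hP
  rw [e] at h3
  exact h3 hl h1 h2

private theorem Fb1_ne (hg : Hm t g) {A B : Finset V} (h : Hv g A B) : A.Nonempty := by
  have h1 := hv_card hg h
  exact Finset.card_pos.1 (by omega)

/-- the types: the separation extends to the element `e` -/
private theorem Fb1_ext (hg : Hm t g) {X' Y A B : Finset V} {x e b₀ y₀ : V} (ht : t e = t x)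
    (hlX : Lo g (insert e X') Y) (hlA : Lo g A B) (hb₀ : b₀ ∈ X') (hy₀ : y₀ ∈ Y) (h0 : g b₀ y₀ ≠ 0) (heA : e ∉ A)
    (hXA : X' ⊆ A) (hxB : x ∈ B) (hBY : ∀ z ∈ B, z ≠ x → z ∈ Y) : Lo g (insert e A) B := by
  obtain ⟨u, v, huv⟩ := hlX
  obtain ⟨s, r, hsr⟩ := hlA
  have hb : g b₀ y₀ = u b₀ * v y₀ := huv b₀ (Finset.mem_insert_of_mem hb₀) y₀ hy₀
  have hu₀ : u b₀ ≠ 0 := by
    intro h
    rw [hb, h, zero_mul] at h0
    exact h0 rfl
  have hv₀ : v y₀ ≠ 0 := by
    intro h
    rw [hb, h, mul_zero] at h0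
    exact h0 rfl
  have hA₀ : b₀ ∈ A := hXA hb₀
  obtain ⟨σ, hσ⟩ : ∃ σ, σ = u e * s b₀ * (u b₀)⁻¹ := ⟨_, rfl⟩
  have hex : g e x = 0 := hg.bip e x ht
  have hne : ∀ a b, g a b ≠ 0 → t a ≠ t b := fun a b h h' => h (hg.bip a b h')
  have hσx : σ * r x = 0 := by
    by_contra h
    have h1 : σ ≠ 0 := left_ne_zero_of_mul h
    have h2 : r x ≠ 0 := right_ne_zero_of_mul h
    rw [hσ] at h1
    have h3 : u e * s b₀ ≠ 0 := left_ne_zero_of_mul h1
    have h4 : u e ≠ 0 := left_ne_zero_of_mul h3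
    have h5 : s b₀ ≠ 0 := right_ne_zero_of_mul h3
    have h6 : g e y₀ ≠ 0 := by
      rw [huv e (Finset.mem_insert_self e X') y₀ hy₀]
      exact mul_ne_zero h4 hv₀
    have h7 : g b₀ x ≠ 0 := by
      rw [hsr b₀ hA₀ x hxB]
      exact mul_ne_zero h5 h2
    have h8 := hne _ _ h6
    have h9 := hne _ _ h7
    have h10 := hne _ _ h0
    rw [ht] at h8
    revert h8 h9 h10
    generalize t x = a
    generalize t b₀ = b
    generalize t y₀ = c
    revert a b c
    decide
  have hez : ∀ z ∈ B, g e z = σ * r z := by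
    intro z hz
    by_cases hzx : z = x
    · rw [hzx, hex, hσx]
    · have hzY := hBY z hz hzx
      have h1 : u b₀ * v z = s b₀ * r z := by
        rw [← huv b₀ (Finset.mem_insert_of_mem hb₀) z hzY, hsr b₀ hA₀ z hz]
      have h2 : v z = (u b₀)⁻¹ * (s b₀ * r z) := by
        rw [← h1, ← mul_assoc, inv_mul_cancel₀ hu₀, one_mul]
      rw [huv e (Finset.mem_insert_self e X') z hzY, h2, hσ]
      ring
  refine ⟨Function.update s e σ, r, fun a ha z hz => ?_⟩
  rcases Finset.mem_insert.1 ha with h | h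
  · rw [h, Function.update_self]
    exact hez z hz
  · have h1 : a ≠ e := fun h2 => heA (h2 ▸ h)
    rw [Function.update_of_ne h1]
    exact hsr a h z hz

/-- the first two cases: `A` meets `X'` and `Y` -/
private theorem Fb1_meet (hg : Hm t g) {S X' Y A B : Finset V} {x e : V} (hO : Ok g S)
    (hS : S = insert e (insert x (X' ∪ Y))) (heY : e ∉ Y) (hd : Disjoint X' Y)
    (dep : ∀ P ⊆ Y, ∀ Q, X' ⊆ Q → Lo g P Q → Lo g P (insert e Q))
    (hmin' : ∀ P Q, P ⊆ X' → P ∪ Q = insert x (X' ∪ Y) → Disjoint P Q → Lo g P Q → Hv g P Q → Hv g Q P → False)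
    (hAB : A ∪ B = insert x (X' ∪ Y)) (hdAB : Disjoint A B) (hlAB : Lo g A B) (hvA : Hv g A B) (hvB : Hv g B A) :
    (∃ a ∈ A, a ∉ X') ∧ ∃ a ∈ A, a ∉ Y := by
  refine ⟨?_, ?_⟩
  · by_contra hcon
    push Not at hcon
    exact hmin' A B hcon hAB hdAB hlAB hvA hvB
  · by_contra hcon
    push Not at hcon
    have hXB : X' ⊆ B := by
      intro z hz
      have h1 : z ∈ A ∪ B := by
        rw [hAB]
        exact Finset.mem_insert_of_mem (Finset.mem_union_left _ hz)
      rcases Finset.mem_union.1 h1 with h | h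
      · exact absurd (hcon z h) (Finset.disjoint_left.1 hd hz)
      · exact h
    have h1 := dep A hcon B hXB hlAB
    have heA : e ∉ A := fun h => by
      have h2 := hcon e h
      exact heY h2
    refine Fb1_ok hO (P := A) (Q := insert e B) ?_ ?_ h1 ?_ ?_
    · rw [Finset.union_insert, hAB, hS]
    · exact Finset.disjoint_insert_right.2 ⟨heA, hdAB⟩
    · exact hv_mono hvA subset_rfl ((Finset.subset_insert e B).trans Finset.subset_union_right) ⟨e, Finset.mem_insert_self e B⟩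
    · exact hv_mono hvB (Finset.subset_insert e B) Finset.subset_union_right (Fb1_ne hg hvA)

/-- the case (a): `B.erase x` meets `X'` and `Y` -/
private theorem Fb1_a (hg : Hm t g) {S X' Y A B : Finset V} {x e : V} (hC' : Cn g (X' ∪ Y)) (hO : Ok g S)
    (hS : S = insert e (insert x (X' ∪ Y))) (hxe : e ≠ x) (he' : e ∉ X') (heY : e ∉ Y)
    (hd : Disjoint X' Y) (hl : Lo g (insert e X') Y)
    (dep : ∀ P ⊆ Y, ∀ Q, X' ⊆ Q → Lo g P Q → Lo g P (insert e Q))
    (hmin' : ∀ P Q, P ⊆ X' → P ∪ Q = insert x (X' ∪ Y) → Disjoint P Q → Lo g P Q → Hv g P Q → Hv g Q P → False)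
    (hAB : A ∪ B = insert x (X' ∪ Y)) (hdAB : Disjoint A B) (hxB : x ∈ B) (hlAB : Lo g A B) (hvA : Hv g A B)
    (hvB : Hv g B A)
    (depx : ∀ P ⊆ A, ∀ Q, B.erase x ⊆ Q → Lo g P Q → Lo g P (insert x Q))
    (h1 : ∃ a ∈ A, a ∉ X') (h2 : ∃ a ∈ A, a ∈ X') (h3 : ∃ b ∈ B, b ∈ X') (h4 : ∃ b ∈ B, b ∈ Y) : False := by
  have hxA : x ∉ A := fun h => Finset.disjoint_left.1 hdAB h hxB
  have mAB : ∀ z, z ∈ A ∨ z ∈ B ↔ z = x ∨ z ∈ X' ∨ z ∈ Y := by
    intro z
    rw [← Finset.mem_union, hAB, Finset.mem_insert, Finset.mem_union]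
  have hAS : ∀ z ∈ A, z ∈ X' ∨ z ∈ Y := by
    intro z hz
    rcases (mAB z).1 (Or.inl hz) with h | h
    · exact absurd (h ▸ hz) hxA
    · exact h
  have hAS' : A ⊆ X' ∪ Y := fun z hz => Finset.mem_union.2 (hAS z hz)
  have heAB : e ∉ A ∪ B := by
    rw [hAB, Finset.mem_insert, Finset.mem_union]
    rintro (h | h | h)
    · exact hxe h
    · exact he' h
    · exact heY h
  have l1 : Lo g A ((X' ∪ Y) \ A) := by
    refine lo_mono subset_rfl ?_ hlAB
    intro z hz
    rw [Finset.mem_sdiff, Finset.mem_union] at hz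
    rcases (mAB z).2 (Or.inr hz.1) with h | h
    · exact absurd h hz.2
    · exact h
  have l2 : Lo g X' ((X' ∪ Y) \ X') := by
    refine lo_mono (Finset.subset_insert e X') ?_ hl
    intro z hz
    rw [Finset.mem_sdiff, Finset.mem_union] at hz
    rcases hz.1 with h | h
    · exact absurd h hz.2
    · exact h
  obtain ⟨a1, ha1, ha1'⟩ := h1
  obtain ⟨a2, ha2, ha2'⟩ := h2
  obtain ⟨b1, hb1, hb1'⟩ := h3
  obtain ⟨b2, hb2, hb2'⟩ := h4
  have hdis : ∀ z, z ∈ A → z ∉ B := fun z hz => Finset.disjoint_left.1 hdAB hz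
  have hdXY : ∀ z, z ∈ X' → z ∉ Y := fun z hz => Finset.disjoint_left.1 hd hz
  have l3 := (unc hC' hAS' Finset.subset_union_left l1 l2 ⟨a2, Finset.mem_inter.2 ⟨ha2, ha2'⟩⟩
    ⟨b2, by
      rw [Finset.mem_sdiff, Finset.mem_union, Finset.mem_union]
      refine ⟨Or.inr hb2', ?_⟩
      rintro (h | h)
      · exact hdis b2 h hb2
      · exact hdXY b2 h hb2'⟩).1
  have l4 := unc_diff hg hC' hAS' Finset.subset_union_left l1 l2 ⟨a1, Finset.mem_sdiff.2 ⟨ha1, ha1'⟩⟩
    ⟨b1, Finset.mem_sdiff.2 ⟨hb1', fun h => hdis b1 h hb1⟩⟩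
  have hBS : ∀ z ∈ B.erase x, z ∈ X' ∪ Y := by
    intro z hz
    rw [Finset.mem_erase] at hz
    rcases (mAB z).1 (Or.inr hz.2) with h | h
    · exact absurd h hz.1
    · exact Finset.mem_union.2 h
  have l5 := depx (A ∩ X') Finset.inter_subset_left _ (by
    intro z hz
    rw [Finset.mem_sdiff]
    refine ⟨hBS z hz, fun h => ?_⟩
    exact hdis z (Finset.mem_inter.1 h).1 (Finset.mem_erase.1 hz).2) l3
  have l6 := depx (A \ X') Finset.sdiff_subset _ (by
    intro z hz
    rw [Finset.mem_sdiff]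
    refine ⟨hBS z hz, fun h => ?_⟩
    exact hdis z (Finset.mem_sdiff.1 h).1 (Finset.mem_erase.1 hz).2) l4
  have d12 : Disjoint (A ∩ X') (A \ X') := by
    rw [Finset.disjoint_left]
    intro z hz hz'
    exact (Finset.mem_sdiff.1 hz').2 (Finset.mem_inter.1 hz).2
  have d1B : Disjoint (A ∩ X') B := hdAB.mono_left Finset.inter_subset_left
  have d2B : Disjoint (A \ X') B := hdAB.mono_left Finset.sdiff_subset
  have hBx : ∀ z ∈ B, z = x ∨ z ∈ X' ∪ Y := by
    intro z hz
    rcases (mAB z).1 (Or.inr hz) with h | h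
    · exact Or.inl h
    · exact Or.inr (Finset.mem_union.2 h)
  have l7 : Lo g (A ∩ X') ((A \ X') ∪ B) := by
    refine lo_mono subset_rfl ?_ l5
    intro z hz
    rw [Finset.mem_insert, Finset.mem_sdiff]
    rcases Finset.mem_union.1 hz with h | h
    · exact Or.inr ⟨hAS' (Finset.mem_sdiff.1 h).1, fun h' => (Finset.mem_sdiff.1 h).2 (Finset.mem_inter.1 h').2⟩
    · rcases hBx z h with h' | h'
      · exact Or.inl h'
      · exact Or.inr ⟨h', fun h'' => hdis z (Finset.mem_inter.1 h'').1 h⟩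
  have l8 : Lo g (A \ X') ((A ∩ X') ∪ B) := by
    refine lo_mono subset_rfl ?_ l6
    intro z hz
    rw [Finset.mem_insert, Finset.mem_sdiff]
    rcases Finset.mem_union.1 hz with h | h
    · exact Or.inr ⟨hAS' (Finset.mem_inter.1 h).1, fun h' => (Finset.mem_sdiff.1 h').2 (Finset.mem_inter.1 h).2⟩
    · rcases hBx z h with h' | h'
      · exact Or.inl h'
      · exact Or.inr ⟨h', fun h'' => hdis z (Finset.mem_sdiff.1 h'').1 h⟩
  have eA : (A ∩ X') ∪ (A \ X') = A := by
    rw [Finset.union_comm, Finset.sdiff_union_inter]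
  by_cases k1 : Hv g (A ∩ X') ((A \ X') ∪ B)
  · refine hmin' (A ∩ X') ((A \ X') ∪ B) Finset.inter_subset_right ?_ ?_ l7 k1 ?_
    · rw [← Finset.union_assoc, eA, hAB]
    · exact Finset.disjoint_union_right.2 ⟨d12, d1B⟩
    · refine hv_mono hvB Finset.subset_union_right ?_ ⟨a2, Finset.mem_inter.2 ⟨ha2, ha2'⟩⟩
      intro z hz
      by_cases h : z ∈ X'
      · exact Finset.mem_union_right _ (Finset.mem_inter.2 ⟨hz, h⟩)
      · exact Finset.mem_union_left _ (Finset.mem_union_left _ (Finset.mem_sdiff.2 ⟨hz, h⟩))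
  · by_cases k2 : Hv g (A \ X') ((A ∩ X') ∪ B)
    · have hAY : A \ X' ⊆ Y := by
        intro z hz
        rw [Finset.mem_sdiff] at hz
        rcases hAS z hz.1 with h | h
        · exact absurd h hz.2
        · exact h
      have l9 := dep (A \ X') hAY ((A ∩ X') ∪ B) (by
        intro z hz
        rcases (mAB z).2 (Or.inr (Or.inl hz)) with h | h
        · exact Finset.mem_union_left _ (Finset.mem_inter.2 ⟨h, hz⟩)
        · exact Finset.mem_union_right _ h) l8
      refine Fb1_ok hO (P := A \ X') (Q := insert e ((A ∩ X') ∪ B)) ?_ ?_ l9 ?_ ?_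
      · rw [Finset.union_insert, ← Finset.union_assoc, Finset.union_comm (A \ X'), eA, hAB, hS]
      · refine Finset.disjoint_insert_right.2 ⟨fun h => heAB (Finset.mem_union_left _ (Finset.mem_sdiff.1 h).1), ?_⟩
        exact Finset.disjoint_union_right.2 ⟨d12.symm, d2B⟩
      · exact hv_mono k2 subset_rfl ((Finset.subset_insert e _).trans Finset.subset_union_right) ⟨e, Finset.mem_insert_self e _⟩
      · refine hv_mono hvB (Finset.subset_union_right.trans (Finset.subset_insert e _)) ?_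
          ⟨a1, Finset.mem_sdiff.2 ⟨ha1, ha1'⟩⟩
        intro z hz
        by_cases h : z ∈ X'
        · exact Finset.mem_union_left _ (Finset.mem_insert_of_mem (Finset.mem_union_left _ (Finset.mem_inter.2 ⟨hz, h⟩)))
        · exact Finset.mem_union_right _ (Finset.mem_sdiff.2 ⟨hz, h⟩)
    · have h := light_union hg d12 d1B d2B l7 l8 k1 k2
      rw [eA] at h
      exact h hvA

private theorem Fb1_main (hg : Hm t g) {S X' Y A B : Finset V} {x e : V} (hC' : Cn g (X' ∪ Y)) (hO : Ok g S)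
    (hS : S = insert e (insert x (X' ∪ Y))) (hxe : e ≠ x) (he' : e ∉ X') (heY : e ∉ Y) (hx' : x ∉ X') (hxY : x ∉ Y)
    (hd : Disjoint X' Y) (hl : Lo g (insert e X') Y) (hvX : Hv g (insert e X') Y) (hvY : Hv g Y (insert e X'))
    (hmin' : ∀ P Q, P ⊆ X' → P ∪ Q = insert x (X' ∪ Y) → Disjoint P Q → Lo g P Q → Hv g P Q → Hv g Q P → False)
    (hAB : A ∪ B = insert x (X' ∪ Y)) (hdAB : Disjoint A B) (hxB : x ∈ B) (hlAB : Lo g A B) (hvA : Hv g A B)
    (hvB : Hv g B A) :
    t e ≠ t x ∧ B.erase x ⊆ Y ∧ (B.erase x).Nonempty ∧ (Y \ B.erase x).Nonempty ∧ A = X' ∪ (Y \ B.erase x) := by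
  have hYne := Fb1_ne hg hvY
  have hXc := hv_card hg hvX
  rw [Finset.card_insert_of_notMem he'] at hXc
  have hXne : X'.Nonempty := Finset.card_pos.1 (by omega)
  have hdXY : ∀ z, z ∈ X' → z ∉ Y := fun z hz => Finset.disjoint_left.1 hd hz
  obtain ⟨y₀, hy₀, b₀, hb₀, h0⟩ := hC' Y Finset.subset_union_right hYne (by
    obtain ⟨z, hz⟩ := hXne
    exact ⟨z, Finset.mem_sdiff.2 ⟨Finset.mem_union_left _ hz, hdXY z hz⟩⟩)
  have hb₀' : b₀ ∈ X' := by
    rw [Finset.mem_sdiff, Finset.mem_union] at hb₀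
    rcases hb₀.1 with h | h
    · exact h
    · exact absurd h hb₀.2
  have h0' : g b₀ y₀ ≠ 0 := by
    rw [hg.inv y₀ b₀]
    exact inv_ne_zero h0
  have dep : ∀ P ⊆ Y, ∀ Q, X' ⊆ Q → Lo g P Q → Lo g P (insert e Q) := fun P hP Q hQ h =>
    lo_ins (lo_symm hg hl) ⟨y₀, hy₀, b₀, hb₀', h0⟩ hP hQ h
  obtain ⟨⟨a1, ha1, ha1'⟩, a2, ha2, ha2'⟩ := Fb1_meet hg hO hS heY hd dep hmin' hAB hdAB hlAB hvA hvB
  have hxA : x ∉ A := fun h => Finset.disjoint_left.1 hdAB h hxB
  have hdis : ∀ z, z ∈ A → z ∉ B := fun z hz => Finset.disjoint_left.1 hdAB hz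
  have mAB : ∀ z, z ∈ A ∨ z ∈ B ↔ z = x ∨ z ∈ X' ∨ z ∈ Y := by
    intro z
    rw [← Finset.mem_union, hAB, Finset.mem_insert, Finset.mem_union]
  have hAS : ∀ z ∈ A, z ∈ X' ∨ z ∈ Y := by
    intro z hz
    rcases (mAB z).1 (Or.inl hz) with h | h
    · exact absurd (h ▸ hz) hxA
    · exact h
  have hAS' : A ⊆ X' ∪ Y := fun z hz => Finset.mem_union.2 (hAS z hz)
  have ha1Y : a1 ∈ Y := by
    rcases hAS a1 ha1 with h | h
    · exact absurd h ha1'
    · exact h
  have ha2X : a2 ∈ X' := by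
    rcases hAS a2 ha2 with h | h
    · exact h
    · exact absurd h ha2'
  have hBc := hv_card hg hvB
  have hBe : (B.erase x).card = B.card - 1 := Finset.card_erase_of_mem hxB
  have hBne : (B.erase x).Nonempty := Finset.card_pos.1 (by omega)
  have hBS : ∀ z ∈ B.erase x, z ∈ X' ∪ Y := by
    intro z hz
    rw [Finset.mem_erase] at hz
    rcases (mAB z).1 (Or.inr hz.2) with h | h
    · exact absurd h hz.1
    · exact Finset.mem_union.2 h
  obtain ⟨a, ha, b, hb, hab⟩ := hC' A hAS' ⟨a1, ha1⟩ (by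
    obtain ⟨z, hz⟩ := hBne
    exact ⟨z, Finset.mem_sdiff.2 ⟨hBS z hz, fun h => hdis z h (Finset.mem_erase.1 hz).2⟩⟩)
  have hbB : b ∈ B.erase x := by
    rw [Finset.mem_sdiff, Finset.mem_union] at hb
    have hbx : b ≠ x := by
      rintro rfl
      rcases hb.1 with h | h
      · exact hx' h
      · exact hxY h
    rcases (mAB b).2 (Or.inr hb.1) with h | h
    · exact absurd h hb.2
    · exact Finset.mem_erase.2 ⟨hbx, h⟩
  have hlAB' : Lo g A (insert x (B.erase x)) := by
    rw [Finset.insert_erase hxB]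
    exact hlAB
  have depx : ∀ P ⊆ A, ∀ Q, B.erase x ⊆ Q → Lo g P Q → Lo g P (insert x Q) := fun P hP Q hQ h =>
    lo_ins hlAB' ⟨a, ha, b, hbB, hab⟩ hP hQ h
  have hnX : ∀ z ∈ B.erase x, z ∉ X' := by
    intro z hz hzX
    by_cases h4 : ∃ b ∈ B, b ∈ Y
    · exact Fb1_a hg hC' hO hS hxe he' heY hd hl dep hmin' hAB hdAB hxB hlAB hvA hvB depx
        ⟨a1, ha1, ha1'⟩ ⟨a2, ha2, ha2X⟩ ⟨z, (Finset.mem_erase.1 hz).2, hzX⟩ h4
    · push Not at h4
      have hYA : Y ⊆ A := by
        intro w hw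
        rcases (mAB w).2 (Or.inr (Or.inr hw)) with h | h
        · exact h
        · exact absurd hw (h4 w h)
      have hBX : B.erase x ⊆ insert e X' := by
        intro w hw
        rcases Finset.mem_union.1 (hBS w hw) with h | h
        · exact Finset.mem_insert_of_mem h
        · exact absurd h (h4 w (Finset.mem_erase.1 hw).2)
      have h5 := depx Y hYA (insert e X') hBX (lo_symm hg hl)
      refine Fb1_ok hO (P := Y) (Q := insert x (insert e X')) ?_ ?_ h5 ?_ ?_
      · rw [hS, Finset.union_insert, Finset.union_insert, Finset.insert_comm, Finset.union_comm Y X']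
      · refine Finset.disjoint_insert_right.2 ⟨hxY, Finset.disjoint_insert_right.2 ⟨heY, hd.symm⟩⟩
      · exact hv_mono hvY subset_rfl ((Finset.subset_insert x _).trans Finset.subset_union_right) ⟨x, Finset.mem_insert_self x _⟩
      · exact hv_mono hvX (Finset.subset_insert x _) Finset.subset_union_right hYne
  have hBY : B.erase x ⊆ Y := by
    intro z hz
    rcases Finset.mem_union.1 (hBS z hz) with h | h
    · exact absurd h (hnX z hz)
    · exact h
  have hXA : X' ⊆ A := by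
    intro z hz
    rcases (mAB z).2 (Or.inr (Or.inl hz)) with h | h
    · exact h
    · exact absurd hz (hnX z (Finset.mem_erase.2 ⟨fun h' => hx' (h' ▸ hz), h⟩))
  have heA : e ∉ A := by
    intro h
    rcases hAS e h with h | h
    · exact he' h
    · exact heY h
  refine ⟨?_, hBY, hBne, ⟨a1, Finset.mem_sdiff.2 ⟨ha1Y, fun h => hdis a1 ha1 (Finset.mem_erase.1 h).2⟩⟩, ?_⟩
  · intro ht
    have h6 := Fb1_ext hg ht hl hlAB hb₀' hy₀ h0' heA hXA hxB (fun z hz hzx => hBY (Finset.mem_erase.2 ⟨hzx, hz⟩))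
    have heB : e ∉ B := by
      intro h
      rcases (mAB e).1 (Or.inr h) with h | h | h
      · exact hxe h
      · exact he' h
      · exact heY h
    refine Fb1_ok hO (P := insert e A) (Q := B) ?_ ?_ h6 ?_ ?_
    · rw [Finset.insert_union, hAB, hS]
    · exact Finset.disjoint_insert_left.2 ⟨heB, hdAB⟩
    · exact hv_mono hvA (Finset.subset_insert e A) Finset.subset_union_right ⟨x, hxB⟩
    · exact hv_mono hvB subset_rfl ((Finset.subset_insert e A).trans Finset.subset_union_right) ⟨e, Finset.mem_insert_self e A⟩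
  · apply Finset.Subset.antisymm
    · intro z hz
      rcases hAS z hz with h | h
      · exact Finset.mem_union_left _ h
      · exact Finset.mem_union_right _ (Finset.mem_sdiff.2 ⟨h, fun h' => hdis z hz (Finset.mem_erase.1 h').2⟩)
    · intro z hz
      rcases Finset.mem_union.1 hz with h | h
      · exact hXA h
      · rw [Finset.mem_sdiff] at h
        rcases (mAB z).2 (Or.inr (Or.inr h.1)) with h' | h'
        · exact h'
        · exact absurd (Finset.mem_erase.2 ⟨fun h'' => hxY (by rw [← h'']; exact h.1), h'⟩) h.2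

/-- the exceptional situation (c) -/
structure Exc (t : V → Bool) (g : V → V → F4) (X Y Z : Finset V) (x e : V) : Prop where
  ty : t e ≠ t x
  sub : Z ⊆ Y
  ne : Z.Nonempty
  ne' : (Y \ Z).Nonempty
  lo : Lo g (X.erase e ∪ (Y \ Z)) (insert x Z)
  hv : Hv g (X.erase e ∪ (Y \ Z)) (insert x Z)
  hv' : Hv g (insert x Z) (X.erase e ∪ (Y \ Z))

theorem fb_one (hg : Hm t g) {S X : Finset V} {x e : V} (hC : Cn g S) (hO : Ok g S) (hx : x ∈ S) (hX : X ⊆ S.erase x)
    (hl : Lo g X (S.erase x \ X)) (hvX : Hv g X (S.erase x \ X)) (hvY : Hv g (S.erase x \ X) X) (he : e ∈ X)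
    (hCe : Cn g ((S.erase x).erase e))
    (hmin : ∀ A ⊆ X.erase e, Lo g A (S.erase e \ A) → Hv g A (S.erase e \ A) → ¬ Hv g (S.erase e \ A) A) :
    Ok g (S.erase e) ∨ ∃ Z, Exc t g X (S.erase x \ X) Z x e := by
  by_cases hOk : Ok g (S.erase e)
  · exact Or.inl hOk
  right
  have heS := Finset.mem_erase.1 (hX he)
  have eX : insert e (X.erase e) = X := Finset.insert_erase he
  have eS' : (S.erase x).erase e = X.erase e ∪ (S.erase x \ X) := by
    ext z
    simp only [Finset.mem_erase, Finset.mem_union, Finset.mem_sdiff]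
    constructor
    · rintro ⟨h1, h2, h3⟩
      by_cases hz : z ∈ X
      · exact Or.inl ⟨h1, hz⟩
      · exact Or.inr ⟨⟨h2, h3⟩, hz⟩
    · rintro (⟨h1, h2⟩ | ⟨⟨h1, h2⟩, h3⟩)
      · have h4 := Finset.mem_erase.1 (hX h2)
        exact ⟨h1, h4.1, h4.2⟩
      · exact ⟨fun h => h3 (h ▸ he), h1, h2⟩
  have eSe : S.erase e = insert x (X.erase e ∪ (S.erase x \ X)) := by
    rw [← eS', Finset.erase_right_comm, Finset.insert_erase (Finset.mem_erase.2 ⟨fun h => heS.1 h.symm, hx⟩)]
  have eS : S = insert e (insert x (X.erase e ∪ (S.erase x \ X))) := by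
    rw [← eSe, Finset.insert_erase heS.2]
  have hd : Disjoint (X.erase e) (S.erase x \ X) :=
    Finset.disjoint_of_subset_left (Finset.erase_subset e X) Finset.disjoint_sdiff
  have hxX : x ∉ X := fun h => (Finset.mem_erase.1 (hX h)).1 rfl
  have hmin' : ∀ P Q, P ⊆ X.erase e → P ∪ Q = insert x (X.erase e ∪ (S.erase x \ X)) → Disjoint P Q → Lo g P Q →
      Hv g P Q → Hv g Q P → False := by
    intro P Q hP hPQ hdPQ h1 h2 h3
    rw [← eSe] at hPQ
    have e1 := Fb1_sdiff hPQ hdPQ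
    have h4 := hmin P hP
    rw [e1] at h4
    exact h4 h1 h2 h3
  have key : ∀ A B : Finset V, A ∪ B = S.erase e → Disjoint A B → x ∈ B → Lo g A B → Hv g A B → Hv g B A →
      ∃ Z, Exc t g X (S.erase x \ X) Z x e := by
    intro A B hAB hdAB hxB h1 h2 h3
    have h4 := Fb1_main hg (X' := X.erase e) (Y := S.erase x \ X) (A := A) (B := B) (x := x) (e := e)
      (by rw [← eS']; exact hCe) hO eS heS.1 (Finset.notMem_erase e X) (fun h => (Finset.mem_sdiff.1 h).2 he)
      (fun h => hxX (Finset.mem_erase.1 h).2) (fun h => (Finset.mem_erase.1 (Finset.mem_sdiff.1 h).1).1 rfl) hd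
      (by rw [eX]; exact hl) (by rw [eX]; exact hvX) (by rw [eX]; exact hvY) hmin' (by rw [hAB, eSe]) hdAB hxB h1 h2 h3
    obtain ⟨k1, k2, k3, k4, k5⟩ := h4
    refine ⟨B.erase x, k1, k2, k3, k4, ?_, ?_, ?_⟩
    · rw [← k5, Finset.insert_erase hxB]
      exact h1
    · rw [← k5, Finset.insert_erase hxB]
      exact h2
    · rw [← k5, Finset.insert_erase hxB]
      exact h3
  unfold Ok at hOk
  push Not at hOk
  obtain ⟨A, hA, h1, h2, h3⟩ := hOk
  have hxe : x ∈ S.erase e := Finset.mem_erase.2 ⟨fun h => heS.1 h.symm, hx⟩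
  have hun : A ∪ (S.erase e \ A) = S.erase e := Finset.union_sdiff_of_subset hA
  by_cases hxA : x ∈ A
  · exact key (S.erase e \ A) A (by rw [Finset.union_comm, hun]) Finset.disjoint_sdiff.symm hxA (lo_symm hg h1) h3 h2
  · exact key A (S.erase e \ A) hun Finset.disjoint_sdiff (Finset.mem_sdiff.2 ⟨hxe, hxA⟩) h1 h2 h3

end Pool.Agent.QUA
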