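import Pool.Agent.QUA.Fb1

/-!
# QUA/Fb2: there is at most one exceptional element

Situation of QUA/Fb1 with two elements `e ≠ a` of `X` and `Exc` for both, with `Z`, `Z'`; `Y = (S.erase x) \ X`, `A = X.erase e ∪ (Y \ Z)`, `A' = X.erase a ∪ (Y \ Z')`.
Let `g b y = u b * v y` (`b ∈ X`, `y ∈ Y`), `g b z = s b * r z` (`b ∈ A`, `z ∈ insert x Z`), `s'`, `r'` for `A'`, `Z'`.
(1) There is `b₀ ∈ X.erase e` with `u b₀ ≠ 0` (connectedness); `v z = ν⁻¹-multiple ..`: put `κ` with `g b x = κ * u b` for all `b ∈ X.erase e` (`A × Z` has a nonzero entry since `(S.erase x).erase e` is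
connected, so `r z₀ ≠ 0` for a `z₀ ∈ Z`, `s b * r z₀ = u b * v z₀`; `κ := v z₀ * r x / r z₀`), and `κ'` with `g b x = κ' * u b` for `b ∈ X.erase a`. Moreover `κ ≠ 0` implies `v z₀ ≠ 0`.
(2) If `κ = κ'` then `Lo g X (insert x Y)`: a separation of `S` with nonbinary sides, excluded. So `κ ≠ κ'`, `u b = 0 = g b x` for `b ∈ X \ {e, a}`, `u a ≠ 0`, `u e ≠ 0`.
(3) `X.erase e` is a side in `S.erase e` (`g b y = u b * v y`, `g b x = κ * u b`), so it is not nonbinary by `hmin`, similarly `X.erase a` in `S.erase a`.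
(4) `Z` is a side of `S.erase x` (`insert e A`: `lo_ins` for `e`), also `Z'`. `Lo g Z (S \ Z)` is false: otherwise `Z` and `{x}` are sides in `S.erase e`, so `Z` is nonbinary by `light_union`
(`{x}` is not, `bal_card`), and `(Z, S \ Z)` is a separation of `S` with nonbinary sides. Therefore `Z ∩ Z' ≠ ∅`: otherwise `Z ⊆ A'`, `Z' ⊆ Y \ Z ⊆ A`, and `x` depends on `Z'` for `A'` (`A' × Z'` has a nonzero entry), so
`Lo g Z (S \ Z)` by `lo_ins`. So `U := Z ∪ Z'` is a side of `S.erase x` (`unc` in `S.erase x`).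
(5) `C₀ := Y \ U` has no nonzero entry with `insert x U`: write `g b z = σ b * ω z` for `b ∈ X ∪ C₀`, `z ∈ U`. `v ≠ 0` on `U` (since `κ ≠ κ'`), `u a ≠ 0`, so `σ a ≠ 0` and we may take `ω = v`; then for `b ∈ C₀`
`g b x = κ * σ b = κ' * σ b`, so `σ b = 0`. Hence `C₀` is a side of `S` (`g b y = u b * v y` for `b ∈ X`) if it is not empty, `Hv g (S \ C₀) C₀` (`X` is in it), so `C₀` is not nonbinary, in `S` and in `S.erase e`.
(6) `C := Z' \ Z`, `C' := Z \ Z'`. If `C = ∅` then `A = X.erase e ∪ C₀` is not nonbinary by `light_union` (in `S.erase e`), contradiction. If `C' = ∅` the same with `a`, `A'`. If both are not empty they are sides of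
`S.erase x` (`unc_diff`), `C` is a side of `S` (`x` depends on `Z` for `C ⊆ A`: `lo_ins`), so it is not nonbinary, and `A = X.erase e ∪ C₀ ∪ C`: `light_union` twice, contradiction to `Exc.hv`.
-/

set_option autoImplicit false

noncomputable section

namespace Pool.Agent.QUA

open Pool.Agent.FRM

variable {V : Type} [DecidableEq V] {t : V → Bool} {g : V → V → F4}

private theorem Fb2_sdiff {S P Q : Finset V} (h : P ∪ Q = S) (hd : Disjoint P Q) : S \ P = Q := by
  rw [← h, Finset.union_sdiff_left, Finset.sdiff_eq_self_of_disjoint hd.symm]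

private theorem Fb2_ok {S P Q : Finset V} (hO : Ok g S) (h : P ∪ Q = S) (hd : Disjoint P Q) (hl : Lo g P Q)
    (h1 : Hv g P Q) (h2 : Hv g Q P) : False := by
  have e := Fb2_sdiff h hd
  have hP : P ⊆ S := by
    rw [← h]
    exact Finset.subset_union_left
  have h3 := hO P hP
  rw [e] at h3
  exact h3 hl h1 h2

/-- the constant `κ` -/
private theorem Fb2_kap {X Y Z : Finset V} {x e : V} (v : V → F4) (hd : Disjoint X Y)
    (hCe : Cn g (X.erase e ∪ Y)) (h : Exc t g X Y Z x e) :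
    ∃ κ : F4, (∀ b ∈ X.erase e ∪ (Y \ Z), ∀ σ : F4, (∀ z ∈ Z, g b z = σ * v z) → g b x = κ * σ) ∧
      (κ ≠ 0 → ∃ z ∈ Z, v z ≠ 0) ∧ ∃ b ∈ X.erase e ∪ (Y \ Z), ∃ z ∈ Z, g b z ≠ 0 := by
  obtain ⟨s, r, hsr⟩ := h.lo
  have hsub : X.erase e ∪ (Y \ Z) ⊆ X.erase e ∪ Y := Finset.union_subset_union_right Finset.sdiff_subset
  have hne : ((X.erase e ∪ Y) \ (X.erase e ∪ (Y \ Z))).Nonempty := by
    obtain ⟨z, hz⟩ := h.ne
    refine ⟨z, ?_⟩
    rw [Finset.mem_sdiff, Finset.mem_union, Finset.mem_union, Finset.mem_sdiff]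
    refine ⟨Or.inr (h.sub hz), ?_⟩
    rintro (h1 | h1)
    · exact Finset.disjoint_left.1 hd (Finset.mem_of_mem_erase h1) (h.sub hz)
    · exact h1.2 hz
  obtain ⟨b₀, hb₀, z₀, hz₀, h0⟩ := hCe _ hsub (h.ne'.mono Finset.subset_union_right) hne
  have hz₀Z : z₀ ∈ Z := by
    rw [Finset.mem_sdiff, Finset.mem_union, Finset.mem_union, Finset.mem_sdiff] at hz₀
    by_contra hcon
    rcases hz₀.1 with h1 | h1
    · exact hz₀.2 (Or.inl h1)
    · exact hz₀.2 (Or.inr ⟨h1, hcon⟩)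
  have hr : r z₀ ≠ 0 := by
    intro hr
    rw [hsr b₀ hb₀ z₀ (Finset.mem_insert_of_mem hz₀Z), hr, mul_zero] at h0
    exact h0 rfl
  refine ⟨v z₀ * r x * (r z₀)⁻¹, ?_, ?_, b₀, hb₀, z₀, hz₀Z, h0⟩
  · intro b hb σ hσ
    have h1 := hσ z₀ hz₀Z
    rw [hsr b hb z₀ (Finset.mem_insert_of_mem hz₀Z)] at h1
    have h2 : s b = σ * v z₀ * (r z₀)⁻¹ := by
      rw [← h1, mul_assoc, mul_inv_cancel₀ hr, mul_one]
    rw [hsr b hb x (Finset.mem_insert_self x Z), h2]
    ring
  · intro hk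
    refine ⟨z₀, hz₀Z, fun hv => hk ?_⟩
    rw [hv, zero_mul, zero_mul]

/-- what is known about one exceptional element -/
private structure Fb2_T (t : V → Bool) (g : V → V → F4) (X Y Z : Finset V) (x e : V) (u v : V → F4) (κ : F4) : Prop where
  exc : Exc t g X Y Z x e
  k1 : ∀ b ∈ X.erase e ∪ (Y \ Z), ∀ σ : F4, (∀ z ∈ Z, g b z = σ * v z) → g b x = κ * σ
  k2 : κ ≠ 0 → ∃ z ∈ Z, v z ≠ 0
  k3 : ∃ b ∈ X.erase e ∪ (Y \ Z), ∃ z ∈ Z, g b z ≠ 0
  lx : Lo g (X.erase e) (insert x Y)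
  nh : ¬ Hv g (X.erase e) (insert x Y)
  lz : Lo g Z (X ∪ (Y \ Z))
  nz : ¬ Lo g Z (insert x (X ∪ (Y \ Z)))

private theorem Fb2_ku {X Y Z : Finset V} {x e : V} {u v : V → F4} {κ : F4} (hZ : Z ⊆ Y)
    (uv : ∀ b ∈ X, ∀ y ∈ Y, g b y = u b * v y)
    (k1 : ∀ b ∈ X.erase e ∪ (Y \ Z), ∀ σ : F4, (∀ z ∈ Z, g b z = σ * v z) → g b x = κ * σ) :
    ∀ b ∈ X.erase e, g b x = κ * u b := fun b hb =>
  k1 b (Finset.mem_union_left _ hb) (u b) fun z hz => uv b (Finset.mem_of_mem_erase hb) z (hZ hz)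

private theorem Fb2_lx {X Y : Finset V} {x e : V} {u v : V → F4} {κ : F4} (hxY : x ∉ Y)
    (uv : ∀ b ∈ X, ∀ y ∈ Y, g b y = u b * v y) (ku : ∀ b ∈ X.erase e, g b x = κ * u b) :
    Lo g (X.erase e) (insert x Y) := by
  refine ⟨u, Function.update v x κ, fun b hb y hy => ?_⟩
  rcases Finset.mem_insert.1 hy with h | h
  · rw [h, Function.update_self, ku b hb, mul_comm]
  · have h1 : y ≠ x := fun h2 => hxY (h2 ▸ h)
    rw [Function.update_of_ne h1]
    exact uv b (Finset.mem_of_mem_erase hb) y h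

/-- (3) -/
private theorem Fb2_nh (hg : Hm t g) {S X Y : Finset V} {x e a : V} {u v : V → F4} (hS : S = insert x (X ∪ Y)) (hxX : x ∉ X)
    (hxY : x ∉ Y) (hd : Disjoint X Y) (hC : Cn g (X ∪ Y)) (he : e ∈ X) (ha : a ∈ X) (hea : e ≠ a)
    (uv : ∀ b ∈ X, ∀ y ∈ Y, g b y = u b * v y) (hua : u a ≠ 0) (hvY : Hv g Y X) (hv₀ : ∃ y ∈ Y, v y ≠ 0)
    (hme : ∀ A ⊆ X.erase e, Lo g A (S.erase e \ A) → Hv g A (S.erase e \ A) → ¬ Hv g (S.erase e \ A) A)
    (lx : Lo g (X.erase e) (insert x Y)) : ¬ Hv g (X.erase e) (insert x Y) := by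
  intro hh
  have heY : e ∉ Y := fun h => Finset.disjoint_left.1 hd he h
  have hxe : x ≠ e := fun h => hxX (h ▸ he)
  have e1 : S.erase e \ X.erase e = insert x Y := by
    refine Fb2_sdiff ?_ ?_
    · rw [hS]
      ext z
      simp only [Finset.mem_union, Finset.mem_erase, Finset.mem_insert]
      constructor
      · rintro (⟨h1, h2⟩ | h1 | h1)
        · exact ⟨h1, Or.inr (Or.inl h2)⟩
        · exact ⟨fun h => hxe (h1 ▸ h), Or.inl h1⟩
        · exact ⟨fun h => heY (h ▸ h1), Or.inr (Or.inr h1)⟩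
      · rintro ⟨h1, h2 | h2 | h2⟩
        · exact Or.inr (Or.inl h2)
        · exact Or.inl ⟨h1, h2⟩
        · exact Or.inr (Or.inr h2)
    · rw [Finset.disjoint_insert_right]
      exact ⟨fun h => hxX (Finset.mem_of_mem_erase h), Finset.disjoint_of_subset_left (Finset.erase_subset e X) hd⟩
  have h1 := hme (X.erase e) (Finset.Subset.refl _)
  rw [e1] at h1
  refine h1 lx hh ?_
  obtain ⟨y, hy, hvy⟩ := hv₀
  have hya : g y a ≠ 0 := by
    rw [hg.inv a y, uv a ha y hy]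
    exact inv_ne_zero (mul_ne_zero hua hvy)
  have hsd : (X ∪ Y) \ Y = X := Fb2_sdiff (Finset.union_comm Y X) hd.symm
  have hcl : Cl g (X ∪ Y) Y y a := by
    refine ⟨Finset.subset_union_right, hy, Finset.mem_union_left _ ha, fun h => Finset.disjoint_left.1 hd ha h, hya, ?_⟩
    intro p hp q hq hqY
    have hqX : q ∈ X := by
      rcases Finset.mem_union.1 hq with h | h
      · exact h
      · exact absurd h hqY
    rw [hg.inv q p, hg.inv a y, hg.inv a p, hg.inv q y, uv q hqX p hp, uv a ha y hy, uv a ha p hp, uv q hqX y hy,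
      ← mul_inv, ← mul_inv]
    congr 1
    ring
  have h2 := hv_rep hg hcl (by rw [hsd]; exact hvY)
  refine ⟨a, Finset.mem_erase.2 ⟨hea.symm, ha⟩, fun h => h2 (bal_mono ?_ h)⟩
  exact Finset.insert_subset_insert _ (Finset.subset_insert x Y)

/-- (4), first part -/
private theorem Fb2_lz (hg : Hm t g) {X Y Z : Finset V} {x e a : V} {u v : V → F4} (he : e ∈ X) (ha : a ∈ X) (hea : e ≠ a)
    (uv : ∀ b ∈ X, ∀ y ∈ Y, g b y = u b * v y) (hua : u a ≠ 0) (hv₀ : ∃ y ∈ Y, v y ≠ 0) (h : Exc t g X Y Z x e) :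
    Lo g Z (X ∪ (Y \ Z)) := by
  have h1 : Lo g Z (X.erase e ∪ (Y \ Z)) := lo_mono (Finset.subset_insert x Z) (Finset.Subset.refl _) (lo_symm hg h.lo)
  have h2 : Lo g Y (insert e (X.erase e)) := by
    rw [Finset.insert_erase he]
    exact lo_symm hg ⟨u, v, uv⟩
  obtain ⟨y, hy, hvy⟩ := hv₀
  have hya : g y a ≠ 0 := by
    rw [hg.inv a y, uv a ha y hy]
    exact inv_ne_zero (mul_ne_zero hua hvy)
  have h3 := lo_ins h2 ⟨y, hy, a, Finset.mem_erase.2 ⟨hea.symm, ha⟩, hya⟩ h.sub Finset.subset_union_left h1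
  refine lo_mono (Finset.Subset.refl _) ?_ h3
  rw [← Finset.insert_union, Finset.insert_erase he]

/-- (4), second part -/
private theorem Fb2_nz (hg : Hm t g) {S X Y Z : Finset V} {x e : V} (hS : S = insert x (X ∪ Y)) (hxX : x ∉ X)
    (hxY : x ∉ Y) (hd : Disjoint X Y) (hO : Ok g S) (h : Exc t g X Y Z x e) : ¬ Lo g Z (insert x (X ∪ (Y \ Z))) := by
  intro hl
  have hZX : ∀ z ∈ Z, z ∉ X := fun z hz hzX => Finset.disjoint_left.1 hd hzX (h.sub hz)
  have hZA : Disjoint Z (X.erase e ∪ (Y \ Z)) := by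
    rw [Finset.disjoint_left]
    intro z hz hzA
    rcases Finset.mem_union.1 hzA with h1 | h1
    · exact hZX z hz (Finset.mem_of_mem_erase h1)
    · exact (Finset.mem_sdiff.1 h1).2 hz
  have hsub : X.erase e ∪ (Y \ Z) ⊆ X ∪ (Y \ Z) := Finset.union_subset_union_left (Finset.erase_subset e X)
  have key : Hv g Z ({x} ∪ (X.erase e ∪ (Y \ Z))) := by
    by_contra hcon
    refine light_union hg (A₁ := Z) (A₂ := {x}) (B := X.erase e ∪ (Y \ Z)) ?_ hZA ?_ ?_ ?_ hcon ?_ ?_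
    · rw [Finset.disjoint_singleton_right]
      exact fun h1 => hxY (h.sub h1)
    · rw [Finset.disjoint_singleton_left, Finset.mem_union]
      rintro (h1 | h1)
      · exact hxX (Finset.mem_of_mem_erase h1)
      · exact hxY (Finset.mem_sdiff.1 h1).1
    · refine lo_mono (Finset.Subset.refl _) ?_ hl
      rw [Finset.insert_eq x]
      exact Finset.union_subset_union_right hsub
    · refine ⟨fun _ => 1, fun y => g x y, fun z hz y _ => ?_⟩
      rw [Finset.mem_singleton.1 hz, one_mul]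
    · intro h1
      have h2 := hv_card hg h1
      rw [Finset.card_singleton] at h2
      omega
    · rw [Finset.union_comm, ← Finset.insert_eq]
      exact h.hv'
  refine Fb2_ok hO (P := Z) (Q := insert x (X ∪ (Y \ Z))) ?_ ?_ hl ?_ ?_
  · rw [hS, Finset.union_insert, Finset.union_left_comm, Finset.union_sdiff_of_subset h.sub]
  · rw [Finset.disjoint_left]
    intro z hz hzQ
    rw [Finset.mem_insert, Finset.mem_union, Finset.mem_sdiff] at hzQ
    rcases hzQ with h1 | h1 | h1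
    · exact hxY (h1 ▸ h.sub hz)
    · exact hZX z hz h1
    · exact h1.2 hz
  · refine hv_mono key (Finset.Subset.refl _) ?_ ⟨x, Finset.mem_insert_self _ _⟩
    rw [Finset.insert_eq x]
    exact (Finset.union_subset_union_right hsub).trans Finset.subset_union_right
  · refine hv_mono h.hv (hsub.trans (Finset.subset_insert x _)) ?_ h.ne
    intro z hz
    rcases Finset.mem_insert.1 hz with h1 | h1
    · rw [h1]
      exact Finset.mem_union_left _ (Finset.mem_insert_self _ _)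
    · exact Finset.mem_union_right _ h1

/-- (5) -/
private theorem Fb2_c0 (hg : Hm t g) {X Y Z Z' : Finset V} {x e a : V} {u v : V → F4} {κ κ' : F4} (ha : a ∈ X)
    (uv : ∀ b ∈ X, ∀ y ∈ Y, g b y = u b * v y) (hua : u a ≠ 0) (T : Fb2_T t g X Y Z x e u v κ)
    (T' : Fb2_T t g X Y Z' x a u v κ') (hκ : κ ≠ κ') (hU : Lo g (Z ∪ Z') (X ∪ (Y \ (Z ∪ Z')))) :
    ∀ b ∈ Y \ (Z ∪ Z'), ∀ z ∈ insert x (Z ∪ Z'), g b z = 0 := by
  obtain ⟨σ, ω, hσ⟩ := lo_symm hg hU
  obtain ⟨z₀, hz₀, hv₀⟩ : ∃ z ∈ Z ∪ Z', v z ≠ 0 := by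
    by_cases h1 : κ = 0
    · have h2 : κ' ≠ 0 := fun h3 => hκ (h1.trans h3.symm)
      obtain ⟨z, hz, hvz⟩ := T'.k2 h2
      exact ⟨z, Finset.mem_union_right _ hz, hvz⟩
    · obtain ⟨z, hz, hvz⟩ := T.k2 h1
      exact ⟨z, Finset.mem_union_left _ hz, hvz⟩
  have hUY : Z ∪ Z' ⊆ Y := Finset.union_subset T.exc.sub T'.exc.sub
  have h0 : ∀ z ∈ Z ∪ Z', σ a * ω z = u a * v z := by
    intro z hz
    rw [← hσ a (Finset.mem_union_left _ ha) z hz, uv a ha z (hUY hz)]
  have hσa : σ a ≠ 0 := by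
    intro h1
    have h2 := h0 z₀ hz₀
    rw [h1, zero_mul] at h2
    exact mul_ne_zero hua hv₀ h2.symm
  intro b hb
  obtain ⟨τ, hτ⟩ : ∃ τ, τ = σ b * (σ a)⁻¹ * u a := ⟨_, rfl⟩
  have h1 : ∀ z ∈ Z ∪ Z', g b z = τ * v z := by
    intro z hz
    rw [hσ b (Finset.mem_union_right _ hb) z hz, hτ, mul_assoc, ← h0 z hz, mul_assoc, ← mul_assoc (σ a)⁻¹,
      inv_mul_cancel₀ hσa, one_mul]
  rw [Finset.mem_sdiff, Finset.mem_union] at hb
  have h2 := T.k1 b (Finset.mem_union_right _ (Finset.mem_sdiff.2 ⟨hb.1, fun h => hb.2 (Or.inl h)⟩)) τ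
    fun z hz => h1 z (Finset.mem_union_left _ hz)
  have h3 := T'.k1 b (Finset.mem_union_right _ (Finset.mem_sdiff.2 ⟨hb.1, fun h => hb.2 (Or.inr h)⟩)) τ
    fun z hz => h1 z (Finset.mem_union_right _ hz)
  have hτ0 : τ = 0 := by
    by_contra hne
    rw [h2] at h3
    exact hκ (mul_right_cancel₀ hne h3)
  intro z hz
  rcases Finset.mem_insert.1 hz with h | h
  · rw [h, h2, hτ0, mul_zero]
  · rw [h1 z h, hτ0, zero_mul]

/-- a side of `S` contained in `Y` is light -/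
private theorem Fb2_light (hg : Hm t g) {S X Y P : Finset V} {x : V} (hS : S = insert x (X ∪ Y)) (hxY : x ∉ Y)
    (hd : Disjoint X Y) (hO : Ok g S) (hvX : Hv g X Y) (hP : P ⊆ Y) (hl : Lo g P (insert x (X ∪ (Y \ P)))) :
    ¬ Hv g P (insert x (X ∪ (Y \ P))) := by
  intro h
  have hne : P.Nonempty := Finset.card_pos.1 (by
    have h1 := hv_card hg h
    omega)
  refine Fb2_ok hO (P := P) (Q := insert x (X ∪ (Y \ P))) ?_ ?_ hl h ?_
  · rw [hS, Finset.union_insert, Finset.union_left_comm, Finset.union_sdiff_of_subset hP]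
  · rw [Finset.disjoint_left]
    intro z hz hzQ
    rw [Finset.mem_insert, Finset.mem_union, Finset.mem_sdiff] at hzQ
    rcases hzQ with h1 | h1 | h1
    · exact hxY (h1 ▸ hP hz)
    · exact Finset.disjoint_left.1 hd h1 (hP hz)
    · exact h1.2 hz
  · refine hv_mono hvX (Finset.subset_union_left.trans (Finset.subset_insert x _)) ?_ hne
    intro z hz
    by_cases h1 : z ∈ P
    · exact Finset.mem_union_right _ h1
    · exact Finset.mem_union_left _ (Finset.mem_insert_of_mem (Finset.mem_union_right _ (Finset.mem_sdiff.2 ⟨hz, h1⟩)))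

/-- (6) -/
private theorem Fb2_fin (hg : Hm t g) {S X Y Z Z' : Finset V} {x e a : V} {u v : V → F4} {κ κ' : F4}
    (hS : S = insert x (X ∪ Y)) (hxX : x ∉ X) (hxY : x ∉ Y) (hd : Disjoint X Y) (hC : Cn g (X ∪ Y)) (hO : Ok g S)
    (uv : ∀ b ∈ X, ∀ y ∈ Y, g b y = u b * v y) (hvX : Hv g X Y) (T : Fb2_T t g X Y Z x e u v κ)
    (T' : Fb2_T t g X Y Z' x a u v κ') (c0 : ∀ b ∈ Y \ (Z ∪ Z'), ∀ z ∈ insert x (Z ∪ Z'), g b z = 0)
    (hcase : Z' \ Z = ∅ ∨ (Z \ Z').Nonempty) : False := by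
  have hYX : ∀ z ∈ Y, z ∉ X := fun z hz hzX => Finset.disjoint_left.1 hd hzX hz
  have hZY := T.exc.sub
  have hZY' := T'.exc.sub
  have hCY : Z' \ Z ⊆ Y := Finset.sdiff_subset.trans hZY'
  have l0 : Lo g (Y \ (Z ∪ Z')) (insert x (X ∪ (Y \ (Y \ (Z ∪ Z'))))) := by
    refine ⟨fun b => (v b)⁻¹, fun y => if y ∈ X then (u y)⁻¹ else 0, fun b hb y hy => ?_⟩
    by_cases hyX : y ∈ X
    · simp only [if_pos hyX]
      rw [hg.inv y b, uv y hyX b (Finset.mem_sdiff.1 hb).1, mul_inv, mul_comm]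
    · simp only [if_neg hyX]
      rw [mul_zero]
      refine c0 b hb y ?_
      rw [Finset.mem_insert, Finset.mem_union, Finset.mem_sdiff, Finset.mem_sdiff] at hy
      rcases hy with h1 | h1 | h1
      · rw [h1]
        exact Finset.mem_insert_self _ _
      · exact absurd h1 hyX
      · refine Finset.mem_insert_of_mem ?_
        by_contra h2
        exact h1.2 ⟨h1.1, h2⟩
  have n0 := Fb2_light hg hS hxY hd hO hvX (Finset.sdiff_subset (s := Y) (t := Z ∪ Z')) l0
  have lC : Lo g (Z' \ Z) (insert x (X ∪ (Y \ (Z' \ Z)))) := by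
    rcases hcase with h | h
    · rw [h]
      exact ⟨fun _ => 0, fun _ => 0, fun b hb => absurd hb (Finset.notMem_empty b)⟩
    · rcases Finset.eq_empty_or_nonempty (Z' \ Z) with h1 | h1
      · rw [h1]
        exact ⟨fun _ => 0, fun _ => 0, fun b hb => absurd hb (Finset.notMem_empty b)⟩
      · have e1 : ∀ W : Finset V, W ⊆ Y → (X ∪ Y) \ W = X ∪ (Y \ W) := by
          intro W hW
          ext z
          simp only [Finset.mem_sdiff, Finset.mem_union]
          constructor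
          · rintro ⟨h2 | h2, h3⟩
            · exact Or.inl h2
            · exact Or.inr ⟨h2, h3⟩
          · rintro (h2 | h2)
            · exact ⟨Or.inl h2, fun h3 => hYX z (hW h3) h2⟩
            · exact ⟨Or.inr h2.1, h2.2⟩
        have h2 := unc_diff hg hC (A := Z') (X := Z) (hZY'.trans Finset.subset_union_right)
          (hZY.trans Finset.subset_union_right) (by rw [e1 Z' hZY']; exact T'.lz) (by rw [e1 Z hZY]; exact T.lz) h1 h
        rw [e1 _ hCY] at h2
        refine lo_ins T.exc.lo T.k3 ?_ ?_ h2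
        · intro z hz
          rw [Finset.mem_sdiff] at hz
          exact Finset.mem_union_right _ (Finset.mem_sdiff.2 ⟨hZY' hz.1, hz.2⟩)
        · intro z hz
          exact Finset.mem_union_right _ (Finset.mem_sdiff.2 ⟨hZY hz, fun h3 => (Finset.mem_sdiff.1 h3).2 hz⟩)
  have nC := Fb2_light hg hS hxY hd hO hvX hCY lC
  have mC0 : ∀ z, z ∈ Y \ (Z ∪ Z') ↔ z ∈ Y ∧ z ∉ Z ∧ z ∉ Z' := by
    intro z
    rw [Finset.mem_sdiff, Finset.mem_union, not_or]
  have hXe : ∀ z, z ∈ X.erase e → z ∈ X := fun z hz => Finset.mem_of_mem_erase hz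
  have n1 : ¬ Hv g (X.erase e ∪ (Y \ (Z ∪ Z'))) ((Z' \ Z) ∪ insert x Z) := by
    refine light_union hg ?_ ?_ ?_ ?_ ?_ ?_ ?_
    · rw [Finset.disjoint_left]
      intro z h1 h2
      exact hYX z ((mC0 z).1 h2).1 (hXe z h1)
    · rw [Finset.disjoint_left]
      intro z h1 h2
      rw [Finset.mem_union, Finset.mem_insert] at h2
      rcases h2 with h2 | h2 | h2
      · exact hYX z (hCY h2) (hXe z h1)
      · exact hxX (h2 ▸ hXe z h1)
      · exact hYX z (hZY h2) (hXe z h1)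
    · rw [Finset.disjoint_left]
      intro z h1 h2
      rw [mC0] at h1
      rw [Finset.mem_union, Finset.mem_insert, Finset.mem_sdiff] at h2
      rcases h2 with h2 | h2 | h2
      · exact h1.2.2 h2.1
      · exact hxY (h2 ▸ h1.1)
      · exact h1.2.1 h2
    · refine lo_mono (Finset.Subset.refl _) ?_ T.lx
      intro z hz
      rw [Finset.mem_union, Finset.mem_union, Finset.mem_insert] at hz
      rcases hz with h2 | h2 | h2 | h2
      · exact Finset.mem_insert_of_mem ((mC0 z).1 h2).1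
      · exact Finset.mem_insert_of_mem (hCY h2)
      · rw [h2]
        exact Finset.mem_insert_self _ _
      · exact Finset.mem_insert_of_mem (hZY h2)
    · refine lo_mono (Finset.Subset.refl _) ?_ l0
      intro z hz
      rw [Finset.mem_union, Finset.mem_union, Finset.mem_insert, Finset.mem_sdiff] at hz
      rw [Finset.mem_insert, Finset.mem_union, Finset.mem_sdiff, mC0]
      rcases hz with h2 | h2 | h2 | h2
      · exact Or.inr (Or.inl (hXe z h2))
      · exact Or.inr (Or.inr ⟨hZY' h2.1, fun h3 => h3.2.2 h2.1⟩)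
      · exact Or.inl h2
      · exact Or.inr (Or.inr ⟨hZY h2, fun h3 => h3.2.1 h2⟩)
    · intro h1
      refine T.nh (hv_mono h1 (Finset.Subset.refl _) ?_ ⟨x, Finset.mem_insert_self _ _⟩)
      intro z hz
      rw [Finset.mem_union, Finset.mem_union, Finset.mem_insert] at hz
      refine Finset.mem_union_right _ ?_
      rcases hz with h2 | h2 | h2 | h2
      · exact Finset.mem_insert_of_mem ((mC0 z).1 h2).1
      · exact Finset.mem_insert_of_mem (hCY h2)
      · rw [h2]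
        exact Finset.mem_insert_self _ _
      · exact Finset.mem_insert_of_mem (hZY h2)
    · intro h1
      refine n0 (hv_mono h1 (Finset.Subset.refl _) ?_ ⟨x, Finset.mem_insert_self _ _⟩)
      intro z hz
      rw [Finset.mem_union, Finset.mem_union, Finset.mem_insert, Finset.mem_sdiff] at hz
      refine Finset.mem_union_right _ ?_
      rw [Finset.mem_insert, Finset.mem_union, Finset.mem_sdiff, mC0]
      rcases hz with h2 | h2 | h2 | h2
      · exact Or.inr (Or.inl (hXe z h2))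
      · exact Or.inr (Or.inr ⟨hZY' h2.1, fun h3 => h3.2.2 h2.1⟩)
      · exact Or.inl h2
      · exact Or.inr (Or.inr ⟨hZY h2, fun h3 => h3.2.1 h2⟩)
  have l1 : Lo g (X.erase e ∪ (Y \ (Z ∪ Z'))) ((Z' \ Z) ∪ insert x Z) := by
    obtain ⟨p, q, hpq⟩ := T.lx
    refine ⟨fun b => if b ∈ X then p b else 0, q, fun b hb y hy => ?_⟩
    have hyY : y ∈ insert x Y := by
      rw [Finset.mem_union, Finset.mem_insert] at hy
      rcases hy with h2 | h2 | h2
      · exact Finset.mem_insert_of_mem (hCY h2)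
      · rw [h2]
        exact Finset.mem_insert_self _ _
      · exact Finset.mem_insert_of_mem (hZY h2)
    rcases Finset.mem_union.1 hb with h1 | h1
    · simp only [if_pos (hXe b h1)]
      exact hpq b h1 y hyY
    · simp only [if_neg (hYX b ((mC0 b).1 h1).1)]
      rw [zero_mul]
      refine c0 b h1 y ?_
      rw [Finset.mem_union, Finset.mem_insert, Finset.mem_sdiff] at hy
      rw [Finset.mem_insert, Finset.mem_union]
      rcases hy with h2 | h2 | h2
      · exact Or.inr (Or.inr h2.1)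
      · exact Or.inl h2
      · exact Or.inr (Or.inl h2)
  have hsub : ∀ z ∈ (X.erase e ∪ (Y \ (Z ∪ Z'))) ∪ insert x Z, z ∈ insert x (X ∪ (Y \ (Z' \ Z))) := by
    intro z hz
    rw [Finset.mem_union, Finset.mem_union, Finset.mem_insert, mC0] at hz
    rw [Finset.mem_insert, Finset.mem_union, Finset.mem_sdiff, Finset.mem_sdiff]
    rcases hz with (h2 | h2) | h2 | h2
    · exact Or.inr (Or.inl (hXe z h2))
    · exact Or.inr (Or.inr ⟨h2.1, fun h3 => h2.2.2 h3.1⟩)
    · exact Or.inl h2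
    · exact Or.inr (Or.inr ⟨hZY h2, fun h3 => h3.2 h2⟩)
  have n2 : ¬ Hv g ((X.erase e ∪ (Y \ (Z ∪ Z'))) ∪ (Z' \ Z)) (insert x Z) := by
    refine light_union hg ?_ ?_ ?_ l1 ?_ n1 ?_
    · rw [Finset.disjoint_left]
      intro z h1 h2
      rw [Finset.mem_union, mC0] at h1
      rcases h1 with h1 | h1
      · exact hYX z (hCY h2) (hXe z h1)
      · exact h1.2.2 (Finset.mem_sdiff.1 h2).1
    · rw [Finset.disjoint_left]
      intro z h1 h2
      rw [Finset.mem_union, mC0] at h1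
      rw [Finset.mem_insert] at h2
      rcases h1 with h1 | h1
      · rcases h2 with h2 | h2
        · exact hxX (h2 ▸ hXe z h1)
        · exact hYX z (hZY h2) (hXe z h1)
      · rcases h2 with h2 | h2
        · exact hxY (h2 ▸ h1.1)
        · exact h1.2.1 h2
    · rw [Finset.disjoint_left]
      intro z h1 h2
      rw [Finset.mem_sdiff] at h1
      rcases Finset.mem_insert.1 h2 with h2 | h2
      · exact hxY (h2 ▸ hZY' h1.1)
      · exact h1.2 h2
    · exact lo_mono (Finset.Subset.refl _) hsub lC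
    · intro h1
      exact nC (hv_mono h1 (Finset.Subset.refl _) (fun z hz => Finset.mem_union_right _ (hsub z hz))
        ⟨x, Finset.mem_insert_self _ _⟩)
  refine n2 (hv_mono T.exc.hv ?_ Finset.subset_union_right ⟨x, Finset.mem_insert_self _ _⟩)
  intro z hz
  rw [Finset.mem_union, Finset.mem_sdiff] at hz
  rw [Finset.mem_union, Finset.mem_union, mC0, Finset.mem_sdiff]
  rcases hz with h1 | h1
  · exact Or.inl (Or.inl h1)
  · by_cases h2 : z ∈ Z'
    · exact Or.inr ⟨h2, h1.2⟩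
    · exact Or.inl (Or.inr ⟨h1.1, h1.2, h2⟩)

private theorem Fb2_main (hg : Hm t g) {S X Y Z Z' : Finset V} {x e a : V} (hS : S = insert x (X ∪ Y)) (hxX : x ∉ X)
    (hxY : x ∉ Y) (hd : Disjoint X Y) (hC : Cn g (X ∪ Y)) (hO : Ok g S) (hl : Lo g X Y) (hvX : Hv g X Y) (hvY : Hv g Y X)
    (he : e ∈ X) (ha : a ∈ X) (hea : e ≠ a) (hCe : Cn g (X.erase e ∪ Y)) (hCa : Cn g (X.erase a ∪ Y))
    (hme : ∀ A ⊆ X.erase e, Lo g A (S.erase e \ A) → Hv g A (S.erase e \ A) → ¬ Hv g (S.erase e \ A) A)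
    (hma : ∀ A ⊆ X.erase a, Lo g A (S.erase a \ A) → Hv g A (S.erase a \ A) → ¬ Hv g (S.erase a \ A) A)
    (h : Exc t g X Y Z x e) (h' : Exc t g X Y Z' x a) : False := by
  obtain ⟨u, v, uv⟩ := hl
  obtain ⟨κ, k1, k2, k3⟩ := Fb2_kap v hd hCe h
  obtain ⟨κ', k1', k2', k3'⟩ := Fb2_kap v hd hCa h'
  have ku := Fb2_ku h.sub uv k1
  have ku' := Fb2_ku h'.sub uv k1'
  have hYne : Y.Nonempty := h.ne.mono h.sub
  have hκ : κ ≠ κ' := by
    intro hk
    have h1 : ∀ b ∈ X, g b x = κ * u b := by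
      intro b hb
      by_cases hbe : b = e
      · rw [hk]
        exact ku' b (Finset.mem_erase.2 ⟨fun h2 => hea (hbe ▸ h2), hb⟩)
      · exact ku b (Finset.mem_erase.2 ⟨hbe, hb⟩)
    refine Fb2_ok hO (P := X) (Q := insert x Y) ?_ ?_ ⟨u, Function.update v x κ, fun b hb y hy => ?_⟩ ?_ ?_
    · rw [hS, Finset.union_insert]
    · exact Finset.disjoint_insert_right.2 ⟨hxX, hd⟩
    · rcases Finset.mem_insert.1 hy with h2 | h2
      · rw [h2, Function.update_self, h1 b hb, mul_comm]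
      · have h3 : y ≠ x := fun h4 => hxY (h4 ▸ h2)
        rw [Function.update_of_ne h3]
        exact uv b hb y h2
    · exact hv_mono hvX (Finset.Subset.refl _) ((Finset.subset_insert x Y).trans Finset.subset_union_right)
        ⟨x, Finset.mem_insert_self _ _⟩
    · exact hv_mono hvY (Finset.subset_insert x Y) Finset.subset_union_right ⟨e, he⟩
  have hu0 : ∀ b ∈ X, b ≠ e → b ≠ a → u b = 0 := by
    intro b hb h1 h2
    by_contra h3
    have h4 := ku b (Finset.mem_erase.2 ⟨h1, hb⟩)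
    rw [ku' b (Finset.mem_erase.2 ⟨h2, hb⟩)] at h4
    exact hκ (mul_right_cancel₀ h3 h4).symm
  have conn : ∀ c d : V, c ∈ X → d ∈ X → c ≠ d → Cn g (X.erase c ∪ Y) → (∀ b ∈ X, b ≠ c → b ≠ d → u b = 0) →
      u d ≠ 0 ∧ ∃ y ∈ Y, v y ≠ 0 := by
    intro c d hc hdX hcd hCc h0
    obtain ⟨b, hb, y, hy, hne⟩ := hCc (X.erase c) Finset.subset_union_left ⟨d, Finset.mem_erase.2 ⟨hcd.symm, hdX⟩⟩ (by
      obtain ⟨y, hy⟩ := hYne
      refine ⟨y, Finset.mem_sdiff.2 ⟨Finset.mem_union_right _ hy, fun h2 => ?_⟩⟩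
      exact Finset.disjoint_left.1 hd (Finset.mem_of_mem_erase h2) hy)
    have hyY : y ∈ Y := by
      rw [Finset.mem_sdiff, Finset.mem_union] at hy
      rcases hy.1 with h2 | h2
      · exact absurd h2 hy.2
      · exact h2
    have hb' := Finset.mem_erase.1 hb
    rw [uv b hb'.2 y hyY] at hne
    have hub : u b ≠ 0 := left_ne_zero_of_mul hne
    have hbd : b = d := by
      by_contra h3
      exact hub (h0 b hb'.2 hb'.1 h3)
    rw [hbd] at hub
    exact ⟨hub, y, hyY, right_ne_zero_of_mul hne⟩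
  obtain ⟨hua, hv₀⟩ := conn e a he ha hea hCe hu0
  obtain ⟨hue, -⟩ := conn a e ha he hea.symm hCa fun b hb h1 h2 => hu0 b hb h2 h1
  have lx := Fb2_lx hxY uv ku
  have lx' := Fb2_lx hxY uv ku'
  have T : Fb2_T t g X Y Z x e u v κ := ⟨h, k1, k2, k3, lx,
    Fb2_nh hg hS hxX hxY hd hC he ha hea uv hua hvY hv₀ hme lx, Fb2_lz hg he ha hea uv hua hv₀ h,
    Fb2_nz hg hS hxX hxY hd hO h⟩
  have T' : Fb2_T t g X Y Z' x a u v κ' := ⟨h', k1', k2', k3', lx',
    Fb2_nh hg hS hxX hxY hd hC ha he hea.symm uv hue hvY hv₀ hma lx', Fb2_lz hg ha he hea.symm uv hue hv₀ h',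
    Fb2_nz hg hS hxX hxY hd hO h'⟩
  have e1 : ∀ W : Finset V, W ⊆ Y → (X ∪ Y) \ W = X ∪ (Y \ W) := by
    intro W hW
    ext z
    simp only [Finset.mem_sdiff, Finset.mem_union]
    constructor
    · rintro ⟨h2 | h2, h3⟩
      · exact Or.inl h2
      · exact Or.inr ⟨h2, h3⟩
    · rintro (h2 | h2)
      · exact ⟨Or.inl h2, fun h3 => Finset.disjoint_left.1 hd h2 (hW h3)⟩
      · exact ⟨Or.inr h2.1, h2.2⟩
  have hint : (Z ∩ Z').Nonempty := by
    by_contra hcon
    rw [Finset.not_nonempty_iff_eq_empty] at hcon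
    have hdis : ∀ z, z ∈ Z → z ∉ Z' := by
      intro z h1 h2
      have h3 : z ∈ Z ∩ Z' := Finset.mem_inter.2 ⟨h1, h2⟩
      rw [hcon] at h3
      exact Finset.notMem_empty z h3
    refine T.nz (lo_ins h'.lo k3' ?_ ?_ T.lz)
    · intro z hz
      exact Finset.mem_union_right _ (Finset.mem_sdiff.2 ⟨h.sub hz, hdis z hz⟩)
    · intro z hz
      exact Finset.mem_union_right _ (Finset.mem_sdiff.2 ⟨h'.sub hz, fun h1 => hdis z h1 hz⟩)
  have hUY : Z ∪ Z' ⊆ Y := Finset.union_subset h.sub h'.sub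
  have hU : Lo g (Z ∪ Z') (X ∪ (Y \ (Z ∪ Z'))) := by
    have h1 := (unc hC (A := Z) (X := Z') (h.sub.trans Finset.subset_union_right) (h'.sub.trans Finset.subset_union_right)
      (by rw [e1 Z h.sub]; exact T.lz) (by rw [e1 Z' h'.sub]; exact T'.lz) hint
      (by rw [e1 _ hUY]; exact ⟨e, Finset.mem_union_left _ he⟩)).2
    rw [e1 _ hUY] at h1
    exact h1
  have c0 := Fb2_c0 hg ha uv hua T T' hκ hU
  by_cases hc : Z' \ Z = ∅ ∨ (Z \ Z').Nonempty
  · exact Fb2_fin hg hS hxX hxY hd hC hO uv hvX T T' c0 hc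
  · rw [not_or, Finset.not_nonempty_iff_eq_empty] at hc
    rw [Finset.union_comm Z Z'] at c0
    exact Fb2_fin hg hS hxX hxY hd hC hO uv hvX T' T c0 (Or.inl hc.2)

theorem fb_two (hg : Hm t g) {S X : Finset V} {x e a : V} (hC : Cn g S) (hO : Ok g S) (hx : x ∈ S) (hX : X ⊆ S.erase x)
    (hCx : Cn g (S.erase x))
    (hl : Lo g X (S.erase x \ X)) (hvX : Hv g X (S.erase x \ X)) (hvY : Hv g (S.erase x \ X) X) (he : e ∈ X) (ha : a ∈ X) (hea : e ≠ a)
    (hCe : Cn g ((S.erase x).erase e)) (hCa : Cn g ((S.erase x).erase a))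
    (hme : ∀ A ⊆ X.erase e, Lo g A (S.erase e \ A) → Hv g A (S.erase e \ A) → ¬ Hv g (S.erase e \ A) A)
    (hma : ∀ A ⊆ X.erase a, Lo g A (S.erase a \ A) → Hv g A (S.erase a \ A) → ¬ Hv g (S.erase a \ A) A)
    {Z Z' : Finset V} (h : Exc t g X (S.erase x \ X) Z x e) (h' : Exc t g X (S.erase x \ X) Z' x a) : False := by
  have eR : X ∪ (S.erase x \ X) = S.erase x := Finset.union_sdiff_of_subset hX
  have hxX : x ∉ X := fun h => (Finset.mem_erase.1 (hX h)).1 rfl
  have e2 : ∀ c ∈ X, (S.erase x).erase c = X.erase c ∪ (S.erase x \ X) := by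
    intro c hc
    ext z
    simp only [Finset.mem_erase, Finset.mem_union, Finset.mem_sdiff]
    constructor
    · rintro ⟨h1, h2, h3⟩
      by_cases hz : z ∈ X
      · exact Or.inl ⟨h1, hz⟩
      · exact Or.inr ⟨⟨h2, h3⟩, hz⟩
    · rintro (⟨h1, h2⟩ | ⟨⟨h1, h2⟩, h3⟩)
      · have h4 := Finset.mem_erase.1 (hX h2)
        exact ⟨h1, h4.1, h4.2⟩
      · exact ⟨fun h => h3 (h ▸ hc), h1, h2⟩
  refine Fb2_main hg (S := S) (X := X) (Y := S.erase x \ X) ?_ hxX ?_ Finset.disjoint_sdiff ?_ hO hl hvX hvY he ha hea ?_ ?_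
    hme hma h h'
  · rw [eR, Finset.insert_erase hx]
  · exact fun h => (Finset.mem_erase.1 (Finset.mem_sdiff.1 h).1).1 rfl
  · rw [eR]
    exact hCx
  · rw [← e2 e he]
    exact hCe
  · rw [← e2 a ha]
    exact hCa

end Pool.Agent.QUA
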