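import Pool.Agent.QUA.Fb2
import Pool.Agent.QUA.Cc1

/-!
# QUA/Fb3: an element can be removed from a connected `Ok` set

`Bal g S`: `ex_noncut` (choose any `b ∈ S` if `p ∉ S`) and `ok_bal`. `¬ Bal g S`: suppose that no element `x ≠ p` is removable. Among all `(x, X)` with `x ∈ S`, `x ≠ p`, `Cn g (S.erase x)`,
`X ⊆ S.erase x`, `p ∉ X`, `Lo g X ((S.erase x) \ X)`, both sides nonbinary, choose one with `X.card` minimal (there is one: `ex_noncut`, `¬ Ok g (S.erase x)`, name the sides so that `p ∉ X`; use `lo_symm`).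
`lo_cl` gives `Cl g (S.erase x) X i j`; `insert j X` is connected (`side_cn`) and not balanced (`hv_rep`); `two_noncut` with `b = j` gives `e ≠ a` in `X`; `(S.erase x).erase e` is connected
(`cn_split_erase`, note `(insert j X).erase e = insert j (X.erase e)`). `x` has a neighbour in `S` different from `e` (otherwise `ok_pend`, or `x` has no neighbour), so `S.erase e` is connected (`cn_insert`).
By assumption `¬ Ok g (S.erase e)`, so `fb_one` gives `Exc` for `e`, and for `a`; `fb_two`.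
-/

set_option autoImplicit false

noncomputable section

namespace Pool.Agent.QUA

open Pool.Agent.FRM

variable {V : Type} [DecidableEq V] {t : V → Bool} {g : V → V → F4}

/-- a separation of `S.erase x` with two nonbinary sides, `p` is not in the side `X` -/
private structure fb3_Pr (g : V → V → F4) (S : Finset V) (p x : V) (X : Finset V) : Prop where
  hx : x ∈ S
  hxp : x ≠ p
  cn : Cn g (S.erase x)
  sub : X ⊆ S.erase x
  hp : p ∉ X
  lo : Lo g X (S.erase x \ X)
  hv : Hv g X (S.erase x \ X)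
  hv' : Hv g (S.erase x \ X) X

private theorem fb3_min {S : Finset V} {p x : V} {X : Finset V} (h : fb3_Pr g S p x X) :
    ∃ x X, fb3_Pr g S p x X ∧ ∀ x' X', fb3_Pr g S p x' X' → X.card ≤ X'.card := by
  classical
  have hex : ∃ n, ∃ x X, fb3_Pr g S p x X ∧ X.card = n := ⟨_, x, X, h, rfl⟩
  obtain ⟨x₀, X₀, h₀, hc⟩ := Nat.find_spec hex
  refine ⟨x₀, X₀, h₀, fun x' X' h' => ?_⟩
  rw [hc]
  exact Nat.find_min' hex ⟨x', X', h', rfl⟩

private theorem fb3_exists (hg : Hm t g) {S : Finset V} {p x : V} (hx : x ∈ S) (hxp : x ≠ p) (hC : Cn g (S.erase x))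
    (hO : ¬ Ok g (S.erase x)) : ∃ X, fb3_Pr g S p x X := by
  unfold Ok at hO
  push Not at hO
  obtain ⟨A, hA, hl, hv, hv'⟩ := hO
  by_cases hp : p ∈ A
  · refine ⟨S.erase x \ A, hx, hxp, hC, Finset.sdiff_subset, ?_, ?_, ?_, ?_⟩
    · intro h
      exact (Finset.mem_sdiff.1 h).2 hp
    · rw [Finset.sdiff_sdiff_eq_self hA]
      exact lo_symm hg hl
    · rw [Finset.sdiff_sdiff_eq_self hA]
      exact hv'
    · rw [Finset.sdiff_sdiff_eq_self hA]
      exact hv
  · exact ⟨A, hx, hxp, hC, hA, hp, hl, hv, hv'⟩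

/-- everything about one non-cut element `e` of the side -/
private theorem fb3_one (hg : Hm t g) {S : Finset V} (hC : Cn g S) (hO : Ok g S) {p x : V} {X : Finset V}
    (hno : ∀ x ∈ S, x ≠ p → Cn g (S.erase x) → ¬ Ok g (S.erase x)) (h : fb3_Pr g S p x X)
    (hmin : ∀ x' X', fb3_Pr g S p x' X' → X.card ≤ X'.card) {i j e : V} (hcl : Cl g (S.erase x) X i j) (he : e ∈ X) (hej : e ≠ j)
    (hQ : Cn g ((insert j X).erase e)) :
    Cn g ((S.erase x).erase e) ∧ (∀ A ⊆ X.erase e, Lo g A (S.erase e \ A) → Hv g A (S.erase e \ A) → ¬ Hv g (S.erase e \ A) A) ∧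
      ∃ Z, Exc t g X (S.erase x \ X) Z x e := by
  have hcard : 3 ≤ X.card := hv_card hg h.hv
  have hne : (X.erase e).Nonempty := by
    rw [← Finset.card_pos, Finset.card_erase_of_mem he]
    omega
  have hQ' : Cn g (insert j (X.erase e)) := by
    rw [Finset.erase_insert_of_ne (Ne.symm hej)] at hQ
    exact hQ
  have hCe : Cn g ((S.erase x).erase e) := cn_split_erase hg h.cn hcl he hne hQ'
  have heS' : e ∈ S.erase x := h.sub he
  have hex : e ≠ x := (Finset.mem_erase.1 heS').1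
  have heS : e ∈ S := (Finset.mem_erase.1 heS').2
  have hep : e ≠ p := fun hh => h.hp (hh ▸ he)
  have hnb : ∃ y ∈ (S.erase x).erase e, g x y ≠ 0 := by
    by_contra hcon
    push Not at hcon
    refine hno x h.hx h.hxp h.cn (ok_pend hg hO h.hx (Ne.symm hex) fun y hy hye => ?_)
    by_cases hyx : y = x
    · subst hyx
      exact hg.bip _ _ rfl
    · exact hcon y (Finset.mem_erase.2 ⟨hye, Finset.mem_erase.2 ⟨hyx, hy⟩⟩)
  have hCe' : Cn g (S.erase e) := by
    have h1 := cn_insert hg hCe hnb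
    have h2 : insert x ((S.erase x).erase e) = S.erase e := by
      ext y
      simp only [Finset.mem_insert, Finset.mem_erase]
      constructor
      · rintro (rfl | ⟨h1, h2, h3⟩)
        · exact ⟨Ne.symm hex, h.hx⟩
        · exact ⟨h1, h3⟩
      · rintro ⟨h1, h3⟩
        by_cases hyx : y = x
        · exact Or.inl hyx
        · exact Or.inr ⟨h1, hyx, h3⟩
    rw [h2] at h1
    exact h1
  have hm : ∀ A ⊆ X.erase e, Lo g A (S.erase e \ A) → Hv g A (S.erase e \ A) → ¬ Hv g (S.erase e \ A) A := by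
    intro A hA hl hv hv'
    have hAX : A ⊆ X := hA.trans (Finset.erase_subset _ _)
    have hP : fb3_Pr g S p e A := by
      refine ⟨heS, hep, hCe', fun y hy => ?_, fun hp => h.hp (hAX hp), hl, hv, hv'⟩
      exact Finset.mem_erase.2 ⟨(Finset.mem_erase.1 (hA hy)).1, (Finset.mem_erase.1 (h.sub (hAX hy))).2⟩
    have h1 := hmin e A hP
    have h2 := Finset.card_le_card hA
    rw [Finset.card_erase_of_mem he] at h2
    omega
  refine ⟨hCe, hm, ?_⟩
  rcases fb_one hg hC hO h.hx h.sub h.lo h.hv h.hv' he hCe hm with h1 | h1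
  · exact absurd h1 (hno e heS hep hCe')
  · exact h1

theorem fbx (hg : Hm t g) {S : Finset V} (hC : Cn g S) (hO : Ok g S) (h2 : 2 ≤ S.card) (p : V) :
    ∃ x ∈ S, x ≠ p ∧ Cn g (S.erase x) ∧ Ok g (S.erase x) := by
  have hnc : ∃ x ∈ S, x ≠ p ∧ Cn g (S.erase x) := by
    by_cases hp : p ∈ S
    · exact ex_noncut hg hC hp h2
    · have hne : S.Nonempty := by
        rw [← Finset.card_pos]
        omega
      obtain ⟨b, hb⟩ := hne
      obtain ⟨x, hx, -, hCx⟩ := ex_noncut hg hC hb h2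
      exact ⟨x, hx, fun hh => hp (hh ▸ hx), hCx⟩
  obtain ⟨x₀, hx₀, hxp₀, hCx₀⟩ := hnc
  by_contra hcon
  push Not at hcon
  obtain ⟨X₀, hX₀⟩ := fb3_exists hg hx₀ hxp₀ hCx₀ (hcon x₀ hx₀ hxp₀ hCx₀)
  obtain ⟨x, X, h, hmin⟩ := fb3_min hX₀
  have hcX : 3 ≤ X.card := hv_card hg h.hv
  have hcY : 3 ≤ (S.erase x \ X).card := hv_card hg h.hv'
  obtain ⟨i, j, hcl⟩ := lo_cl h.cn h.sub h.lo (Finset.card_pos.1 (by omega)) (Finset.card_pos.1 (by omega))
  obtain ⟨e, he, a, ha, hea, hej, haj, hQe, hQa⟩ :=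
    two_noncut hg (side_cn hg h.cn hcl) (Finset.mem_insert_self j X) (hv_rep hg hcl h.hv)
  have he' : e ∈ X := Finset.mem_of_mem_insert_of_ne he hej
  have ha' : a ∈ X := Finset.mem_of_mem_insert_of_ne ha haj
  obtain ⟨hCe, hme, Z, hZ⟩ := fb3_one hg hC hO hcon h hmin hcl he' hej hQe
  obtain ⟨hCa, hma, Z', hZ'⟩ := fb3_one hg hC hO hcon h hmin hcl ha' haj hQa
  exact fb_two hg hC hO h.hx h.sub h.cn h.lo h.hv h.hv' he' ha' hea hCe hCa hme hma hZ hZ'

end Pool.Agent.QUA
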