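import Pool.Agent.QUA.P1

/-!
# QUA/Tr: existence and uniqueness for the subsets of a finite set of natural numbers

From the theorems of layer E for finite types: the type `{x // x ∈ S'}` for `S' ⊆ S`; lifts are extended by zero, gauge transformations by one.
-/

set_option autoImplicit false

noncomputable section

namespace Pool.Agent.QUA

open Pool.Agent.FRM

/-- (EX) -/
def EX : Prop := ∀ (E : Type) [Fintype E] [DecidableEq E] (t : E → Bool) (g : E → E → F4), Hm t g → U2G t g Finset.univ →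
  ∃ H, Val t g H Finset.univ

/-- (UN) -/
def UN : Prop := ∀ (E : Type) [Fintype E] [DecidableEq E] (t : E → Bool) (g : E → E → F4), Hm t g → U2G t g Finset.univ →
  Cn g Finset.univ → Ok g Finset.univ → ∀ H H', Val t g H Finset.univ → Val t g H' Finset.univ → Eqv H H' Finset.univ

private theorem Tr_one : HU (1 : Hq) := by
  refine ⟨map_one _, Or.inl ⟨1, 0, 0, 0, ?_⟩⟩
  ext <;> simp <;> rfl

private theorem Tr_hm {t : ℕ → Bool} {g : ℕ → ℕ → F4} {S : Finset ℕ} (hg : Hm t g) :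
    Hm (fun x : {x // x ∈ S} => t x.1) (fun x y : {x // x ∈ S} => g x.1 y.1) :=
  ⟨fun x y => hg.inv x.1 y.1, fun x y h => hg.bip x.1 y.1 h⟩

private theorem Tr_u {t : ℕ → Bool} {g : ℕ → ℕ → F4} {S S' : Finset ℕ} (hS : S' ⊆ S) (hU : U2G t g S) :
    U2G (fun x : {x // x ∈ S'} => t x.1) (fun x y : {x // x ∈ S'} => g x.1 y.1) Finset.univ := by
  obtain ⟨A, h1, h2⟩ := hU
  refine ⟨fun x y => A x.1 y.1, ?_, ?_⟩
  · intro k f h hRC
    exact h1 k (fun a => (f a).1) (fun b => (h b).1)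
      ⟨fun a => ⟨hS (f a).2, (hRC.1 a).2⟩, fun b => ⟨hS (h b).2, (hRC.2 b).2⟩⟩
  · intro x _ y _ hx hy
    exact h2 x.1 (hS x.2) y.1 (hS y.2) hx hy

private theorem Tr_res {t : ℕ → Bool} {g : ℕ → ℕ → F4} {S : Finset ℕ} {H : ℕ → ℕ → Hq} (h : Val t g H S) :
    Val (fun x : {x // x ∈ S} => t x.1) (fun x y : {x // x ∈ S} => g x.1 y.1) (fun x y : {x // x ∈ S} => H x.1 y.1)
      Finset.univ := by
  refine ⟨fun x y => h.sym x.1 y.1, fun x _ y _ => h.zr x.1 x.2 y.1 y.2, fun x _ y _ => h.un x.1 x.2 y.1 y.2, ?_⟩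
  intro k f l hRC
  exact h.dt k (fun a => (f a).1) (fun b => (l b).1)
    ⟨fun a => ⟨(f a).2, (hRC.1 a).2⟩, fun b => ⟨(l b).2, (hRC.2 b).2⟩⟩

/-- extension by zero -/
private def Tr_ex (S : Finset ℕ) (H : {x // x ∈ S} → {x // x ∈ S} → Hq) (x y : ℕ) : Hq :=
  if h : x ∈ S ∧ y ∈ S then H ⟨x, h.1⟩ ⟨y, h.2⟩ else 0

private theorem Tr_exv {S : Finset ℕ} (H : {x // x ∈ S} → {x // x ∈ S} → Hq) {x y : ℕ} (hx : x ∈ S) (hy : y ∈ S) :
    Tr_ex S H x y = H ⟨x, hx⟩ ⟨y, hy⟩ := by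
  unfold Tr_ex
  rw [dif_pos ⟨hx, hy⟩]

private theorem Tr_ext {t : ℕ → Bool} {g : ℕ → ℕ → F4} {S : Finset ℕ} {H : {x // x ∈ S} → {x // x ∈ S} → Hq}
    (h : Val (fun x : {x // x ∈ S} => t x.1) (fun x y : {x // x ∈ S} => g x.1 y.1) H Finset.univ) :
    Val t g (Tr_ex S H) S := by
  refine ⟨?_, ?_, ?_, ?_⟩
  · intro x y
    by_cases hx : x ∈ S
    · by_cases hy : y ∈ S
      · rw [Tr_exv H hx hy, Tr_exv H hy hx]
        exact h.sym _ _
      · unfold Tr_ex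
        rw [dif_neg fun h1 => hy h1.1, dif_neg fun h1 => hy h1.2, star_zero]
    · unfold Tr_ex
      rw [dif_neg fun h1 => hx h1.2, dif_neg fun h1 => hx h1.1, star_zero]
  · intro x hx y hy h0
    rw [Tr_exv H hx hy]
    exact h.zr ⟨x, hx⟩ (Finset.mem_univ _) ⟨y, hy⟩ (Finset.mem_univ _) h0
  · intro x hx y hy h1 h2 h3
    rw [Tr_exv H hx hy]
    exact h.un ⟨x, hx⟩ (Finset.mem_univ _) ⟨y, hy⟩ (Finset.mem_univ _) h1 h2 h3
  · intro k f l hRC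
    have h1 := h.dt k (fun a => ⟨f a, (hRC.1 a).1⟩) (fun b => ⟨l b, (hRC.2 b).1⟩)
      ⟨fun a => ⟨Finset.mem_univ _, (hRC.1 a).2⟩, fun b => ⟨Finset.mem_univ _, (hRC.2 b).2⟩⟩
    have h2 : sm (Tr_ex S H) f l = sm H (fun a => ⟨f a, (hRC.1 a).1⟩) (fun b => ⟨l b, (hRC.2 b).1⟩) := by
      ext1 a b
      exact Tr_exv H (hRC.1 a).1 (hRC.2 b).1
    rw [h2]
    exact h1

private theorem Tr_mem {S : Finset ℕ} {A : Finset {x // x ∈ S}} {x : ℕ} :
    x ∈ A.map (Function.Embedding.subtype _) ↔ ∃ h : x ∈ S, (⟨x, h⟩ : {x // x ∈ S}) ∈ A := by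
  constructor
  · intro h
    obtain ⟨y, hy, rfl⟩ := Finset.mem_map.1 h
    exact ⟨y.2, hy⟩
  · rintro ⟨h, h1⟩
    exact Finset.mem_map.2 ⟨_, h1, rfl⟩

private theorem Tr_sd {S : Finset ℕ} (A : Finset {x // x ∈ S}) :
    S \ A.map (Function.Embedding.subtype _) = (Finset.univ \ A).map (Function.Embedding.subtype _) := by
  ext x
  rw [Finset.mem_sdiff, Tr_mem, Tr_mem]
  constructor
  · rintro ⟨h1, h2⟩
    exact ⟨h1, Finset.mem_sdiff.2 ⟨Finset.mem_univ _, fun h3 => h2 ⟨h1, h3⟩⟩⟩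
  · rintro ⟨h1, h2⟩
    exact ⟨h1, fun ⟨h3, h4⟩ => (Finset.mem_sdiff.1 h2).2 h4⟩

private theorem Tr_sub {S : Finset ℕ} (A : Finset {x // x ∈ S}) : A.map (Function.Embedding.subtype _) ⊆ S := by
  intro x hx
  exact (Tr_mem.1 hx).1

private theorem Tr_cn {g : ℕ → ℕ → F4} {S : Finset ℕ} (hC : Cn g S) :
    Cn (fun x y : {x // x ∈ S} => g x.1 y.1) Finset.univ := by
  intro A _ h1 h2
  obtain ⟨x, hx, y, hy, hxy⟩ := hC (A.map (Function.Embedding.subtype _)) (Tr_sub A) (h1.map) (by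
    rw [Tr_sd]
    exact h2.map)
  rw [Tr_sd] at hy
  obtain ⟨hxS, hxA⟩ := Tr_mem.1 hx
  obtain ⟨hyS, hyA⟩ := Tr_mem.1 hy
  exact ⟨_, hxA, _, hyA, hxy⟩

private theorem Tr_hv {g : ℕ → ℕ → F4} {S : Finset ℕ} {A B : Finset {x // x ∈ S}}
    (h : Hv (fun x y : {x // x ∈ S} => g x.1 y.1) A B) :
    Hv g (A.map (Function.Embedding.subtype _)) (B.map (Function.Embedding.subtype _)) := by
  obtain ⟨b, hb, hn⟩ := h
  refine ⟨b.1, Finset.mem_map.2 ⟨b, hb, rfl⟩, ?_⟩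
  rintro ⟨p, hp, hp'⟩
  refine hn ⟨fun x => p x.1, fun x => hp x.1, ?_⟩
  intro x hx y hy hxy
  have hm : ∀ z : {x // x ∈ S}, z ∈ insert b A → z.1 ∈ insert b.1 (A.map (Function.Embedding.subtype _)) := by
    intro z hz
    rcases Finset.mem_insert.1 hz with rfl | hz
    · exact Finset.mem_insert_self _ _
    · exact Finset.mem_insert_of_mem (Finset.mem_map.2 ⟨z, hz, rfl⟩)
  exact hp' x.1 (hm x hx) y.1 (hm y hy) hxy

private theorem Tr_ok {g : ℕ → ℕ → F4} {S : Finset ℕ} (hO : Ok g S) :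
    Ok (fun x y : {x // x ∈ S} => g x.1 y.1) Finset.univ := by
  intro A _ hl h1 h2
  refine hO (A.map (Function.Embedding.subtype _)) (Tr_sub A) ?_ ?_ ?_
  · rw [Tr_sd]
    obtain ⟨u, v, huv⟩ := hl
    refine ⟨fun x => if h : x ∈ S then u ⟨x, h⟩ else 0, fun x => if h : x ∈ S then v ⟨x, h⟩ else 0, ?_⟩
    intro x hx y hy
    obtain ⟨hxS, hxA⟩ := Tr_mem.1 hx
    obtain ⟨hyS, hyA⟩ := Tr_mem.1 hy
    beta_reduce
    rw [dif_pos hxS, dif_pos hyS]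
    exact huv _ hxA _ hyA
  · rw [Tr_sd]
    exact Tr_hv h1
  · rw [Tr_sd]
    exact Tr_hv h2

theorem eu_of (hex : EX) (hun : UN) {t : ℕ → Bool} {g : ℕ → ℕ → F4} {S : Finset ℕ} (hg : Hm t g) (hU : U2G t g S) : EU t g S := by
  refine ⟨?_, ?_⟩
  · intro S' hS'
    obtain ⟨H, hH⟩ := hex {x // x ∈ S'} (fun x => t x.1) (fun x y => g x.1 y.1) (Tr_hm hg) (Tr_u hS' hU)
    exact ⟨Tr_ex S' H, Tr_ext hH⟩
  · intro S' hS' hC hO H H' hH hH'
    obtain ⟨w, hw, hwe⟩ := hun {x // x ∈ S'} (fun x => t x.1) (fun x y => g x.1 y.1) (Tr_hm hg) (Tr_u hS' hU)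
      (Tr_cn hC) (Tr_ok hO) _ _ (Tr_res hH) (Tr_res hH')
    refine ⟨fun x => if h : x ∈ S' then w ⟨x, h⟩ else 1, ?_, ?_⟩
    · intro x
      beta_reduce
      by_cases hx : x ∈ S'
      · rw [dif_pos hx]
        exact hw _
      · rw [dif_neg hx]
        exact Tr_one
    · intro x hx y hy
      beta_reduce
      rw [dif_pos hx, dif_pos hy]
      exact hwe ⟨x, hx⟩ (Finset.mem_univ _) ⟨y, hy⟩ (Finset.mem_univ _)

end Pool.Agent.QUA
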