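import Pool.Agent.QUA.In3
import Pool.Agent.QUA.Ac7
import Pool.Agent.QUA.Tr
import Pool.Agent.FRN.Fm
import Pool.Agent.FRN.Rt

/-!
# QUA/Fin: the algorithm is right

`r = 0`: `nbq [] = 1` (`adet [] _ = 1`, `rt4 1 = 1` by `rt4_pow`), and `nB` of a matrix without rows is `1` (see `Fin2_zero`, `Fin2_nil` in FRN/Fin2). `r > 0`: `lft_chn` for `T = tb1 (mx C)`, `V = vs1 (mx C)` (`tok1`, `vs1_nodup`, `cn1`, `eu_of` with `u2g1`) gives the valid lift
`HT r U`. `enc_fin` with `W = List.range r`, `L = cl0 (mx C)`: the terms `dC ..` of the sum are `1` or `0` by `Val.dt` (rows `fun a => a.val`, columns in `cl0`), `1` exactly if the determinant of `gT` is not zero, iff (`det1`) the corresponding set of columns of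
`C.map vE` is a basis; the order does not matter; bases have no zero columns. So the sum is `nB (C.map vE)`, `enc .. = 256 ^ r * (nB ..) ^ 4`, and `root_eq`. (`FRN.root_eq`, `FRN.wn_mx`.)
-/

set_option autoImplicit false

noncomputable section

namespace Pool.Agent.QUA

open Pool.Agent.FRM Pool.Agent.FRN

variable {r n : ℕ}

private theorem QFin_zero (A : Matrix (Fin 0) (Fin n) KU) : nB A = 1 := by
  classical
  have h : (Finset.univ.filter fun S : Finset (Fin n) => IsBas A S) = {∅} := by
    ext S
    rw [Finset.mem_filter, Finset.mem_singleton]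
    constructor
    · rintro ⟨-, h1, -⟩
      exact Finset.card_eq_zero.1 h1
    · rintro rfl
      refine ⟨Finset.mem_univ _, Finset.card_empty, ?_⟩
      rw [Matrix.det_isEmpty]
      exact one_ne_zero
  unfold nB
  rw [show (Finset.univ.filter fun S : Finset (Fin n) => IsBas A S) = {∅} by convert h, Finset.card_singleton]

theorem nbq_zero (C : Matrix (Fin 0) (Fin n) Ent) : nbq (mx C) = nB (C.map vE) := by
  rw [QFin_zero]
  have h0 : mx C = [] := rfl
  rw [h0]
  have h1 : nbq [] = dv4 [] (rt4 1) := rfl
  have h2 : rt4 1 = 1 := by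
    have := rt4_pow 1
    rw [one_pow] at this
    exact this
  rw [h1, h2]
  rfl

private theorem QFin_perm (A : Matrix (Fin r) (Fin n) KU) {S : Finset (Fin n)} (hS : S.card = r) {f : Fin r → Fin n}
    (hf : Function.Injective f) (hfS : ∀ a, f a ∈ S) :
    (A.submatrix id f).det = 0 ↔ (A.submatrix id (S.orderEmbOfFin hS)).det = 0 := by
  have h1 : ∀ a, S.orderEmbOfFin hS ((S.orderIsoOfFin hS).symm ⟨f a, hfS a⟩) = f a := by
    intro a
    rw [← Finset.coe_orderIsoOfFin_apply, OrderIso.apply_symm_apply]
  have hinj : Function.Injective fun a => (S.orderIsoOfFin hS).symm ⟨f a, hfS a⟩ := by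
    intro a b hab
    apply hf
    rw [← h1 a, ← h1 b]
    exact congrArg _ hab
  obtain ⟨σ, hσ⟩ : ∃ σ : Equiv.Perm (Fin r), ∀ a, f a = S.orderEmbOfFin hS (σ a) :=
    ⟨Equiv.ofBijective _ (Finite.injective_iff_bijective.1 hinj), fun a => (h1 a).symm⟩
  have h2 : A.submatrix id f = (A.submatrix id (S.orderEmbOfFin hS)).submatrix id σ := by
    refine Matrix.ext fun a b => ?_
    show A a (f b) = A a (S.orderEmbOfFin hS (σ b))
    rw [hσ b]
  rw [h2, Matrix.det_permute', mul_eq_zero]
  constructor
  · rintro (h | h)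
    · exfalso
      rcases Int.units_eq_one_or (Equiv.Perm.sign σ) with h3 | h3
      · rw [h3] at h
        simp at h
      · rw [h3] at h
        simp at h
    · exact h
  · exact Or.inr

private theorem QFin_phi (hr : 0 < r) (C : Matrix (Fin r) (Fin n) Ent) :
    ∃ φ : Fin (cl0 (mx C)).length ↪ Fin n, (∀ p, (cl0 (mx C)).get p = r + (φ p).val) ∧
      ∀ j : Fin n, (∃ i, (C i j).1 = true) → ∃ p, φ p = j := by
  have h1 : ∀ p : Fin (cl0 (mx C)).length, ∃ j : Fin n, (cl0 (mx C)).get p = r + j.val := by
    intro p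
    obtain ⟨j, hj, -⟩ := (mem_cl0 hr C _).1 (List.get_mem (cl0 (mx C)) p)
    exact ⟨j, hj⟩
  choose φ hφ using h1
  have hnd : (cl0 (mx C)).Nodup := by
    have h := vs1_nodup hr C
    unfold vs1 at h
    exact (List.nodup_append.1 (List.nodup_append.1 h).2.1).1
  refine ⟨⟨φ, ?_⟩, hφ, ?_⟩
  · intro p q hpq
    have h2 : (cl0 (mx C)).get p = (cl0 (mx C)).get q := by rw [hφ, hφ, hpq]
    exact (List.nodup_iff_injective_get.1 hnd) h2
  · rintro j hj
    have h2 := (mem_cl0 hr C (r + j.val)).2 ⟨j, rfl, hj⟩
    obtain ⟨p, hp⟩ := List.mem_iff_get.1 h2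
    refine ⟨p, Fin.ext ?_⟩
    have h3 := hφ p
    rw [hp] at h3
    show (φ p).val = j.val
    omega

private theorem QFin_key (hr : 0 < r) (C : Matrix (Fin r) (Fin n) Ent) (hU : IsU2 (C.map vE)) {k : ℕ} (hk : k = r)
    (f q : Fin k → ℕ) (h : Fin k → Fin n) (hf : ∀ a, f a = a.val) (hq : ∀ b, q b = r + (h b).val)
    {S : Finset (Fin n)} (hS : S.card = k) (hi : Function.Injective h) (hS' : ∀ b, h b ∈ S) :
    (sm (gT (tb1 (mx C))) f q).det = 0 ↔ ¬ IsBas (C.map vE) S := by
  subst hk
  have e1 : f = fun a => a.val := funext hf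
  have e2 : q = fun b => k + (h b).val := funext hq
  rw [e1, e2, det1 hr C hU h, QFin_perm _ hS hi hS']
  constructor
  · rintro h1 ⟨h2, h3⟩
    exact h3 h1
  · intro h1
    by_contra h2
    exact h1 ⟨hS, h2⟩

private theorem QFin_col (C : Matrix (Fin r) (Fin n) Ent) {S : Finset (Fin n)} (hS : IsBas (C.map vE) S) {j : Fin n}
    (hj : j ∈ S) : ∃ i, (C i j).1 = true := by
  by_contra h
  obtain ⟨h1, h2⟩ := hS
  obtain ⟨b, hb⟩ : ∃ b, S.orderEmbOfFin h1 b = j := by
    have h3 := Finset.range_orderEmbOfFin S h1
    have h4 : j ∈ Set.range (S.orderEmbOfFin h1) := by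
      rw [h3]
      exact hj
    exact h4
  apply h2
  refine Matrix.det_eq_zero_of_column_eq_zero b fun i => ?_
  show vE (C i (S.orderEmbOfFin h1 b)) = 0
  rw [hb]
  unfold vE
  rw [if_neg]
  intro h3
  exact h ⟨i, h3⟩

/-- the sum over the sets of nonzero columns counts the bases -/
theorem sum_nB (hr : 0 < r) (C : Matrix (Fin r) (Fin n) Ent) (hU : IsU2 (C.map vE)) {U : Tb}
    (hV : Val (tt r) (gT (tb1 (mx C))) (HT r U) (vs1 (mx C)).toFinset) :
    (∑ B : Finset (Fin (cl0 (mx C)).length), if h : B.card = (List.range r).length then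
      (dC (Matrix.of fun (a b : Fin (List.range r).length) =>
        bq (lk2 U ((List.range r).get a) ((cl0 (mx C)).get (B.orderEmbOfFin h b))))).re else 0) = (nB (C.map vE) : ℝ) := by
  classical
  obtain ⟨φ, h1, h2⟩ := QFin_phi hr C
  have hlen : (List.range r).length = r := List.length_range
  have hterm : ∀ B : Finset (Fin (cl0 (mx C)).length), (if h : B.card = (List.range r).length then
      (dC (Matrix.of fun (a b : Fin (List.range r).length) =>
        bq (lk2 U ((List.range r).get a) ((cl0 (mx C)).get (B.orderEmbOfFin h b))))).re else 0) =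
      if IsBas (C.map vE) (B.map φ) then (1 : ℝ) else 0 := by
    intro B
    by_cases h : B.card = (List.range r).length
    · rw [dif_pos h]
      have hlt : ∀ a : Fin (List.range r).length, (List.range r).get a < r := fun a =>
        List.mem_range.1 (List.get_mem (List.range r) a)
      have e : (Matrix.of fun (a b : Fin (List.range r).length) =>
          bq (lk2 U ((List.range r).get a) ((cl0 (mx C)).get (B.orderEmbOfFin h b)))) =
          sm (HT r U) (fun a => (List.range r).get a) (fun b => (cl0 (mx C)).get (B.orderEmbOfFin h b)) := by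
        refine Matrix.ext fun a b => ?_
        show bq (lk2 U ((List.range r).get a) ((cl0 (mx C)).get (B.orderEmbOfFin h b))) =
          HT r U ((List.range r).get a) ((cl0 (mx C)).get (B.orderEmbOfFin h b))
        unfold HT
        rw [if_pos]
        refine ⟨hlt a, ?_⟩
        rw [h1]
        omega
      have hRC : RC (tt r) (vs1 (mx C)).toFinset (fun a : Fin (List.range r).length => (List.range r).get a)
          (fun b => (cl0 (mx C)).get (B.orderEmbOfFin h b)) := by
        constructor
        · intro a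
          refine ⟨?_, ?_⟩
          · rw [List.mem_toFinset]
            unfold vs1
            rw [wn_mx]
            exact List.mem_append_left _ (List.get_mem (List.range r) a)
          · unfold tt
            exact decide_eq_true (hlt a)
        · intro b
          refine ⟨?_, ?_⟩
          · rw [List.mem_toFinset]
            unfold vs1
            exact List.mem_append_right _ (List.mem_append_left _ (List.get_mem (cl0 (mx C)) _))
          · unfold tt
            refine decide_eq_false ?_
            show ¬ (cl0 (mx C)).get (B.orderEmbOfFin h b) < r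
            rw [h1]
            omega
      rw [e, hV.dt _ _ _ hRC]
      have hk := QFin_key hr C hU hlen (fun a => (List.range r).get a)
        (fun b => (cl0 (mx C)).get (B.orderEmbOfFin h b)) (fun b => φ (B.orderEmbOfFin h b))
        (fun a => by simp) (fun b => h1 _) (S := B.map φ) (by rw [Finset.card_map]; exact h)
        (fun a b hab => (B.orderEmbOfFin h).injective (φ.injective hab))
        (fun b => Finset.mem_map_of_mem φ (Finset.orderEmbOfFin_mem B h b))
      by_cases hb : IsBas (C.map vE) (B.map φ)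
      · rw [if_pos hb, if_neg (fun h3 => hk.1 h3 hb), Complex.one_re]
      · rw [if_neg hb, if_pos (hk.2 hb), Complex.zero_re]
    · rw [dif_neg h, if_neg]
      rintro ⟨h3, -⟩
      apply h
      rw [Finset.card_map] at h3
      rw [h3, hlen]
  rw [Finset.sum_congr rfl (fun B _ => hterm B), Finset.sum_boole]
  congr 1
  unfold nB
  refine Finset.card_bij (fun B _ => B.map φ) ?_ ?_ ?_
  · intro B hB
    rw [Finset.mem_filter] at hB ⊢
    exact ⟨Finset.mem_univ _, hB.2⟩
  · intro B _ B' _ hBB
    exact Finset.map_injective φ hBB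
  · intro S hS
    rw [Finset.mem_filter] at hS
    have h5 : (Finset.univ.filter fun p => φ p ∈ S).map φ = S := by
      ext j
      rw [Finset.mem_map]
      constructor
      · rintro ⟨p, hp, rfl⟩
        exact (Finset.mem_filter.1 hp).2
      · intro hj
        obtain ⟨p, hp⟩ := h2 j (QFin_col C hS.2 hj)
        exact ⟨p, Finset.mem_filter.2 ⟨Finset.mem_univ _, by rw [hp]; exact hj⟩, hp⟩
    refine ⟨Finset.univ.filter fun p => φ p ∈ S, ?_, h5⟩
    rw [Finset.mem_filter, h5]
    exact ⟨Finset.mem_univ _, hS.2⟩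

theorem nbq_eq (hex : EX) (hun : UN) (C : Matrix (Fin r) (Fin n) Ent) (hU : IsU2 (C.map vE)) : nbq (mx C) = nB (C.map vE) := by
  rcases Nat.eq_zero_or_pos r with h0 | hr
  · subst h0
    exact nbq_zero C
  · obtain ⟨h1, h2⟩ := lft_chn (tok1 hr C) (vs1_nodup hr C) (cn1 hr C) (eu_of hex hun (tok1 hr C).hm (u2g1 hr C hU))
    have h3 := enc_fin (List.range r) (cl0 (mx C)) h1
    rw [sum_nB hr C hU h2, List.length_range] at h3
    have h4 : enc (List.range r) [] (cl0 (mx C)) (lft (tb1 (mx C)) r (chn (tb1 (mx C)) (vs1 (mx C)))) =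
        256 ^ r * nB (C.map vE) ^ 4 := by
      exact_mod_cast h3
    unfold nbq
    rw [mx_len, wn_mx, h4, root_eq]

end Pool.Agent.QUA
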