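import Pool.Agent.QUA.Alg
import Pool.Agent.BEO.FpC
import Pool.Agent.G4.UPAuto
import Pool.Agent.FRN.FpB
import Pool.Agent.FRN.FpC
import Pool.Agent.FRN.FpP
import Pool.Agent.FRN.FpR

/-!
# QUA/Fq1: polynomial time: tables, connectivity test

Tools: `fun_prop` after `open Pool.Agent.G4` (G4/UPAuto: maps, filters, flatMap, any, all, conditions, `FP.eqD`, `FP.headDA`; `FP.foldA` for folds with a bound on the sizes of the states), BEO/FpB, FpC (`fp_look`, `fp_memb`, `fp_comp`, `fp_eq`),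
FRN/FpB .. FpR (`fp_blk`, `fp_gr`, `fp_adet`, `fp_m3`, `fp_wn`, `fp_rt4`, `fp_dv4`; private lemmas may be copied). Compare FRN/FpD for the bounds of folds.

-/

set_option autoImplicit false

namespace Pool.Agent.QUA

open Turing Function N487b59b3 N68a2faeb Pool.Agent.Helper22 Pool.Agent.Helper6.WB Pool.Agent.Helper49.Cons
open Pool.Agent.BEO Pool.Agent.PQE Pool.Agent.G4 Pool.Agent.FRN

section

variable {α : Type} [N487b59b3 α]

theorem fp_lk2 {T : α → Tb} {x y : α → ℕ} (hT : FP T) (hx : FP x) (hy : FP y) : FP fun a => lk2 (T a) (x a) (y a) :=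
  fp_look hT (hx.pair hy) (FP.const 0)

theorem fp_m4 {x y : α → ℕ} (hx : FP x) (hy : FP y) : FP fun a => m4 (x a) (y a) := by
  unfold m4
  fun_prop

theorem fp_i4 {x : α → ℕ} (hx : FP x) : FP fun a => i4 (x a) := by
  unfold i4
  fun_prop

theorem fp_cnn {β : Type} [N487b59b3 β] [DecidableEq β] [Inhabited β] {V : α → List β} {E : α → List (β × β)} {x y : α → β} (hV : FP V)
    (hE : FP E) (hx : FP x) (hy : FP y) : FP fun a => cnn (V a) (E a) (x a) (y a) :=
  fp_eq (fp_look (fp_comp hV hE) hx hx) (fp_look (fp_comp hV hE) hy hy)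

theorem fp_adj {T : α → Tb} {V : α → List ℕ} (hT : FP T) (hV : FP V) : FP fun a => adj (T a) (V a) := by
  unfold adj
  refine FP.flatMapA (h := fun a x => ((V a).filter fun y => !(decide (lk2 (T a) x y = 0))).map fun y => (x, y)) ?_ hV
  have h1 : FP fun p : (α × ℕ) × ℕ => lk2 (T p.1.1) p.1.2 p.2 :=
    fp_lk2 (hT.comp (FP.fst.comp FP.fst)) (FP.snd.comp FP.fst) FP.snd
  have h2 : FP fun p : α × ℕ => (V p.1).filter fun y => !(decide (lk2 (T p.1) p.2 y = 0)) :=
    FP.filterA (h := fun (p : α × ℕ) y => !(decide (lk2 (T p.1) p.2 y = 0)))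
      (FP.not (FP.natEq h1 (FP.const 0))) (hV.comp FP.fst)
  exact FP.mapA (h := fun (p : α × ℕ) y => (p.2, y)) ((FP.snd.comp FP.fst).pair FP.snd) h2

theorem fp_cnq {T : α → Tb} {V : α → List ℕ} (hT : FP T) (hV : FP V) : FP fun a => cnq (T a) (V a) := by
  unfold cnq
  refine FP.allA (h := fun a x => cnn (V a) (adj (T a) (V a)) x ((V a).headD 0)) ?_ hV
  exact fp_cnn (hV.comp FP.fst) (fp_adj (hT.comp FP.fst) (hV.comp FP.fst)) FP.snd (FP.headD (hV.comp FP.fst) _)

/-- sizes -/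
theorem fp_lt {f g : α → ℕ} (hf : FP f) (hg : FP g) : FP fun a => decide (f a < g a) :=
  Pool.Agent.Helper47.TR.FP.natLe (FP.natAdd hf (FP.const 1)) hg

end

end Pool.Agent.QUA
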