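import Pool.Agent.QUA.Alg
import Pool.Agent.BEO.FpC
import Pool.Agent.G4.UPAuto
import Pool.Agent.FRN.FpB
import Pool.Agent.FRN.FpC
import Pool.Agent.FRN.FpP
import Pool.Agent.FRN.FpR
import Pool.Agent.QUA.Fq1

/-!
# QUA/Fq2: polynomial time: balance test, closures

The balance test uses the components of the threefold cover. `clq` is a fold all of whose states are sublists of `V`.
-/

set_option autoImplicit false

namespace Pool.Agent.QUA

open Turing Function N487b59b3 N68a2faeb Pool.Agent.Helper22 Pool.Agent.Helper6.WB Pool.Agent.Helper49.Cons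
open Pool.Agent.BEO Pool.Agent.PQE Pool.Agent.G4 Pool.Agent.FRN

section

variable {α : Type} [N487b59b3 α]

private theorem Fq2_sh (k : ℕ) {c : α → ℕ} (hc : FP c) : FP fun a => sh (c a) k := by
  unfold sh
  exact FP.ite (by fun_prop) (FP.const _) (FP.ite (by fun_prop) (FP.const _) (FP.const _))

private theorem Fq2_V3 {V : α → List ℕ} (hV : FP V) : FP fun a => V3 (V a) := by
  unfold V3
  refine FP.flatMapA (h := fun (_ : α) (x : ℕ) => [(x, 0), (x, 1), (x, 2)]) ?_ hV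
  have h1 : ∀ k : ℕ, FP fun p : α × ℕ => ((p.2, k) : ℕ × ℕ) := fun k => FP.pair FP.snd (FP.const k)
  exact FP.cons (h1 0) (FP.cons (h1 1) (FP.cons (h1 2) (FP.const [])))

private theorem Fq2_ad3 {T : α → Tb} {V : α → List ℕ} (hT : FP T) (hV : FP V) : FP fun a => ad3 (T a) (V a) := by
  unfold ad3
  have h1 : ∀ k : ℕ, FP fun p : α × (ℕ × ℕ) => (((p.2.1, k), (p.2.2, sh (lk2 (T p.1) p.2.1 p.2.2) k)) : (ℕ × ℕ) × (ℕ × ℕ)) := by
    intro k
    refine FP.pair (FP.pair (FP.fst' FP.snd) (FP.const k)) (FP.pair (FP.snd' FP.snd) (Fq2_sh k ?_))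
    exact fp_lk2 (hT.comp FP.fst) (FP.fst' FP.snd) (FP.snd' FP.snd)
  refine FP.flatMapA (h := fun (a : α) (p : ℕ × ℕ) =>
    [((p.1, 0), (p.2, sh (lk2 (T a) p.1 p.2) 0)), ((p.1, 1), (p.2, sh (lk2 (T a) p.1 p.2) 1)),
      ((p.1, 2), (p.2, sh (lk2 (T a) p.1 p.2) 2))]) ?_ (fp_adj hT hV)
  exact FP.cons (h1 0) (FP.cons (h1 1) (FP.cons (h1 2) (FP.const [])))

theorem fp_blq {T : α → Tb} {V : α → List ℕ} (hT : FP T) (hV : FP V) : FP fun a => blq (T a) (V a) := by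
  unfold blq
  refine FP.allA (h := fun (a : α) (x : ℕ) => !(cnn (V3 (V a)) (ad3 (T a) (V a)) (x, 0) (x, 1))) ?_ hV
  exact FP.not (fp_cnn (Fq2_V3 (hV.comp FP.fst)) (Fq2_ad3 (hT.comp FP.fst) (hV.comp FP.fst))
    (FP.pair FP.snd (FP.const 0)) (FP.pair FP.snd (FP.const 1)))

theorem fp_rmv {V : α → List ℕ} {x : α → ℕ} (hV : FP V) (hx : FP x) : FP fun a => rmv (V a) (x a) := by
  unfold rmv
  refine FP.filterA (h := fun (a : α) (y : ℕ) => !(decide (y = x a))) ?_ hV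
  exact FP.not (FP.eqD FP.snd (hx.comp FP.fst))

theorem fp_sbt {V A : α → List ℕ} (hV : FP V) (hA : FP A) : FP fun a => sbt (V a) (A a) := by
  unfold sbt
  refine FP.filterA (h := fun (a : α) (y : ℕ) => !(memb (A a) y)) ?_ hV
  exact FP.not (fp_memb (hA.comp FP.fst) FP.snd)

private theorem Fq2_stq {T : α → Tb} {i j x y : α → ℕ} (hT : FP T) (hi : FP i) (hj : FP j) (hx : FP x) (hy : FP y) :
    FP fun a => stq (T a) (i a) (j a) (x a) (y a) := by
  unfold stq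
  exact FP.not (FP.eqD (fp_m4 (fp_lk2 hT hx hy) (fp_lk2 hT hi hj)) (fp_m4 (fp_lk2 hT hx hj) (fp_lk2 hT hi hy)))

private abbrev Fq2_I : Type := Tb × (List ℕ × (ℕ × (ℕ × ℕ)))

private theorem Fq2_clq : FP fun p : Fq2_I => clq p.1 p.2.1 p.2.2.1 p.2.2.2.1 p.2.2.2.2 := by
  have hs : FP fun p : ((Fq2_I × (List ℕ × ℕ)) × ℕ) × ℕ =>
      stq p.1.1.1.1 p.1.1.1.2.2.1 p.1.1.1.2.2.2.1 p.2 p.1.2 :=
    Fq2_stq (by fun_prop) (by fun_prop) (by fun_prop) (by fun_prop) (by fun_prop)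
  have h1 : FP fun p : (Fq2_I × (List ℕ × ℕ)) × ℕ =>
      memb p.1.2.1 p.2 || p.1.2.1.any fun x => stq p.1.1.1 p.1.1.2.2.1 p.1.1.2.2.2.1 x p.2 := by
    refine FP.or (fp_memb (by fun_prop) (by fun_prop)) ?_
    exact FP.anyA (h := fun (p : (Fq2_I × (List ℕ × ℕ)) × ℕ) (x : ℕ) =>
      stq p.1.1.1 p.1.1.2.2.1 p.1.1.2.2.2.1 x p.2) hs (by fun_prop)
  have h2 : FP fun p : Fq2_I × (List ℕ × ℕ) =>
      (fun (p : Fq2_I) (A : List ℕ) (_ : ℕ) => p.2.1.filter fun y =>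
        memb A y || A.any fun x => stq p.1 p.2.2.1 p.2.2.2.1 x y) p.1 p.2.1 p.2.2 :=
    FP.filterA (h := fun (p : Fq2_I × (List ℕ × ℕ)) (y : ℕ) =>
      memb p.2.1 y || p.2.1.any fun x => stq p.1.1 p.1.2.2.1 p.1.2.2.2.1 x y) h1 (by fun_prop)
  have h3 : FP fun p : Fq2_I => p.2.1.filter fun y => decide (y = p.2.2.1) || decide (y = p.2.2.2.2) := by
    fun_prop
  unfold clq
  refine FP.foldA h2 (B := fun n => n) (by fun_prop) (l := fun p : Fq2_I => p.2.1) (by fun_prop) h3 ?_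
  intro p i hi
  have h4 : (((p.2.1).take i).foldl (fun (A : List ℕ) (_ : ℕ) => p.2.1.filter fun y =>
      memb A y || A.any fun x => stq p.1 p.2.2.1 p.2.2.2.1 x y)
        (p.2.1.filter fun y => decide (y = p.2.2.1) || decide (y = p.2.2.2.2))).Sublist p.2.1 :=
    foldl_take_ind (P := fun _ (s : List ℕ) => s.Sublist p.2.1) List.filter_sublist
      (fun _ _ _ _ _ => List.filter_sublist) i hi
  refine (sz_sublist h4).trans ?_
  obtain ⟨T, V, x⟩ := p
  simp only [sz_pair]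
  omega

theorem fp_clq {T : α → Tb} {V : α → List ℕ} {i j z : α → ℕ} (hT : FP T) (hV : FP V) (hi : FP i) (hj : FP j) (hz : FP z) :
    FP fun a => clq (T a) (V a) (i a) (j a) (z a) := by
  have h := Fq2_clq.comp (hT.pair (hV.pair (hi.pair (hj.pair hz))))
  exact h

end

end Pool.Agent.QUA
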