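import Pool.Agent.QUA.Alg
import Pool.Agent.BEO.FpC
import Pool.Agent.G4.UPAuto
import Pool.Agent.FRN.FpB
import Pool.Agent.FRN.FpC
import Pool.Agent.FRN.FpP
import Pool.Agent.FRN.FpR
import Pool.Agent.QUA.Fq2

/-!
# QUA/Fq3: polynomial time: selection and chain

Tools: `fun_prop` after `open Pool.Agent.G4` (G4/UPAuto: maps, filters, flatMap, any, all, conditions, `FP.eqD`, `FP.headDA`; `FP.foldA` for folds with a bound on the sizes of the states), BEO/FpB, FpC (`fp_look`, `fp_memb`, `fp_comp`, `fp_eq`),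
FRN/FpB .. FpR (`fp_blk`, `fp_gr`, `fp_adet`, `fp_m3`, `fp_wn`, `fp_rt4`, `fp_dv4`; private lemmas may be copied). Compare FRN/FpD for the bounds of folds.
`chn`: the first component of the state is a sublist of `V`, the second one has as many elements as there were steps, elements of `V` or `0`.
-/

set_option autoImplicit false

namespace Pool.Agent.QUA

open Turing Function N487b59b3 N68a2faeb Pool.Agent.Helper22 Pool.Agent.Helper6.WB Pool.Agent.Helper49.Cons
open Pool.Agent.BEO Pool.Agent.PQE Pool.Agent.G4 Pool.Agent.FRN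

section

variable {α : Type} [N487b59b3 α]

theorem fp_psq {T : α → Tb} {V : α → List ℕ} (hT : FP T) (hV : FP V) : FP fun a => psq (T a) (V a) := by
  unfold psq
  refine FP.and (fp_cnq hT hV) ?_
  unfold okq
  refine FP.allA (FP.allA (FP.allA ?_ ?_) ?_) hV
  · have hT' : FP fun q : ((α × ℕ) × ℕ) × ℕ => T q.1.1.1 := hT.comp (by fun_prop)
    have hV' : FP fun q : ((α × ℕ) × ℕ) × ℕ => V q.1.1.1 := hV.comp (by fun_prop)
    have hi : FP fun q : ((α × ℕ) × ℕ) × ℕ => q.1.1.2 := by fun_prop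
    have hj : FP fun q : ((α × ℕ) × ℕ) × ℕ => q.1.2 := by fun_prop
    have hz : FP fun q : ((α × ℕ) × ℕ) × ℕ => q.2 := by fun_prop
    have hc := fp_clq hT' hV' hi hj hz
    refine FP.or (FP.or (FP.or ?_ ?_) ?_) ?_
    · exact FP.eqD (fp_lk2 hT' hi hj) (FP.const 0)
    · exact FP.eqD hz hj
    · exact fp_blq hT' (FP.cons hj hc)
    · exact fp_blq hT' (FP.cons hi (fp_sbt hV' hc))
  · exact hV.comp (by fun_prop)
  · exact hV.comp (by fun_prop)

theorem fp_cnd {T : α → Tb} {V : α → List ℕ} (hT : FP T) (hV : FP V) : FP fun a => cnd (T a) (V a) := by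
  unfold cnd
  refine FP.append (FP.filterA ?_ hV) (FP.flatMapA (FP.flatMapA (FP.flatMapA ?_ ?_) ?_) hV)
  · exact fp_psq (hT.comp (by fun_prop)) (fp_rmv (hV.comp (by fun_prop)) (by fun_prop))
  · have hT' : FP fun q : ((α × ℕ) × ℕ) × ℕ => T q.1.1.1 := hT.comp (by fun_prop)
    have hV' : FP fun q : ((α × ℕ) × ℕ) × ℕ => V q.1.1.1 := hV.comp (by fun_prop)
    have hi : FP fun q : ((α × ℕ) × ℕ) × ℕ => q.1.1.2 := by fun_prop
    have hj : FP fun q : ((α × ℕ) × ℕ) × ℕ => q.1.2 := by fun_prop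
    have hz : FP fun q : ((α × ℕ) × ℕ) × ℕ => q.2 := by fun_prop
    have hc := fp_clq hT' hV' hi hj hz
    refine FP.ite (FP.or (FP.eqD (fp_lk2 hT' hi hj) (FP.const 0)) (FP.eqD hz hj)) (FP.const []) (FP.filterA ?_ hc)
    have hT2 : FP fun q : (((α × ℕ) × ℕ) × ℕ) × ℕ => T q.1.1.1.1 := hT'.comp FP.fst
    have hj2 : FP fun q : (((α × ℕ) × ℕ) × ℕ) × ℕ => q.1.1.2 := hj.comp FP.fst
    have hx2 : FP fun q : (((α × ℕ) × ℕ) × ℕ) × ℕ => q.2 := FP.snd
    have hr := fp_rmv (hc.comp FP.fst) hx2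
    exact FP.and (FP.not (FP.isEmpty hr)) (fp_psq hT2 (FP.cons hj2 hr))
  · exact hV.comp (by fun_prop)
  · exact hV.comp (by fun_prop)

private theorem Fq3_clq (T : Tb) (V : List ℕ) (i j z : ℕ) : ∀ x ∈ clq T V i j z, x ∈ V := by
  have h : ∀ L A : List ℕ, (∀ x ∈ A, x ∈ V) →
      ∀ x ∈ L.foldl (fun A _ => V.filter fun y => memb A y || A.any fun x => stq T i j x y) A, x ∈ V := by
    intro L
    induction L with
    | nil => exact fun A hA => hA
    | cons b L ih =>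
      intro A _
      rw [List.foldl_cons]
      exact ih _ fun x hx => (List.mem_filter.1 hx).1
  exact h V _ fun x hx => (List.mem_filter.1 hx).1

private theorem Fq3_cnd (T : Tb) (V : List ℕ) : ∀ x ∈ cnd T V, x ∈ V := by
  intro x hx
  unfold cnd at hx
  rcases List.mem_append.1 hx with hx | hx
  · exact (List.mem_filter.1 hx).1
  · obtain ⟨i, _, hx⟩ := List.mem_flatMap.1 hx
    obtain ⟨j, _, hx⟩ := List.mem_flatMap.1 hx
    obtain ⟨z, _, hx⟩ := List.mem_flatMap.1 hx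
    split_ifs at hx with h
    · exact absurd hx (List.not_mem_nil)
    · exact Fq3_clq T V i j z x (List.mem_filter.1 hx).1

private theorem Fq3_head (l : List ℕ) : l.headD 0 ∈ l ∨ l.headD 0 = 0 := by
  cases l with
  | nil => exact Or.inr rfl
  | cons b l => exact Or.inl List.mem_cons_self

/-- invariant of the states -/
private def Fq3_inv (V : List ℕ) (i : ℕ) (s : List ℕ × List ℕ) : Prop :=
  s.1.Sublist V ∧ s.2.length ≤ i ∧ ∀ q ∈ s.2, q ∈ V ∨ q = 0

private theorem Fq3_chs (T : Tb) (V : List ℕ) (i : ℕ) (s : List ℕ × List ℕ) (h : Fq3_inv V i s) :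
    Fq3_inv V (i + 1) (chs T s) := by
  obtain ⟨h1, h2, h3⟩ := h
  unfold chs
  split_ifs with h4
  · exact ⟨h1, by omega, h3⟩
  · refine ⟨?_, ?_, ?_⟩
    · unfold rmv
      exact (List.filter_sublist).trans h1
    · rw [List.length_cons]
      omega
    · intro q hq
      rcases List.mem_cons.1 hq with hq | hq
      · rw [hq]
        rcases Fq3_head (cnd T s.1) with h5 | h5
        · exact Or.inl (h1.subset (Fq3_cnd T s.1 _ h5))
        · exact Or.inr h5
      · exact h3 q hq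

private theorem Fq3_sz (V : List ℕ) (i : ℕ) (s : List ℕ × List ℕ) (h : Fq3_inv V i s) (hi : i ≤ V.length) :
    sz s ≤ 2 * sz V + 1 + sz V * (2 * sz V + 1) := by
  obtain ⟨h1, h2, h3⟩ := h
  have h4 := sz_sublist h1
  have h5 : ∀ q ∈ s.2, sz q ≤ sz V := by
    intro q hq
    rcases h3 q hq with h6 | h6
    · have h7 := sz_le_of_mem h6
      omega
    · rw [h6, sz_nat, Nat.size_zero]
      exact Nat.zero_le _
  have h6 := sz_le_length_mul h5
  have h7 : s.2.length ≤ sz V := (h2.trans hi).trans (length_le_sz V)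
  have h8 := Nat.mul_le_mul_right (2 * sz V + 1) h7
  have h9 : sz s = 2 * sz s.1 + 1 + sz s.2 := sz_pair s.1 s.2
  omega

private theorem Fq3_step : FP fun p : (Tb × List ℕ) × ((List ℕ × List ℕ) × ℕ) => chs p.1.1 p.2.1 := by
  unfold chs
  have h0 : FP fun p : (Tb × List ℕ) × ((List ℕ × List ℕ) × ℕ) => p.2.1 := FP.fst.comp FP.snd
  have h1 : FP fun p : (Tb × List ℕ) × ((List ℕ × List ℕ) × ℕ) => p.2.1.1 := FP.fst' h0
  have h2 : FP fun p : (Tb × List ℕ) × ((List ℕ × List ℕ) × ℕ) => p.2.1.2 := FP.snd' h0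
  have h3 : FP fun p : (Tb × List ℕ) × ((List ℕ × List ℕ) × ℕ) => p.1.1 := FP.fst.comp FP.fst
  have h4 : FP fun p : (Tb × List ℕ) × ((List ℕ × List ℕ) × ℕ) => (cnd p.1.1 p.2.1.1).headD 0 :=
    FP.headDA (fp_cnd h3 h1) (FP.const 0)
  exact FP.ite (FP.isEmpty h1) h0 (FP.pair (fp_rmv h1 h4) (FP.cons h4 h2))

private theorem Fq3_bd (U : Tb) (W : List ℕ) (i : ℕ) (hi : i ≤ W.length) :
    sz ((W.take i).foldl (fun (s : List ℕ × List ℕ) (_ : ℕ) => chs U s) (W, [])) ≤
      2 * sz (U, W) + 1 + sz (U, W) * (2 * sz (U, W) + 1) := by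
  have h1 := foldl_take_ind (P := Fq3_inv W) (g := fun (s : List ℕ × List ℕ) (_ : ℕ) => chs U s) (l := W)
    (x := (W, [])) ⟨List.Sublist.refl W, Nat.le_refl 0, fun q hq => absurd hq (List.not_mem_nil)⟩
    (fun i s b _ hs => Fq3_chs U W i s hs) i hi
  have h2 := Fq3_sz W i _ h1 hi
  have h3 : sz W ≤ sz (U, W) := by
    rw [sz_pair]
    omega
  have h4 : sz W * (2 * sz W + 1) ≤ sz (U, W) * (2 * sz (U, W) + 1) := Nat.mul_le_mul h3 (by omega)
  omega

private theorem Fq3_B : PB (fun n => 2 * n + 1 + n * (2 * n + 1)) := by fun_prop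

private theorem Fq3_sz' (U : Tb) (W : List ℕ) (i : ℕ) (hi : i ≤ W.length) (s : List ℕ × List ℕ)
    (hs : s = (W.take i).foldl (fun (s : List ℕ × List ℕ) (_ : ℕ) => chs U s) (W, [])) (n : ℕ) (hn : n = sz (U, W)) :
    sz s ≤ 2 * n + 1 + n * (2 * n + 1) := by
  rw [hs, hn]
  exact Fq3_bd U W i hi

private theorem Fq3_fold : FP fun p : Tb × List ℕ =>
    p.2.foldl (fun (s : List ℕ × List ℕ) (_ : ℕ) => chs p.1 s) (p.2, []) := by
  have h0 : FP fun p : (Tb × List ℕ) × ((List ℕ × List ℕ) × ℕ) =>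
      (fun (p : Tb × List ℕ) (s : List ℕ × List ℕ) (_ : ℕ) => chs p.1 s) p.1 p.2.1 p.2.2 := Fq3_step
  have hx : FP fun p : Tb × List ℕ => (p.2, ([] : List ℕ)) := FP.pair FP.snd (FP.const [])
  refine FP.foldA h0 (B := fun n => 2 * n + 1 + n * (2 * n + 1)) Fq3_B (l := fun p : Tb × List ℕ => p.2)
    (x := fun p : Tb × List ℕ => (p.2, ([] : List ℕ))) FP.snd hx ?_
  rintro ⟨U, W⟩ i hi
  exact Fq3_sz' U W i hi _ rfl _ rfl

theorem fp_chn {T : α → Tb} {V : α → List ℕ} (hT : FP T) (hV : FP V) : FP fun a => chn (T a) (V a) := by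
  have h := (FP.snd' Fq3_fold).comp (FP.pair hT hV)
  exact h

end

end Pool.Agent.QUA
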