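import Pool.Agent.QUA.Alg
import Pool.Agent.BEO.FpC
import Pool.Agent.G4.UPAuto
import Pool.Agent.FRN.FpB
import Pool.Agent.FRN.FpC
import Pool.Agent.FRN.FpP
import Pool.Agent.FRN.FpR
import Pool.Agent.QUA.Fq1

/-!
# QUA/Fq4: polynomial time: energies

`rwl`, `cll`: filters. `enc`: rows as in FRN/FpB, then `fp_adet`, `fp_gr`. `mnm`: a fold whose state is the start element or an element of the list.
-/

set_option autoImplicit false

namespace Pool.Agent.QUA

open Turing Function N487b59b3 N68a2faeb Pool.Agent.Helper22 Pool.Agent.Helper6.WB Pool.Agent.Helper49.Cons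
open Pool.Agent.BEO Pool.Agent.PQE Pool.Agent.G4 Pool.Agent.FRN

section

variable {α : Type} [N487b59b3 α]

theorem fp_rwl {r : α → ℕ} {S : α → List ℕ} (hr : FP r) (hS : FP S) : FP fun a => rwl (r a) (S a) := by
  unfold rwl
  exact FP.filterA (fp_lt FP.snd (hr.comp FP.fst)) hS

theorem fp_cll {r : α → ℕ} {S : α → List ℕ} (hr : FP r) (hS : FP S) : FP fun a => cll (r a) (S a) := by
  unfold cll
  exact FP.filterA (FP.not (fp_lt FP.snd (hr.comp FP.fst))) hS

private theorem Fq4_rwc {H L : α → List ℕ} {A : α → Tb} {x b : α → ℕ} (hH : FP H) (hL : FP L) (hA : FP A) (hx : FP x) (hb : FP b) :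
    FP fun a => rwc (H a) (L a) (A a) (x a) (b a) := by
  have h1 : FP fun p : α × ℕ => blk (ulk p.2 (x p.1)) (b p.1) := by
    refine fp_blk ?_ (by fun_prop)
    unfold ulk
    fun_prop
  have h2 : FP fun p : α × ℕ => blk (lk2 (A p.1) (x p.1) p.2) (b p.1) :=
    fp_blk (fp_lk2 (hA.comp FP.fst) (hx.comp FP.fst) FP.snd) (hb.comp FP.fst)
  unfold rwc
  exact FP.append (FP.flatMapA h1 hH) (FP.flatMapA h2 hL)

private theorem Fq4_rwsc {W H L : α → List ℕ} {A : α → Tb} (hW : FP W) (hH : FP H) (hL : FP L) (hA : FP A) :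
    FP fun a => rwsc (W a) (H a) (L a) (A a) := by
  have hx : FP fun p : (α × ℕ) × ℕ => (W p.1.1).getD p.1.2 0 :=
    FP.getDNat (hW.comp (FP.fst.comp FP.fst)) (by fun_prop) 0
  have h1 : FP fun p : (α × ℕ) × ℕ => (4 * p.1.2 + p.2, rwc (H p.1.1) (L p.1.1) (A p.1.1) ((W p.1.1).getD p.1.2 0) p.2) :=
    FP.pair (by fun_prop) (Fq4_rwc (by fun_prop) (by fun_prop) (by fun_prop) hx (by fun_prop))
  have h2 : FP fun p : α × ℕ => [0, 1, 2, 3].map fun a =>
      (4 * p.2 + a, rwc (H p.1) (L p.1) (A p.1) ((W p.1).getD p.2 0) a) :=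
    FP.mapA h1 (FP.const _)
  unfold rwsc
  exact FP.flatMapA h2 (FP.range hW)

theorem fp_enc {W H L : α → List ℕ} {A : α → Tb} (hW : FP W) (hH : FP H) (hL : FP L) (hA : FP A) :
    FP fun a => enc (W a) (H a) (L a) (A a) := by
  unfold enc
  have h1 := Fq4_rwsc hW hH hL hA
  have h2 : FP fun a => (rwsc (W a) (H a) (L a) (A a)).map Prod.fst := FP.mapA (by fun_prop) h1
  exact fp_adet h2 (fp_gr h1)

theorem fp_ens {r : α → ℕ} {S : α → List ℕ} {A : α → Tb} (hr : FP r) (hS : FP S) (hA : FP A) : FP fun a => ens (r a) (S a) (A a) := by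
  unfold ens
  exact fp_enc (fp_rwl hr hS) (fp_rwl hr hS) (fp_cll hr hS) hA

private theorem Fq4_fold (g : ℕ → ℕ → ℕ) (hg : ∀ m p, g m p = m ∨ g m p = p) (P : ℕ → Prop)
    (l : List ℕ) (x : ℕ) (hl : ∀ p ∈ l, P p) (hx : P x) : P (l.foldl g x) := by
  induction l generalizing x with
  | nil => exact hx
  | cons b l ih =>
    rw [List.foldl_cons]
    refine ih _ (fun p hp => hl p (List.mem_cons_of_mem _ hp)) ?_
    rcases hg x b with h | h
    · rw [h]
      exact hx
    · rw [h]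
      exact hl b List.mem_cons_self

private theorem Fq4_step (m p : ℕ) : (if decide (p < m) then p else m) = m ∨ (if decide (p < m) then p else m) = p := by
  split_ifs
  · exact Or.inr rfl
  · exact Or.inl rfl

theorem fp_mnm {l : α → List ℕ} (hl : FP l) : FP fun a => mnm (l a) := by
  have h0 : FP fun p : List ℕ × (ℕ × ℕ) => (fun (_ : List ℕ) (m p : ℕ) => if decide (p < m) then p else m) p.1 p.2.1 p.2.2 :=
    FP.ite (fp_lt (by fun_prop) (by fun_prop)) (by fun_prop) (by fun_prop)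
  have h1 : FP fun l : List ℕ => l.foldl ((fun (_ : List ℕ) (m p : ℕ) => if decide (p < m) then p else m) l) (l.headD 0) := by
    refine FP.foldA h0 (B := fun n => n + sz (0 : ℕ)) (by fun_prop) FP.id (by fun_prop) ?_
    intro l i _
    refine Fq4_fold _ Fq4_step (fun p => sz p ≤ sz l + sz (0 : ℕ)) _ _ ?_ ?_
    · intro p hp
      have h2 := sz_le_of_mem (List.mem_of_mem_take hp)
      omega
    · have h2 := sz_headD l (0 : ℕ)
      have h3 := max_le_add_of_nonneg (Nat.zero_le (sz l)) (Nat.zero_le (sz (0 : ℕ)))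
      omega
  exact h1.comp hl

end

end Pool.Agent.QUA
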