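import Pool.Agent.QUA.Alg
import Pool.Agent.BEO.FpC
import Pool.Agent.G4.UPAuto
import Pool.Agent.FRN.FpB
import Pool.Agent.FRN.FpC
import Pool.Agent.FRN.FpP
import Pool.Agent.FRN.FpR
import Pool.Agent.QUA.Fq4

/-!
# QUA/Fq5: polynomial time: candidates

`take k` is the polynomial time function `FP.take` for a constant length; the other functions are compositions of maps, filters and the energies of Fq4.
-/

set_option autoImplicit false

namespace Pool.Agent.QUA

open Turing Function N487b59b3 N68a2faeb Pool.Agent.Helper22 Pool.Agent.Helper6.WB Pool.Agent.Helper49.Cons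
open Pool.Agent.BEO Pool.Agent.PQE Pool.Agent.G4 Pool.Agent.FRN

section

variable {α : Type} [N487b59b3 α]

theorem fp_take {β : Type} [N487b59b3 β] [Inhabited β] (k : ℕ) {l : α → List β} (hl : FP l) : FP fun a => (l a).take k := by
  have h := FP.take (g := fun _ : α => un k) hl (FP.const _)
  refine (congrArg FP (funext fun a => ?_)).mp h
  rw [un_length]

private theorem Fq5_cdl4 {d : α → ℕ} (hd : FP d) : FP fun a => cdl4 (d a) := by
  unfold cdl4
  exact FP.ite (FP.eqD hd (FP.const 1)) (FP.const _) (FP.ite (FP.eqD hd (FP.const 2)) (FP.const _) (FP.const _))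

theorem fp_exd {T : α → Tb} {r y z : α → ℕ} {C : α → List Tb} (hT : FP T) (hr : FP r) (hy : FP y) (hz : FP z) (hC : FP C) :
    FP fun a => exd (T a) (r a) (y a) (z a) (C a) := by
  unfold exd
  have h1 := fp_lk2 hT hy hz
  have h2 := fp_lk2 hT hz hy
  refine FP.ite (FP.eqD h1 (FP.const 0)) hC (FP.ite (fp_lt hy hr) ?_ ?_)
  · refine FP.flatMapA (h := fun a c => (cdl4 (lk2 (T a) (y a) (z a))).map fun k => ((y a, z a), k) :: c) ?_ hC
    refine FP.mapA (h := fun (p : α × Tb) (k : ℕ) => ((y p.1, z p.1), k) :: p.2) ?_ (Fq5_cdl4 (h1.comp FP.fst))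
    exact FP.cons (FP.pair (FP.pair (hy.comp (FP.fst.comp FP.fst)) (hz.comp (FP.fst.comp FP.fst))) FP.snd)
      (FP.snd.comp FP.fst)
  · refine FP.flatMapA (h := fun a c => (cdl4 (lk2 (T a) (z a) (y a))).map fun k => ((z a, y a), k) :: c) ?_ hC
    refine FP.mapA (h := fun (p : α × Tb) (k : ℕ) => ((z p.1, y p.1), k) :: p.2) ?_ (Fq5_cdl4 (h2.comp FP.fst))
    exact FP.cons (FP.pair (FP.pair (hz.comp (FP.fst.comp FP.fst)) (hy.comp (FP.fst.comp FP.fst))) FP.snd)
      (FP.snd.comp FP.fst)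

theorem fp_flt {r : α → ℕ} {S : α → List ℕ} {A : α → Tb} {C : α → List Tb} (hr : FP r) (hS : FP S) (hA : FP A) (hC : FP C) :
    FP fun a => flt (r a) (S a) (A a) (C a) := by
  unfold flt
  have h1 : FP fun p : α × Tb => ens (r p.1) (S p.1) (p.2 ++ A p.1) :=
    fp_ens (hr.comp FP.fst) (hS.comp FP.fst) (FP.append FP.snd (hA.comp FP.fst))
  have h2 : FP fun a => mnm ((C a).map fun c => ens (r a) (S a) (c ++ A a)) :=
    fp_mnm (FP.mapA (h := fun a c => ens (r a) (S a) (c ++ A a)) h1 hC)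
  exact fp_take 576 (FP.filterA (h := fun a c => decide (ens (r a) (S a) (c ++ A a) =
    mnm ((C a).map fun c => ens (r a) (S a) (c ++ A a)))) (FP.eqD h1 (h2.comp FP.fst)) hC)

theorem fp_ins {T : α → Tb} {r : α → ℕ} {A : α → Tb} {y : α → ℕ} {s : α → List ℕ × List Tb} {z : α → ℕ} (hT : FP T) (hr : FP r) (hA : FP A)
    (hy : FP y) (hs : FP s) (hz : FP z) : FP fun a => ins (T a) (r a) (A a) (y a) (s a) (z a) := by
  unfold ins
  have h1 := FP.fst' hs
  exact FP.pair (FP.cons hz h1) (fp_flt hr (FP.cons hy (FP.cons hz h1)) hA (fp_exd hT hr hy hz (FP.snd' hs)))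

end

end Pool.Agent.QUA
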