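import Pool.Agent.QUA.Alg
import Pool.Agent.BEO.FpC
import Pool.Agent.G4.UPAuto
import Pool.Agent.FRN.FpB
import Pool.Agent.FRN.FpC
import Pool.Agent.FRN.FpP
import Pool.Agent.FRN.FpR
import Pool.Agent.QUA.Fq5

/-!
# QUA/Fq6: polynomial time: the loops

Tools: `fun_prop` after `open Pool.Agent.G4` (G4/UPAuto: maps, filters, flatMap, any, all, conditions, `FP.eqD`, `FP.headDA`; `FP.foldA` for folds with a bound on the sizes of the states), BEO/FpB, FpC (`fp_look`, `fp_memb`, `fp_comp`, `fp_eq`),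
FRN/FpB .. FpR (`fp_blk`, `fp_gr`, `fp_adet`, `fp_m3`, `fp_wn`, `fp_rt4`, `fp_dv4`; private lemmas may be copied). Compare FRN/FpD for the bounds of folds.
`inn`: after `i` steps the state is `(P, C)`, `P` has `i` elements of `N`, `C` has at most `576` elements, each a list of at most `i` entries `((y, z), k)` or `((z, y), k)` with `z ∈ N`, `k < 26`.
`lft`: after `i` steps the state is `(P, A)`, `P` has `i` elements of `N`, `A` has at most `i * N.length` entries with keys in `N × N` and numbers `< 26`.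
-/

set_option autoImplicit false

namespace Pool.Agent.QUA

open Turing Function N487b59b3 N68a2faeb Pool.Agent.Helper22 Pool.Agent.Helper6.WB Pool.Agent.Helper49.Cons
open Pool.Agent.BEO Pool.Agent.PQE Pool.Agent.G4 Pool.Agent.FRN

section

variable {α : Type} [N487b59b3 α]

private theorem Fq6_cdl4 (d k : ℕ) (h : k ∈ cdl4 d) : k ≤ 25 := by
  unfold cdl4 at h
  split_ifs at h <;> simp only [List.mem_cons, List.not_mem_nil, or_false] at h <;> omega

/-- the entries of a candidate -/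
private def Fq6_ok (S : List ℕ) (c : Tb) : Prop := ∀ e ∈ c, (e.1.1 ∈ S ∧ e.1.2 ∈ S) ∧ e.2 ≤ 25

private theorem Fq6_exd {T : Tb} {r y z n : ℕ} {C : List Tb} {S : List ℕ} (hy : y ∈ S) (hz : z ∈ S)
    (hC : ∀ c ∈ C, c.length ≤ n ∧ Fq6_ok S c) :
    ∀ c ∈ exd T r y z C, c.length ≤ n + 1 ∧ Fq6_ok S c := by
  intro c hc
  unfold exd at hc
  split_ifs at hc
  · exact ⟨(hC c hc).1.trans (Nat.le_succ n), (hC c hc).2⟩
  · obtain ⟨c', hc', h⟩ := List.mem_flatMap.1 hc
    obtain ⟨k, hk, rfl⟩ := List.mem_map.1 h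
    refine ⟨by rw [List.length_cons]; exact Nat.succ_le_succ (hC c' hc').1, ?_⟩
    intro e he
    rcases List.mem_cons.1 he with rfl | he
    · exact ⟨⟨hy, hz⟩, Fq6_cdl4 _ _ hk⟩
    · exact (hC c' hc').2 e he
  · obtain ⟨c', hc', h⟩ := List.mem_flatMap.1 hc
    obtain ⟨k, hk, rfl⟩ := List.mem_map.1 h
    refine ⟨by rw [List.length_cons]; exact Nat.succ_le_succ (hC c' hc').1, ?_⟩
    intro e he
    rcases List.mem_cons.1 he with rfl | he
    · exact ⟨⟨hz, hy⟩, Fq6_cdl4 _ _ hk⟩
    · exact (hC c' hc').2 e he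

private theorem Fq6_ins (T : Tb) (r : ℕ) (A : Tb) (N : List ℕ) (y : ℕ) (i : ℕ) (hi : i ≤ N.length) :
    ((N.take i).foldl (ins T r A y) ([], [[]])).1.length = i ∧
    (∀ x ∈ ((N.take i).foldl (ins T r A y) ([], [[]])).1, x ∈ N) ∧
    ((N.take i).foldl (ins T r A y) ([], [[]])).2.length ≤ 576 ∧
    ∀ c ∈ ((N.take i).foldl (ins T r A y) ([], [[]])).2, c.length ≤ i ∧ Fq6_ok (y :: N) c := by
  refine foldl_take_ind (P := fun i (s : List ℕ × List Tb) => s.1.length = i ∧ (∀ x ∈ s.1, x ∈ N) ∧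
    s.2.length ≤ 576 ∧ ∀ c ∈ s.2, c.length ≤ i ∧ Fq6_ok (y :: N) c) ?_ ?_ i hi
  · refine ⟨rfl, by simp, by simp, ?_⟩
    intro c hc
    rw [List.mem_singleton] at hc
    subst hc
    exact ⟨le_rfl, fun e he => absurd he List.not_mem_nil⟩
  · rintro j s z hz ⟨h1, h2, h3, h4⟩
    refine ⟨by show (z :: s.1).length = j + 1; rw [List.length_cons, h1], ?_, ?_, ?_⟩
    · intro x hx
      rcases List.mem_cons.1 hx with rfl | hx
      · exact hz
      · exact h2 x hx
    · exact List.length_take_le _ _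
    · intro c hc
      have hc' : c ∈ exd T r y z s.2 := List.mem_of_mem_filter (List.mem_of_mem_take hc)
      exact Fq6_exd List.mem_cons_self (List.mem_cons_of_mem _ hz) h4 c hc'

private theorem Fq6_szc {c : Tb} {S : List ℕ} {M : ℕ} (hS : ∀ x ∈ S, sz x ≤ M) (hc : Fq6_ok S c) :
    sz c ≤ c.length * (12 * M + 57) := by
  have h : ∀ e ∈ c, sz e ≤ 6 * M + 28 := by
    rintro ⟨⟨a, b⟩, k⟩ he
    obtain ⟨⟨h1, h2⟩, h3⟩ := hc _ he
    have h4 := hS _ h1
    have h5 := hS _ h2
    have h6 := sz_nat_le k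
    simp only at h3 h4 h5
    rw [sz_pair, sz_pair]
    omega
  refine (sz_le_length_mul h).trans (Nat.mul_le_mul_left _ ?_)
  omega

private theorem Fq6_inn : FP fun q : Tb × (ℕ × (Tb × (List ℕ × ℕ))) => inn q.1 q.2.1 q.2.2.1 q.2.2.2.1 q.2.2.2.2 := by
  have h0 : FP fun q : Tb × (ℕ × (Tb × (List ℕ × ℕ))) =>
      (q.2.2.2.1.foldl (ins q.1 q.2.1 q.2.2.1 q.2.2.2.2) ([], [[]])) := by
    refine FP.foldA (g := fun (q : Tb × (ℕ × (Tb × (List ℕ × ℕ)))) (s : List ℕ × List Tb) (z : ℕ) =>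
      ins q.1 q.2.1 q.2.2.1 q.2.2.2.2 s z) ?_
      (B := fun n => 2 * (n * (2 * n + 1)) + 1 + 576 * (2 * (n * (12 * n + 57)) + 1)) (by fun_prop)
      (by fun_prop) (FP.const _) ?_
    · exact fp_ins (by fun_prop) (by fun_prop) (by fun_prop) (by fun_prop) (by fun_prop) (by fun_prop)
    · rintro ⟨T, r, A, N, y⟩ i hi
      have hM : sz N ≤ sz (T, r, A, N, y) ∧ sz y ≤ sz (T, r, A, N, y) := by
        simp only [sz_pair]
        omega
      generalize sz (T, r, A, N, y) = M at hM
      obtain ⟨hN, hy⟩ := hM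
      obtain ⟨h1, h2, h3, h4⟩ := Fq6_ins T r A N y i hi
      show sz ((N.take i).foldl (ins T r A y) ([], [[]])) ≤ _
      generalize (N.take i).foldl (ins T r A y) ([], [[]]) = s at h1 h2 h3 h4
      have hS : ∀ x ∈ y :: N, sz x ≤ M := by
        intro x hx
        rcases List.mem_cons.1 hx with rfl | hx
        · exact hy
        · exact (sz_mem_le hx).trans hN
      have hiM : i ≤ M := (hi.trans (length_le_sz N)).trans hN
      have e1 : sz s.1 ≤ M * (2 * M + 1) := by
        refine (sz_le_length_mul (C := M) fun x hx => (sz_mem_le (h2 x hx)).trans hN).trans ?_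
        rw [h1]
        exact Nat.mul_le_mul_right _ hiM
      have e2 : sz s.2 ≤ 576 * (2 * (M * (12 * M + 57)) + 1) := by
        refine (sz_le_length_mul (C := M * (12 * M + 57)) fun c hc => ?_).trans (Nat.mul_le_mul_right _ h3)
        exact (Fq6_szc hS (h4 c hc).2).trans (Nat.mul_le_mul_right _ ((h4 c hc).1.trans hiM))
      show sz (s.1, s.2) ≤ _
      rw [sz_pair]
      show _ ≤ 2 * (M * (2 * M + 1)) + 1 + 576 * (2 * (M * (12 * M + 57)) + 1)
      omega
  exact FP.snd.comp h0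

theorem fp_inn {T : α → Tb} {r : α → ℕ} {A : α → Tb} {N : α → List ℕ} {y : α → ℕ} (hT : FP T) (hr : FP r) (hA : FP A) (hN : FP N)
    (hy : FP y) : FP fun a => inn (T a) (r a) (A a) (N a) (y a) :=
  Fq6_inn.comp (f := fun a => (T a, (r a, (A a, (N a, y a))))) (FP.pair hT (FP.pair hr (FP.pair hA (FP.pair hN hy))))

private theorem Fq6_ous (T : Tb) (r : ℕ) (N : List ℕ) (i : ℕ) (hi : i ≤ N.length) :
    ((N.take i).foldl (ous T r) ([], [])).1.length = i ∧
    (∀ x ∈ ((N.take i).foldl (ous T r) ([], [])).1, x ∈ N) ∧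
    ((N.take i).foldl (ous T r) ([], [])).2.length ≤ i * N.length ∧
    Fq6_ok N ((N.take i).foldl (ous T r) ([], [])).2 := by
  have key := foldl_take_ind (P := fun i (s : List ℕ × Tb) => i ≤ N.length → s.1.length = i ∧ (∀ x ∈ s.1, x ∈ N) ∧
    s.2.length ≤ i * N.length ∧ Fq6_ok N s.2) (g := ous T r) (l := N) (x := ([], [])) ?_ ?_ i hi
  · exact key hi
  · intro _
    exact ⟨rfl, by simp, by simp, fun e he => absurd he List.not_mem_nil⟩
  · intro j s y hy hP hj
    obtain ⟨h1, h2, h3, h4⟩ := hP (by omega)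
    have h5 : ((inn T r s.2 s.1 y).headD []).length ≤ j ∧ Fq6_ok N ((inn T r s.2 s.1 y).headD []) := by
      have h6 := (Fq6_ins T r s.2 s.1 y s.1.length le_rfl).2.2.2
      rw [List.take_length] at h6
      change ∀ c ∈ inn T r s.2 s.1 y, _ at h6
      cases hh : inn T r s.2 s.1 y with
      | nil => exact ⟨Nat.zero_le _, fun e he => absurd he List.not_mem_nil⟩
      | cons c l =>
        rw [List.headD_cons]
        have h7 := h6 c (by rw [hh]; exact List.mem_cons_self)
        refine ⟨h7.1.trans (le_of_eq h1), fun e he => ?_⟩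
        obtain ⟨⟨h8, h9⟩, h10⟩ := h7.2 e he
        refine ⟨⟨?_, ?_⟩, h10⟩
        · rcases List.mem_cons.1 h8 with h | h
          · rw [h]; exact hy
          · exact h2 _ h
        · rcases List.mem_cons.1 h9 with h | h
          · rw [h]; exact hy
          · exact h2 _ h
    refine ⟨?_, ?_, ?_, ?_⟩
    · show (s.1 ++ [y]).length = j + 1
      rw [List.length_append, h1]
      rfl
    · intro x hx
      rcases List.mem_append.1 hx with hx | hx
      · exact h2 x hx
      · rw [List.mem_singleton.1 hx]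
        exact hy
    · show (((inn T r s.2 s.1 y).headD []) ++ s.2).length ≤ (j + 1) * N.length
      rw [List.length_append, Nat.succ_mul]
      have := h5.1
      omega
    · intro e he
      rcases List.mem_append.1 he with he | he
      · exact h5.2 e he
      · exact h4 e he

private theorem Fq6_lft : FP fun q : Tb × (ℕ × List ℕ) => lft q.1 q.2.1 q.2.2 := by
  have h0 : FP fun q : Tb × (ℕ × List ℕ) => (q.2.2.foldl (ous q.1 q.2.1) ([], [])) := by
    refine FP.foldA (g := fun (q : Tb × (ℕ × List ℕ)) (s : List ℕ × Tb) (y : ℕ) => ous q.1 q.2.1 s y) ?_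
      (B := fun n => 2 * (n * (2 * n + 1)) + 1 + n * n * (12 * n + 57)) (by fun_prop)
      (by fun_prop) (FP.const _) ?_
    · have e1 : FP fun p : (Tb × (ℕ × List ℕ)) × ((List ℕ × Tb) × ℕ) => p.1.1 := by fun_prop
      have e2 : FP fun p : (Tb × (ℕ × List ℕ)) × ((List ℕ × Tb) × ℕ) => p.1.2.1 := by fun_prop
      have e3 : FP fun p : (Tb × (ℕ × List ℕ)) × ((List ℕ × Tb) × ℕ) => p.2.1.1 := by fun_prop
      have e4 : FP fun p : (Tb × (ℕ × List ℕ)) × ((List ℕ × Tb) × ℕ) => p.2.1.2 := by fun_prop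
      have e5 : FP fun p : (Tb × (ℕ × List ℕ)) × ((List ℕ × Tb) × ℕ) => p.2.2 := by fun_prop
      have e6 := fp_inn e1 e2 e4 e3 e5
      exact FP.pair (FP.append e3 (FP.cons e5 (FP.const []))) (FP.append (FP.headD e6 []) e4)
    · rintro ⟨T, r, N⟩ i hi
      have hN : sz N ≤ sz (T, r, N) := by
        simp only [sz_pair]
        omega
      generalize sz (T, r, N) = M at hN
      obtain ⟨h1, h2, h3, h4⟩ := Fq6_ous T r N i hi
      show sz ((N.take i).foldl (ous T r) ([], [])) ≤ _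
      generalize (N.take i).foldl (ous T r) ([], []) = s at h1 h2 h3 h4
      have hS : ∀ x ∈ N, sz x ≤ M := fun x hx => (sz_mem_le hx).trans hN
      have hNM : N.length ≤ M := (length_le_sz N).trans hN
      have hiM : i ≤ M := hi.trans hNM
      have e1 : sz s.1 ≤ M * (2 * M + 1) := by
        refine (sz_le_length_mul (C := M) fun x hx => hS x (h2 x hx)).trans ?_
        rw [h1]
        exact Nat.mul_le_mul_right _ hiM
      have e2 : sz s.2 ≤ M * M * (12 * M + 57) :=
        (Fq6_szc hS h4).trans (Nat.mul_le_mul_right _ (h3.trans (Nat.mul_le_mul hiM hNM)))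
      show sz (s.1, s.2) ≤ _
      rw [sz_pair]
      show _ ≤ 2 * (M * (2 * M + 1)) + 1 + M * M * (12 * M + 57)
      omega
  exact FP.snd.comp h0

theorem fp_lft {T : α → Tb} {r : α → ℕ} {N : α → List ℕ} (hT : FP T) (hr : FP r) (hN : FP N) : FP fun a => lft (T a) (r a) (N a) :=
  Fq6_lft.comp (f := fun a => (T a, (r a, N a))) (FP.pair hT (FP.pair hr hN))

end

end Pool.Agent.QUA
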