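import Pool.Agent.QUA.Alg
import Pool.Agent.BEO.FpC
import Pool.Agent.G4.UPAuto
import Pool.Agent.FRN.FpB
import Pool.Agent.FRN.FpC
import Pool.Agent.FRN.FpP
import Pool.Agent.FRN.FpR
import Pool.Agent.QUA.Fq1

/-!
# QUA/Fq7: polynomial time: the table of the input

The code of an entry is computed from remainders modulo three; the tables are maps, filters and flatMaps over ranges.
-/

set_option autoImplicit false

namespace Pool.Agent.QUA

open Turing Function N487b59b3 N68a2faeb Pool.Agent.Helper22 Pool.Agent.Helper6.WB Pool.Agent.Helper49.Cons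
open Pool.Agent.BEO Pool.Agent.PQE Pool.Agent.G4 Pool.Agent.FRN

section

variable {α : Type} [N487b59b3 α]

private def Fq7_ad (r w : ℕ) : ℕ :=
  if decide (w = 1) then (if decide (r = 0) then 1 else if decide (r = 1) then 2 else 0)
  else (if decide (r = 0) then 2 else if decide (r = 1) then 0 else 1)

private def Fq7_up (s : ℕ × ℕ) (b : Bool) : ℕ × ℕ :=
  (if b then Fq7_ad s.1 s.2 else s.1, if decide (s.2 = 1) then 2 else 1)

private theorem Fq7_ad_eq (r w : ℕ) (hr : r < 3) (hw : w = 1 ∨ w = 2) : Fq7_ad r w = (r + w) % 3 := by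
  unfold Fq7_ad
  have h1 : r = 0 ∨ r = 1 ∨ r = 2 := by omega
  rcases h1 with rfl | rfl | rfl <;> rcases hw with rfl | rfl <;> rfl

private theorem Fq7_up_ok (s : ℕ × ℕ) (b : Bool) (hr : s.1 < 3) (hw : s.2 = 1 ∨ s.2 = 2) :
    (Fq7_up s b).1 < 3 ∧ ((Fq7_up s b).2 = 1 ∨ (Fq7_up s b).2 = 2) ∧
      (Fq7_up s b).1 % 3 = (s.1 + s.2 * b.toNat) % 3 ∧ (Fq7_up s b).2 % 3 = (2 * s.2) % 3 := by
  obtain ⟨r, w⟩ := s
  simp only at hr hw
  have h1 := Fq7_ad_eq r w hr hw
  unfold Fq7_up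
  rcases hw with rfl | rfl <;> cases b <;> simp [h1] <;> omega

private theorem Fq7_fold (n : ℕ) : ∀ r w : ℕ, r < 3 → (w = 1 ∨ w = 2) →
    ((Computability.encodeNat n).foldl Fq7_up (r, w)).1 = (r + w * n) % 3 := by
  induction n using Nat.strong_induction_on with
  | _ n ih =>
    intro r w hr hw
    obtain ⟨b, m, rfl⟩ : ∃ b m, n = Nat.bit b m := ⟨n.bodd, n.div2, (Nat.bit_bodd_div2 n).symm⟩
    rw [encodeNat_bit]
    split_ifs with h0
    · obtain ⟨rfl, rfl⟩ := h0
      simp only [List.foldl_nil, Nat.bit_false, Nat.mul_zero, Nat.add_zero]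
      omega
    · rw [List.foldl_cons]
      have h1 := Fq7_up_ok (r, w) b hr hw
      simp only at h1
      obtain ⟨h2, h3, h4, h5⟩ := h1
      have h6 : m < Nat.bit b m := by
        rw [Nat.bit_val]
        cases b
        · have : m ≠ 0 := fun h => h0 ⟨h, rfl⟩
          simp only [Bool.toNat_false]
          omega
        · simp only [Bool.toNat_true]
          omega
      have h7 := ih m h6 (Fq7_up (r, w) b).1 (Fq7_up (r, w) b).2 h2 h3
      rw [Prod.mk.eta] at h7
      rw [h7, Nat.bit_val]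
      rw [Nat.add_mod, h4, Nat.mul_mod, h5, ← Nat.mul_mod, ← Nat.add_mod]
      congr 1
      ring

private theorem Fq7_mod {f : α → ℕ} (hf : FP f) : FP fun a => f a % 3 := by
  have h1 : FP fun a => (Computability.encodeNat (f a)).foldl (fun s b => Fq7_up s b) (0, 1) := by
    refine FP.foldA (g := fun (_ : α) (s : ℕ × ℕ) (b : Bool) => Fq7_up s b)
      (l := fun a => Computability.encodeNat (f a)) (x := fun _ => (0, 1)) ?_ (B := fun _ => 7)
      (by fun_prop) (FP.bits hf) (FP.const _) ?_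
    · unfold Fq7_up Fq7_ad
      fun_prop
    · intro a i hi
      have h2 : ((((Computability.encodeNat (f a)).take i).foldl (fun s b => Fq7_up s b) (0, 1)).1 < 3) ∧
          ((((Computability.encodeNat (f a)).take i).foldl (fun s b => Fq7_up s b) (0, 1)).2 = 1 ∨
          (((Computability.encodeNat (f a)).take i).foldl (fun s b => Fq7_up s b) (0, 1)).2 = 2) := by
        refine foldl_take_ind (P := fun _ (s : ℕ × ℕ) => s.1 < 3 ∧ (s.2 = 1 ∨ s.2 = 2)) ?_ ?_ i hi
        · exact ⟨by norm_num, Or.inl rfl⟩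
        · rintro i s b - ⟨h3, h4⟩
          have h5 := Fq7_up_ok s b h3 h4
          exact ⟨h5.1, h5.2.1⟩
      generalize ((Computability.encodeNat (f a)).take i).foldl (fun s b => Fq7_up s b) (0, 1) = s at h2 ⊢
      obtain ⟨r, w⟩ := s
      obtain ⟨h3, h4⟩ := h2
      simp only at h3 h4
      rw [sz_pair, sz_nat, sz_nat]
      have h5 : r.size ≤ 2 := by
        rw [Nat.size_le]
        omega
      have h6 : w.size ≤ 2 := by
        rw [Nat.size_le]
        omega
      omega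
  refine (congrArg FP (funext fun a => ?_)).mp h1.fst'
  have h2 := Fq7_fold (f a) 0 1 (by norm_num) (Or.inl rfl)
  simpa using h2

private theorem Fq7_cs {A : α → Mx} (hA : FP A) : FP fun a => FRN.cs (A a) := by
  unfold FRN.cs
  exact FP.range (FP.headD hA _)

private theorem Fq7_ent {A : α → Mx} {i j : α → ℕ} (hA : FP A) (hi : FP i) (hj : FP j) :
    FP fun a => ent (A a) (i a) (j a) := by
  unfold ent
  exact FP.getDNat (FP.getDNat hA hi _) hj _

private theorem Fq7_lme {x : α → FRN.Ent} (hx : FP x) : FP fun a => lme' (x a) := by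
  unfold lme'
  have h1 := fp_m3 hx.snd'.snd'.fst'
  have h2 := fp_m3 hx.snd'.snd'.snd'.fst'
  have h3 := fp_m3 hx.snd'.snd'.snd'.snd'.fst'
  have h4 := fp_m3 hx.snd'.snd'.snd'.snd'.snd'.fst'
  exact Fq7_mod (FP.natAdd (FP.natAdd (FP.natAdd h1 (FP.natMul (FP.const 2) h2)) (FP.natMul (FP.const 2) h3)) h4)

private theorem Fq7_cde {x : α → FRN.Ent} (hx : FP x) : FP fun a => cde (x a) := by
  unfold cde
  exact FP.ite hx.fst' (FP.natAdd (Fq7_lme hx) (FP.const 1)) (FP.const 0)

private theorem Fq7_ce {A : α → Mx} {i j : α → ℕ} (hA : FP A) (hi : FP i) (hj : FP j) :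
    FP fun a => cde (ent (A a) (i a) (j a)) :=
  Fq7_cde (Fq7_ent hA hi hj)

private theorem Fq7_tb0 {A : α → Mx} (hA : FP A) : FP fun a => tb0 (A a) := by
  unfold tb0
  refine FP.flatMapA (h := fun a i => (FRN.cs (A a)).flatMap fun j =>
    if decide (cde (ent (A a) i j) = 0) then [] else
      [((i, (A a).length + j), cde (ent (A a) i j)), (((A a).length + j, i), i4 (cde (ent (A a) i j)))]) ?_ (fp_wn hA)
  refine FP.flatMapA (h := fun (p : α × ℕ) j =>
    if decide (cde (ent (A p.1) p.2 j) = 0) then [] else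
      [((p.2, (A p.1).length + j), cde (ent (A p.1) p.2 j)), (((A p.1).length + j, p.2), i4 (cde (ent (A p.1) p.2 j)))]) ?_
    (Fq7_cs (hA.comp FP.fst))
  have hA' : FP fun q : (α × ℕ) × ℕ => A q.1.1 := hA.comp (FP.fst.comp FP.fst)
  have hi : FP fun q : (α × ℕ) × ℕ => q.1.2 := FP.snd.comp FP.fst
  have hj : FP fun q : (α × ℕ) × ℕ => q.2 := FP.snd
  have hc : FP fun q : (α × ℕ) × ℕ => cde (ent (A q.1.1) q.1.2 q.2) := Fq7_ce hA' hi hj
  have hl : FP fun q : (α × ℕ) × ℕ => (A q.1.1).length + q.2 := FP.natAdd (FP.lengthNat hA') hj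
  exact FP.ite (FP.natEq hc (FP.const 0)) (FP.const [])
    (FP.cons ((hi.pair hl).pair hc) (FP.cons ((hl.pair hi).pair (fp_i4 hc)) (FP.const [])))

theorem fp_cl0 {A : α → Mx} (hA : FP A) : FP fun a => cl0 (A a) := by
  unfold cl0
  refine FP.mapA (h := fun a j => (A a).length + j) (FP.natAdd (FP.lengthNat (hA.comp FP.fst)) FP.snd) ?_
  refine FP.filterA (h := fun a j => (wn (A a)).any fun i => !(decide (cde (ent (A a) i j) = 0))) ?_ (Fq7_cs hA)
  refine FP.anyA (h := fun (p : α × ℕ) i => !(decide (cde (ent (A p.1) i p.2) = 0))) ?_ (fp_wn (hA.comp FP.fst))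
  exact FP.not (FP.natEq (Fq7_ce (hA.comp (FP.fst.comp FP.fst)) FP.snd (FP.snd.comp FP.fst)) (FP.const 0))

private theorem Fq7_rps {A : α → Mx} (hA : FP A) : FP fun a => rps (A a) := by
  unfold rps
  refine FP.filterA (h := fun a i => !((wn (A a)).any fun i' => decide (i' < i) &&
    cnn (wn (A a) ++ cl0 (A a)) (adj (tb0 (A a)) (wn (A a) ++ cl0 (A a))) i' i)) ?_ (fp_wn hA)
  refine FP.not ?_
  refine FP.anyA (h := fun (p : α × ℕ) i' => decide (i' < p.2) &&
    cnn (wn (A p.1) ++ cl0 (A p.1)) (adj (tb0 (A p.1)) (wn (A p.1) ++ cl0 (A p.1))) i' p.2) ?_ (fp_wn (hA.comp FP.fst))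
  have hA' : FP fun q : (α × ℕ) × ℕ => A q.1.1 := hA.comp (FP.fst.comp FP.fst)
  have hi : FP fun q : (α × ℕ) × ℕ => q.1.2 := FP.snd.comp FP.fst
  have hj : FP fun q : (α × ℕ) × ℕ => q.2 := FP.snd
  have hV : FP fun q : (α × ℕ) × ℕ => wn (A q.1.1) ++ cl0 (A q.1.1) := FP.append (fp_wn hA') (fp_cl0 hA')
  exact FP.and (fp_lt hj hi) (fp_cnn hV (fp_adj (Fq7_tb0 hA') hV) hj hi)

private theorem Fq7_lst {A : α → Mx} (hA : FP A) : FP fun a => lst (A a) := by
  unfold lst
  exact FP.natAdd (FP.lengthNat hA) (FP.lengthNat (FP.headD hA _))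

theorem fp_tb1 {A : α → Mx} (hA : FP A) : FP fun a => tb1 (A a) := by
  unfold tb1
  refine FP.append ?_ (Fq7_tb0 hA)
  refine FP.flatMapA (h := fun a i => [((i, lst (A a)), 1), ((lst (A a), i), 1)]) ?_ (Fq7_rps hA)
  have h1 : FP fun p : α × ℕ => lst (A p.1) := Fq7_lst (hA.comp FP.fst)
  have h2 : FP fun p : α × ℕ => p.2 := FP.snd
  exact FP.cons ((h2.pair h1).pair (FP.const 1)) (FP.cons ((h1.pair h2).pair (FP.const 1)) (FP.const []))

theorem fp_vs1 {A : α → Mx} (hA : FP A) : FP fun a => vs1 (A a) := by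
  unfold vs1
  exact FP.append (fp_wn hA) (FP.append (fp_cl0 hA) (FP.cons (Fq7_lst hA) (FP.const [])))

end

end Pool.Agent.QUA
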