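import Pool.Agent.QUA.DefT
import Pool.Agent.FRN.Gm

/-!
# QUA/Gm2: the determinant of the Gram matrix of the rows

The keys of `rwsc W H L A` are `0, .., 4 * W.length - 1`, and the rows are concatenations of blocks of length four, so
`gr` codes the matrix `Rm K * (Rm K)ᵀ` with `K = Kc W H L A`; the determinant is given by `FRN.real_det`.
-/

set_option autoImplicit false

noncomputable section

open scoped Matrix

namespace Pool.Agent.QUA

open Pool.Agent.FRM Pool.Agent.BEO Pool.Agent.PQE Pool.Agent.FRN

/-- the block numbers -/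
def Kc (W H L : List ℕ) (A : Tb) : Matrix (Fin W.length) (Fin H.length ⊕ Fin L.length) ℕ :=
  fun z c => Sum.elim (fun i => FRN.ulk (H.get i) (W.get z)) (fun i => lk2 A (W.get z) (L.get i)) c

theorem lk2_lt {A : Tb} (hA : ∀ p ∈ A, p.2 < 26) (x y : ℕ) : lk2 A x y < 26 := by
  unfold lk2 look
  cases h : A.filter fun p => decide (p.1 = (x, y)) with
  | nil => norm_num
  | cons a t =>
    have h1 : a ∈ A.filter fun p => decide (p.1 = (x, y)) := by
      rw [h]
      exact List.mem_cons_self
    exact hA a (List.mem_filter.1 h1).1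

private theorem Gm2_pick {α M : Type} [AddCommMonoid M] (f : ℕ × α → M) :
    ∀ (R : List (ℕ × α)), (R.map Prod.fst).Nodup → ∀ (i : ℕ) (u : α), (i, u) ∈ R →
      (R.map fun p => if decide (p.1 = i) then f p else 0).sum = f (i, u) := by
  intro R
  induction R with
  | nil => intro _ i u h; exact absurd h List.not_mem_nil
  | cons p R ih =>
    intro hR i u h
    rw [List.map_cons, List.nodup_cons] at hR
    rw [List.map_cons, List.sum_cons]
    rcases List.mem_cons.1 h with h1 | h1
    · have h2 : (R.map fun p => if decide (p.1 = i) then f p else 0).sum = 0 := by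
        apply List.sum_eq_zero
        intro x hx
        obtain ⟨q, hq, rfl⟩ := List.mem_map.1 hx
        rw [if_neg]
        intro h3
        apply hR.1
        rw [decide_eq_true_iff] at h3
        rw [← h1]
        exact List.mem_map.2 ⟨q, hq, h3⟩
      rw [h2, add_zero, ← h1, if_pos]
      exact decide_eq_true rfl
    · have h2 : ¬ (decide (p.1 = i) = true) := by
        intro h3
        rw [decide_eq_true_iff] at h3
        apply hR.1
        rw [h3]
        exact List.mem_map.2 ⟨(i, u), h1, rfl⟩
      rw [if_neg h2, zero_add]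
      exact ih hR.2 i u h1

private theorem Gm2_sum_flat {α M : Type} [AddCommMonoid M] (f : α → List M) (l : List α) :
    (l.flatMap f).sum = (l.map fun x => (f x).sum).sum := by
  induction l with
  | nil => rfl
  | cons x l ih => rw [List.flatMap_cons, List.sum_append, ih, List.map_cons, List.sum_cons]

private theorem Gm2_lk {R : List (ℕ × List In)} (hR : (R.map Prod.fst).Nodup) {i j : ℕ} {u v : List In}
    (hi : (i, u) ∈ R) (hj : (j, v) ∈ R) : lk (gr R) i j = dot u v := by
  unfold lk gr
  rw [List.map_flatMap, Gm2_sum_flat]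
  have h1 : ∀ p : ℕ × List In, ((R.map fun q => ((p.1, q.1), dot p.2 q.2)).map
      fun e => if (decide (e.1.1 = i) && decide (e.1.2 = j)) then e.2 else (0 : In)).sum =
      if decide (p.1 = i) then dot p.2 v else 0 := by
    intro p
    rw [List.map_map]
    by_cases hp : decide (p.1 = i) = true
    · rw [if_pos hp, ← Gm2_pick (fun q : ℕ × List In => dot p.2 q.2) R hR j v hj]
      congr 1
      refine List.map_congr_left fun q _ => ?_
      simp only [Function.comp_apply, hp, Bool.true_and]
    · rw [if_neg hp]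
      apply List.sum_eq_zero
      intro x hx
      obtain ⟨q, _, rfl⟩ := List.mem_map.1 hx
      simp only [Function.comp_apply]
      rw [if_neg]
      intro h2
      rw [Bool.and_eq_true] at h2
      exact hp h2.1
  rw [List.map_congr_left fun p _ => h1 p]
  exact Gm2_pick (fun p : ℕ × List In => dot p.2 v) R hR i u hi

/-! ### rows -/

private theorem Gm2_zvdot (u v : List In) : zv (dot u v) = (List.zipWith (fun x y => zv x * zv y) u v).sum := by
  unfold dot
  rw [zv_sum, List.map_zipWith]
  simp only [zv_mul]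

private theorem Gm2_dot_app {u v u' v' : List In} (h : u.length = v.length) :
    zv (dot (u ++ u') (v ++ v')) = zv (dot u v) + zv (dot u' v') := by
  rw [Gm2_zvdot, Gm2_zvdot, Gm2_zvdot, List.zipWith_append h, List.sum_append]

private theorem Gm2_four {u v : List In} (hu : u.length = 4) (hv : v.length = 4) :
    zv (dot u v) = ∑ k : Fin 4, zv (u.getD k.val 0) * zv (v.getD k.val 0) := by
  obtain ⟨a, b, c, d, rfl⟩ : ∃ a b c d, u = [a, b, c, d] := by
    match u, hu with
    | [a, b, c, d], _ => exact ⟨a, b, c, d, rfl⟩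
  obtain ⟨a', b', c', d', rfl⟩ : ∃ a b c d, v = [a, b, c, d] := by
    match v, hv with
    | [a, b, c, d], _ => exact ⟨a, b, c, d, rfl⟩
  rw [Gm2_zvdot, Fin.sum_univ_four]
  simp [add_assoc]

private theorem Gm2_len {α : Type} (I : List α) (F G : α → List In) (h : ∀ x ∈ I, (F x).length = (G x).length) :
    (I.flatMap F).length = (I.flatMap G).length := by
  rw [List.length_flatMap, List.length_flatMap]
  congr 1
  exact List.map_congr_left h

private theorem Gm2_flat {α : Type} (I : List α) (F G : α → List In) (hF : ∀ x ∈ I, (F x).length = 4)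
    (hG : ∀ x ∈ I, (G x).length = 4) : zv (dot (I.flatMap F) (I.flatMap G)) =
      ∑ i : Fin I.length, ∑ k : Fin 4, zv ((F (I.get i)).getD k.val 0) * zv ((G (I.get i)).getD k.val 0) := by
  have h1 : zv (dot (I.flatMap F) (I.flatMap G)) = (I.map fun x => zv (dot (F x) (G x))).sum := by
    induction I with
    | nil => rfl
    | cons x I ih =>
      rw [List.flatMap_cons, List.flatMap_cons,
        Gm2_dot_app ((hF x List.mem_cons_self).trans (hG x List.mem_cons_self).symm),
        ih (fun y hy => hF y (List.mem_cons_of_mem _ hy)) (fun y hy => hG y (List.mem_cons_of_mem _ hy)),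
        List.map_cons, List.sum_cons]
  rw [h1, ← Fin.sum_univ_fun_getElem]
  refine Finset.sum_congr rfl fun i _ => ?_
  exact Gm2_four (hF _ (List.get_mem I i)) (hG _ (List.get_mem I i))

private theorem Gm2_blk : ∀ c : ℕ, c < 26 → ∀ a : ℕ, a < 4 → (blk c a).length = 4 := by
  decide +kernel

private theorem Gm2_fst (W H L : List ℕ) (A : Tb) : (rwsc W H L A).map Prod.fst = List.range (4 * W.length) := by
  unfold rwsc
  generalize W.length = r
  induction r with
  | zero => rfl
  | succ r ih =>
    rw [List.range_succ, List.flatMap_append, List.flatMap_singleton, List.map_append, ih,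
      show 4 * (r + 1) = 4 * r + 1 + 1 + 1 + 1 by ring, List.range_succ, List.range_succ,
      List.range_succ, List.range_succ]
    simp

private theorem Gm2_mem (W H L : List ℕ) (A : Tb) (z : Fin W.length) (a : Fin 4) :
    (4 * z.val + a.val, rwc H L A (W.get z) a.val) ∈ rwsc W H L A := by
  unfold rwsc
  rw [List.mem_flatMap]
  refine ⟨z.val, List.mem_range.2 z.2, List.mem_map.2 ⟨a.val, ?_, ?_⟩⟩
  · have h := a.2
    simp only [List.mem_cons, List.not_mem_nil, or_false]
    omega
  · have h : W.getD z.val 0 = W.get z := by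
      rw [List.getD_eq_getElem W 0 z.2]
      rfl
    rw [h]

private theorem Gm2_K (W H L : List ℕ) {A : Tb} (hA : ∀ p ∈ A, p.2 < 26) :
    ∀ i c, Kc W H L A i c < 26 := by
  intro i c
  rcases c with c | c
  · change ulk (H.get c) (W.get i) < 26
    unfold ulk
    split_ifs <;> norm_num
  · exact lk2_lt hA _ _

private theorem Gm2_entry (W H L : List ℕ) {A : Tb} (hA : ∀ p ∈ A, p.2 < 26) (z z' : Fin W.length) (a a' : Fin 4) :
    zv (lk (gr (rwsc W H L A)) (4 * z.val + a.val) (4 * z'.val + a'.val)) =
      (Rm (Kc W H L A) * (Rm (Kc W H L A))ᵀ) (z, a) (z', a') := by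
  have hnd : ((rwsc W H L A).map Prod.fst).Nodup := by
    rw [Gm2_fst]
    exact List.nodup_range
  have hH : ∀ (z : Fin W.length) (a : Fin 4), ∀ x ∈ H, (blk (ulk x (W.get z)) a.val).length = 4 := by
    intro z a x _
    refine Gm2_blk _ ?_ _ a.2
    unfold ulk
    split_ifs <;> norm_num
  have hL : ∀ (z : Fin W.length) (a : Fin 4), ∀ x ∈ L, (blk (lk2 A (W.get z) x) a.val).length = 4 := by
    intro z a x _
    exact Gm2_blk _ (lk2_lt hA _ _) _ a.2
  rw [Gm2_lk hnd (Gm2_mem W H L A z a) (Gm2_mem W H L A z' a')]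
  unfold rwc
  rw [Gm2_dot_app (Gm2_len H _ _ fun x hx => (hH z a x hx).trans (hH z' a' x hx).symm),
    Gm2_flat H _ _ (hH z a) (hH z' a'), Gm2_flat L _ _ (hL z a) (hL z' a'), Matrix.mul_apply,
    Fintype.sum_prod_type, Fintype.sum_sum_type]
  rfl

theorem enc_eq (W H L : List ℕ) {A : Tb} (hA : ∀ p ∈ A, p.2 < 26) :
    ((enc W H L A : ℕ) : ℝ) =
      256 ^ W.length * Complex.normSq ((chi ((Kc W H L A).map FRN.bq) * (chi ((Kc W H L A).map FRN.bq))ᴴ).det) := by
  unfold enc
  rw [Gm2_fst, adet_eq]
  have h1 : (Matrix.of fun i j : Fin (4 * W.length) => zv (lk (gr (rwsc W H L A)) i.val j.val)).det =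
      (Rm (Kc W H L A) * (Rm (Kc W H L A))ᵀ).det := by
    rw [← Matrix.det_submatrix_equiv_self (finProdFinEquiv.trans (finCongr (Nat.mul_comm W.length 4)))]
    congr 1
    ext ⟨z, a⟩ ⟨z', a'⟩
    rw [← Gm2_entry W H L hA z z' a a', Matrix.submatrix_apply, Matrix.of_apply]
    have e1 : ∀ (z : Fin W.length) (a : Fin 4),
        ((finProdFinEquiv.trans (finCongr (Nat.mul_comm W.length 4))) (z, a)).val = 4 * z.val + a.val := by
      intro z a
      simp [finProdFinEquiv, add_comm]
    rw [e1, e1]
  rw [h1, Nat.cast_natAbs]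
  have h2 := real_det (Kc W H L A) (Gm2_K W H L hA)
  have h3 : (0 : ℝ) ≤ (((Rm (Kc W H L A)) * (Rm (Kc W H L A))ᵀ).det : ℤ) := by
    rw [h2]
    exact mul_nonneg (by positivity) (Complex.normSq_nonneg _)
  rw [abs_of_nonneg (by exact_mod_cast h3), h2]

end Pool.Agent.QUA
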