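import Pool.Agent.QUA.Ac1
import Pool.Agent.FRN.Ps

/-!
# QUA/In1: the table of the input

`FRN/Ps` (private lemmas, copy them): `cs (mx C) = List.range n`, `ent (mx C) i j = C i j`, `(lme' x : ZMod 3) = lm (cx x)`. All keys of `tb1` are different: `(i, r + j)`, `(r + j, i)` with `i < r`, `j < n`, and `(i, r + n)`, `(r + n, i)`.
-/

set_option autoImplicit false

noncomputable section

namespace Pool.Agent.QUA

open Pool.Agent.FRM Pool.Agent.FRN Pool.Agent.BEO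

variable {r n : ℕ}

private theorem In1_cs (hr : 0 < r) (C : Matrix (Fin r) (Fin n) Ent) : cs (mx C) = List.range n := by
  obtain ⟨s, rfl⟩ : ∃ s, r = s + 1 := ⟨r - 1, by omega⟩
  simp [cs, mx, List.ofFn_succ]

private theorem In1_ent (C : Matrix (Fin r) (Fin n) Ent) (i : Fin r) (j : Fin n) : ent (mx C) i.val j.val = C i j := by
  simp [ent, mx, List.getD_eq_getElem?_getD]

private theorem In1_m3 (z : ℤ) : ((m3 z : ℕ) : ZMod 3) = (z : ZMod 3) := by
  unfold m3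
  have h1 : (((z % 3).toNat : ℕ) : ℤ) = z % 3 := Int.toNat_of_nonneg (Int.emod_nonneg _ (by norm_num))
  have h2 : (((z % 3).toNat : ℕ) : ZMod 3) = (((((z % 3).toNat : ℕ) : ℤ)) : ZMod 3) := (Int.cast_natCast _).symm
  rw [h2, h1]
  exact ZMod.intCast_mod z 3

private theorem In1_lme (x : Ent) : ((lme' x : ℕ) : ZMod 3) = lm (cx x) := by
  unfold lme' lm cx
  rw [ZMod.natCast_mod]
  push_cast
  rw [In1_m3, In1_m3, In1_m3, In1_m3]

private theorem In1_lme_lt (x : Ent) : lme' x < 3 := by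
  unfold lme'
  exact Nat.mod_lt _ (by norm_num)

private theorem In1_i4 {a : ℕ} (ha : a < 4) : i4 a < 4 ∧ f4 (i4 a) = (f4 a)⁻¹ ∧ i4 (i4 a) = a ∧ (i4 a = 0 → a = 0) := by
  interval_cases a <;> decide

/-- tables with unique keys which are pairs (row, column) and (column, row) -/
private structure In1_Gd (T : Tb) (r : ℕ) : Prop where
  un : ∀ p c c', (p, c) ∈ T → (p, c') ∈ T → c = c'
  kt : ∀ x y c, ((x, y), c) ∈ T → ((x < r ∧ ¬ y < r) ∨ (¬ x < r ∧ y < r)) ∧ c < 4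
  sy : ∀ x y c, ((x, y), c) ∈ T → ((y, x), i4 c) ∈ T

private theorem In1_lk {T : Tb} (h : In1_Gd T r) {x y c : ℕ} (hc : ((x, y), c) ∈ T) : lk2 T x y = c :=
  look_eq T (x, y) 0 c hc fun y' hy' => h.un _ _ _ hy' hc

private theorem In1_lk0 {T : Tb} {x y : ℕ} (hc : ∀ c, ((x, y), c) ∉ T) : lk2 T x y = 0 :=
  look_none T (x, y) 0 hc

private theorem In1_f40 : f4 0 = 0 := by
  simp [f4]

private theorem In1_tok {T : Tb} (h : In1_Gd T r) : Tok T r := by
  refine ⟨?_, ?_, ?_⟩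
  · intro x y
    by_cases hc : ∃ c, ((x, y), c) ∈ T
    · obtain ⟨c, hc⟩ := hc
      rw [In1_lk h hc]
      exact (h.kt x y c hc).2
    · rw [In1_lk0 (fun c hc' => hc ⟨c, hc'⟩)]
      norm_num
  · intro x y
    unfold gT
    by_cases hc : ∃ c, ((x, y), c) ∈ T
    · obtain ⟨c, hc⟩ := hc
      rw [In1_lk h hc, In1_lk h (h.sy x y c hc)]
      exact (In1_i4 (h.kt x y c hc).2).2.1
    · have hc2 : ∀ c, ((y, x), c) ∉ T := fun c hc' => hc ⟨_, h.sy y x c hc'⟩
      rw [In1_lk0 (fun c hc' => hc ⟨c, hc'⟩), In1_lk0 hc2, In1_f40, inv_zero]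
  · intro x y hxy
    unfold gT
    have hc : ∀ c, ((x, y), c) ∉ T := by
      intro c hc
      unfold tt at hxy
      rcases (h.kt x y c hc).1 with ⟨h1, h2⟩ | ⟨h1, h2⟩
      · simp [h1, h2] at hxy
      · simp [h1, h2] at hxy
    rw [In1_lk0 hc, In1_f40]

private theorem In1_cde_lt (x : Ent) : cde x < 4 := by
  unfold cde
  have h := In1_lme_lt x
  split_ifs <;> omega

private theorem In1_cde0 (x : Ent) : cde x = 0 ↔ x.1 = false := by
  unfold cde
  by_cases h : x.1 = true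
  · simp [h]
  · simp [h]

private theorem In1_len (C : Matrix (Fin r) (Fin n) Ent) : (mx C).length = r := by
  simp [mx]

private theorem In1_wn (C : Matrix (Fin r) (Fin n) Ent) : wn (mx C) = List.range r := by
  unfold wn
  rw [In1_len]

private theorem In1_mem (hr : 0 < r) (C : Matrix (Fin r) (Fin n) Ent) (x y c : ℕ) : ((x, y), c) ∈ tb0 (mx C) ↔
    ∃ (i : Fin r) (j : Fin n), cde (C i j) ≠ 0 ∧
      ((x = i.val ∧ y = r + j.val ∧ c = cde (C i j)) ∨ (x = r + j.val ∧ y = i.val ∧ c = i4 (cde (C i j)))) := by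
  unfold tb0
  rw [In1_wn, In1_cs hr, In1_len, List.mem_flatMap]
  constructor
  · rintro ⟨i, hi, h⟩
    rw [List.mem_flatMap] at h
    obtain ⟨j, hj, h⟩ := h
    have hi' := List.mem_range.1 hi
    have hj' := List.mem_range.1 hj
    have he : ent (mx C) i j = C ⟨i, hi'⟩ ⟨j, hj'⟩ := In1_ent C ⟨i, hi'⟩ ⟨j, hj'⟩
    rw [he] at h
    refine ⟨⟨i, hi'⟩, ⟨j, hj'⟩, ?_⟩
    by_cases h0 : cde (C ⟨i, hi'⟩ ⟨j, hj'⟩) = 0
    · rw [if_pos (by simpa using h0)] at h
      simp at h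
    · rw [if_neg (by simpa using h0)] at h
      refine ⟨h0, ?_⟩
      rw [List.mem_cons, List.mem_singleton, Prod.mk.injEq, Prod.mk.injEq, Prod.mk.injEq, Prod.mk.injEq] at h
      rcases h with ⟨⟨h1, h2⟩, h3⟩ | ⟨⟨h1, h2⟩, h3⟩
      · exact Or.inl ⟨h1, h2, h3⟩
      · exact Or.inr ⟨h1, h2, h3⟩
  · rintro ⟨i, j, h0, h⟩
    refine ⟨i.val, List.mem_range.2 i.isLt, ?_⟩
    rw [List.mem_flatMap]
    refine ⟨j.val, List.mem_range.2 j.isLt, ?_⟩
    rw [In1_ent, if_neg (by simpa using h0)]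
    rw [List.mem_cons, List.mem_singleton, Prod.mk.injEq, Prod.mk.injEq, Prod.mk.injEq, Prod.mk.injEq]
    rcases h with ⟨h1, h2, h3⟩ | ⟨h1, h2, h3⟩
    · exact Or.inl ⟨⟨h1, h2⟩, h3⟩
    · exact Or.inr ⟨⟨h1, h2⟩, h3⟩

private theorem In1_gd0 (hr : 0 < r) (C : Matrix (Fin r) (Fin n) Ent) : In1_Gd (tb0 (mx C)) r := by
  refine ⟨?_, ?_, ?_⟩
  · rintro ⟨x, y⟩ c c' h h'
    rw [In1_mem hr] at h h'
    obtain ⟨i, j, h0, h⟩ := h
    obtain ⟨i', j', h0', h'⟩ := h'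
    have e1 := i.isLt
    have e2 := i'.isLt
    rcases h with ⟨h1, h2, h3⟩ | ⟨h1, h2, h3⟩ <;> rcases h' with ⟨h1', h2', h3'⟩ | ⟨h1', h2', h3'⟩
    · have ei : i = i' := Fin.ext (by omega)
      have ej : j = j' := Fin.ext (by omega)
      subst ei ej
      rw [h3, h3']
    · omega
    · omega
    · have ei : i = i' := Fin.ext (by omega)
      have ej : j = j' := Fin.ext (by omega)
      subst ei ej
      rw [h3, h3']
  · intro x y c h
    rw [In1_mem hr] at h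
    obtain ⟨i, j, h0, h⟩ := h
    have e1 := i.isLt
    rcases h with ⟨h1, h2, h3⟩ | ⟨h1, h2, h3⟩
    · refine ⟨Or.inl ⟨by omega, by omega⟩, ?_⟩
      rw [h3]
      exact In1_cde_lt _
    · refine ⟨Or.inr ⟨by omega, by omega⟩, ?_⟩
      rw [h3]
      exact (In1_i4 (In1_cde_lt _)).1
  · intro x y c h
    rw [In1_mem hr] at h ⊢
    obtain ⟨i, j, h0, h⟩ := h
    refine ⟨i, j, h0, ?_⟩
    rcases h with ⟨h1, h2, h3⟩ | ⟨h1, h2, h3⟩
    · exact Or.inr ⟨h2, h1, by rw [h3]⟩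
    · exact Or.inl ⟨h2, h1, by rw [h3]; exact (In1_i4 (In1_cde_lt _)).2.2.1⟩

private theorem In1_lst (hr : 0 < r) (C : Matrix (Fin r) (Fin n) Ent) : lst (mx C) = r + n := by
  obtain ⟨s, rfl⟩ : ∃ s, r = s + 1 := ⟨r - 1, by omega⟩
  simp [lst, mx, List.ofFn_succ]

private theorem In1_rps (C : Matrix (Fin r) (Fin n) Ent) {x : ℕ} (hx : x ∈ rps (mx C)) : x < r := by
  unfold rps at hx
  rw [In1_wn] at hx
  exact List.mem_range.1 (List.mem_filter.1 hx).1

private theorem In1_mem1 (hr : 0 < r) (C : Matrix (Fin r) (Fin n) Ent) (x y c : ℕ) : ((x, y), c) ∈ tb1 (mx C) ↔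
    ((∃ i ∈ rps (mx C), (x = i ∧ y = r + n ∨ x = r + n ∧ y = i) ∧ c = 1) ∨ ((x, y), c) ∈ tb0 (mx C)) := by
  unfold tb1
  rw [List.mem_append, In1_lst hr, List.mem_flatMap]
  constructor
  · rintro (⟨i, hi, h⟩ | h)
    · left
      refine ⟨i, hi, ?_⟩
      rw [List.mem_cons, List.mem_singleton, Prod.mk.injEq, Prod.mk.injEq, Prod.mk.injEq, Prod.mk.injEq] at h
      rcases h with ⟨⟨h1, h2⟩, h3⟩ | ⟨⟨h1, h2⟩, h3⟩
      · exact ⟨Or.inl ⟨h1, h2⟩, h3⟩
      · exact ⟨Or.inr ⟨h1, h2⟩, h3⟩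
    · exact Or.inr h
  · rintro (⟨i, hi, h, h3⟩ | h)
    · left
      refine ⟨i, hi, ?_⟩
      rw [List.mem_cons, List.mem_singleton, Prod.mk.injEq, Prod.mk.injEq, Prod.mk.injEq, Prod.mk.injEq]
      rcases h with ⟨h1, h2⟩ | ⟨h1, h2⟩
      · exact Or.inl ⟨⟨h1, h2⟩, h3⟩
      · exact Or.inr ⟨⟨h1, h2⟩, h3⟩
    · exact Or.inr h

private theorem In1_key (hr : 0 < r) (C : Matrix (Fin r) (Fin n) Ent) {x y c : ℕ} (h : ((x, y), c) ∈ tb0 (mx C)) :
    x < r + n ∧ y < r + n := by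
  rw [In1_mem hr] at h
  obtain ⟨i, j, h0, h⟩ := h
  have e1 := i.isLt
  have e2 := j.isLt
  rcases h with ⟨h1, h2, h3⟩ | ⟨h1, h2, h3⟩
  · exact ⟨by omega, by omega⟩
  · exact ⟨by omega, by omega⟩

private theorem In1_gd1 (hr : 0 < r) (C : Matrix (Fin r) (Fin n) Ent) : In1_Gd (tb1 (mx C)) r := by
  refine ⟨?_, ?_, ?_⟩
  · rintro ⟨x, y⟩ c c' h h'
    rw [In1_mem1 hr] at h h'
    rcases h with ⟨i, hi, h, h3⟩ | h <;> rcases h' with ⟨i', hi', h', h3'⟩ | h'
    · rw [h3, h3']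
    · exfalso
      have hk := In1_key hr C h'
      omega
    · exfalso
      have hk := In1_key hr C h
      omega
    · exact (In1_gd0 hr C).un _ _ _ h h'
  · intro x y c h
    rw [In1_mem1 hr] at h
    rcases h with ⟨i, hi, h, h3⟩ | h
    · have hx := In1_rps C hi
      refine ⟨?_, by omega⟩
      rcases h with ⟨h1, h2⟩ | ⟨h1, h2⟩
      · exact Or.inl ⟨by omega, by omega⟩
      · exact Or.inr ⟨by omega, by omega⟩
    · exact (In1_gd0 hr C).kt _ _ _ h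
  · intro x y c h
    rw [In1_mem1 hr] at h ⊢
    rcases h with ⟨i, hi, h, h3⟩ | h
    · left
      refine ⟨i, hi, ?_, ?_⟩
      · rcases h with ⟨h1, h2⟩ | ⟨h1, h2⟩
        · exact Or.inr ⟨h2, h1⟩
        · exact Or.inl ⟨h2, h1⟩
      · rw [h3]
        rfl
    · exact Or.inr ((In1_gd0 hr C).sy _ _ _ h)

theorem mx_len (C : Matrix (Fin r) (Fin n) Ent) : (mx C).length = r := by
  exact In1_len C

theorem lst_eq (hr : 0 < r) (C : Matrix (Fin r) (Fin n) Ent) : lst (mx C) = r + n := by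
  exact In1_lst hr C

theorem mem_cl0 (hr : 0 < r) (C : Matrix (Fin r) (Fin n) Ent) (x : ℕ) :
    x ∈ cl0 (mx C) ↔ ∃ j : Fin n, x = r + j.val ∧ ∃ i, (C i j).1 = true := by
  unfold cl0
  rw [List.mem_map, In1_cs hr, In1_wn, In1_len]
  constructor
  · rintro ⟨j, hj, h⟩
    rw [List.mem_filter, List.any_eq_true] at hj
    obtain ⟨hj, i, hi, h1⟩ := hj
    have hi' := List.mem_range.1 hi
    have hj' := List.mem_range.1 hj
    have he : ent (mx C) i j = C ⟨i, hi'⟩ ⟨j, hj'⟩ := In1_ent C ⟨i, hi'⟩ ⟨j, hj'⟩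
    rw [he] at h1
    refine ⟨⟨j, hj'⟩, h.symm, ⟨i, hi'⟩, ?_⟩
    have h2 : ¬ cde (C ⟨i, hi'⟩ ⟨j, hj'⟩) = 0 := by simpa using h1
    rw [In1_cde0] at h2
    simpa using h2
  · rintro ⟨j, h, i, hi⟩
    refine ⟨j.val, ?_, h.symm⟩
    rw [List.mem_filter, List.any_eq_true]
    refine ⟨List.mem_range.2 j.isLt, i.val, List.mem_range.2 i.isLt, ?_⟩
    rw [In1_ent]
    have h2 : ¬ cde (C i j) = 0 := by
      rw [In1_cde0, hi]
      simp
    simpa using h2

theorem rps_lt (C : Matrix (Fin r) (Fin n) Ent) {x : ℕ} (hx : x ∈ rps (mx C)) : x < r := by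
  exact In1_rps C hx

theorem vs1_nodup (hr : 0 < r) (C : Matrix (Fin r) (Fin n) Ent) : (vs1 (mx C)).Nodup := by
  unfold vs1
  rw [In1_lst hr, In1_wn]
  have hc : ∀ x ∈ cl0 (mx C), r ≤ x ∧ x < r + n := by
    intro x hx
    rw [mem_cl0 hr] at hx
    obtain ⟨j, hj, _⟩ := hx
    have e := j.isLt
    omega
  have hcn : (cl0 (mx C)).Nodup := by
    unfold cl0
    apply List.Nodup.map
    · intro a b h
      have h' : (mx C).length + a = (mx C).length + b := h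
      omega
    · rw [In1_cs hr]
      exact List.nodup_range.filter _
  rw [List.nodup_append]
  refine ⟨List.nodup_range, ?_, ?_⟩
  · rw [List.nodup_append]
    refine ⟨hcn, List.nodup_singleton _, ?_⟩
    intro a ha b hb
    rw [List.mem_singleton] at hb
    have h1 := hc a ha
    omega
  · intro a ha b hb
    rw [List.mem_append, List.mem_singleton] at hb
    have h1 := List.mem_range.1 ha
    rcases hb with hb | hb
    · have h2 := hc b hb
      omega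
    · omega

/-- the meaning of the codes of the entries -/
theorem cde_spec (x : Ent) : cde x < 4 ∧ ((x.1 = false ∧ cde x = 0) ∨ (x.1 = true ∧ f4 (cde x) = fz (lm (cx x)))) := by
  refine ⟨In1_cde_lt x, ?_⟩
  by_cases h : x.1 = true
  · right
    refine ⟨h, ?_⟩
    have h1 := In1_lme x
    have h2 := In1_lme_lt x
    rw [← h1]
    unfold cde
    rw [if_pos h]
    generalize lme' x = m at h2
    interval_cases m
    · simp [f4, fz]
      rfl
    · simp [f4, fz]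
    · have h3 : ((2 : ℕ) : ZMod 3) ≠ 0 := by decide
      have h4 : ((2 : ℕ) : ZMod 3) ≠ 1 := by decide
      unfold fz
      rw [if_neg h3, if_neg h4]
      simp [f4]
  · left
    have h' : x.1 = false := by simpa using h
    exact ⟨h', (In1_cde0 x).2 h'⟩

theorem tok0 (hr : 0 < r) (C : Matrix (Fin r) (Fin n) Ent) : Tok (tb0 (mx C)) r := by
  exact In1_tok (In1_gd0 hr C)

theorem tok1 (hr : 0 < r) (C : Matrix (Fin r) (Fin n) Ent) : Tok (tb1 (mx C)) r := by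
  exact In1_tok (In1_gd1 hr C)

theorem gT0_ent (hr : 0 < r) (C : Matrix (Fin r) (Fin n) Ent) (i : Fin r) (j : Fin n) :
    gT (tb0 (mx C)) i.val (r + j.val) = f4 (cde (C i j)) := by
  unfold gT
  by_cases h0 : cde (C i j) = 0
  · have hc : ∀ c, ((i.val, r + j.val), c) ∉ tb0 (mx C) := by
      intro c hc
      rw [In1_mem hr] at hc
      obtain ⟨i', j', h1, h⟩ := hc
      have e1 := i.isLt
      have e2 := i'.isLt
      rcases h with ⟨h2, h3, h4⟩ | ⟨h2, h3, h4⟩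
      · have ei : i' = i := Fin.ext (by omega)
        have ej : j' = j := Fin.ext (by omega)
        subst ei ej
        exact h1 h0
      · omega
    rw [In1_lk0 hc, h0]
  · rw [In1_lk (In1_gd0 hr C) ((In1_mem hr C _ _ _).2 ⟨i, j, h0, Or.inl ⟨rfl, rfl, rfl⟩⟩)]

theorem gT1_ent (hr : 0 < r) (C : Matrix (Fin r) (Fin n) Ent) (i : Fin r) (j : Fin n) :
    gT (tb1 (mx C)) i.val (r + j.val) = f4 (cde (C i j)) := by
  rw [← gT0_ent hr C i j]
  unfold gT
  have e3 := j.isLt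
  have e1 := i.isLt
  by_cases h : ∃ c, ((i.val, r + j.val), c) ∈ tb0 (mx C)
  · obtain ⟨c, hc⟩ := h
    rw [In1_lk (In1_gd0 hr C) hc, In1_lk (In1_gd1 hr C) ((In1_mem1 hr C _ _ _).2 (Or.inr hc))]
  · have hc : ∀ c, ((i.val, r + j.val), c) ∉ tb1 (mx C) := by
      intro c hc
      rw [In1_mem1 hr] at hc
      rcases hc with ⟨i', hi', h1, h3⟩ | hc
      · have hx := In1_rps C hi'
        omega
      · exact h ⟨c, hc⟩
    rw [In1_lk0 hc, In1_lk0 (fun c hc' => h ⟨c, hc'⟩)]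

theorem gT1_lst (hr : 0 < r) (C : Matrix (Fin r) (Fin n) Ent) {x : ℕ} (hx : x < r) :
    gT (tb1 (mx C)) x (r + n) = if x ∈ rps (mx C) then 1 else 0 := by
  unfold gT
  by_cases h : x ∈ rps (mx C)
  · rw [if_pos h, In1_lk (In1_gd1 hr C) ((In1_mem1 hr C _ _ _).2 (Or.inl ⟨x, h, Or.inl ⟨rfl, rfl⟩, rfl⟩))]
    simp [f4]
  · rw [if_neg h]
    have hc : ∀ c, ((x, r + n), c) ∉ tb1 (mx C) := by
      intro c hc
      rw [In1_mem1 hr] at hc
      rcases hc with ⟨i', hi', h1, h3⟩ | hc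
      · rcases h1 with ⟨h1, h2⟩ | ⟨h1, h2⟩
        · exact h (h1 ▸ hi')
        · omega
      · have hk := In1_key hr C hc
        omega
    rw [In1_lk0 hc, In1_f40]

end Pool.Agent.QUA
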