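import Pool.Agent.QUA.In1

/-!
# QUA/In2: the matrix with the additional column is connected

`W := wn (mx C) ++ cl0 (mx C)`, `~` the equivalence relation generated by the nonzero entries of `tb0` on `W` (`cnn_spec`). `rps` = the rows `i` such that no `i' < i` is equivalent to `i`. So two different elements of `rps` are not equivalent (`rps_sep`), and
`cn1`: if all nonzero entries join elements on the same side, every row is on the side of the last column (strong induction), and so is every column in `cl0`.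
-/

set_option autoImplicit false

noncomputable section

namespace Pool.Agent.QUA

open Pool.Agent.FRM Pool.Agent.FRN

variable {r n : ℕ}

private theorem in2_wn (C : Matrix (Fin r) (Fin n) Ent) : wn (mx C) = List.range r := by
  unfold wn
  rw [mx_len]

private theorem in2_mem (C : Matrix (Fin r) (Fin n) Ent) {x : ℕ} (hx : x < r) : x ∈ wn (mx C) := by
  rw [in2_wn]
  exact List.mem_range.2 hx

private theorem in2_memW (C : Matrix (Fin r) (Fin n) Ent) {x : ℕ} (hx : x < r) : x ∈ wn (mx C) ++ cl0 (mx C) :=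
  List.mem_append.2 (Or.inl (in2_mem C hx))

private theorem in2_rps (C : Matrix (Fin r) (Fin n) Ent) (x : ℕ) : x ∈ rps (mx C) ↔ x < r ∧ ∀ i', i' < x →
    ¬ (cnn (wn (mx C) ++ cl0 (mx C)) (adj (tb0 (mx C)) (wn (mx C) ++ cl0 (mx C))) i' x = true) := by
  constructor
  · intro h
    obtain ⟨h1, h2⟩ := List.mem_filter.1 h
    have h1' : x < r := by
      rw [in2_wn] at h1
      exact List.mem_range.1 h1
    refine ⟨h1', fun i' hi' hc => ?_⟩
    have h3 : ((wn (mx C)).any fun i' => decide (i' < x) &&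
        cnn (wn (mx C) ++ cl0 (mx C)) (adj (tb0 (mx C)) (wn (mx C) ++ cl0 (mx C))) i' x) = true := by
      rw [List.any_eq_true]
      exact ⟨i', in2_mem C (by omega), by rw [hc]; simp [hi']⟩
    rw [h3] at h2
    simp at h2
  · rintro ⟨h1, h2⟩
    refine List.mem_filter.2 ⟨in2_mem C h1, ?_⟩
    have h3 : ((wn (mx C)).any fun i' => decide (i' < x) &&
        cnn (wn (mx C) ++ cl0 (mx C)) (adj (tb0 (mx C)) (wn (mx C) ++ cl0 (mx C))) i' x) = false := by
      rw [List.any_eq_false]
      intro i' _ h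
      rw [Bool.and_eq_true, decide_eq_true_eq] at h
      exact h2 i' h.1 h.2
    rw [h3]
    rfl

theorem rps_sep (hr : 0 < r) (C : Matrix (Fin r) (Fin n) Ent) {x y : ℕ} (hx : x ∈ rps (mx C)) (hy : y ∈ rps (mx C)) (hxy : x ≠ y) :
    ¬ Relation.EqvGen (fun a b => a ∈ wn (mx C) ++ cl0 (mx C) ∧ b ∈ wn (mx C) ++ cl0 (mx C) ∧ gT (tb0 (mx C)) a b ≠ 0) x y := by
  intro h
  have hx' := (in2_rps C x).1 hx
  have hy' := (in2_rps C y).1 hy
  rcases lt_or_gt_of_ne hxy with hlt | hlt
  · exact hy'.2 x hlt ((cnn_spec (tok0 hr C) _ (in2_memW C hx'.1) (in2_memW C hy'.1)).2 h)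
  · exact hx'.2 y hlt ((cnn_spec (tok0 hr C) _ (in2_memW C hy'.1) (in2_memW C hx'.1)).2 (Relation.EqvGen.symm _ _ h))

private theorem in2_W (hr : 0 < r) (C : Matrix (Fin r) (Fin n) Ent) {x : ℕ} (hx : x ∈ wn (mx C) ++ cl0 (mx C)) :
    x < r ∨ ∃ j : Fin n, x = r + j.val := by
  rcases List.mem_append.1 hx with h | h
  · left
    rw [in2_wn] at h
    exact List.mem_range.1 h
  · right
    obtain ⟨j, hj, -⟩ := (mem_cl0 hr C x).1 h
    exact ⟨j, hj⟩

private theorem in2_agree (hr : 0 < r) (C : Matrix (Fin r) (Fin n) Ent) {x y : ℕ} (hx : x ∈ wn (mx C) ++ cl0 (mx C))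
    (hy : y ∈ wn (mx C) ++ cl0 (mx C)) (h : gT (tb0 (mx C)) x y ≠ 0) : gT (tb1 (mx C)) x y ≠ 0 := by
  rcases in2_W hr C hx with hx' | ⟨j, hj⟩ <;> rcases in2_W hr C hy with hy' | ⟨k, hk⟩
  · exact absurd ((tok0 hr C).hm.bip x y (by simp [tt, hx', hy'])) h
  · have h1 := gT0_ent hr C ⟨x, hx'⟩ k
    have h2 := gT1_ent hr C ⟨x, hx'⟩ k
    rw [hk] at h ⊢
    have h3 : gT (tb1 (mx C)) x (r + k.val) = gT (tb0 (mx C)) x (r + k.val) := h2.trans h1.symm
    rw [h3]
    exact h
  · have h1 := gT0_ent hr C ⟨y, hy'⟩ j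
    have h2 := gT1_ent hr C ⟨y, hy'⟩ j
    rw [hj] at h ⊢
    have h3 : gT (tb1 (mx C)) y (r + j.val) = gT (tb0 (mx C)) y (r + j.val) := h2.trans h1.symm
    rw [(tok1 hr C).hm.inv y (r + j.val), h3, ← (tok0 hr C).hm.inv y (r + j.val)]
    exact h
  · exact absurd ((tok0 hr C).hm.bip x y (by
      have h1 : ¬ x < r := by omega
      have h2 : ¬ y < r := by omega
      simp [tt, h1, h2])) h

theorem cn1 (hr : 0 < r) (C : Matrix (Fin r) (Fin n) Ent) : Cn (gT (tb1 (mx C))) (vs1 (mx C)).toFinset := by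
  intro A hA hne hne'
  by_contra hcon
  push Not at hcon
  set S := (vs1 (mx C)).toFinset with hS
  have hside : ∀ x ∈ S, ∀ y ∈ S, gT (tb1 (mx C)) x y ≠ 0 → (x ∈ A ↔ y ∈ A) := by
    intro x hx y hy hxy
    have hyx : gT (tb1 (mx C)) y x ≠ 0 := by
      rw [(tok1 hr C).hm.inv x y]
      exact inv_ne_zero hxy
    constructor
    · intro hxA
      by_contra hyA
      exact hxy (hcon x hxA y (Finset.mem_sdiff.2 ⟨hy, hyA⟩))
    · intro hyA
      by_contra hxA
      exact hyx (hcon y hyA x (Finset.mem_sdiff.2 ⟨hx, hxA⟩))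
  have hWS : ∀ x ∈ wn (mx C) ++ cl0 (mx C), x ∈ S := by
    intro x hx
    rw [hS, List.mem_toFinset, vs1]
    rcases List.mem_append.1 hx with h | h
    · exact List.mem_append.2 (Or.inl h)
    · exact List.mem_append.2 (Or.inr (List.mem_append.2 (Or.inl h)))
  have hL : r + n ∈ S := by
    rw [hS, List.mem_toFinset, vs1, lst_eq hr C]
    exact List.mem_append.2 (Or.inr (List.mem_append.2 (Or.inr (List.mem_singleton.2 rfl))))
  have heq : ∀ x y, Relation.EqvGen (fun a b => a ∈ wn (mx C) ++ cl0 (mx C) ∧ b ∈ wn (mx C) ++ cl0 (mx C) ∧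
      gT (tb0 (mx C)) a b ≠ 0) x y → (x ∈ A ↔ y ∈ A) := by
    intro x y h
    induction h with
    | rel a b hab => exact hside a (hWS a hab.1) b (hWS b hab.2.1) (in2_agree hr C hab.1 hab.2.1 hab.2.2)
    | refl a => exact Iff.rfl
    | symm a b _ ih => exact ih.symm
    | trans a b c _ _ ih1 ih2 => exact ih1.trans ih2
  have hrow : ∀ i, i < r → (i ∈ A ↔ r + n ∈ A) := by
    intro i
    induction i using Nat.strong_induction_on with
    | _ i ih =>
      intro hi
      by_cases hrp : i ∈ rps (mx C)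
      · refine hside i (hWS i (in2_memW C hi)) (r + n) hL ?_
        rw [gT1_lst hr C hi, if_pos hrp]
        exact one_ne_zero
      · rw [in2_rps C i] at hrp
        push Not at hrp
        obtain ⟨i', hi', hc⟩ := hrp hi
        have h1 := (cnn_spec (tok0 hr C) _ (in2_memW C (lt_trans hi' hi)) (in2_memW C hi)).1 hc
        exact (heq i' i h1).symm.trans (ih i' hi' (lt_trans hi' hi))
  have hall : ∀ x ∈ S, (x ∈ A ↔ r + n ∈ A) := by
    intro x hx
    rw [hS, List.mem_toFinset, vs1, lst_eq hr C] at hx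
    rcases List.mem_append.1 hx with h | h
    · rw [in2_wn] at h
      exact hrow x (List.mem_range.1 h)
    · rcases List.mem_append.1 h with h | h
      · have hxW : x ∈ wn (mx C) ++ cl0 (mx C) := List.mem_append.2 (Or.inr h)
        obtain ⟨j, hj, i, hi⟩ := (mem_cl0 hr C x).1 h
        have h1 : gT (tb1 (mx C)) i.val x ≠ 0 := by
          rw [hj, gT1_ent hr C i j]
          rcases (cde_spec (C i j)).2 with ⟨h2, -⟩ | ⟨-, h3⟩
          · rw [hi] at h2
            exact absurd h2 (by simp)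
          · rw [h3]
            unfold fz
            split_ifs <;> decide
        exact (hside i.val (hWS _ (in2_memW C i.isLt)) x (hWS x hxW) h1).symm.trans (hrow i.val i.isLt)
      · rw [List.mem_singleton.1 h]
  obtain ⟨a, ha⟩ := hne
  obtain ⟨b, hb⟩ := hne'
  obtain ⟨hb1, hb2⟩ := Finset.mem_sdiff.1 hb
  exact hb2 ((hall b hb1).2 ((hall a (hA ha)).1 ha))

end Pool.Agent.QUA
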