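import Pool.Agent.QUA.Defs
import Pool.Agent.FRN.Lam
import Pool.Agent.FRM.Une1

/-!
# QUA/Phi: the determinants over `ℚ(α, β)` and over `F4` vanish at the same time

`P := MvPolynomial (Fin 2) ℤ`, `ι : P → KU` (injective), `ψ : P → F4` with `X 0 ↦ w`, `X 1 ↦ u = w²`. The pairs `(x, y)` for which there are
`p, s` with `ψ s ≠ 0`, `x * ι s = ι p`, `y * ψ s = ψ p` are a subring of `KU × F4`, in which `x` determines `y`. It contains the pairs
`(ev u, fz (lm u))`, so it contains the pairs of the subdeterminants.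
-/

set_option autoImplicit false

noncomputable section

namespace Pool.Agent.QUA

open Pool.Agent.FRM

variable {V : Type} {t : V → Bool} {g : V → V → F4} {S : Finset V}

private abbrev PhiP : Type := MvPolynomial (Fin 2) ℤ

private def Phi_i : PhiP →+* KU :=
  (algebraMap (MvPolynomial (Fin 2) ℚ) KU).comp (MvPolynomial.map (Int.castRingHom ℚ))

private def Phi_p : PhiP →+* F4 := MvPolynomial.eval₂Hom (Int.castRingHom F4) ![F4.w, F4.u]

private theorem Phi_inj : Function.Injective Phi_i := by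
  intro a b h
  have h1 := IsFractionRing.injective (MvPolynomial (Fin 2) ℚ) KU h
  exact MvPolynomial.map_injective (Int.castRingHom ℚ) Int.cast_injective h1

private theorem Phi_i0 : Phi_i (MvPolynomial.X 0) = al := by
  unfold Phi_i al
  rw [RingHom.comp_apply, MvPolynomial.map_X]

private theorem Phi_i1 : Phi_i (MvPolynomial.X 1) = be := by
  unfold Phi_i be
  rw [RingHom.comp_apply, MvPolynomial.map_X]

private theorem Phi_p0 : Phi_p (MvPolynomial.X 0) = F4.w := by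
  unfold Phi_p
  rw [MvPolynomial.coe_eval₂Hom, MvPolynomial.eval₂_X]
  rfl

private theorem Phi_p1 : Phi_p (MvPolynomial.X 1) = F4.u := by
  unfold Phi_p
  rw [MvPolynomial.coe_eval₂Hom, MvPolynomial.eval₂_X]
  rfl

/-- the graph of the specialisation -/
private def Phi_T : Subring (KU × F4) where
  carrier := {z | ∃ p s : PhiP, Phi_p s ≠ 0 ∧ z.1 * Phi_i s = Phi_i p ∧ z.2 * Phi_p s = Phi_p p}
  mul_mem' := by
    rintro x y ⟨p, s, hs, h1, h2⟩ ⟨q, r, hr, h3, h4⟩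
    refine ⟨p * q, s * r, ?_, ?_, ?_⟩
    · rw [map_mul]
      exact mul_ne_zero hs hr
    · rw [map_mul, map_mul, ← h1, ← h3, Prod.fst_mul]
      ring
    · rw [map_mul, map_mul, ← h2, ← h4, Prod.snd_mul]
      ring
  one_mem' := ⟨1, 1, by rw [map_one]; exact one_ne_zero, by rw [map_one, Prod.fst_one, one_mul],
    by rw [map_one, Prod.snd_one, one_mul]⟩
  add_mem' := by
    rintro x y ⟨p, s, hs, h1, h2⟩ ⟨q, r, hr, h3, h4⟩
    refine ⟨p * r + q * s, s * r, ?_, ?_, ?_⟩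
    · rw [map_mul]
      exact mul_ne_zero hs hr
    · rw [map_mul, map_add, map_mul, map_mul, ← h1, ← h3, Prod.fst_add]
      ring
    · rw [map_mul, map_add, map_mul, map_mul, ← h2, ← h4, Prod.snd_add]
      ring
  zero_mem' := ⟨0, 1, by rw [map_one]; exact one_ne_zero, by rw [map_zero, Prod.fst_zero, zero_mul],
    by rw [map_zero, Prod.snd_zero, zero_mul]⟩
  neg_mem' := by
    rintro x ⟨p, s, hs, h1, h2⟩
    refine ⟨-p, s, hs, ?_, ?_⟩
    · rw [map_neg, ← h1, Prod.fst_neg]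
      ring
    · rw [map_neg, ← h2, Prod.snd_neg]
      ring

private theorem Phi_mem {z : KU × F4} :
    z ∈ Phi_T ↔ ∃ p s : PhiP, Phi_p s ≠ 0 ∧ z.1 * Phi_i s = Phi_i p ∧ z.2 * Phi_p s = Phi_p p := Iff.rfl

private theorem Phi_uniq {x : KU} {y y' : F4} (h : (x, y) ∈ Phi_T) (h' : (x, y') ∈ Phi_T) : y = y' := by
  obtain ⟨p, s, hs, h1, h2⟩ := Phi_mem.1 h
  obtain ⟨q, r, hr, h3, h4⟩ := Phi_mem.1 h'
  simp only at h1 h2 h3 h4
  have h5 : p * r = q * s := by
    apply Phi_inj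
    rw [map_mul, map_mul, ← h1, ← h3]
    ring
  have h6 : Phi_p p * Phi_p r = Phi_p q * Phi_p s := by
    rw [← map_mul, ← map_mul, h5]
  rw [← h2, ← h4] at h6
  have h7 : Phi_p s * Phi_p r ≠ 0 := mul_ne_zero hs hr
  apply mul_right_cancel₀ h7
  calc y * (Phi_p s * Phi_p r) = y * Phi_p s * Phi_p r := by ring
    _ = y' * Phi_p r * Phi_p s := h6
    _ = y' * (Phi_p s * Phi_p r) := by ring

private theorem Phi_inv {x : KU} {y : F4} (h : (x, y) ∈ Phi_T) (hy : y ≠ 0) : (x⁻¹, y⁻¹) ∈ Phi_T := by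
  obtain ⟨p, s, hs, h1, h2⟩ := Phi_mem.1 h
  simp only at h1 h2
  have h3 : Phi_p p ≠ 0 := by
    rw [← h2]
    exact mul_ne_zero hy hs
  have h4 : Phi_i p ≠ 0 := by
    intro h5
    have h6 : p = 0 := Phi_inj (by rw [h5, map_zero])
    rw [h6, map_zero] at h3
    exact h3 rfl
  have h5 : x ≠ 0 := by
    intro h6
    rw [h6, zero_mul] at h1
    exact h4 h1.symm
  refine Phi_mem.2 ⟨s, p, h3, ?_, ?_⟩
  · show x⁻¹ * Phi_i p = Phi_i s
    rw [← h1, ← mul_assoc, inv_mul_cancel₀ h5, one_mul]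
  · show y⁻¹ * Phi_p p = Phi_p s
    rw [← h2, ← mul_assoc, inv_mul_cancel₀ hy, one_mul]

private theorem Phi_mul {x x' : KU} {y y' : F4} (h : (x, y) ∈ Phi_T) (h' : (x', y') ∈ Phi_T) :
    (x * x', y * y') ∈ Phi_T := Phi_T.mul_mem h h'

private theorem Phi_zpow {x : KU} {y : F4} (h : (x, y) ∈ Phi_T) (hy : y ≠ 0) (n : ℤ) : (x ^ n, y ^ n) ∈ Phi_T := by
  have hp : ∀ {x : KU} {y : F4}, (x, y) ∈ Phi_T → ∀ m : ℕ, (x ^ m, y ^ m) ∈ Phi_T := by
    intro x y hxy m
    exact Phi_T.pow_mem hxy m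
  rcases Int.eq_nat_or_neg n with ⟨m, rfl | rfl⟩
  · rw [zpow_natCast, zpow_natCast]
    exact hp h m
  · rw [zpow_neg, zpow_neg, zpow_natCast, zpow_natCast, ← inv_pow, ← inv_pow]
    exact hp (Phi_inv h hy) m

private theorem Phi_of (p : PhiP) : (Phi_i p, Phi_p p) ∈ Phi_T :=
  Phi_mem.2 ⟨p, 1, by rw [map_one]; exact one_ne_zero, by rw [map_one, mul_one], by rw [map_one, mul_one]⟩

private theorem Phi_fz_add (a b : ZMod 3) : fz (a + b) = fz a * fz b := by
  revert a b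
  decide

private theorem Phi_fz_int (n : ℤ) : fz (n : ZMod 3) = F4.w ^ n := by
  have hw : F4.w ≠ 0 := by decide
  induction n using Int.induction_on with
  | zero =>
    rw [Int.cast_zero, zpow_zero]
    decide
  | succ n ih =>
    rw [Int.cast_add, Int.cast_one, Phi_fz_add, ih, zpow_add₀ hw, zpow_one]
    rfl
  | pred n ih =>
    rw [Int.cast_sub, Int.cast_one, sub_eq_add_neg, Phi_fz_add, ih, sub_eq_add_neg, zpow_add₀ hw, zpow_neg_one]
    congr 1

private theorem Phi_fz_two (n : ℤ) : fz (2 * (n : ZMod 3)) = F4.u ^ n := by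
  have h : F4.u = F4.w * F4.w := by decide
  rw [two_mul, Phi_fz_add, Phi_fz_int, h, mul_zpow]

private theorem Phi_fz_ne (c : ZMod 3) : fz c ≠ 0 := by
  revert c
  decide

private theorem Phi_ev (v : XG) : (ev v, fz (FRN.lm v)) ∈ Phi_T := by
  have hw : F4.w ≠ 0 := by decide
  have hu : F4.u ≠ 0 := by decide
  have g1 : (al, F4.w) ∈ Phi_T := by
    have h := Phi_of (MvPolynomial.X 0)
    rwa [Phi_i0, Phi_p0] at h
  have g2 : (be, F4.u) ∈ Phi_T := by
    have h := Phi_of (MvPolynomial.X 1)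
    rwa [Phi_i1, Phi_p1] at h
  have g0 : ((1 : KU), (1 : F4)) ∈ Phi_T := Phi_T.one_mem
  have g3 : (1 - al, F4.u) ∈ Phi_T := by
    have h := Phi_T.sub_mem g0 g1
    have e : (1 : F4) - F4.w = F4.u := by decide
    rwa [Prod.mk_sub_mk, e] at h
  have g4 : (1 - be, F4.w) ∈ Phi_T := by
    have h := Phi_T.sub_mem g0 g2
    have e : (1 : F4) - F4.u = F4.w := by decide
    rwa [Prod.mk_sub_mk, e] at h
  have g5 : (al - be, (1 : F4)) ∈ Phi_T := by
    have h := Phi_T.sub_mem g1 g2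
    have e : F4.w - F4.u = 1 := by decide
    rwa [Prod.mk_sub_mk, e] at h
  have g6 : ((-1 : KU), (1 : F4)) ∈ Phi_T := by
    have h := Phi_T.neg_mem g0
    have e : (-1 : F4) = 1 := by decide
    rwa [Prod.neg_mk, e] at h
  have k := Phi_mul (Phi_mul (Phi_mul (Phi_mul (Phi_mul (Phi_zpow g1 hw v.1) (Phi_zpow g2 hu v.2.1))
    (Phi_zpow g3 hu v.2.2.1)) (Phi_zpow g4 hw v.2.2.2.1)) (Phi_zpow g5 one_ne_zero v.2.2.2.2.1))
    (Phi_T.pow_mem g6 (v.2.2.2.2.2).val)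
  have e : fz (FRN.lm v) = F4.w ^ v.1 * F4.u ^ v.2.1 * F4.u ^ v.2.2.1 * F4.w ^ v.2.2.2.1 * 1 ^ v.2.2.2.2.1 *
      1 ^ (v.2.2.2.2.2).val := by
    unfold FRN.lm
    rw [Phi_fz_add, Phi_fz_add, Phi_fz_add, Phi_fz_int, Phi_fz_two, Phi_fz_two, Phi_fz_int, one_zpow, one_pow, mul_one,
      mul_one]
  rw [e]
  exact k

private theorem Phi_det {k : ℕ} (M : Matrix (Fin k) (Fin k) KU) (N : Matrix (Fin k) (Fin k) F4)
    (h : ∀ i j, (M i j, N i j) ∈ Phi_T) : (M.det, N.det) ∈ Phi_T := by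
  obtain ⟨L, hL⟩ : ∃ L : Matrix (Fin k) (Fin k) Phi_T, ∀ i j, (L i j : KU × F4) = (M i j, N i j) :=
    ⟨Matrix.of fun i j => ⟨(M i j, N i j), h i j⟩, fun i j => rfl⟩
  have h1 : ((RingHom.fst KU F4).comp Phi_T.subtype) L.det = M.det := by
    rw [RingHom.map_det]
    congr 1
    ext i j
    show ((L i j : KU × F4)).1 = M i j
    rw [hL]
  have h2 : ((RingHom.snd KU F4).comp Phi_T.subtype) L.det = N.det := by
    rw [RingHom.map_det]
    congr 1
    ext i j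
    show ((L i j : KU × F4)).2 = N i j
    rw [hL]
  have h3 : ((L.det : Phi_T) : KU × F4) = (M.det, N.det) := Prod.ext h1 h2
  rw [← h3]
  exact L.det.2

theorem phi_det {A : V → V → KU} (h1 : ∀ (k : ℕ) (f h : Fin k → V), RC t S f h → (sm A f h).det = 0 ∨ InG (sm A f h).det)
    (h2 : ∀ x ∈ S, ∀ y ∈ S, t x = true → t y = false → (A x y = 0 ∧ g x y = 0) ∨ ∃ u : XG, A x y = ev u ∧ g x y = fz (FRN.lm u)) :
    ∀ (k : ℕ) (f h : Fin k → V), RC t S f h → ((sm A f h).det = 0 ↔ (sm g f h).det = 0) := by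
  intro k f h hRC
  have hT : ((sm A f h).det, (sm g f h).det) ∈ Phi_T := by
    refine Phi_det _ _ fun i j => ?_
    show (A (f i) (h j), g (f i) (h j)) ∈ Phi_T
    rcases h2 (f i) (hRC.1 i).1 (h j) (hRC.2 j).1 (hRC.1 i).2 (hRC.2 j).2 with ⟨e1, e2⟩ | ⟨u, e1, e2⟩
    · rw [e1, e2]
      exact Phi_T.zero_mem
    · rw [e1, e2]
      exact Phi_ev u
  rcases h1 k f h hRC with h0 | ⟨u, hu⟩
  · rw [h0] at hT
    have h3 : (sm g f h).det = 0 := Phi_uniq hT Phi_T.zero_mem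
    exact ⟨fun _ => h3, fun _ => h0⟩
  · rw [hu] at hT ⊢
    have h3 : (sm g f h).det = fz (FRN.lm u) := Phi_uniq hT (Phi_ev u)
    rw [h3]
    exact ⟨fun h4 => absurd h4 (ev_ne_zero u), fun h4 => absurd h4 (Phi_fz_ne _)⟩

end Pool.Agent.QUA
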