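import Pool.Agent.QUA.In2
import Pool.Agent.QUA.Aug
import Pool.Agent.QUA.Phi

/-!
# QUA/In3: the table of a `U₂`-matrix comes from a matrix over the 2-uniform partial field

`S₀ := (wn (mx C) ++ cl0 (mx C)).toFinset`: `U2G (tt r) (gT (tb0 (mx C))) S₀` with `A x y := vE (C ⟨x, _⟩ ⟨y - r, _⟩)` for `x < r`, `r ≤ y < r + n`, else `0` (`IsU2`, `cde_spec`, `gT0_ent`); then `u2g_aug` with `e = r + n`, `Rp = (rps (mx C)).toFinset` (`rps_sep`, `gT1_ent`, `gT1_lst`).
`vs1` as a set is `insert (r + n) S₀`.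
-/

set_option autoImplicit false

noncomputable section

namespace Pool.Agent.QUA

open Pool.Agent.FRM Pool.Agent.FRN

variable {r n : ℕ}

private theorem in3_tt {r x : ℕ} : tt r x = true ↔ x < r := by
  unfold tt
  exact decide_eq_true_iff

private theorem in3_tf {r x : ℕ} : tt r x = false ↔ r ≤ x := by
  unfold tt
  rw [decide_eq_false_iff_not, not_lt]

private theorem in3_gen {α : Type} {R R' : α → α → Prop} (hR : ∀ a b, R a b → R' a b) {x y : α}
    (h : Relation.EqvGen R x y) : Relation.EqvGen R' x y := by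
  induction h with
  | rel a b hab => exact Relation.EqvGen.rel a b (hR a b hab)
  | refl a => exact Relation.EqvGen.refl a
  | symm a b _ ih => exact Relation.EqvGen.symm a b ih
  | trans a b c _ _ ih1 ih2 => exact Relation.EqvGen.trans a b c ih1 ih2

/-- the matrix with natural numbers as indices -/
private def in3_A (C : Matrix (Fin r) (Fin n) Ent) (x y : ℕ) : KU :=
  if h : x < r ∧ r ≤ y ∧ y - r < n then vE (C ⟨x, h.1⟩ ⟨y - r, h.2.2⟩) else 0

private theorem in3_A_eq (C : Matrix (Fin r) (Fin n) Ent) (i : Fin r) (j : Fin n) :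
    in3_A C i.val (r + j.val) = vE (C i j) := by
  unfold in3_A
  have h : i.val < r ∧ r ≤ r + j.val ∧ r + j.val - r < n := ⟨i.2, by omega, by have := j.2; omega⟩
  rw [dif_pos h]
  have h1 : (⟨r + j.val - r, h.2.2⟩ : Fin n) = j := Fin.ext (by
    show r + j.val - r = j.val
    omega)
  rw [h1]

private theorem in3_minor {C : Matrix (Fin r) (Fin n) Ent} (hU : IsU2 (C.map vE)) {S : Finset ℕ} (hS : ∀ y ∈ S, y < r + n)
    (k : ℕ) (f h : Fin k → ℕ) (hRC : RC (tt r) S f h) :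
    (sm (in3_A C) f h).det = 0 ∨ InG (sm (in3_A C) f h).det := by
  have hf : ∀ a, f a < r := fun a => in3_tt.1 (hRC.1 a).2
  have hh : ∀ b, r ≤ h b ∧ h b - r < n := fun b => by
    have h1 := in3_tf.1 (hRC.2 b).2
    have h2 := hS _ (hRC.2 b).1
    exact ⟨h1, by omega⟩
  have e : sm (in3_A C) f h = (C.map vE).submatrix (fun a => (⟨f a, hf a⟩ : Fin r)) (fun b => (⟨h b - r, (hh b).2⟩ : Fin n)) := by
    ext a b
    show in3_A C (f a) (h b) = vE (C ⟨f a, hf a⟩ ⟨h b - r, (hh b).2⟩)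
    unfold in3_A
    rw [dif_pos ⟨hf a, hh b⟩]
  rw [e]
  exact hU k _ _

private theorem in3_f4 : f4 0 = 0 := rfl

private theorem in3_entry {C : Matrix (Fin r) (Fin n) Ent} {T : Tb}
    (hT : ∀ (i : Fin r) (j : Fin n), gT T i.val (r + j.val) = f4 (cde (C i j))) {x y : ℕ} (hx : x < r) (hy : r ≤ y)
    (hyn : y < r + n) : (in3_A C x y = 0 ∧ gT T x y = 0) ∨ ∃ u : XG, in3_A C x y = ev u ∧ gT T x y = fz (lm u) := by
  obtain ⟨i, rfl⟩ : ∃ i : Fin r, x = i.val := ⟨⟨x, hx⟩, rfl⟩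
  obtain ⟨j, rfl⟩ : ∃ j : Fin n, y = r + j.val := ⟨⟨y - r, by omega⟩, by
    show y = r + (y - r)
    omega⟩
  rw [in3_A_eq, hT]
  rcases (cde_spec (C i j)).2 with ⟨h1, h2⟩ | ⟨h1, h2⟩
  · left
    rw [h2]
    refine ⟨?_, in3_f4⟩
    unfold vE
    rw [h1]
    rfl
  · right
    refine ⟨cx (C i j), ?_, h2⟩
    unfold vE
    rw [if_pos h1]

private theorem in3_mem (hr : 0 < r) (C : Matrix (Fin r) (Fin n) Ent) {x : ℕ}
    (hx : x ∈ (wn (mx C) ++ cl0 (mx C)).toFinset) : x < r + n := by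
  rw [List.mem_toFinset, List.mem_append, wn_mx, List.mem_range, mem_cl0 hr] at hx
  rcases hx with h | ⟨j, rfl, -⟩
  · omega
  · have := j.2
    omega

theorem u2g1 (hr : 0 < r) (C : Matrix (Fin r) (Fin n) Ent) (hU : IsU2 (C.map vE)) :
    U2G (tt r) (gT (tb1 (mx C))) (vs1 (mx C)).toFinset := by
  have hset : (vs1 (mx C)).toFinset = insert (r + n) (wn (mx C) ++ cl0 (mx C)).toFinset := by
    ext x
    unfold vs1
    rw [lst_eq hr]
    simp only [List.mem_toFinset, List.mem_append, Finset.mem_insert, List.mem_singleton]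
    tauto
  rw [hset]
  have hU2 : U2G (tt r) (gT (tb0 (mx C))) (wn (mx C) ++ cl0 (mx C)).toFinset := by
    refine ⟨in3_A C, fun k f h hRC => in3_minor hU (fun y hy => in3_mem hr C hy) k f h hRC, ?_⟩
    intro x hx y hy htx hty
    exact in3_entry (gT0_ent hr C) (in3_tt.1 htx) (in3_tf.1 hty) (in3_mem hr C hy)
  have hcol : ∀ x, r ≤ x → x ∈ (wn (mx C) ++ cl0 (mx C)).toFinset → ∃ j : Fin n, x = r + j.val := by
    intro x hx hxS
    have h1 := in3_mem hr C hxS
    exact ⟨⟨x - r, by omega⟩, by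
      show x = r + (x - r)
      omega⟩
  have hkey : ∀ x ∈ (wn (mx C) ++ cl0 (mx C)).toFinset, ∀ y ∈ (wn (mx C) ++ cl0 (mx C)).toFinset, x < r → r ≤ y →
      gT (tb1 (mx C)) x y = gT (tb0 (mx C)) x y := by
    intro x _ y hy hxr hyr
    obtain ⟨j, rfl⟩ := hcol y hyr hy
    have h1 := gT1_ent hr C ⟨x, hxr⟩ j
    have h2 := gT0_ent hr C ⟨x, hxr⟩ j
    exact h1.trans h2.symm
  refine u2g_aug (Rp := (rps (mx C)).toFinset) hU2 ?_ ?_ ?_ ?_ ?_ ?_
  · intro h
    exact absurd (in3_mem hr C h) (lt_irrefl _)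
  · exact in3_tf.2 (by omega)
  · intro x hx
    have h1 := rps_lt C (List.mem_toFinset.1 hx)
    refine ⟨?_, in3_tt.2 h1⟩
    rw [List.mem_toFinset, List.mem_append, wn_mx, List.mem_range]
    exact Or.inl h1
  · intro x hx y hy
    by_cases hxr : x < r
    · by_cases hyr : y < r
      · rw [(tok1 hr C).hm.bip x y (by rw [in3_tt.2 hxr, in3_tt.2 hyr]),
          (tok0 hr C).hm.bip x y (by rw [in3_tt.2 hxr, in3_tt.2 hyr])]
      · exact hkey x hx y hy hxr (not_lt.1 hyr)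
    · by_cases hyr : y < r
      · rw [(tok1 hr C).hm.inv y x, (tok0 hr C).hm.inv y x, hkey y hy x hx hyr (not_lt.1 hxr)]
      · rw [(tok1 hr C).hm.bip x y (by rw [in3_tf.2 (not_lt.1 hxr), in3_tf.2 (not_lt.1 hyr)]),
          (tok0 hr C).hm.bip x y (by rw [in3_tf.2 (not_lt.1 hxr), in3_tf.2 (not_lt.1 hyr)])]
  · intro x _ htx
    rw [gT1_lst hr C (in3_tt.1 htx)]
    by_cases h : x ∈ rps (mx C)
    · rw [if_pos h, if_pos (List.mem_toFinset.2 h)]
    · rw [if_neg h, if_neg fun h1 => h (List.mem_toFinset.1 h1)]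
  · intro x hx y hy hxy h
    refine rps_sep hr C (List.mem_toFinset.1 hx) (List.mem_toFinset.1 hy) hxy ?_
    exact in3_gen (fun a b hab => ⟨List.mem_toFinset.1 hab.1, List.mem_toFinset.1 hab.2.1, hab.2.2.2.2⟩) h

/-- the determinants of `C` and of the table vanish at the same time -/
theorem det1 (hr : 0 < r) (C : Matrix (Fin r) (Fin n) Ent) (hU : IsU2 (C.map vE)) (h : Fin r → Fin n) :
    (sm (gT (tb1 (mx C))) (fun a : Fin r => a.val) (fun b => r + (h b).val)).det = 0 ↔ ((C.map vE).submatrix id h).det = 0 := by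
  have hS : ∀ y ∈ Finset.range (r + n), y < r + n := fun y hy => Finset.mem_range.1 hy
  have h1 := phi_det (t := tt r) (g := gT (tb1 (mx C))) (S := Finset.range (r + n)) (A := in3_A C)
    (fun k f h hRC => in3_minor hU hS k f h hRC)
    (fun x _ y hy htx hty => in3_entry (gT1_ent hr C) (in3_tt.1 htx) (in3_tf.1 hty) (hS y hy))
    r (fun a : Fin r => a.val) (fun b => r + (h b).val)
    ⟨fun a => ⟨Finset.mem_range.2 (Nat.lt_add_right n a.2), in3_tt.2 a.2⟩,
      fun b => ⟨Finset.mem_range.2 (Nat.add_lt_add_left (h b).2 r), in3_tf.2 (Nat.le_add_right r _)⟩⟩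
  rw [← h1]
  have e : sm (in3_A C) (fun a : Fin r => a.val) (fun b => r + (h b).val) = (C.map vE).submatrix id h := by
    ext a b
    show in3_A C a.val (r + (h b).val) = vE (C a (h b))
    exact in3_A_eq C a (h b)
  rw [e]

end Pool.Agent.QUA
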