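import Pool.Agent.QUA.Fq3
import Pool.Agent.QUA.Fq6
import Pool.Agent.QUA.Fq7
import Pool.Agent.QUA.Fin

/-!
# QUA/Main: the theorem of layer F

Everything follows from the existence (EX) and the uniqueness (UN) of valid lifts.
-/

set_option autoImplicit false

namespace Pool.Agent.QUA

open Turing Function N487b59b3 N68a2faeb Pool.Agent.Helper22 Pool.Agent.Helper6.WB Pool.Agent.Helper49.Cons
open Pool.Agent.BEO Pool.Agent.PQE Pool.Agent.G4 Pool.Agent.FRN Pool.Agent.FRM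

theorem fp_nbq : FP nbq := by
  have hA : FP (fun A : Mx => A) := FP.id
  have hT := fp_tb1 hA
  have hr : FP fun A : Mx => A.length := FP.lengthNat hA
  have h1 := fp_chn hT (fp_vs1 hA)
  have h2 := fp_lft hT hr h1
  exact fp_dv4 (fp_wn hA) (fp_rt4 (fp_enc (fp_wn hA) (FP.const []) (fp_cl0 hA) h2))

theorem main (hex : EX) (hun : UN) : ∃ f : Mx → ℕ, IsPolyTime f ∧ ∀ (r n : ℕ) (C : Matrix (Fin r) (Fin n) Pool.Agent.FRN.Ent), IsU2 (C.map vE) →
    f (mx C) = nB (C.map vE) :=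
  ⟨nbq, (isPolyTime_iff nbq).2 fp_nbq, fun _ _ C hU => nbq_eq hex hun C hU⟩

end Pool.Agent.QUA
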