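import Pool.Agent.QUS.Defs
import Pool.Agent.FRM.Qdt
import Pool.Agent.FRM.Rk1

/-!
# QUA/Pa1: the complex determinant of a matrix of Hurwitz integers, squared, is the determinant of an integer matrix

`rho z` is the matrix of the multiplication by `z` in the basis `1, i, j, ω` of `Hz` (QUS/Defs): column `b` of `rho z` = coordinates of `z * e_b`.
`det_rho`: the linear map `y ↦ cq (emb y)` (matrix `Pa1_F`, invertible by `Pa1_GF`) carries `rho z` to two copies of `cq (emb z)` (`Pa1_key`);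
the block matrices are compared by a Kronecker product and the two copies are separated by `Matrix.det_blockDiagonal`.
-/

set_option autoImplicit false

noncomputable section

namespace Pool.Agent.QUA

open Pool.Agent.FRM Pool.Agent.QUS

/-- coordinates -/
def crd (z : Hz) : Fin 4 → ℤ := ![z.a, z.b, z.c, z.d]

/-- the basis -/
def bas : Fin 4 → Hz := ![⟨1, 0, 0, 0⟩, ⟨0, 1, 0, 0⟩, ⟨0, 0, 1, 0⟩, ⟨0, 0, 0, 1⟩]

/-- the matrix of the left multiplication -/
def rho (z : Hz) : Matrix (Fin 4) (Fin 4) ℤ := fun a b => crd (z * bas b) a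

/-- the integer matrix of a matrix of Hurwitz integers -/
def rhM {k : ℕ} (M : Matrix (Fin k) (Fin k) Hz) : Matrix (Fin k × Fin 4) (Fin k × Fin 4) ℤ := fun i j => rho (M i.1 j.1) i.2 j.2

private theorem Pa1_crd_mul (x w : Hz) (a : Fin 4) : crd (x * w) a = ∑ c, rho x a c * crd w c := by
  rw [Fin.sum_univ_four]
  fin_cases a <;> simp [rho, crd, bas, Hz.mul_def] <;> ring

theorem rho_mul (x y : Hz) : rho (x * y) = rho x * rho y := by
  ext a b
  rw [Matrix.mul_apply]
  show crd (x * y * bas b) a = ∑ c, rho x a c * crd (y * bas b) c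
  rw [mul_assoc, Pa1_crd_mul]

private theorem Pa1_crd_add (x y : Hz) (a : Fin 4) : crd (x + y) a = crd x a + crd y a := by
  fin_cases a <;> rfl

private def Pa1_rho : Hz →+ Matrix (Fin 4) (Fin 4) ℤ where
  toFun := rho
  map_zero' := by
    ext a b
    show crd (0 * bas b) a = 0
    rw [zero_mul]
    fin_cases a <;> rfl
  map_add' x y := by
    ext a b
    show crd ((x + y) * bas b) a = crd (x * bas b) a + crd (y * bas b) a
    rw [add_mul, Pa1_crd_add]

theorem rhM_mul {k : ℕ} (M N : Matrix (Fin k) (Fin k) Hz) : rhM (M * N) = rhM M * rhM N := by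
  ext i j
  rw [Matrix.mul_apply, Fintype.sum_prod_type]
  show Pa1_rho ((M * N) i.1 j.1) i.2 j.2 = ∑ l, ∑ c, rho (M i.1 l) i.2 c * rho (N l j.1) c j.2
  rw [Matrix.mul_apply, map_sum, Matrix.sum_apply]
  refine Finset.sum_congr rfl fun l _ => ?_
  show rho (M i.1 l * N l j.1) i.2 j.2 = _
  rw [rho_mul, Matrix.mul_apply]

/-- the two digits of an index -/
private def Pa1_e : Fin 4 ≃ Fin 2 × Fin 2 := (finProdFinEquiv (m := 2) (n := 2)).symm

/-- the matrix of the linear map `y ↦ cq (emb y)` -/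
private def Pa1_F : Matrix (Fin 4) (Fin 4) ℂ := fun a b => cq (emb (bas b)) (Pa1_e a).2 (Pa1_e a).1

/-- its inverse -/
private def Pa1_G : Matrix (Fin 4) (Fin 4) ℂ :=
  ![![1 / 2, -Complex.I / 2, -Complex.I / 2, 1 / 2], ![-Complex.I / 2, Complex.I / 2, Complex.I / 2, Complex.I / 2],
    ![0, (-1 + Complex.I) / 2, (1 + Complex.I) / 2, 0], ![0, -Complex.I, -Complex.I, 0]]

private theorem Pa1_e0 : Pa1_e 0 = (0, 0) := by decide

private theorem Pa1_e1 : Pa1_e 1 = (0, 1) := by decide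

private theorem Pa1_e2 : Pa1_e 2 = (1, 0) := by decide

private theorem Pa1_e3 : Pa1_e 3 = (1, 1) := by decide

private theorem Pa1_GF : Pa1_G * Pa1_F = 1 := by
  ext a b
  rw [Matrix.mul_apply, Fin.sum_univ_four]
  fin_cases a <;> fin_cases b <;>
    simp [Pa1_G, Pa1_F, Pa1_e0, Pa1_e1, Pa1_e2, Pa1_e3, cq, emb, bas, Complex.ext_iff] <;> norm_num

private theorem Pa1_lin (w : Hz) (α β : Fin 2) :
    cq (emb w) α β = ∑ b, cq (emb (bas b)) α β * ((crd w b : ℤ) : ℂ) := by
  rw [Fin.sum_univ_four]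
  fin_cases α <;> fin_cases β <;> simp [cq, emb, bas, crd, Complex.ext_iff] <;>
    first
    | exact ⟨by ring, by ring⟩
    | ring

/-- two copies of `cq (emb z)` -/
private def Pa1_X (z : Hz) : Matrix (Fin 4) (Fin 4) ℂ := fun a b =>
  if (Pa1_e a).1 = (Pa1_e b).1 then cq (emb z) (Pa1_e a).2 (Pa1_e b).2 else 0

private theorem Pa1_key (z : Hz) : Pa1_F * (rho z).map (Int.cast : ℤ → ℂ) = Pa1_X z * Pa1_F := by
  ext a b
  have h1 : (Pa1_F * (rho z).map (Int.cast : ℤ → ℂ)) a b = cq (emb (z * bas b)) (Pa1_e a).2 (Pa1_e a).1 := by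
    rw [Pa1_lin, Matrix.mul_apply]
    rfl
  rw [h1, map_mul, cq_mul, Matrix.mul_apply, Matrix.mul_apply, Fin.sum_univ_two, Fin.sum_univ_four]
  fin_cases a <;> simp [Pa1_F, Pa1_X, Pa1_e0, Pa1_e1, Pa1_e2, Pa1_e3]

private def Pa1_XM {k : ℕ} (M : Matrix (Fin k) (Fin k) Hz) : Matrix (Fin k × Fin 4) (Fin k × Fin 4) ℂ :=
  fun i j => Pa1_X (M i.1 j.1) i.2 j.2

private theorem Pa1_big {k : ℕ} (M : Matrix (Fin k) (Fin k) Hz) :
    Matrix.kronecker (1 : Matrix (Fin k) (Fin k) ℂ) Pa1_F * (rhM M).map (Int.cast : ℤ → ℂ) =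
      Pa1_XM M * Matrix.kronecker (1 : Matrix (Fin k) (Fin k) ℂ) Pa1_F := by
  ext ⟨i, a⟩ ⟨j, b⟩
  rw [Matrix.mul_apply, Matrix.mul_apply, Fintype.sum_prod_type, Fintype.sum_prod_type]
  have h1 := congrFun (congrFun (Pa1_key (M i j)) a) b
  rw [Matrix.mul_apply, Matrix.mul_apply] at h1
  rw [Finset.sum_eq_single i, Finset.sum_eq_single j]
  · refine (Finset.sum_congr rfl fun c _ => ?_).trans (h1.trans (Finset.sum_congr rfl fun c _ => ?_))
    · rw [Matrix.kronecker, Matrix.kroneckerMap_apply, Matrix.one_apply_eq, one_mul]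
      rfl
    · rw [Matrix.kronecker, Matrix.kroneckerMap_apply, Matrix.one_apply_eq, one_mul]
      rfl
  · intro l _ hl
    refine Finset.sum_eq_zero fun c _ => ?_
    rw [Matrix.kronecker, Matrix.kroneckerMap_apply, Matrix.one_apply_ne hl, zero_mul, mul_zero]
  · intro h
    exact absurd (Finset.mem_univ j) h
  · intro l _ hl
    refine Finset.sum_eq_zero fun c _ => ?_
    rw [Matrix.kronecker, Matrix.kroneckerMap_apply, Matrix.one_apply_ne hl.symm, zero_mul, zero_mul]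
  · intro h
    exact absurd (Finset.mem_univ i) h

/-- the reindexing -/
private def Pa1_r (k : ℕ) : Fin k × Fin 4 ≃ (Fin k × Fin 2) × Fin 2 where
  toFun x := ((x.1, (Pa1_e x.2).2), (Pa1_e x.2).1)
  invFun y := (y.1.1, Pa1_e.symm (y.2, y.1.2))
  left_inv := by
    rintro ⟨i, a⟩
    show (i, Pa1_e.symm ((Pa1_e a).1, (Pa1_e a).2)) = (i, a)
    rw [Prod.mk.eta, Equiv.symm_apply_apply]
  right_inv := by
    rintro ⟨⟨i, α⟩, β⟩
    show ((i, (Pa1_e (Pa1_e.symm (β, α))).2), (Pa1_e (Pa1_e.symm (β, α))).1) = ((i, α), β)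
    rw [Equiv.apply_symm_apply]

theorem det_rho {k : ℕ} (M : Matrix (Fin k) (Fin k) Hz) : (((rhM M).det : ℤ) : ℂ) = dC (M.map emb) ^ 2 := by
  have h1 : (((rhM M).det : ℤ) : ℂ) = ((rhM M).map (Int.cast : ℤ → ℂ)).det := by
    have h := (Int.castRingHom ℂ).map_det (rhM M)
    rw [RingHom.mapMatrix_apply] at h
    exact h
  have h2 : Pa1_XM M = (Matrix.blockDiagonal fun _ : Fin 2 => chi (M.map emb)).submatrix (Pa1_r k) (Pa1_r k) := by
    ext ⟨i, a⟩ ⟨j, b⟩
    rfl
  have h3 := congrArg Matrix.det (Pa1_big M)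
  rw [Matrix.det_mul, Matrix.det_mul, h2, Matrix.det_submatrix_equiv_self, Matrix.det_blockDiagonal, Fin.prod_univ_two] at h3
  have h4 : Pa1_F.det ≠ 0 := by
    intro h
    have h5 := congrArg Matrix.det Pa1_GF
    rw [Matrix.det_mul, h, mul_zero, Matrix.det_one] at h5
    exact zero_ne_one h5
  have h6 : (Matrix.kronecker (1 : Matrix (Fin k) (Fin k) ℂ) Pa1_F).det ≠ 0 := by
    rw [Matrix.kronecker, Matrix.det_kronecker, Matrix.det_one, one_pow, one_mul]
    exact pow_ne_zero _ h4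
  rw [h1, dC, pow_two]
  refine mul_left_cancel₀ h6 ?_
  rw [h3, mul_comm]

end Pool.Agent.QUA
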