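import Pool.Agent.QUA.Defs

/-!
# QUA/Rk: the rank of blocks is submodular

With `U = B₁ ∪ B₂`, `S A` the span in `U → F4` of the rows with index in `A` and `W B` the vectors which vanish on `B`, the rank of
the block `A × B` is the dimension of `S A ⊔ W B` minus the dimension of `W B`.
-/

set_option autoImplicit false

noncomputable section

namespace Pool.Agent.QUA

open Pool.Agent.FRM

variable {V : Type} [DecidableEq V]

/-- rank of the block `A × B` -/
def rk (g : V → V → F4) (A B : Finset V) : ℕ := (Matrix.of fun (a : A) (b : B) => g a b).rank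

private theorem Rk_map {K E F : Type} [Field K] [AddCommGroup E] [Module K E] [FiniteDimensional K E] [AddCommGroup F]
    [Module K F] (ρ : E →ₗ[K] F) (S : Submodule K E) :
    Module.finrank K (S.map ρ) + Module.finrank K (LinearMap.ker ρ) =
      Module.finrank K (S ⊔ LinearMap.ker ρ : Submodule K E) := by
  have h := LinearMap.finrank_range_add_finrank_ker (ρ.domRestrict (S ⊔ LinearMap.ker ρ))
  rw [LinearMap.range_domRestrict, LinearMap.ker_domRestrict, Submodule.map_sup] at h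
  have h1 : Submodule.map ρ (LinearMap.ker ρ) = ⊥ := by
    rw [Submodule.eq_bot_iff]
    rintro _ ⟨x, hx, rfl⟩
    exact hx
  rw [h1, sup_bot_eq] at h
  have h2 := (Submodule.comapSubtypeEquivOfLe
    (le_sup_right : LinearMap.ker ρ ≤ S ⊔ LinearMap.ker ρ)).finrank_eq
  rw [h2] at h
  exact h

/-- the span of the rows in `A` -/
private def Rk_S (g : V → V → F4) (U A : Finset V) : Submodule F4 (U → F4) :=
  Submodule.span F4 ((fun (a : V) (u : U) => g a u) '' (A : Set V))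

/-- the vectors which vanish on `B` -/
private def Rk_W (U B : Finset V) : Submodule F4 (U → F4) where
  carrier := {v | ∀ u : U, (u : V) ∈ B → v u = 0}
  add_mem' := by
    intro v w hv hw u hu
    rw [Pi.add_apply, hv u hu, hw u hu, add_zero]
  zero_mem' := fun _ _ => rfl
  smul_mem' := by
    intro c v hv u hu
    rw [Pi.smul_apply, hv u hu, smul_zero]

/-- restriction to `B ⊆ U` -/
private def Rk_r {U B : Finset V} (h : B ⊆ U) : (U → F4) →ₗ[F4] (B → F4) :=
  LinearMap.funLeft F4 F4 fun b : B => (⟨b, h b.2⟩ : U)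

omit [DecidableEq V] in
private theorem Rk_eq (g : V → V → F4) {A B U : Finset V} (h : B ⊆ U) :
    rk g A B = Module.finrank F4 ((Rk_S g U A).map (Rk_r h)) := by
  unfold rk Rk_S
  have e : Set.range (Matrix.of fun (a : A) (b : B) => g a b).row =
      Rk_r h '' ((fun (a : V) (u : U) => g a u) '' (A : Set V)) := by
    ext x
    constructor
    · rintro ⟨a, rfl⟩
      exact ⟨_, ⟨a, a.2, rfl⟩, rfl⟩
    · rintro ⟨_, ⟨a, ha, rfl⟩, rfl⟩
      exact ⟨⟨a, ha⟩, rfl⟩
  rw [Matrix.rank_eq_finrank_span_row, Submodule.map_span, e]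

omit [DecidableEq V] in
private theorem Rk_full (g : V → V → F4) (A B : Finset V) :
    rk g A B = Module.finrank F4 (Rk_S g B A) := by
  rw [Rk_eq g (Finset.Subset.refl B)]
  have h : Rk_r (Finset.Subset.refl B) = LinearMap.id := by
    refine LinearMap.ext fun v => ?_
    rfl
  rw [h, Submodule.map_id]

omit [DecidableEq V] in
private theorem Rk_ker {U B : Finset V} (h : B ⊆ U) : LinearMap.ker (Rk_r h) = Rk_W U B := by
  ext v
  rw [LinearMap.mem_ker]
  constructor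
  · intro hv u hu
    exact congrFun hv (⟨u, hu⟩ : B)
  · intro hv
    funext b
    exact hv ⟨b, h b.2⟩ b.2

omit [DecidableEq V] in
private theorem Rk_dim (g : V → V → F4) {A B U : Finset V} (h : B ⊆ U) :
    rk g A B + Module.finrank F4 (Rk_W U B) =
      Module.finrank F4 (Rk_S g U A ⊔ Rk_W U B : Submodule F4 (U → F4)) := by
  rw [Rk_eq g h, ← Rk_ker h]
  exact Rk_map _ _

private theorem Rk_W_inf (U B₁ B₂ : Finset V) : Rk_W U B₁ ⊓ Rk_W U B₂ = Rk_W U (B₁ ∪ B₂) := by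
  ext v
  rw [Submodule.mem_inf]
  constructor
  · rintro ⟨h1, h2⟩ u hu
    exact (Finset.mem_union.1 hu).elim (h1 u) (h2 u)
  · intro h
    exact ⟨fun u hu => h u (Finset.mem_union_left _ hu), fun u hu => h u (Finset.mem_union_right _ hu)⟩

private theorem Rk_W_sup (U B₁ B₂ : Finset V) : Rk_W U B₁ ⊔ Rk_W U B₂ = Rk_W U (B₁ ∩ B₂) := by
  refine le_antisymm (sup_le ?_ ?_) ?_
  · intro v h u hu
    exact h u (Finset.mem_inter.1 hu).1
  · intro v h u hu
    exact h u (Finset.mem_inter.1 hu).2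
  · intro v h
    rw [Submodule.mem_sup]
    refine ⟨fun u => if (u : V) ∈ B₁ then 0 else v u, fun u hu => if_pos hu,
      fun u => if (u : V) ∈ B₁ then v u else 0, fun u hu => ?_, ?_⟩
    · by_cases h1 : (u : V) ∈ B₁
      · exact (if_pos h1).trans (h u (Finset.mem_inter.2 ⟨h1, hu⟩))
      · exact if_neg h1
    · funext u
      rw [Pi.add_apply]
      by_cases h1 : (u : V) ∈ B₁
      · rw [if_pos h1, if_pos h1, zero_add]
      · rw [if_neg h1, if_neg h1, add_zero]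

private theorem Rk_S_sup (g : V → V → F4) (U A₁ A₂ : Finset V) :
    Rk_S g U A₁ ⊔ Rk_S g U A₂ = Rk_S g U (A₁ ∪ A₂) := by
  unfold Rk_S
  rw [← Submodule.span_union, ← Set.image_union, ← Finset.coe_union]

omit [DecidableEq V] in
private theorem Rk_S_mono (g : V → V → F4) (U : Finset V) {A A' : Finset V} (h : A ⊆ A') :
    Rk_S g U A ≤ Rk_S g U A' :=
  Submodule.span_mono (Set.image_mono (Finset.coe_subset.2 h))

theorem rk_mono (g : V → V → F4) {A A' B B' : Finset V} (hA : A ⊆ A') (hB : B ⊆ B') : rk g A B ≤ rk g A' B' := by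
  rw [Rk_eq g hB, Rk_full g A' B']
  exact (Submodule.finrank_map_le _ _).trans (Submodule.finrank_mono (Rk_S_mono g B' hA))

theorem rk_sub (g : V → V → F4) (A₁ A₂ B₁ B₂ : Finset V) :
    rk g (A₁ ∩ A₂) (B₁ ∪ B₂) + rk g (A₁ ∪ A₂) (B₁ ∩ B₂) ≤ rk g A₁ B₁ + rk g A₂ B₂ := by
  have hU1 : B₁ ⊆ B₁ ∪ B₂ := Finset.subset_union_left
  have hU2 : B₂ ⊆ B₁ ∪ B₂ := Finset.subset_union_right
  have hU3 : B₁ ∩ B₂ ⊆ B₁ ∪ B₂ := Finset.inter_subset_left.trans hU1
  have e1 := Rk_dim g (A := A₁) hU1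
  have e2 := Rk_dim g (A := A₂) hU2
  have e3 := Rk_dim g (A := A₁ ∩ A₂) (Finset.Subset.refl (B₁ ∪ B₂))
  have e4 := Rk_dim g (A := A₁ ∪ A₂) hU3
  have e5 := Submodule.finrank_sup_add_finrank_inf_eq (Rk_W (B₁ ∪ B₂) B₁) (Rk_W (B₁ ∪ B₂) B₂)
  rw [Rk_W_sup, Rk_W_inf] at e5
  have e6 := Submodule.finrank_sup_add_finrank_inf_eq (Rk_S g (B₁ ∪ B₂) A₁ ⊔ Rk_W (B₁ ∪ B₂) B₁)
    (Rk_S g (B₁ ∪ B₂) A₂ ⊔ Rk_W (B₁ ∪ B₂) B₂)
  rw [sup_sup_sup_comm, Rk_S_sup, Rk_W_sup] at e6
  have e7 : Rk_S g (B₁ ∪ B₂) (A₁ ∩ A₂) ⊔ Rk_W (B₁ ∪ B₂) (B₁ ∪ B₂) ≤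
      (Rk_S g (B₁ ∪ B₂) A₁ ⊔ Rk_W (B₁ ∪ B₂) B₁) ⊓ (Rk_S g (B₁ ∪ B₂) A₂ ⊔ Rk_W (B₁ ∪ B₂) B₂) := by
    rw [← Rk_W_inf]
    exact le_inf (sup_le_sup (Rk_S_mono g _ Finset.inter_subset_left) inf_le_left)
      (sup_le_sup (Rk_S_mono g _ Finset.inter_subset_right) inf_le_right)
  have e8 := Submodule.finrank_mono e7
  omega

end Pool.Agent.QUA
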