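import Pool.Agent.QUA.Sd1
import Pool.Agent.QUA.Bl2

/-!
# QUA/Sd2: pendant elements, minimal nonbinary sides

`ok_pend`: a separation `(A, B)` of `S.erase x` with `e ∈ A` extends to `(insert x A, B)`.
`min_ok`: a separation of `insert j A` with two nonbinary sides gives a separation of `S` with a smaller nonbinary side.
-/

set_option autoImplicit false

noncomputable section

namespace Pool.Agent.QUA

open Pool.Agent.FRM

variable {V : Type} [DecidableEq V] {t : V → Bool} {g : V → V → F4}

omit [DecidableEq V] in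
private theorem sd2_lo_symm (hg : Hm t g) {A B : Finset V} (h : Lo g A B) : Lo g B A := by
  obtain ⟨u, v, h⟩ := h
  refine ⟨fun y => (v y)⁻¹, fun x => (u x)⁻¹, fun y hy x hx => ?_⟩
  rw [hg.inv x y, h x hx y hy, mul_inv, mul_comm]

theorem ok_pend (hg : Hm t g) {S : Finset V} {x e : V} (hO : Ok g S) (hx : x ∈ S) (hxe : x ≠ e) (h : ∀ y ∈ S, y ≠ e → g x y = 0) :
    Ok g (S.erase x) := by
  intro A hA hl h1 h2
  have hxA : x ∉ A := fun hx' => (Finset.mem_erase.1 (hA hx')).1 rfl
  have hAS : A ⊆ S := hA.trans (Finset.erase_subset _ _)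
  have hne : A.Nonempty := by
    obtain ⟨a, ha, _⟩ := h2
    exact ⟨a, ha⟩
  have hne' : (S.erase x \ A).Nonempty := by
    obtain ⟨a, ha, _⟩ := h1
    exact ⟨a, ha⟩
  obtain ⟨u, v, hl⟩ := hl
  by_cases heA : e ∈ A
  · have hc : S \ insert x A = S.erase x \ A := by
      ext y
      simp only [Finset.mem_sdiff, Finset.mem_insert, Finset.mem_erase]
      tauto
    refine hO (insert x A) (Finset.insert_subset hx hAS) ?_ ?_ ?_
    · rw [hc]
      refine ⟨fun z => if z = x then 0 else u z, v, fun z hz y hy => ?_⟩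
      beta_reduce
      by_cases hzx : z = x
      · rw [if_pos hzx, zero_mul, hzx]
        obtain ⟨hy1, hy2⟩ := Finset.mem_sdiff.1 hy
        refine h y (Finset.mem_erase.1 hy1).2 ?_
        rintro rfl
        exact hy2 heA
      · rw [if_neg hzx]
        rcases Finset.mem_insert.1 hz with hz | hz
        · exact absurd hz hzx
        · exact hl z hz y hy
    · rw [hc]
      exact hv_mono h1 (Finset.subset_insert _ _) Finset.subset_union_right hne'
    · rw [hc]
      exact hv_mono h2 (Finset.Subset.refl _)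
        ((Finset.subset_insert x A).trans Finset.subset_union_right) ⟨x, Finset.mem_insert_self _ _⟩
  · have hs : S.erase x \ A ⊆ S \ A := Finset.sdiff_subset_sdiff (Finset.erase_subset _ _) (Finset.Subset.refl _)
    refine hO A hAS ?_ ?_ ?_
    · refine ⟨u, fun z => if z = x then 0 else v z, fun z hz y hy => ?_⟩
      beta_reduce
      by_cases hyx : y = x
      · rw [if_pos hyx, mul_zero, hyx, hg.inv x z, h z (hAS hz), inv_zero]
        rintro rfl
        exact heA hz
      · rw [if_neg hyx]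
        obtain ⟨hy1, hy2⟩ := Finset.mem_sdiff.1 hy
        exact hl z hz y (Finset.mem_sdiff.2 ⟨Finset.mem_erase.2 ⟨hyx, hy1⟩, hy2⟩)
    · exact hv_mono h1 (Finset.Subset.refl _) (hs.trans Finset.subset_union_right) (hne'.mono hs)
    · exact hv_mono h2 hs Finset.subset_union_right hne

theorem ok_bal {S : Finset V} (h : Bal g S) : Ok g S := by
  intro A hA _ h1 _
  obtain ⟨b, hb, hn⟩ := h1
  exact hn (bal_mono (Finset.insert_subset (Finset.mem_sdiff.1 hb).1 hA) h)

/-- the case `j ∉ P` -/
private theorem sd2_aux (hg : Hm t g) {S A : Finset V} {i j : V} (h : Cl g S A i j) (hv : Hv g (S \ A) A)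
    (hmin : ∀ P ⊆ A, P ≠ A → Lo g P (S \ P) → Hv g P (S \ P) → ¬ Hv g (S \ P) P) {P : Finset V} (hP : P ⊆ insert j A)
    (hj : j ∉ P) (hl : Lo g P (insert j A \ P)) (h1 : Hv g P (insert j A \ P)) (h2 : Hv g (insert j A \ P) P) : False := by
  have hPA : P ⊆ A := by
    intro y hy
    rcases Finset.mem_insert.1 (hP hy) with h' | h'
    · exact absurd (h' ▸ hy) hj
    · exact h'
  have hPne : P.Nonempty := by
    obtain ⟨a, ha, _⟩ := h2
    exact ⟨a, ha⟩
  have hjP' : j ∈ insert j A \ P := Finset.mem_sdiff.2 ⟨Finset.mem_insert_self _ _, hj⟩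
  have hsub : insert j A \ P ⊆ S \ P :=
    Finset.sdiff_subset_sdiff (Finset.insert_subset h.hS h.sub) (Finset.Subset.refl _)
  refine hmin P hPA ?_ ?_ ?_ ?_
  · rintro rfl
    have h3 := hv_card hg h2
    have h4 : insert j P \ P ⊆ {j} := by
      intro y hy
      obtain ⟨hy1, hy2⟩ := Finset.mem_sdiff.1 hy
      rcases Finset.mem_insert.1 hy1 with h' | h'
      · exact Finset.mem_singleton.2 h'
      · exact absurd h' hy2
    have h5 := Finset.card_le_card h4
    rw [Finset.card_singleton] at h5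
    omega
  · obtain ⟨u, v, hl⟩ := hl
    refine ⟨u, fun y => if y ∈ A then v y else v j * g i y * (g i j)⁻¹, fun x hx y hy => ?_⟩
    obtain ⟨hy1, hy2⟩ := Finset.mem_sdiff.1 hy
    by_cases hyA : y ∈ A
    · simp only [if_pos hyA]
      exact hl x hx y (Finset.mem_sdiff.2 ⟨Finset.mem_insert_of_mem hyA, hy2⟩)
    · simp only [if_neg hyA]
      have h3 := h.cl x (hPA hx) y hy1 hyA
      rw [hl x hx j hjP'] at h3
      have hne := h.ne
      rw [← mul_inv_cancel_right₀ hne (g x y), h3]
      ring
  · exact hv_mono h1 (Finset.Subset.refl _) (hsub.trans Finset.subset_union_right) ⟨j, hsub hjP'⟩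
  · refine hv_mono hv (Finset.sdiff_subset_sdiff (Finset.Subset.refl _) hPA) ?_ hPne
    intro y hy
    by_cases hyP : y ∈ P
    · exact Finset.mem_union_right _ hyP
    · exact Finset.mem_union_left _ (Finset.mem_sdiff.2 ⟨h.sub hy, hyP⟩)

theorem min_ok (hg : Hm t g) {S A : Finset V} {i j : V} (h : Cl g S A i j) (hv : Hv g (S \ A) A)
    (hmin : ∀ P ⊆ A, P ≠ A → Lo g P (S \ P) → Hv g P (S \ P) → ¬ Hv g (S \ P) P) : Ok g (insert j A) := by
  intro P hP hl h1 h2
  by_cases hj : j ∈ P
  · have e : insert j A \ (insert j A \ P) = P := Finset.sdiff_sdiff_eq_self hP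
    refine sd2_aux hg h hv hmin (P := insert j A \ P) Finset.sdiff_subset ?_ ?_ ?_ ?_
    · intro hj'
      exact (Finset.mem_sdiff.1 hj').2 hj
    · rw [e]
      exact sd2_lo_symm hg hl
    · rw [e]
      exact h2
    · rw [e]
      exact h1
  · exact sd2_aux hg h hv hmin hP hj hl h1 h2

end Pool.Agent.QUA
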