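import Pool.Agent.FRM.Qdt
import Pool.Agent.FRM.Rk1
import Pool.Agent.FRM.F4

/-!
# QUA/T4a: determinants of matrices `fromBlocks P Q 0 R`, where the block `Q` has rank one or the sizes are special

Square matrix with the row set `I₁ ⊕ I₂` and the column set `J₁ ⊕ J₂`, identified by any bijection. Factorisations into products of
block matrices, for any function of square matrices with the usual properties of a determinant in which the signs do not matter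
(`T4aD`); `dC` and the determinant over `F4` are of this kind.
-/

set_option autoImplicit false

noncomputable section

namespace Pool.Agent.QUA

open Pool.Agent.FRM

variable {I₁ I₂ J₁ J₂ : Type} [Fintype I₁] [Fintype I₂] [Fintype J₁] [Fintype J₂] [DecidableEq I₁] [DecidableEq I₂] [DecidableEq J₁] [DecidableEq J₂]

/-- `(P | u)` -/
def adc {K : Type} (P : Matrix I₁ J₁ K) (u : I₁ → K) : Matrix I₁ (Option J₁) K := fun a b => b.elim (u a) (P a)

/-- `(v; R)` -/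
def adr {K : Type} (v : J₂ → K) (R : Matrix I₂ J₂ K) : Matrix (Option I₂) J₂ K := fun a => a.elim v R

/-! ### the abstract statement -/

private structure T4aD (K L : Type) [Semiring K] [MonoidWithZero L]
    (D : (R : Type) → [Fintype R] → [DecidableEq R] → Matrix R R K → L) : Prop where
  mul : ∀ (R : Type) [Fintype R] [DecidableEq R] (M N : Matrix R R K), D R (M * N) = D R M * D R N
  perm : ∀ (R : Type) [Fintype R] [DecidableEq R] (M : Matrix R R K) (σ : Equiv.Perm R),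
    D R (M.submatrix id σ) = D R M
  eqv : ∀ (R S : Type) [Fintype R] [DecidableEq R] [Fintype S] [DecidableEq S] (e : R ≃ S)
    (M : Matrix S S K), D R (M.submatrix e e) = D S M
  blk : ∀ (R S : Type) [Fintype R] [DecidableEq R] [Fintype S] [DecidableEq S] (P : Matrix R R K)
    (Q : Matrix R S K) (N : Matrix S S K), D (R ⊕ S) (Matrix.fromBlocks P Q 0 N) = D R P * D S N
  one : ∀ (R : Type) [Fintype R] [DecidableEq R], D R (1 : Matrix R R K) = 1
  small : ∀ (R C : Type) [Fintype R] [DecidableEq R] [Fintype C] [DecidableEq C] (X : Matrix R C K)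
    (Y : Matrix C R K), Fintype.card C < Fintype.card R → D R (X * Y) = 0

section

variable {K L : Type} [Semiring K] [MonoidWithZero L]
  {D : (R : Type) → [Fintype R] → [DecidableEq R] → Matrix R R K → L}

omit [Fintype I₂] [Fintype J₁] [DecidableEq I₂] [DecidableEq J₁] in
private theorem T4a_facA (P : Matrix I₁ J₁ K) (Q : Matrix I₁ J₂ K) (R : Matrix I₂ J₂ K) :
    Matrix.fromBlocks P Q 0 R = (Matrix.fromBlocks 1 Q 0 R : Matrix (I₁ ⊕ I₂) (I₁ ⊕ J₂) K) *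
      (Matrix.fromBlocks P 0 0 1 : Matrix (I₁ ⊕ J₂) (J₁ ⊕ J₂) K) := by
  rw [Matrix.fromBlocks_multiply]
  simp

private def T4a_Y1 (K : Type) [Semiring K] (J₁ : Type) [DecidableEq J₁] : Matrix (Option J₁) J₁ K :=
  fun a b => a.elim 0 fun a => (1 : Matrix J₁ J₁ K) a b

private def T4a_Y2 (J₁ : Type) (v : J₂ → K) : Matrix (Option J₁) J₂ K :=
  fun a b => a.elim (v b) fun _ => 0

private def T4a_Y (v : J₂ → K) (R : Matrix I₂ J₂ K) : Matrix (Option J₁ ⊕ I₂) (J₁ ⊕ J₂) K :=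
  Matrix.fromBlocks (T4a_Y1 K J₁) (T4a_Y2 J₁ v) 0 R

omit [Fintype I₁] [Fintype J₂] [DecidableEq I₁] [DecidableEq J₂] in
private theorem T4a_facB (P : Matrix I₁ J₁ K) (u : I₁ → K) (v : J₂ → K) (R : Matrix I₂ J₂ K) :
    Matrix.fromBlocks P (Matrix.of fun a b => u a * v b) 0 R =
      (Matrix.fromBlocks (adc P u) 0 0 1 : Matrix (I₁ ⊕ I₂) (Option J₁ ⊕ I₂) K) *
        (T4a_Y v R : Matrix (Option J₁ ⊕ I₂) (J₁ ⊕ J₂) K) := by
  unfold T4a_Y
  rw [Matrix.fromBlocks_multiply]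
  have h1 : adc P u * T4a_Y1 K J₁ = P := by
    ext i j
    rw [Matrix.mul_apply, Fintype.sum_option]
    show u i * 0 + ∑ k, P i k * (1 : Matrix J₁ J₁ K) k j = P i j
    rw [mul_zero, zero_add, ← Matrix.mul_apply, Matrix.mul_one]
  have h2 : adc P u * T4a_Y2 J₁ v = Matrix.of fun a b => u a * v b := by
    ext i j
    rw [Matrix.mul_apply, Fintype.sum_option]
    show u i * v j + ∑ k, P i k * 0 = u i * v j
    rw [Finset.sum_eq_zero (fun k _ => mul_zero _), add_zero]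
  rw [h1, h2]
  simp

private theorem T4aD.A (h : T4aD K L D) (P : Matrix I₁ J₁ K) (Q : Matrix I₁ J₂ K) (R : Matrix I₂ J₂ K)
    (e : I₁ ⊕ I₂ ≃ J₁ ⊕ J₂) (hc : Fintype.card I₁ < Fintype.card J₁) :
    D (I₁ ⊕ I₂) ((Matrix.fromBlocks P Q 0 R).submatrix id e) = 0 := by
  have h1 : (Matrix.fromBlocks P Q 0 R).submatrix id e =
      (Matrix.fromBlocks 1 Q 0 R : Matrix (I₁ ⊕ I₂) (I₁ ⊕ J₂) K) *
      ((Matrix.fromBlocks P 0 0 1 : Matrix (I₁ ⊕ J₂) (J₁ ⊕ J₂) K).submatrix id e) := by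
    rw [T4a_facA]
    rfl
  rw [h1]
  refine h.small _ _ _ _ ?_
  have h2 := Fintype.card_congr e
  rw [Fintype.card_sum, Fintype.card_sum] at h2
  rw [Fintype.card_sum, Fintype.card_sum]
  omega

private theorem T4aD.B (h : T4aD K L D) (P : Matrix I₁ J₁ K) (u : I₁ → K) (v : J₂ → K) (R : Matrix I₂ J₂ K)
    (e : I₁ ⊕ I₂ ≃ J₁ ⊕ J₂) (hc : Fintype.card J₁ + 1 < Fintype.card I₁) :
    D (I₁ ⊕ I₂) ((Matrix.fromBlocks P (Matrix.of fun a b => u a * v b) 0 R).submatrix id e) = 0 := by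
  have h1 : (Matrix.fromBlocks P (Matrix.of fun a b => u a * v b) 0 R).submatrix id e =
      (Matrix.fromBlocks (adc P u) 0 0 1 : Matrix (I₁ ⊕ I₂) (Option J₁ ⊕ I₂) K) *
      ((T4a_Y v R : Matrix (Option J₁ ⊕ I₂) (J₁ ⊕ J₂) K).submatrix id e) := by
    rw [T4a_facB]
    rfl
  rw [h1]
  refine h.small _ _ _ _ ?_
  rw [Fintype.card_sum, Fintype.card_sum, Fintype.card_option]
  omega

private theorem T4aD.perm' (h : T4aD K L D) {R S : Type} [Fintype R] [DecidableEq R] [Fintype S] [DecidableEq S]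
    (M : Matrix R S K) (e e' : R ≃ S) : D R (M.submatrix id e) = D R (M.submatrix id e') := by
  have h1 := h.perm R (M.submatrix id e') (e.trans e'.symm)
  rw [← h1]
  congr 1
  ext i j
  show M i (e j) = M i (e' (e'.symm (e j)))
  rw [Equiv.apply_symm_apply]

private theorem T4aD.C (h : T4aD K L D) (P : Matrix I₁ J₁ K) (Q : Matrix I₁ J₂ K) (R : Matrix I₂ J₂ K)
    (e : I₁ ⊕ I₂ ≃ J₁ ⊕ J₂) (e₁ : I₁ ≃ J₁) (e₂ : I₂ ≃ J₂) :
    D (I₁ ⊕ I₂) ((Matrix.fromBlocks P Q 0 R).submatrix id e) =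
      D I₁ (P.submatrix id e₁) * D I₂ (R.submatrix id e₂) := by
  rw [h.perm' _ e (Equiv.sumCongr e₁ e₂), ← h.blk I₁ I₂ (P.submatrix id e₁) (Q.submatrix id e₂)]
  congr 1
  ext i j
  rcases i with i | i <;> rcases j with j | j <;> rfl

private def T4a_g (J I : Type) : Option J ⊕ I ≃ J ⊕ Option I where
  toFun := Sum.elim (fun a => a.elim (Sum.inr none) fun b => Sum.inl b) fun c => Sum.inr (some c)
  invFun := Sum.elim (fun b => Sum.inl (some b)) fun c => c.elim (Sum.inl none) fun c => Sum.inr c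
  left_inv := by
    rintro (a | c)
    · cases a <;> rfl
    · rfl
  right_inv := by
    rintro (b | c)
    · rfl
    · cases c <;> rfl

private theorem T4aD.DD (h : T4aD K L D) (P : Matrix I₁ J₁ K) (u : I₁ → K) (v : J₂ → K) (R : Matrix I₂ J₂ K)
    (e : I₁ ⊕ I₂ ≃ J₁ ⊕ J₂) (e₁ : I₁ ≃ Option J₁) (e₂ : Option I₂ ≃ J₂) :
    D (I₁ ⊕ I₂) ((Matrix.fromBlocks P (Matrix.of fun a b => u a * v b) 0 R).submatrix id e) =
      D I₁ ((adc P u).submatrix id e₁) * D (Option I₂) ((adr v R).submatrix id e₂) := by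
  obtain ⟨f, hf⟩ : ∃ f : I₁ ⊕ I₂ ≃ Option J₁ ⊕ I₂, f = Equiv.sumCongr e₁ (Equiv.refl I₂) := ⟨_, rfl⟩
  have h1 : (Matrix.fromBlocks P (Matrix.of fun a b => u a * v b) 0 R).submatrix id e =
      ((Matrix.fromBlocks (adc P u) 0 0 1 : Matrix (I₁ ⊕ I₂) (Option J₁ ⊕ I₂) K).submatrix id f) *
      ((T4a_Y v R : Matrix (Option J₁ ⊕ I₂) (J₁ ⊕ J₂) K).submatrix f e) := by
    rw [T4a_facB, Matrix.submatrix_mul_equiv]
  rw [h1, h.mul]
  have h2 : D (I₁ ⊕ I₂) ((Matrix.fromBlocks (adc P u) 0 0 1 : Matrix (I₁ ⊕ I₂) (Option J₁ ⊕ I₂) K).submatrix id f) =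
      D I₁ ((adc P u).submatrix id e₁) := by
    have h3 : (Matrix.fromBlocks (adc P u) 0 0 1 : Matrix (I₁ ⊕ I₂) (Option J₁ ⊕ I₂) K).submatrix id f =
        Matrix.fromBlocks ((adc P u).submatrix id e₁) 0 0 1 := by
      rw [hf]
      ext i j
      rcases i with i | i <;> rcases j with j | j <;> rfl
    rw [h3, h.blk, h.one, mul_one]
  have h4 : D (I₁ ⊕ I₂) ((T4a_Y v R : Matrix (Option J₁ ⊕ I₂) (J₁ ⊕ J₂) K).submatrix f e) =
      D (Option I₂) ((adr v R).submatrix id e₂) := by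
    obtain ⟨k, hk⟩ : ∃ k : I₁ ⊕ I₂ ≃ J₁ ⊕ Option I₂, k = f.trans (T4a_g J₁ I₂) := ⟨_, rfl⟩
    obtain ⟨N, hN⟩ : ∃ N : Matrix (J₁ ⊕ Option I₂) (J₁ ⊕ Option I₂) K,
        N = Matrix.fromBlocks 1 0 0 ((adr v R).submatrix id e₂) := ⟨_, rfl⟩
    obtain ⟨e', he'⟩ : ∃ e' : J₁ ⊕ Option I₂ ≃ J₁ ⊕ J₂, e' = Equiv.sumCongr (Equiv.refl J₁) e₂ := ⟨_, rfl⟩
    have h5 : (T4a_Y v R : Matrix (Option J₁ ⊕ I₂) (J₁ ⊕ J₂) K).submatrix f e =
        (N.submatrix k k).submatrix id ((e.trans e'.symm).trans k.symm) := by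
      ext i j
      show T4a_Y v R (f i) (e j) = N (k i) (k (k.symm (e'.symm (e j))))
      rw [Equiv.apply_symm_apply]
      obtain ⟨j', hj'⟩ : ∃ j', j' = e'.symm (e j) := ⟨_, rfl⟩
      have h6 : e j = e' j' := by rw [hj', Equiv.apply_symm_apply]
      rw [← hj', h6, hk, hN, he']
      show T4a_Y v R (f i) _ = Matrix.fromBlocks 1 0 0 ((adr v R).submatrix id e₂) (T4a_g J₁ I₂ (f i)) j'
      obtain ⟨i', hi'⟩ : ∃ i', i' = f i := ⟨_, rfl⟩
      rw [← hi']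
      rcases i' with (_ | a) | c <;> rcases j' with b | d <;> rfl
    rw [h5, h.perm, h.eqv, hN, h.blk, h.one, one_mul]
  rw [h2, h4]

end

/-! ### complex determinants and determinants over `F4` -/

private theorem T4a_small {F R C : Type} [Field F] [Fintype R] [DecidableEq R] [Fintype C] [DecidableEq C]
    (X : Matrix R C F) (Y : Matrix C R F) (h : Fintype.card C < Fintype.card R) : (X * Y).det = 0 := by
  by_contra hn
  have h1 : IsUnit (X * Y) := (Matrix.isUnit_iff_isUnit_det _).2 (isUnit_iff_ne_zero.2 hn)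
  have h2 := Matrix.rank_of_isUnit _ h1
  have h3 := (Matrix.rank_mul_le_left X Y).trans (Matrix.rank_le_card_width X)
  omega

private theorem T4a_dC : T4aD Hq ℂ (fun R _ _ M => dC M) where
  mul := fun R _ _ M N => dC_mul M N
  perm := fun R _ _ M σ => (dC_perm M σ).1
  eqv := by
    intro R S _ _ _ _ e M
    show (chi (M.submatrix e e)).det = (chi M).det
    exact Matrix.det_submatrix_equiv_self (Equiv.prodCongr e (Equiv.refl (Fin 2))) (chi M)
  blk := by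
    intro R S _ _ _ _ P Q N
    show (chi (Matrix.fromBlocks P Q 0 N)).det = (chi P).det * (chi N).det
    rw [← Matrix.det_fromBlocks_zero₂₁ (chi P) (chi Q) (chi N),
      ← Matrix.det_submatrix_equiv_self (Equiv.sumProdDistrib R S (Fin 2))
        (Matrix.fromBlocks (chi P) (chi Q) 0 (chi N))]
    congr 1
    ext ⟨i, a⟩ ⟨j, b⟩
    rcases i with i | i <;> rcases j with j | j
    · rfl
    · rfl
    · show cq ((0 : Matrix S R Hq) i j) a b = 0
      rw [Matrix.zero_apply, cq_zero]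
      rfl
    · rfl
  one := fun R _ _ => dC_one
  small := by
    intro R C _ _ _ _ X Y h
    show (chi (X * Y)).det = 0
    rw [chi_mul]
    refine T4a_small _ _ ?_
    rw [Fintype.card_prod, Fintype.card_prod, Fintype.card_fin]
    omega

private theorem T4a_F4_neg (x : F4) : -x = x := rfl

private theorem T4a_F4_sign {R : Type} [Fintype R] [DecidableEq R] (σ : Equiv.Perm R) :
    ((Equiv.Perm.sign σ : ℤ) : F4) = 1 := by
  rcases Int.units_eq_one_or (Equiv.Perm.sign σ) with h | h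
  · rw [h]
    simp
  · rw [h]
    simp only [Units.val_neg, Units.val_one, Int.cast_neg, Int.cast_one]
    exact T4a_F4_neg 1

private theorem T4a_F4 : T4aD F4 F4 (fun R _ _ M => M.det) where
  mul := fun R _ _ M N => Matrix.det_mul M N
  perm := by
    intro R _ _ M σ
    show (M.submatrix id σ).det = M.det
    rw [Matrix.det_permute', T4a_F4_sign, one_mul]
  eqv := fun R S _ _ _ _ e M => Matrix.det_submatrix_equiv_self e M
  blk := fun R S _ _ _ _ P Q N => Matrix.det_fromBlocks_zero₂₁ P Q N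
  one := fun R _ _ => Matrix.det_one
  small := fun R C _ _ _ _ X Y h => T4a_small X Y h

theorem dC_A (P : Matrix I₁ J₁ Hq) (Q : Matrix I₁ J₂ Hq) (R : Matrix I₂ J₂ Hq) (e : I₁ ⊕ I₂ ≃ J₁ ⊕ J₂)
    (h : Fintype.card I₁ < Fintype.card J₁) : dC ((Matrix.fromBlocks P Q 0 R).submatrix id e) = 0 := by
  exact T4a_dC.A P Q R e h

theorem dC_B (P : Matrix I₁ J₁ Hq) (u : I₁ → Hq) (v : J₂ → Hq) (R : Matrix I₂ J₂ Hq) (e : I₁ ⊕ I₂ ≃ J₁ ⊕ J₂)
    (h : Fintype.card J₁ + 1 < Fintype.card I₁) :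
    dC ((Matrix.fromBlocks P (Matrix.of fun a b => u a * v b) 0 R).submatrix id e) = 0 := by
  exact T4a_dC.B P u v R e h

theorem dC_C (P : Matrix I₁ J₁ Hq) (Q : Matrix I₁ J₂ Hq) (R : Matrix I₂ J₂ Hq) (e : I₁ ⊕ I₂ ≃ J₁ ⊕ J₂) (e₁ : I₁ ≃ J₁) (e₂ : I₂ ≃ J₂) :
    dC ((Matrix.fromBlocks P Q 0 R).submatrix id e) = dC (P.submatrix id e₁) * dC (R.submatrix id e₂) := by
  exact T4a_dC.C P Q R e e₁ e₂

theorem dC_D (P : Matrix I₁ J₁ Hq) (u : I₁ → Hq) (v : J₂ → Hq) (R : Matrix I₂ J₂ Hq) (e : I₁ ⊕ I₂ ≃ J₁ ⊕ J₂) (e₁ : I₁ ≃ Option J₁)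
    (e₂ : Option I₂ ≃ J₂) : dC ((Matrix.fromBlocks P (Matrix.of fun a b => u a * v b) 0 R).submatrix id e) =
      dC ((adc P u).submatrix id e₁) * dC ((adr v R).submatrix id e₂) := by
  exact T4a_dC.DD P u v R e e₁ e₂

theorem det_A (P : Matrix I₁ J₁ F4) (Q : Matrix I₁ J₂ F4) (R : Matrix I₂ J₂ F4) (e : I₁ ⊕ I₂ ≃ J₁ ⊕ J₂)
    (h : Fintype.card I₁ < Fintype.card J₁) : ((Matrix.fromBlocks P Q 0 R).submatrix id e).det = 0 := by
  exact T4a_F4.A P Q R e h

theorem det_B (P : Matrix I₁ J₁ F4) (u : I₁ → F4) (v : J₂ → F4) (R : Matrix I₂ J₂ F4) (e : I₁ ⊕ I₂ ≃ J₁ ⊕ J₂)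
    (h : Fintype.card J₁ + 1 < Fintype.card I₁) :
    ((Matrix.fromBlocks P (Matrix.of fun a b => u a * v b) 0 R).submatrix id e).det = 0 := by
  exact T4a_F4.B P u v R e h

theorem det_C (P : Matrix I₁ J₁ F4) (Q : Matrix I₁ J₂ F4) (R : Matrix I₂ J₂ F4) (e : I₁ ⊕ I₂ ≃ J₁ ⊕ J₂) (e₁ : I₁ ≃ J₁) (e₂ : I₂ ≃ J₂) :
    ((Matrix.fromBlocks P Q 0 R).submatrix id e).det = (P.submatrix id e₁).det * (R.submatrix id e₂).det := by
  exact T4a_F4.C P Q R e e₁ e₂

theorem det_D (P : Matrix I₁ J₁ F4) (u : I₁ → F4) (v : J₂ → F4) (R : Matrix I₂ J₂ F4) (e : I₁ ⊕ I₂ ≃ J₁ ⊕ J₂) (e₁ : I₁ ≃ Option J₁)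
    (e₂ : Option I₂ ≃ J₂) : ((Matrix.fromBlocks P (Matrix.of fun a b => u a * v b) 0 R).submatrix id e).det =
      ((adc P u).submatrix id e₁).det * ((adr v R).submatrix id e₂).det := by
  exact T4a_F4.DD P u v R e e₁ e₂

end Pool.Agent.QUA
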