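import Pool.Agent.QUA.Vl1

/-!
# QUA/Vl2: valid lifts have rank one where the matrix has rank one; gauge transformations

`val_rel`: if `t x ≠ t i` both sides are zero (`g x j = 0`, `g x y * g i j = 0`), the same if `t y ≠ t j`, so let `t x = t i`, `t y = t j`. If `t i = true`: the determinant of `![i, x] × ![j, y]` of `g` is zero by
`Cl.cl`, so `dC = 0` for `H`, and `dC` of a `2 × 2` matrix with the rows `(a, b)`, `(c, d)`, `a ≠ 0`, is `normSq a * normSq (d - c * a⁻¹ * b)` (`M = L * U` with `L = (1, 0; c a⁻¹, 1)`,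
`U = (a, b; 0, d - c a⁻¹ b)`, `dC_mul`, `dC_col`, `dC_row`). If `t i = false` use `val_flip`, `Hm` for `!t`.
`val_gauge`: the matrices are multiplied by diagonal matrices of units, whose `dC` is `1`; the residues are multiplied by `rs (w x) * (rs (w y))⁻¹ = 1`.
`eqv_kc`: for `g x y ≠ 0` the residues give `kc (w x) = kc (w y)`; the set of all `y` with `kc (w y) = kc (w x)` is everything by `Cn`.
`eqv_fix`: the same for `w x = w' x`.
-/

set_option autoImplicit false

noncomputable section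

namespace Pool.Agent.QUA

open Pool.Agent.FRM

variable {V : Type} [DecidableEq V] {t : V → Bool} {g : V → V → F4} {H H' : V → V → Hq} {S : Finset V}

private theorem vl2_zero : rs (0 : Hq) = 0 := by
  unfold rs
  rw [if_pos rfl]

private theorem vl2_ne (hg : Hm t g) (h : Val t g H S) {x y : V} (hx : x ∈ S) (hy : y ∈ S)
    (hne : g x y ≠ 0) : HU (H x y) := by
  obtain ⟨h1, h2⟩ := val_rs hg h x hx y hy
  rcases h1 with h1 | h1
  · exact h1
  · rw [h1, vl2_zero] at h2
    exact absurd h2.symm hne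

private theorem vl2_one (M : Matrix (Fin 1) (Fin 1) Hq) :
    dC M = ((Quaternion.normSq (M 0 0) : ℚ) : ℂ) := by
  rw [dC_row M 0 0 (fun j' hj' => absurd (Fin.fin_one_eq_zero j') hj'), dC_zero_fin, mul_one]

private theorem vl2_two (M : Matrix (Fin 2) (Fin 2) Hq) (ha : M 0 0 ≠ 0) :
    dC M = ((Quaternion.normSq (M 0 0) : ℚ) : ℂ) *
      ((Quaternion.normSq (M 1 1 - M 1 0 * (M 0 0)⁻¹ * M 0 1) : ℚ) : ℂ) := by
  have h1 : M = !![1, 0; M 1 0 * (M 0 0)⁻¹, 1] *
      !![M 0 0, M 0 1; 0, M 1 1 - M 1 0 * (M 0 0)⁻¹ * M 0 1] := by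
    ext1 a b
    rw [Matrix.mul_apply, Fin.sum_univ_two]
    fin_cases a <;> fin_cases b
    · simp
    · simp
    · simp [mul_assoc, ha]
    · simp
  have h2 : dC (!![1, 0; M 1 0 * (M 0 0)⁻¹, 1] : Matrix (Fin 2) (Fin 2) Hq) = 1 := by
    rw [dC_row _ 0 0 (by
      intro j' hj'
      fin_cases j'
      · exact absurd rfl hj'
      · rfl), vl2_one]
    simp
  have h3 : dC (!![M 0 0, M 0 1; 0, M 1 1 - M 1 0 * (M 0 0)⁻¹ * M 0 1] :
      Matrix (Fin 2) (Fin 2) Hq) = ((Quaternion.normSq (M 0 0) : ℚ) : ℂ) *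
      ((Quaternion.normSq (M 1 1 - M 1 0 * (M 0 0)⁻¹ * M 0 1) : ℚ) : ℂ) := by
    rw [dC_col _ 0 0 (by
      intro j' hj'
      fin_cases j'
      · exact absurd rfl hj'
      · rfl), vl2_one]
    rfl
  calc dC M = dC (!![1, 0; M 1 0 * (M 0 0)⁻¹, 1] *
      !![M 0 0, M 0 1; 0, M 1 1 - M 1 0 * (M 0 0)⁻¹ * M 0 1]) := by rw [← h1]
    _ = _ := by rw [dC_mul, h2, h3, one_mul]

private theorem vl2_diag : ∀ (k : ℕ) (d : Fin k → Hq), (∀ a, HU (d a)) →
    dC (Matrix.diagonal d) = 1 := by
  intro k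
  induction k with
  | zero =>
    intro d _
    exact dC_zero_fin _
  | succ k ih =>
    intro d hd
    rw [dC_row (Matrix.diagonal d) 0 0 (by
      intro j' hj'
      exact Matrix.diagonal_apply_ne _ hj'.symm)]
    have h1 : (Matrix.diagonal d).submatrix (0 : Fin (k + 1)).succAbove
        (0 : Fin (k + 1)).succAbove = Matrix.diagonal (fun a : Fin k => d a.succ) := by
      ext1 a b
      rw [Matrix.submatrix_apply, Fin.succAbove_zero]
      by_cases hab : a = b
      · rw [hab, Matrix.diagonal_apply_eq, Matrix.diagonal_apply_eq]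
      · rw [Matrix.diagonal_apply_ne _ hab, Matrix.diagonal_apply_ne _ (fun h =>
          hab (Fin.succ_injective _ h))]
    rw [h1, ih _ (fun a => hd a.succ), Matrix.diagonal_apply_eq, (hd 0).1]
    simp

/-- the case of a row `i` -/
private theorem vl2_rel (hg : Hm t g) (h : Val t g H S) {A : Finset V} {i j : V}
    (hCl : Cl g S A i j) (hti : t i = true) :
    ∀ x ∈ A, ∀ y ∈ S, y ∉ A → H x y = H x j * (H i j)⁻¹ * H i y := by
  intro x hx y hy hyA
  have hxS : x ∈ S := hCl.sub hx
  have hiS : i ∈ S := hCl.sub hCl.hi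
  have hjS : j ∈ S := hCl.hS
  have hcl := hCl.cl x hx y hy hyA
  have htj : t j = false := by
    by_contra h1
    have h2 : t j = true := by simpa using h1
    exact hCl.ne (hg.bip i j (hti.trans h2.symm))
  have hxy0 : g x j = 0 ∨ g i y = 0 → H x y = 0 := by
    intro h0
    have h1 : g x y * g i j = 0 := by
      rw [hcl]
      rcases h0 with h0 | h0
      · rw [h0, zero_mul]
      · rw [h0, mul_zero]
    rcases mul_eq_zero.1 h1 with h2 | h2
    · exact h.zr x hxS y hy h2
    · exact absurd h2 hCl.ne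
  by_cases htx : t x = t i
  · by_cases hty : t y = t j
    · have h1 := h.dt 2 ![i, x] ![j, y] (by
        constructor
        · intro a
          fin_cases a
          · exact ⟨hiS, hti⟩
          · exact ⟨hxS, htx.trans hti⟩
        · intro b
          fin_cases b
          · exact ⟨hjS, htj⟩
          · exact ⟨hy, hty.trans htj⟩)
      have h2 : (sm g ![i, x] ![j, y]).det = 0 := by
        rw [Matrix.det_fin_two]
        show g i j * g x y - g i y * g x j = 0
        have h3 : g i j * g x y = g i y * g x j := by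
          calc g i j * g x y = g x y * g i j := by ring
            _ = g x j * g i y := hcl
            _ = g i y * g x j := by ring
        rw [h3, sub_self]
      rw [if_pos h2] at h1
      have ha : H i j ≠ 0 := hu_ne' (vl2_ne hg h hiS hjS hCl.ne)
      have h4 := vl2_two (sm H ![i, x] ![j, y]) ha
      rw [h1] at h4
      have h5 : ((Quaternion.normSq (H i j) : ℚ) : ℂ) *
          ((Quaternion.normSq (H x y - H x j * (H i j)⁻¹ * H i y) : ℚ) : ℂ) = 0 := h4.symm
      rcases mul_eq_zero.1 h5 with h6 | h6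
      · have h7 : Quaternion.normSq (H i j) = 0 := by exact_mod_cast h6
        exact absurd (Quaternion.normSq_eq_zero.1 h7) ha
      · have h7 : Quaternion.normSq (H x y - H x j * (H i j)⁻¹ * H i y) = 0 := by
          exact_mod_cast h6
        exact sub_eq_zero.1 (Quaternion.normSq_eq_zero.1 h7)
    · have h1 : t y = true := by
        rw [htj] at hty
        simpa using hty
      have h2 : g i y = 0 := hg.bip i y (hti.trans h1.symm)
      rw [hxy0 (Or.inr h2), h.zr i hiS y hy h2, mul_zero]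
  · have h1 : t x = false := by
      rw [hti] at htx
      simpa using htx
    have h2 : g x j = 0 := hg.bip x j (h1.trans htj.symm)
    rw [hxy0 (Or.inl h2), h.zr x hxS j hjS h2, zero_mul, zero_mul]

theorem val_rel (hg : Hm t g) (h : Val t g H S) {A : Finset V} {i j : V} (hCl : Cl g S A i j) :
    ∀ x ∈ A, ∀ y ∈ S, y ∉ A → H x y = H x j * (H i j)⁻¹ * H i y := by
  by_cases hti : t i = true
  · exact vl2_rel hg h hCl hti
  · have hg' : Hm (fun x => !t x) g := by
      refine ⟨hg.inv, fun x y hxy => hg.bip x y ?_⟩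
      have h1 : (!t x) = (!t y) := hxy
      simpa using h1
    have hti' : (fun x => !t x) i = true := by
      show (!t i) = true
      simpa using hti
    exact vl2_rel hg' (val_flip hg h) hCl hti'

theorem val_gauge (hg : Hm t g) (h : Val t g H S) {w : V → Hq} (hw : ∀ x, HU (w x))
    (hc : ∀ x ∈ S, ∀ y ∈ S, FRN.kc (w x) = FRN.kc (w y)) : Val t g (fun x y => w x * H x y * star (w y)) S := by
  refine ⟨fun x y => ?_, fun x hx y hy h0 => ?_, fun x hx y hy htx hty hne => ?_,
    fun k f k' hrc => ?_⟩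
  · rw [star_mul, star_mul, star_star, ← h.sym x y, mul_assoc]
  · rw [h.zr x hx y hy h0, mul_zero, zero_mul]
  · obtain ⟨h1, h2⟩ := h.un x hx y hy htx hty hne
    refine ⟨hu_mul' (hu_mul' (hw x) h1) (hu_star (hw y)), ?_⟩
    rw [rs_mul (Or.inl (hu_mul' (hw x) h1)) (Or.inl (hu_star (hw y))),
      rs_mul (Or.inl (hw x)) (Or.inl h1), rs_star (Or.inl (hw y)), h2]
    have h3 : rs (w x) = rs (w y) := by
      unfold rs
      rw [if_neg (hu_ne' (hw x)), if_neg (hu_ne' (hw y)), hc x hx y hy]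
    have h4 := rs_ne (hw y)
    rw [h3]
    field_simp
  · have h1 : sm (fun x y => w x * H x y * star (w y)) f k' =
        Matrix.diagonal (fun a => w (f a)) * sm H f k' * Matrix.diagonal (fun b => star (w (k' b))) := by
      ext1 a b
      rw [Matrix.mul_diagonal, Matrix.diagonal_mul]
      rfl
    rw [h1, dC_mul, dC_mul, vl2_diag _ _ (fun a => hw (f a)),
      vl2_diag _ _ (fun b => hu_star (hw (k' b))), one_mul, mul_one]
    exact h.dt k f k' hrc

theorem eqv_kc (hg : Hm t g) (hC : Cn g S) (h : Val t g H S) (h' : Val t g H' S) {w : V → Hq} (hw : ∀ x, HU (w x))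
    (he : ∀ x ∈ S, ∀ y ∈ S, H' x y = w x * H x y * star (w y)) : ∀ x ∈ S, ∀ y ∈ S, FRN.kc (w x) = FRN.kc (w y) := by
  have key : ∀ x ∈ S, ∀ y ∈ S, g x y ≠ 0 → FRN.kc (w x) = FRN.kc (w y) := by
    intro x hx y hy hne
    have h1 := vl2_ne hg h hx hy hne
    have h2 := (val_rs hg h x hx y hy).2
    have h3 := (val_rs hg h' x hx y hy).2
    rw [he x hx y hy, rs_mul (Or.inl (hu_mul' (hw x) h1)) (Or.inl (hu_star (hw y))),
      rs_mul (Or.inl (hw x)) (Or.inl h1), rs_star (Or.inl (hw y)), h2] at h3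
    have h4 := rs_ne (hw y)
    have h5 : rs (w x) = rs (w y) := by
      have h6 : rs (w x) * g x y = rs (w y) * g x y := by
        calc rs (w x) * g x y = rs (w x) * g x y * (rs (w y))⁻¹ * rs (w y) := by
              rw [mul_assoc (rs (w x) * g x y), inv_mul_cancel₀ h4, mul_one]
          _ = g x y * rs (w y) := by rw [h3]
          _ = rs (w y) * g x y := mul_comm _ _
      exact mul_right_cancel₀ hne h6
    unfold rs at h5
    rw [if_neg (hu_ne' (hw x)), if_neg (hu_ne' (hw y))] at h5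
    exact fz_inj h5
  intro x hx y hy
  by_contra hcon
  obtain ⟨a, ha, b, hb, hab⟩ := hC (S.filter fun z => FRN.kc (w z) = FRN.kc (w x))
    (Finset.filter_subset _ _) ⟨x, Finset.mem_filter.2 ⟨hx, rfl⟩⟩
    ⟨y, Finset.mem_sdiff.2 ⟨hy, fun h1 => hcon (Finset.mem_filter.1 h1).2.symm⟩⟩
  obtain ⟨ha1, ha2⟩ := Finset.mem_filter.1 ha
  obtain ⟨hb1, hb2⟩ := Finset.mem_sdiff.1 hb
  exact hb2 (Finset.mem_filter.2 ⟨hb1, (key a ha1 b hb1 hab).symm.trans ha2⟩)

/-- two gauge transformations with the same effect on a connected set which agree at one point agree everywhere -/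
theorem eqv_fix (hg : Hm t g) (hC : Cn g S) (h : Val t g H S) {w w' : V → Hq} (hw : ∀ x, HU (w x)) (hw' : ∀ x, HU (w' x))
    (he : ∀ x ∈ S, ∀ y ∈ S, w x * H x y * star (w y) = w' x * H x y * star (w' y)) {b : V} (hb : b ∈ S) (hbw : w b = w' b) :
    ∀ x ∈ S, w x = w' x := by
  classical
  intro x hx
  by_contra hcon
  obtain ⟨a, ha, c, hc, hac⟩ := hC (S.filter fun z => w z = w' z)
    (Finset.filter_subset _ _) ⟨b, Finset.mem_filter.2 ⟨hb, hbw⟩⟩
    ⟨x, Finset.mem_sdiff.2 ⟨hx, fun h1 => hcon (Finset.mem_filter.1 h1).2⟩⟩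
  obtain ⟨ha1, ha2⟩ := Finset.mem_filter.1 ha
  obtain ⟨hc1, hc2⟩ := Finset.mem_sdiff.1 hc
  apply hc2
  refine Finset.mem_filter.2 ⟨hc1, ?_⟩
  have h1 := he a ha1 c hc1
  rw [← ha2] at h1
  have h2 : w a * H a c ≠ 0 := mul_ne_zero (hu_ne' (hw a)) (hu_ne' (vl2_ne hg h ha1 hc1 hac))
  exact star_injective (mul_left_cancel₀ h2 h1)

end Pool.Agent.QUA
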