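import Pool.Agent.QUA.T4a
import Pool.Agent.QUA.Vl2

/-!
# QUA/T4b: composition of valid lifts across a separation

By `val_flip` let `t i = true` (`cmp` does not depend on `t`; `Hm` for `!t`). Then `j` is a column; for `x ∈ A`, `y ∈ S \ A`: `g x y = g x j * (g i j)⁻¹ * g i y`, which is zero unless `x` is a row and `y` a column; so
rows in `S \ A` are zero on columns in `A`, for `g` and for `cmp`. Residues: `rs_mul`, `rs_star`. Determinants: for rows `f` and columns `h` let `I₁`, `I₂` be the indices `a` with `f a ∈ A`, `f a ∉ A`, and `J₁`, `J₂` the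
indices `b` with `h b ∈ A`, `h b ∉ A`. The matrices of `g` and of `cmp` are `fromBlocks P (u v) 0 R` up to the order (`Equiv.sumCompl`; `dC_perm` to compare the bijections), and `dC_A`, .., `dC_D`, `det_A`, .., `det_D`
apply in the four cases `|I₁| < |J₁|`, `|I₁| > |J₁| + 1`, `|I₁| = |J₁|`, `|I₁| = |J₁| + 1`: `(P | u)` is a submatrix with rows in `A` and columns in `insert j A`, `(v; R)` (where `v = (H1 i j)⁻¹ * H2 i ·`; the row is multiplied by a unit) is a
submatrix with rows in `insert i (S \ A)` and columns in `S \ A`; use `val_idx`.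
-/

set_option autoImplicit false

noncomputable section

namespace Pool.Agent.QUA

open Pool.Agent.FRM

variable {V : Type} [DecidableEq V] {t : V → Bool} {g : V → V → F4} {S : Finset V}

/-- composition of `H1` on `insert j A` and `H2` on `insert i (S \ A)` -/
def cmp (H1 H2 : V → V → Hq) (A : Finset V) (i j : V) (x y : V) : Hq :=
  if x ∈ A then (if y ∈ A then H1 x y else H1 x j * (H1 i j)⁻¹ * H2 i y)
  else (if y ∈ A then star (H1 y j * (H1 i j)⁻¹ * H2 i x) else H2 x y)

private theorem t4b_re {R S : Type} [Fintype R] [DecidableEq R] [Fintype S] [DecidableEq S] (e : R ≃ S)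
    (M : Matrix S S Hq) : dC (M.submatrix e e) = dC M := by
  unfold dC
  have h : chi (M.submatrix e e) = (chi M).submatrix (Equiv.prodCongr e (Equiv.refl (Fin 2)))
      (Equiv.prodCongr e (Equiv.refl (Fin 2))) := rfl
  rw [h, Matrix.det_submatrix_equiv_self]

/-- the blocks of a square matrix -/
private theorem t4b_blk {K : Type} [Zero K] {k : ℕ} (p q : Fin k → Prop) [DecidablePred p] [DecidablePred q]
    (M : Matrix (Fin k) (Fin k) K) (h0 : ∀ a b, ¬ p a → q b → M a b = 0) :
    (Matrix.fromBlocks (Matrix.of fun (a : {a // p a}) (b : {b // q b}) => M a.1 b.1)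
      (Matrix.of fun (a : {a // p a}) (b : {b // ¬ q b}) => M a.1 b.1) 0
      (Matrix.of fun (a : {a // ¬ p a}) (b : {b // ¬ q b}) => M a.1 b.1)).submatrix id
        ((Equiv.sumCompl p).trans (Equiv.sumCompl q).symm) =
      M.submatrix (Equiv.sumCompl p) (Equiv.sumCompl p) := by
  have key : ∀ (a : {a // p a} ⊕ {a // ¬ p a}) (c : {b // q b} ⊕ {b // ¬ q b}),
      (Matrix.fromBlocks (Matrix.of fun (a : {a // p a}) (b : {b // q b}) => M a.1 b.1)
      (Matrix.of fun (a : {a // p a}) (b : {b // ¬ q b}) => M a.1 b.1) 0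
      (Matrix.of fun (a : {a // ¬ p a}) (b : {b // ¬ q b}) => M a.1 b.1)) a c =
        M (Equiv.sumCompl p a) (Equiv.sumCompl q c) := by
    rintro (a | a) (c | c)
    · rfl
    · rfl
    · exact (h0 a.1 c.1 a.2 c.2).symm
    · rfl
  ext1 a b
  rw [Matrix.submatrix_apply, Matrix.submatrix_apply, key]
  simp

/-- a column multiplied by a unit -/
private theorem t4b_colH {I J : Type} [Fintype I] [DecidableEq I] [Fintype J] [DecidableEq J]
    (P : Matrix I J Hq) (u : I → Hq) (c : Hq) (hc : Quaternion.normSq c = 1) (e : I ≃ Option J) :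
    dC ((adc P (fun a => u a * c)).submatrix id e) = dC ((adc P u).submatrix id e) := by
  have h := dC_updateCol ((adc P u).submatrix id e) (e.symm none) (fun k => if k = e.symm none then c else 0)
    (by rw [if_pos rfl]; exact hc)
  rw [← h]
  congr 1
  ext1 a b
  by_cases hb : b = e.symm none
  · subst hb
    rw [Matrix.updateCol_self, Finset.sum_eq_single (e.symm none)]
    · rw [if_pos rfl]
      simp [adc]
    · intro k _ hk
      rw [if_neg hk, mul_zero]
    · intro hl
      exact absurd (Finset.mem_univ _) hl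
  · rw [Matrix.updateCol_ne hb]
    rw [Matrix.submatrix_apply, Matrix.submatrix_apply]
    obtain ⟨o, ho⟩ : ∃ o, e b = o := ⟨_, rfl⟩
    rw [ho]
    cases o with
    | none => exact absurd (by rw [← ho, e.symm_apply_apply]) hb
    | some j => rfl

private theorem t4b_colF {I J : Type} [Fintype I] [DecidableEq I] [Fintype J] [DecidableEq J]
    (P : Matrix I J F4) (u : I → F4) (c : F4) (e : I ≃ Option J) :
    ((adc P (fun a => u a * c)).submatrix id e).det = ((adc P u).submatrix id e).det * c := by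
  have h := Matrix.det_updateCol_smul ((adc P u).submatrix id e) (e.symm none) c u
  have h1 : ((adc P u).submatrix id e).updateCol (e.symm none) u = (adc P u).submatrix id e := by
    ext1 a b
    by_cases hb : b = e.symm none
    · subst hb
      rw [Matrix.updateCol_self]
      simp [adc]
    · rw [Matrix.updateCol_ne hb]
  have h2 : ((adc P u).submatrix id e).updateCol (e.symm none) (c • u) =
      (adc P (fun a => u a * c)).submatrix id e := by
    ext1 a b
    by_cases hb : b = e.symm none
    · subst hb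
      rw [Matrix.updateCol_self]
      simp [adc, mul_comm]
    · rw [Matrix.updateCol_ne hb]
      rw [Matrix.submatrix_apply, Matrix.submatrix_apply]
      obtain ⟨o, ho⟩ : ∃ o, e b = o := ⟨_, rfl⟩
      rw [ho]
      cases o with
      | none => exact absurd (by rw [← ho, e.symm_apply_apply]) hb
      | some j => rfl
  rw [h1, h2] at h
  rw [h, mul_comm]

private theorem t4b_if {a b : F4} : (if a * b = 0 then (0 : ℂ) else 1) = (if a = 0 then 0 else 1) * (if b = 0 then 0 else 1) := by
  by_cases ha : a = 0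
  · rw [if_pos ha, zero_mul, if_pos (by rw [ha, zero_mul])]
  · by_cases hb : b = 0
    · rw [if_pos hb, mul_zero, if_pos (by rw [hb, mul_zero])]
    · rw [if_neg ha, if_neg hb, if_neg (mul_ne_zero ha hb), one_mul]

/-- the case of a row `i` -/
private theorem t4b_main (hg : Hm t g) {A : Finset V} {i j : V} (hCl : Cl g S A i j) {H1 H2 : V → V → Hq}
    (h1 : Val t g H1 (insert j A)) (h2 : Val t g H2 (insert i (S \ A))) (hti : t i = true) :
    Val t g (cmp H1 H2 A i j) S := by
  have hjA : ∀ x, x ∈ A → x ∈ insert j A := fun x hx => Finset.mem_insert_of_mem hx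
  have hiS : ∀ x, x ∈ S → x ∉ A → x ∈ insert i (S \ A) := fun x hx hxA =>
    Finset.mem_insert_of_mem (Finset.mem_sdiff.2 ⟨hx, hxA⟩)
  have hjj : j ∈ insert j A := Finset.mem_insert_self _ _
  have hii : i ∈ insert i (S \ A) := Finset.mem_insert_self _ _
  have htj : t j = false := by
    by_contra h3
    have h4 : t j = true := by simpa using h3
    exact hCl.ne (hg.bip i j (hti.trans h4.symm))
  have hc1 : HU (H1 i j) := (h1.un i (hjA i hCl.hi) j hjj hti htj hCl.ne).1
  have hrc : rs (H1 i j) = g i j := (h1.un i (hjA i hCl.hi) j hjj hti htj hCl.ne).2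
  have hc2 : HU (H1 i j)⁻¹ := by rw [hu_inv hc1]; exact hu_star hc1
  have hrc2 : rs (H1 i j)⁻¹ = (g i j)⁻¹ := by rw [hu_inv hc1, rs_star (Or.inl hc1), hrc]
  have hgxy : ∀ x ∈ A, ∀ y ∈ S, y ∉ A → g x y = g x j * (g i j)⁻¹ * g i y := by
    intro x hx y hy hyA
    have h3 := hCl.cl x hx y hy hyA
    have h4 := hCl.ne
    calc g x y = g x y * g i j * (g i j)⁻¹ := by rw [mul_assoc, mul_inv_cancel₀ h4, mul_one]
      _ = g x j * g i y * (g i j)⁻¹ := by rw [h3]
      _ = g x j * (g i j)⁻¹ * g i y := by ring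
  -- rows outside `A` are zero on columns in `A`
  have hg0 : ∀ x ∈ S, x ∉ A → ∀ y ∈ A, t x = true → t y = false → g x y = 0 := by
    intro x hx hxA y hy _ hty
    rw [hg.inv y x, hgxy y hy x hx hxA, hg.bip y j (hty.trans htj.symm)]
    simp
  have hc0 : ∀ x ∈ S, x ∉ A → ∀ y ∈ A, t x = true → t y = false → cmp H1 H2 A i j x y = 0 := by
    intro x hx hxA y hy _ hty
    unfold cmp
    rw [if_neg hxA, if_pos hy, h1.zr y (hjA y hy) j hjj (hg.bip y j (hty.trans htj.symm))]
    simp
  refine ⟨fun x y => ?_, fun x hx y hy h0 => ?_, fun x hx y hy htx hty hne => ?_, fun k f l hrl => ?_⟩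
  · unfold cmp
    by_cases hx : x ∈ A <;> by_cases hy : y ∈ A
    · simp only [hx, hy, if_true]; exact h1.sym x y
    · simp only [hx, hy, if_true, if_false]
    · simp only [hx, hy, if_true, if_false, star_star]
    · simp only [hx, hy, if_false]; exact h2.sym x y
  · have h3 : ∀ x ∈ A, ∀ y ∈ S, y ∉ A → g x y = 0 → H1 x j * (H1 i j)⁻¹ * H2 i y = 0 := by
      intro x hx y hy hyA h0
      rw [hgxy x hx y hy hyA] at h0
      rcases mul_eq_zero.1 h0 with h4 | h4
      · rcases mul_eq_zero.1 h4 with h5 | h5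
        · rw [h1.zr x (hjA x hx) j hjj h5, zero_mul, zero_mul]
        · exact absurd (inv_eq_zero.1 h5) hCl.ne
      · rw [h2.zr i hii y (hiS y hy hyA) h4, mul_zero]
    unfold cmp
    by_cases hxA : x ∈ A <;> by_cases hyA : y ∈ A
    · rw [if_pos hxA, if_pos hyA]; exact h1.zr x (hjA x hxA) y (hjA y hyA) h0
    · rw [if_pos hxA, if_neg hyA]; exact h3 x hxA y hy hyA h0
    · rw [if_neg hxA, if_pos hyA, h3 y hyA x hx hxA (by rw [hg.inv x y, h0, inv_zero]), star_zero]
    · rw [if_neg hxA, if_neg hyA]; exact h2.zr x (hiS x hx hxA) y (hiS y hy hyA) h0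
  · unfold cmp
    by_cases hxA : x ∈ A <;> by_cases hyA : y ∈ A
    · rw [if_pos hxA, if_pos hyA]; exact h1.un x (hjA x hxA) y (hjA y hyA) htx hty hne
    · rw [if_pos hxA, if_neg hyA]
      have h3 := hgxy x hxA y hy hyA
      have h4 : g x j ≠ 0 := by
        intro h5
        rw [h5, zero_mul, zero_mul] at h3
        exact hne h3
      have h5 : g i y ≠ 0 := by
        intro h5
        rw [h5, mul_zero] at h3
        exact hne h3
      obtain ⟨h6, h7⟩ := h1.un x (hjA x hxA) j hjj htx htj h4
      obtain ⟨h8, h9⟩ := h2.un i hii y (hiS y hy hyA) hti hty h5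
      refine ⟨hu_mul' (hu_mul' h6 hc2) h8, ?_⟩
      rw [rs_mul (Or.inl (hu_mul' h6 hc2)) (Or.inl h8), rs_mul (Or.inl h6) (Or.inl hc2), h7, hrc2, h9, h3]
    · exact absurd (hg0 x hx hxA y hyA htx hty) hne
    · rw [if_neg hxA, if_neg hyA]; exact h2.un x (hiS x hx hxA) y (hiS y hy hyA) htx hty hne
  · obtain ⟨hf, hl⟩ := hrl
    have hM0 : ∀ a b, ¬ f a ∈ A → l b ∈ A → sm (cmp H1 H2 A i j) f l a b = 0 := fun a b ha hb =>
      hc0 (f a) (hf a).1 ha (l b) hb (hf a).2 (hl b).2
    have hN0 : ∀ a b, ¬ f a ∈ A → l b ∈ A → sm g f l a b = 0 := fun a b ha hb =>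
      hg0 (f a) (hf a).1 ha (l b) hb (hf a).2 (hl b).2
    have eM := t4b_blk (fun a => f a ∈ A) (fun b => l b ∈ A) (sm (cmp H1 H2 A i j) f l) hM0
    have eN := t4b_blk (fun a => f a ∈ A) (fun b => l b ∈ A) (sm g f l) hN0
    have dM := (t4b_re (Equiv.sumCompl fun a => f a ∈ A) (sm (cmp H1 H2 A i j) f l)).symm
    have dN := (Matrix.det_submatrix_equiv_self (Equiv.sumCompl fun a => f a ∈ A) (sm g f l)).symm
    rw [← eM] at dM
    rw [← eN] at dN
    rw [dM, dN]
    -- the blocks
    have bP : (Matrix.of fun (a : {a // f a ∈ A}) (b : {b // l b ∈ A}) => sm (cmp H1 H2 A i j) f l a.1 b.1) =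
        Matrix.of fun (a : {a // f a ∈ A}) (b : {b // l b ∈ A}) => H1 (f a.1) (l b.1) := by
      ext1 a b
      show cmp H1 H2 A i j (f a.1) (l b.1) = H1 (f a.1) (l b.1)
      unfold cmp
      rw [if_pos a.2, if_pos b.2]
    have bR : (Matrix.of fun (a : {a // ¬ f a ∈ A}) (b : {b // ¬ l b ∈ A}) => sm (cmp H1 H2 A i j) f l a.1 b.1) =
        Matrix.of fun (a : {a // ¬ f a ∈ A}) (b : {b // ¬ l b ∈ A}) => H2 (f a.1) (l b.1) := by
      ext1 a b
      show cmp H1 H2 A i j (f a.1) (l b.1) = H2 (f a.1) (l b.1)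
      unfold cmp
      rw [if_neg a.2, if_neg b.2]
    have bQ : (Matrix.of fun (a : {a // f a ∈ A}) (b : {b // ¬ l b ∈ A}) => sm (cmp H1 H2 A i j) f l a.1 b.1) =
        Matrix.of fun (a : {a // f a ∈ A}) (b : {b // ¬ l b ∈ A}) =>
          (H1 (f a.1) j * (H1 i j)⁻¹) * H2 i (l b.1) := by
      ext1 a b
      show cmp H1 H2 A i j (f a.1) (l b.1) = _
      unfold cmp
      rw [if_pos a.2, if_neg b.2]
      rfl
    have bQ' : (Matrix.of fun (a : {a // f a ∈ A}) (b : {b // ¬ l b ∈ A}) => sm g f l a.1 b.1) =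
        Matrix.of fun (a : {a // f a ∈ A}) (b : {b // ¬ l b ∈ A}) =>
          (g (f a.1) j * (g i j)⁻¹) * g i (l b.1) := by
      ext1 a b
      exact hgxy (f a.1) a.2 (l b.1) (hl b.1).1 b.2
    have cI : Fintype.card {a // f a ∈ A} + Fintype.card {a // ¬ f a ∈ A} = k := by
      rw [← Fintype.card_sum, Fintype.card_congr (Equiv.sumCompl fun a => f a ∈ A), Fintype.card_fin]
    have cJ : Fintype.card {b // l b ∈ A} + Fintype.card {b // ¬ l b ∈ A} = k := by
      rw [← Fintype.card_sum, Fintype.card_congr (Equiv.sumCompl fun b => l b ∈ A), Fintype.card_fin]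
    rcases lt_trichotomy (Fintype.card {a // f a ∈ A}) (Fintype.card {b // l b ∈ A}) with hlt | heq | hgt
    · rw [dC_A _ _ _ _ hlt, det_A _ _ _ _ hlt, if_pos rfl]
    · have e₁ : {a // f a ∈ A} ≃ {b // l b ∈ A} := Fintype.equivOfCardEq heq
      have e₂ : {a // ¬ f a ∈ A} ≃ {b // ¬ l b ∈ A} := Fintype.equivOfCardEq (by omega)
      rw [dC_C _ _ _ _ e₁ e₂, det_C _ _ _ _ e₁ e₂, bP, bR, t4b_if]
      congr 1
      · exact val_idx h1 (fun a : {a // f a ∈ A} => f a.1) (fun a => l (e₁ a).1)
          (fun a => ⟨hjA _ a.2, (hf a.1).2⟩) (fun a => ⟨hjA _ (e₁ a).2, (hl _).2⟩)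
      · exact val_idx h2 (fun a : {a // ¬ f a ∈ A} => f a.1) (fun a => l (e₂ a).1)
          (fun a => ⟨hiS _ (hf a.1).1 a.2, (hf a.1).2⟩) (fun a => ⟨hiS _ (hl _).1 (e₂ a).2, (hl _).2⟩)
    · by_cases hgt2 : Fintype.card {b // l b ∈ A} + 1 < Fintype.card {a // f a ∈ A}
      · rw [bQ, bQ', dC_B _ _ _ _ _ hgt2, det_B _ _ _ _ _ hgt2, if_pos rfl]
      · have e₁ : {a // f a ∈ A} ≃ Option {b // l b ∈ A} :=
          Fintype.equivOfCardEq (by rw [Fintype.card_option]; omega)
        have e₂ : Option {a // ¬ f a ∈ A} ≃ {b // ¬ l b ∈ A} :=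
          Fintype.equivOfCardEq (by rw [Fintype.card_option]; omega)
        rw [bQ, bQ', dC_D _ _ _ _ _ e₁ e₂, det_D _ _ _ _ _ e₁ e₂, bP, bR,
          t4b_colH _ (fun a : {a // f a ∈ A} => H1 (f a.1) j) _ hc2.1,
          t4b_colF _ (fun a : {a // f a ∈ A} => g (f a.1) j), t4b_if, t4b_if, if_neg (inv_ne_zero hCl.ne), mul_one]
        congr 1
        · have h3 := val_idx h1 (fun a : {a // f a ∈ A} => f a.1) (fun a => (e₁ a).elim j (fun b => l b.1))
            (fun a => ⟨hjA _ a.2, (hf a.1).2⟩) (fun a => by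
              rcases h : e₁ a with _ | b
              · exact ⟨hjj, htj⟩
              · exact ⟨hjA _ b.2, (hl _).2⟩)
          have h4 : ((adc (Matrix.of fun (a : {a // f a ∈ A}) (b : {b // l b ∈ A}) => H1 (f a.1) (l b.1))
              (fun a : {a // f a ∈ A} => H1 (f a.1) j)).submatrix id e₁) =
              Matrix.of fun (a b : {a // f a ∈ A}) => H1 (f a.1) ((e₁ b).elim j (fun b => l b.1)) := by
            ext1 a b
            show (e₁ b).elim (H1 (f a.1) j) _ = H1 (f a.1) ((e₁ b).elim j (fun b => l b.1))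
            rcases e₁ b with _ | b
            · rfl
            · rfl
          have h5 : ((adc (Matrix.of fun (a : {a // f a ∈ A}) (b : {b // l b ∈ A}) => sm g f l a.1 b.1)
              (fun a : {a // f a ∈ A} => g (f a.1) j)).submatrix id e₁) =
              Matrix.of fun (a b : {a // f a ∈ A}) => g (f a.1) ((e₁ b).elim j (fun b => l b.1)) := by
            ext1 a b
            show (e₁ b).elim (g (f a.1) j) _ = g (f a.1) ((e₁ b).elim j (fun b => l b.1))
            rcases e₁ b with _ | b
            · rfl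
            · rfl
          rw [h4, h5]
          exact h3
        · have h3 := val_idx h2 (fun a : Option {a // ¬ f a ∈ A} => a.elim i (fun a => f a.1)) (fun a => l (e₂ a).1)
            (fun a => by
              rcases a with _ | a
              · exact ⟨hii, hti⟩
              · exact ⟨hiS _ (hf a.1).1 a.2, (hf a.1).2⟩) (fun a => ⟨hiS _ (hl _).1 (e₂ a).2, (hl _).2⟩)
          have h4 : ((adr (fun b : {b // ¬ l b ∈ A} => H2 i (l b.1))
              (Matrix.of fun (a : {a // ¬ f a ∈ A}) (b : {b // ¬ l b ∈ A}) => H2 (f a.1) (l b.1))).submatrix id e₂) =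
              Matrix.of fun (a b : Option {a // ¬ f a ∈ A}) => H2 (a.elim i (fun a => f a.1)) (l (e₂ b).1) := by
            ext1 a b
            rcases a with _ | a
            · rfl
            · rfl
          have h5 : ((adr (fun b : {b // ¬ l b ∈ A} => g i (l b.1))
              (Matrix.of fun (a : {a // ¬ f a ∈ A}) (b : {b // ¬ l b ∈ A}) => sm g f l a.1 b.1)).submatrix id e₂) =
              Matrix.of fun (a b : Option {a // ¬ f a ∈ A}) => g (a.elim i (fun a => f a.1)) (l (e₂ b).1) := by
            ext1 a b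
            rcases a with _ | a
            · rfl
            · rfl
          rw [h4, h5]
          exact h3

theorem val_cmp (hg : Hm t g) {A : Finset V} {i j : V} (hCl : Cl g S A i j) {H1 H2 : V → V → Hq} (h1 : Val t g H1 (insert j A))
    (h2 : Val t g H2 (insert i (S \ A))) : Val t g (cmp H1 H2 A i j) S := by
  by_cases hti : t i = true
  · exact t4b_main hg hCl h1 h2 hti
  · have hg' : Hm (fun x => !t x) g := by
      refine ⟨hg.inv, fun x y hxy => hg.bip x y ?_⟩
      have h3 : (!t x) = (!t y) := hxy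
      simpa using h3
    have hti' : (fun x => !t x) i = true := by
      show (!t i) = true
      simpa using hti
    have h3 := t4b_main hg' hCl (val_flip hg h1) (val_flip hg h2) hti'
    have h4 := val_flip hg' h3
    have h5 : (fun x => !(fun x => !t x) x) = t := by
      funext x
      simp
    rw [h5] at h4
    exact h4

end Pool.Agent.QUA
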